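import Pool.Agent.Lib.MP_ecd12e_nt.Bar.Defs

set_option autoImplicit false

namespace Pool.Agent.Lib.MP_ecd12e_nt.Bar

open Finset Real
open scoped Pointwise

/-- The points `x` of `X` with `x - t ∈ Y`. -/
def bsgX (X Y : Finset ℤ) (t : ℤ) : Finset ℤ := X.filter (fun x => x - t ∈ Y)

/-- The number of `y ∈ Y` with `y + d ∈ Y`. -/
def bsgR (Y : Finset ℤ) (d : ℤ) : ℕ := (Y.filter (fun y => y + d ∈ Y)).card

lemma bsg_fiber (X Y : Finset ℤ) (t : ℤ) :
    ((X ×ˢ Y).filter (fun p : ℤ × ℤ => p.1 - p.2 = t)).card = (bsgX X Y t).card := by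
  refine card_bij (fun p _ => p.1) ?_ ?_ ?_
  · intro p hp
    simp only [mem_filter, mem_product, bsgX] at hp ⊢
    refine ⟨hp.1.1, ?_⟩
    have : p.1 - t = p.2 := by omega
    rw [this]; exact hp.1.2
  · intro p hp q hq h
    simp only [mem_filter] at hp hq
    exact Prod.ext h (by have h1 := hp.2; have h2 := hq.2; omega)
  · intro x hx
    simp only [bsgX, mem_filter] at hx
    exact ⟨(x, x - t), by simp [hx.1, hx.2], rfl⟩

lemma bsg_sum_le (X Y S : Finset ℤ) : ∑ t ∈ S, (bsgX X Y t).card ≤ X.card * Y.card := by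
  simp only [← bsg_fiber]
  rw [sum_card_fiberwise_eq_card_filter, ← card_product]
  exact card_filter_le _ _

lemma bsg_energy (X Y : Finset ℤ) :
    (((X ×ˢ Y) ×ˢ (X ×ˢ Y)).filter (fun q : (ℤ × ℤ) × (ℤ × ℤ) =>
      q.1.1 - q.1.2 = q.2.1 - q.2.2)).card =
      ∑ t ∈ (X ×ˢ Y).image (fun p : ℤ × ℤ => p.1 - p.2), (bsgX X Y t).card ^ 2 := by
  rw [card_eq_sum_card_fiberwise (f := fun q : (ℤ × ℤ) × (ℤ × ℤ) => q.1.1 - q.1.2)
    (t := (X ×ˢ Y).image (fun p : ℤ × ℤ => p.1 - p.2))]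
  · refine sum_congr rfl fun t _ => ?_
    rw [← bsg_fiber, sq, ← card_product]
    congr 1
    ext q
    simp only [mem_filter, mem_product]
    constructor
    · rintro ⟨⟨⟨h1, h2⟩, h3⟩, h4⟩
      exact ⟨⟨h1, h4⟩, h2, by omega⟩
    · rintro ⟨⟨h1, h4⟩, h2, h3⟩
      exact ⟨⟨⟨h1, h2⟩, by omega⟩, h4⟩
  · intro q hq
    simp only [coe_filter, mem_product, Set.mem_ofPred_eq] at hq
    exact mem_coe.2 (mem_image_of_mem _ (mem_product.2 hq.1.1))

lemma bsg_sumR_le (Y S : Finset ℤ) : ∑ d ∈ S, bsgR Y d ≤ Y.card * Y.card := by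
  have h := bsg_sum_le Y Y (S.image fun d => -d)
  rw [sum_image (fun a _ b _ h => neg_injective h)] at h
  simpa [bsgX, bsgR] using h

/-- The unpopular pairs of `X t`. -/
noncomputable def bsgU (X Y : Finset ℤ) (c : ℝ) (t : ℤ) : Finset (ℤ × ℤ) :=
  (bsgX X Y t ×ˢ bsgX X Y t).filter (fun p => (bsgR Y (p.1 - p.2) : ℝ) < c)

lemma bsg_unpop (X Y S : Finset ℤ) {c : ℝ} (hc : 0 ≤ c) :
    ∑ t ∈ S, ((bsgU X Y c t).card : ℝ) ≤ (X.card : ℝ) * X.card * c := by
  let P : Finset (ℤ × ℤ) := (X ×ˢ X).filter (fun p => (bsgR Y (p.1 - p.2) : ℝ) < c)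
  have h1 : ∀ t, bsgU X Y c t = P.filter (fun p => p.1 - t ∈ Y ∧ p.2 - t ∈ Y) := by
    intro t
    ext p
    simp only [bsgU, bsgX, P, mem_filter, mem_product]
    tauto
  have h2 : ∑ t ∈ S, (bsgU X Y c t).card =
      ∑ p ∈ P, (S.filter (fun t => p.1 - t ∈ Y ∧ p.2 - t ∈ Y)).card := by
    simp only [h1, card_filter]
    exact sum_comm
  have h3 : ∀ p : ℤ × ℤ, (S.filter (fun t => p.1 - t ∈ Y ∧ p.2 - t ∈ Y)).card ≤
      bsgR Y (p.1 - p.2) := by
    intro p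
    refine card_le_card_of_injOn (fun t => p.2 - t) ?_ ?_
    · intro t ht
      simp only [coe_filter, Set.mem_ofPred_eq] at ht ⊢
      refine ⟨ht.2.2, ?_⟩
      have : p.2 - t + (p.1 - p.2) = p.1 - t := by ring
      rw [this]; exact ht.2.1
    · intro a _ b _ h
      simp only at h
      omega
  rw [← Nat.cast_sum, h2, Nat.cast_sum]
  calc ∑ p ∈ P, ((S.filter (fun t => p.1 - t ∈ Y ∧ p.2 - t ∈ Y)).card : ℝ)
      ≤ ∑ p ∈ P, c := sum_le_sum fun p hp =>
        (Nat.cast_le.2 (h3 p)).trans (mem_filter.1 hp).2.le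
    _ = P.card * c := by rw [sum_const, nsmul_eq_mul]
    _ ≤ (X.card : ℝ) * X.card * c := by
        refine mul_le_mul_of_nonneg_right ?_ hc
        have : P.card ≤ X.card * X.card := by rw [← card_product]; exact card_filter_le _ _
        exact_mod_cast this

lemma bsg_pick (X Y : Finset ℤ) {D K : ℝ} (hD : 0 < D) (hK : 0 < K) (hX : (X.card : ℝ) ≤ D)
    (hY : (Y.card : ℝ) ≤ D) (S : Finset ℤ)
    (hE : D ^ 3 ≤ K * ∑ t ∈ S, ((bsgX X Y t).card : ℝ) ^ 2) :
    ∃ t : ℤ, D / (2 * K) ≤ (bsgX X Y t).card ∧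
      8 * ((bsgU X Y (D / (32 * K)) t).card : ℝ) ≤ ((bsgX X Y t).card : ℝ) ^ 2 := by
  by_contra hcon
  push Not at hcon
  have hX0 : (0 : ℝ) ≤ X.card := Nat.cast_nonneg _
  have hY0 : (0 : ℝ) ≤ Y.card := Nat.cast_nonneg _
  have h1 : ∀ t, ((bsgX X Y t).card : ℝ) ^ 2 ≤
      D / (2 * K) * (bsgX X Y t).card + 8 * ((bsgU X Y (D / (32 * K)) t).card : ℝ) := by
    intro t
    have hr : (0 : ℝ) ≤ (bsgX X Y t).card := Nat.cast_nonneg _
    have hu : (0 : ℝ) ≤ (bsgU X Y (D / (32 * K)) t).card := Nat.cast_nonneg _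
    rcases le_or_gt (D / (2 * K)) (bsgX X Y t).card with h | h
    · have := hcon t h
      have : 0 ≤ D / (2 * K) * (bsgX X Y t).card := by positivity
      linarith
    · have : ((bsgX X Y t).card : ℝ) ^ 2 ≤ D / (2 * K) * (bsgX X Y t).card := by
        rw [sq]; exact mul_le_mul_of_nonneg_right h.le hr
      linarith
  have h2 : ∑ t ∈ S, ((bsgX X Y t).card : ℝ) ≤ D * D := by
    have : ∑ t ∈ S, ((bsgX X Y t).card : ℝ) ≤ (X.card : ℝ) * Y.card := by
      exact_mod_cast bsg_sum_le X Y S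
    exact this.trans (mul_le_mul hX hY hY0 hD.le)
  have h3 : ∑ t ∈ S, ((bsgU X Y (D / (32 * K)) t).card : ℝ) ≤ D * D * (D / (32 * K)) :=
    (bsg_unpop X Y S (by positivity)).trans
      (mul_le_mul_of_nonneg_right (mul_le_mul hX hX hX0 hD.le) (by positivity))
  have h4 : ∑ t ∈ S, ((bsgX X Y t).card : ℝ) ^ 2 ≤
      D / (2 * K) * (D * D) + 8 * (D * D * (D / (32 * K))) := by
    refine (sum_le_sum fun t _ => h1 t).trans ?_
    rw [sum_add_distrib, ← mul_sum, ← mul_sum]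
    have : 0 ≤ D / (2 * K) := by positivity
    gcongr
  have h5 : K * (D / (2 * K) * (D * D) + 8 * (D * D * (D / (32 * K)))) = 3 / 4 * D ^ 3 := by
    field_simp
    ring
  have h6 := mul_le_mul_of_nonneg_left h4 hK.le
  have : 0 < D ^ 3 := by positivity
  linarith

lemma bsg_pop (Y : Finset ℤ) {D K : ℝ} (hD : 0 < D) (hK : 0 < K) (hY : (Y.card : ℝ) ≤ D)
    (S : Finset ℤ) (hS : ∀ d ∈ S, D / (32 * K) ≤ bsgR Y d) : (S.card : ℝ) ≤ 32 * K * D := by
  have hY0 : (0 : ℝ) ≤ Y.card := Nat.cast_nonneg _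
  have h1 : (S.card : ℝ) * (D / (32 * K)) ≤ ∑ d ∈ S, (bsgR Y d : ℝ) := by
    rw [← nsmul_eq_mul]
    exact card_nsmul_le_sum _ _ _ hS
  have h2 : ∑ d ∈ S, (bsgR Y d : ℝ) ≤ (Y.card : ℝ) * Y.card := by exact_mod_cast bsg_sumR_le Y S
  have h3 : (S.card : ℝ) * (D / (32 * K)) ≤ (32 * K * D) * (D / (32 * K)) := by
    have : (32 * K * D) * (D / (32 * K)) = D * D := by field_simp
    rw [this]
    exact h1.trans (h2.trans (mul_le_mul hY hY hY0 hD.le))
  exact le_of_mul_le_mul_right h3 (by positivity)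

/-- The purely combinatorial core: a set `A` and a predicate `bad` on differences that holds for
few pairs. -/
lemma bsg_core (A : Finset ℤ) (bad : ℤ → Prop) [DecidablePred bad] (hA : 0 < A.card)
    (hU : 8 * (((A ×ˢ A).filter (fun p : ℤ × ℤ => bad (p.1 - p.2))).card : ℝ) ≤ (A.card : ℝ) ^ 2) :
    ∃ Z ⊆ A, (A.card : ℝ) ≤ 2 * Z.card ∧ ((Z - Z).card : ℝ) * A.card ≤
      2 * (((A - A).filter (fun d => ¬ bad d)).card : ℝ) ^ 2 := by
  let b : ℤ → Finset ℤ := fun z => A.filter (fun x => bad (z - x))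
  let Z := A.filter (fun z => 4 * (b z).card ≤ A.card)
  let Pop := (A - A).filter (fun d => ¬ bad d)
  have hAr : (0 : ℝ) < A.card := by exact_mod_cast hA
  refine ⟨Z, filter_subset _ _, ?_, ?_⟩
  · let N := A.filter (fun z => ¬ 4 * (b z).card ≤ A.card)
    have h1 : Z.card + N.card = A.card := card_filter_add_card_filter_not _
    have h2 : ((A ×ˢ A).filter (fun p : ℤ × ℤ => bad (p.1 - p.2))).card = ∑ z ∈ A, (b z).card := by
      simp only [b, card_filter]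
      rw [sum_product]
    have h3 : N.card * A.card ≤ 4 * ∑ z ∈ A, (b z).card := by
      calc N.card * A.card ≤ ∑ z ∈ N, 4 * (b z).card := by
            rw [← smul_eq_mul]
            exact card_nsmul_le_sum _ _ _ fun z hz => (not_le.1 (mem_filter.1 hz).2).le
        _ ≤ ∑ z ∈ A, 4 * (b z).card := sum_le_sum_of_subset (filter_subset _ _)
        _ = _ := by rw [mul_sum]
    rw [h2] at hU
    have h4 : (N.card : ℝ) * A.card ≤ 4 * ((∑ z ∈ A, (b z).card : ℕ) : ℝ) := by exact_mod_cast h3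
    have h5 : (Z.card : ℝ) + N.card = A.card := by exact_mod_cast h1
    have h6 : (2 * N.card : ℝ) * A.card ≤ A.card * A.card := by nlinarith
    have h7 := le_of_mul_le_mul_right h6 hAr
    linarith
  · have hch : ∀ d : ℤ, ∃ p : ℤ × ℤ, d ∈ Z - Z → p.1 ∈ Z ∧ p.2 ∈ Z ∧ p.1 - p.2 = d := by
      intro d
      by_cases hd : d ∈ Z - Z
      · obtain ⟨z, hz, z', hz', h⟩ := mem_sub.1 hd
        exact ⟨(z, z'), fun _ => ⟨hz, hz', h⟩⟩
      · exact ⟨(0, 0), fun h => absurd h hd⟩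
    choose p hp using hch
    let G : ℤ → Finset ℤ := fun d => A.filter (fun x => ¬ bad ((p d).1 - x) ∧ ¬ bad ((p d).2 - x))
    have h1 : ∀ d ∈ Z - Z, A.card ≤ 2 * (G d).card := by
      intro d hd
      obtain ⟨hz, hz', -⟩ := hp d hd
      have e1 := (mem_filter.1 hz).2
      have e2 := (mem_filter.1 hz').2
      have e3 : A ⊆ G d ∪ (b (p d).1 ∪ b (p d).2) := by
        intro x hx
        simp only [G, b, mem_union, mem_filter]
        tauto
      have e4 := (card_le_card e3).trans (card_union_le _ _)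
      have e5 := card_union_le (b (p d).1) (b (p d).2)
      omega
    have h2 : ((Z - Z).sigma G).card ≤ (Pop ×ˢ Pop).card := by
      refine card_le_card_of_injOn (fun q => ((p q.1).1 - q.2, (p q.1).2 - q.2)) ?_ ?_
      · intro q hq
        obtain ⟨hd, hx⟩ := mem_sigma.1 (mem_coe.1 hq)
        obtain ⟨hz, hz', -⟩ := hp q.1 hd
        obtain ⟨hxA, hb1, hb2⟩ := mem_filter.1 hx
        exact mem_coe.2 (mem_product.2
          ⟨mem_filter.2 ⟨sub_mem_sub (mem_filter.1 hz).1 hxA, hb1⟩,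
           mem_filter.2 ⟨sub_mem_sub (mem_filter.1 hz').1 hxA, hb2⟩⟩)
      · rintro ⟨d, x⟩ hq ⟨d', x'⟩ hq' h
        have e1 := (hp d (mem_sigma.1 (mem_coe.1 hq)).1).2.2
        have e2 := (hp d' (mem_sigma.1 (mem_coe.1 hq')).1).2.2
        simp only [Prod.mk.injEq] at h
        have e3 : d = d' := by omega
        subst e3
        have e4 : x = x' := by omega
        subst e4
        rfl
    have h3 : (Z - Z).card * A.card ≤ 2 * Pop.card ^ 2 := by
      rw [card_sigma, card_product] at h2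
      calc (Z - Z).card * A.card ≤ ∑ d ∈ Z - Z, 2 * (G d).card := by
            rw [← smul_eq_mul]
            exact card_nsmul_le_sum _ _ _ h1
        _ = 2 * ∑ d ∈ Z - Z, (G d).card := by rw [mul_sum]
        _ ≤ 2 * Pop.card ^ 2 := by rw [sq]; omega
    exact_mod_cast h3

/-- A form of the Balog-Szemeredi-Gowers lemma. Let `X t = {x ∈ X | x - t ∈ Y}`, `r t = |X t|`; the
energy is `∑_t (r t)^2` over `t ∈ X - Y`, and `∑_t r t = |X||Y| ≤ D^2`. The `t` with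
`r t < D / (2K)` carry at most `D^3 / (2K)`. Let `ρ d = |{y ∈ Y | y + d ∈ Y}|`; call `(x, x')`
unpopular if `ρ (x - x') < D / (32 K)`. The number of `t` with `x, x' ∈ X t` is `ρ (x - x')`, so
`∑_t unpop t ≤ D^3 / (32 K)`, and some `t` has `r t ≥ D / (2K)` and `8 unpop t ≤ (r t)^2`. Let `Z`
be the set of `z ∈ X t` with at most `r t / 4` points `x ∈ X t` making `(z, x)` unpopular; then
`|Z| ≥ r t / 2`. The set `Pop` of `d ∈ Y - Y` with `ρ d ≥ D / (32 K)` has at most `32 K D` points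
(`∑_d ρ d = |Y|^2`). For `d = z - z' ∈ Z - Z` (choose `z, z'`) at least `r t / 2` points `x` have
`z - x, z' - x ∈ Pop`, and `(d, x) ↦ (z - x, z' - x)` is injective, so
`|Z - Z| (r t / 2) ≤ (32 K D)^2`. -/
theorem bsg (X Y : Finset ℤ) {D K : ℝ} (hD : 0 < D) (hK : 0 < K) (hX : (X.card : ℝ) ≤ D)
    (hY : (Y.card : ℝ) ≤ D)
    (hE : D ^ 3 ≤ K * ((((X ×ˢ Y) ×ˢ (X ×ˢ Y)).filter (fun q : (ℤ × ℤ) × (ℤ × ℤ) =>
      q.1.1 - q.1.2 = q.2.1 - q.2.2)).card : ℝ)) :
    ∃ t : ℤ, ∃ Z ⊆ X, (∀ z ∈ Z, z - t ∈ Y) ∧ D ≤ 4 * K * Z.card ∧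
      ((Z - Z).card : ℝ) ≤ 4096 * K ^ 3 * D := by
  rw [bsg_energy] at hE
  push_cast at hE
  obtain ⟨t, ht, hu⟩ := bsg_pick X Y hD hK hX hY _ hE
  have hpos : (0 : ℝ) < (bsgX X Y t).card := lt_of_lt_of_le (by positivity) ht
  obtain ⟨Z, hZ, h1, h2⟩ := bsg_core (bsgX X Y t) (fun d => (bsgR Y d : ℝ) < D / (32 * K))
    (by exact_mod_cast hpos) hu
  have h3 := bsg_pop Y hD hK hY
    ((bsgX X Y t - bsgX X Y t).filter (fun d => ¬ (bsgR Y d : ℝ) < D / (32 * K)))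
    (fun d hd => not_lt.1 (mem_filter.1 hd).2)
  refine ⟨t, Z, hZ.trans (filter_subset _ _), fun z hz => (mem_filter.1 (hZ hz)).2, ?_, ?_⟩
  · rw [div_le_iff₀ (by positivity)] at ht
    nlinarith
  · have h4 : ((Z - Z).card : ℝ) * (D / (2 * K)) ≤ 2 * (32 * K * D) ^ 2 :=
      ((mul_le_mul_of_nonneg_left ht (Nat.cast_nonneg _)).trans h2).trans (by gcongr)
    have h5 : 2 * (32 * K * D) ^ 2 = 4096 * K ^ 3 * D * (D / (2 * K)) := by
      field_simp
      ring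
    rw [h5] at h4
    exact le_of_mul_le_mul_right h4 (by positivity)

end Pool.Agent.Lib.MP_ecd12e_nt.Bar
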