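import Pool.Agent.Lib.MP_ecd12e_nt.Bar.Defs

set_option autoImplicit false

namespace Pool.Agent.Lib.MP_ecd12e_nt.Bar

open Finset Real
open scoped Pointwise

/-- Telescoping. -/
theorem numeric_chain (b : ℕ → ℝ) (c : ℝ) (u d : ℕ)
    (hb : ∀ s, u ≤ s → s < u + d → b (s + 1) ≤ b s + c) : b (u + d) ≤ b u + c * d := by
  induction d with
  | zero => simp
  | succ d ih =>
    have h1 := ih fun s a a' => hb s a (by omega)
    have h2 := hb (u + d) (by omega) (by omega)
    rw [← Nat.add_assoc]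
    push_cast
    linarith

/-- The duality bound. -/
theorem numeric_G (a : ℕ → ℝ) {k : ℕ} (h0 : a 0 = 0)
    (hs1 : ∀ u v, u ≤ v → v ≤ 2 * k → a u ≤ a v + 1)
    (htop : 2 * (k : ℝ) ≤ 17 + 2 * a (2 * k))
    (hdual : ∀ x y, x ≤ k → y ≤ 2 * k → 2 * x + y + 21 ≤ 4 * k → 2 * k ≤ x + y →
      a x + a y ≤ 61 + (x : ℝ) + y - 2 * k + a (2 * k - x) + a (2 * k - y))
    (z : ℕ) (hz : z + 21 ≤ 2 * k) : a z ≤ a (2 * k - z) + z - k + 70 := by
  by_cases c1 : 2 * z + 21 ≤ 2 * k
  · have := hdual z (2 * k) (by omega) le_rfl (by omega) (by omega)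
    rw [Nat.sub_self, h0] at this
    push_cast at this
    linarith
  · by_cases c2 : k ≤ z
    · have := hdual k z le_rfl (by omega) (by omega) (by omega)
      rw [show 2 * k - k = k by omega] at this
      linarith
    · have := hs1 z (2 * k - z) (by omega) (by omega)
      have h3 : (k : ℝ) ≤ z + 11 := by exact_mod_cast (by omega : k ≤ z + 11)
      linarith

/-- The numerical core. Here `a j = log_th (al j)`, `m = 2k`, `n + 1 = 4 i`, `L = 16 h i`,
`lm = 8 h i`, `X = k + lm`. Put `G z = a z - a (2k - z) - z + k`. Then `G z ≤ 70` for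
`z ≤ 2k - 21` (for `2z + 21 ≤ 2k` use `hdual z (2k)` and `htop`; for `k ≤ z` use `hdual k z`; in
between use `hs1`). Call `p` a branch point if `a (p - 4h) + h ≤ a p`. Among
`p = X + 4 h t`, `t ≥ 1`, `10 p ≤ 18 k` there is one (else `a (2k) - a X ≤ 0.2 m + 4h + 1`,
against `hbr` at `X + 21`); take the least `t`, `r = p - L`, `x = 2k - r`. If `t ≤ i` then
`a p - a r ≤ (4ht + 1) + (lm + 70) + 1`; otherwise the steps below `p - 4h` down to `p - 4hi` gain
less than `h` each. In both cases `a p - a r ≤ 13 h i + 4h + 72`, against `hbridge`. -/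
theorem numeric (a : ℕ → ℝ) {i h k : ℕ} (hi : 20 ≤ i) (hh : 100 ≤ h) (hk : 1000 * h * i ≤ k)
    (h0 : a 0 = 0)
    (hs1 : ∀ u v, u ≤ v → v ≤ 2 * k → a u ≤ a v + 1)
    (hs2 : ∀ u v, u ≤ v → v ≤ 2 * k → a v ≤ a u + ((v : ℝ) - u) + 1)
    (htop : 2 * (k : ℝ) ≤ 17 + 2 * a (2 * k))
    (hdual : ∀ x y, x ≤ k → y ≤ 2 * k → 2 * x + y + 21 ≤ 4 * k → 2 * k ≤ x + y →
      a x + a y ≤ 61 + (x : ℝ) + y - 2 * k + a (2 * k - x) + a (2 * k - y))
    (hbr : 2 * a (k + 8 * h * i + 21) + ((k : ℝ) - 8 * h * i - 21) ≤ 21 + 2 * a (2 * k))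
    (hbridge : ∀ x p r, x + r = 2 * k → p = r + 16 * h * i → x ≤ k + 8 * h * i →
      10 * p ≤ 18 * k → 16 * (h : ℝ) * i + a r + a (2 * k - p) ≤ 140 + a x + a p →
      a (p - 4 * h) + h ≤ a p →
      36 * (h : ℝ) * (4 * i - 1) + 10 * a r ≤ 10 + 40 * h + 10 * a p) : False := by
  classical
  have G := numeric_G a h0 hs1 htop hdual
  obtain ⟨m, hm⟩ : ∃ m, m = h * i := ⟨_, rfl⟩
  have hm1 : 20 * h ≤ m := by rw [hm]; nlinarith
  have hk1 : 1000 * m ≤ k := by rw [hm, ← Nat.mul_assoc]; exact hk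
  have e8 : 8 * h * i = 8 * m := by rw [hm]; ring
  have e16 : 16 * h * i = 16 * m := by rw [hm]; ring
  have hmR : (h : ℝ) * i = m := by rw [hm]; push_cast; ring
  have hm1R : 20 * (h : ℝ) ≤ m := by exact_mod_cast hm1
  have hk1R : 1000 * (m : ℝ) ≤ k := by exact_mod_cast hk1
  have hhR : (100 : ℝ) ≤ h := by exact_mod_cast hh
  rw [e8] at hbr
  simp only [e8, e16] at hbridge
  let b : ℕ → ℝ := fun s => a (k + 8 * m + 4 * (h * s))
  have hb0 : b 0 = a (k + 8 * m) := by simp [b]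
  have ex : ∃ s, 10 * (k + 8 * m + 4 * (h * (s + 1))) ≤ 18 * k ∧ b s + h ≤ b (s + 1) := by
    by_contra c
    push Not at c
    obtain ⟨t, ht⟩ : ∃ t, t = (8 * k - 80 * m) / (40 * h) := ⟨_, rfl⟩
    have t1 : 40 * h * t ≤ 8 * k - 80 * m := by rw [ht]; exact Nat.mul_div_le _ _
    have t2 : 8 * k - 80 * m < 40 * h * (t + 1) := by
      rw [ht]; exact Nat.lt_mul_div_succ _ (by omega)
    have t3 : 40 * (h * t) + 80 * m ≤ 8 * k := by
      have : 40 * h * t = 40 * (h * t) := by ring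
      omega
    have t4 : 8 * k < 40 * (h * t) + 40 * h + 80 * m := by
      have : 40 * h * (t + 1) = 40 * (h * t) + 40 * h := by ring
      omega
    have c1 := numeric_chain b h 0 t fun s _ hs => by
      refine (c s ?_).le
      have : h * (s + 1) ≤ h * t := Nat.mul_le_mul_left _ (by omega)
      omega
    rw [Nat.zero_add, hb0] at c1
    have c2 := hs2 (k + 8 * m + 4 * (h * t)) (2 * k) (by omega) le_rfl
    have c3 := hs1 (k + 8 * m) (k + 8 * m + 21) (by omega) (by omega)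
    have t3R : 40 * ((h : ℝ) * t) + 80 * m ≤ 8 * k := by exact_mod_cast t3
    have t4R : 8 * (k : ℝ) < 40 * (h * t) + 40 * h + 80 * m := by exact_mod_cast t4
    have c4 : b t = a (k + 8 * m + 4 * (h * t)) := rfl
    push_cast at c2
    have e : 8 * (h : ℝ) * i = 8 * m := by rw [← hmR]; ring
    rw [e] at hbr
    linarith
  obtain ⟨t, ⟨t1, t2⟩, tmin⟩ : ∃ t, (10 * (k + 8 * m + 4 * (h * (t + 1))) ≤ 18 * k ∧
      b t + h ≤ b (t + 1)) ∧ ∀ s < t, b (s + 1) ≤ b s + h := by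
    refine ⟨Nat.find ex, Nat.find_spec ex, fun s hs => ?_⟩
    by_contra c
    refine Nat.find_min ex hs ⟨?_, by linarith⟩
    have h1 := (Nat.find_spec ex).1
    have : h * (s + 1) ≤ h * (Nat.find ex + 1) := Nat.mul_le_mul_left _ (by omega)
    omega
  obtain ⟨q, hq⟩ : ∃ q, q = h * t := ⟨_, rfl⟩
  have hq1 : h * (t + 1) = q + h := by rw [hq]; ring
  have bt : b t = a (k + 8 * m + 4 * q) := by rw [hq]
  have bt1 : b (t + 1) = a (k + 8 * m + 4 * (q + h)) := by rw [← hq1]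
  rw [hq1] at t1
  obtain ⟨p, hp⟩ : ∃ p, p = k + 8 * m + 4 * (q + h) := ⟨_, rfl⟩
  obtain ⟨r, hr⟩ : ∃ r, p = r + 16 * m := ⟨p - 16 * m, by omega⟩
  have hpR : (p : ℝ) = k + 8 * m + 4 * (q + h) := by rw [hp]; push_cast; ring
  have hrR : (p : ℝ) = r + 16 * m := by rw [hr]; push_cast; ring
  rw [← hp] at bt1 t1
  have e4 : k + 8 * m + 4 * q = p - 4 * h := by omega
  have g1 := G r (by omega)
  have g2 := G (2 * k - p) (by omega)
  rw [show 2 * k - (2 * k - p) = p by omega, Nat.cast_sub (by omega)] at g2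
  push_cast at g2
  have e16R : 16 * (h : ℝ) * i = 16 * m := by rw [← hmR]; ring
  have key := hbridge (2 * k - r) p r (by omega) hr (by omega) t1 (by rw [e16R]; linarith)
    (by rw [← e4, ← bt, ← bt1]; exact t2)
  have e36 : 36 * (h : ℝ) * (4 * i - 1) = 144 * m - 36 * h := by rw [← hmR]; ring
  rw [e36] at key
  have bound : a p ≤ a r + 13 * m + 4 * h + 72 := by
    by_cases c : t + 1 ≤ i
    · have c0 : q + h ≤ m := by rw [← hq1, hm]; exact Nat.mul_le_mul_left _ c
      have c0R : (q : ℝ) + h ≤ m := by exact_mod_cast c0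
      have c1 := hs2 (k + 8 * m) p (by omega) (by omega)
      have c2 := G (k + 8 * m) (by omega)
      have c3 := hs1 (2 * k - (k + 8 * m)) r (by omega) (by omega)
      push_cast at c1 c2
      linarith
    · obtain ⟨u, hu⟩ : ∃ u, t = u + (i - 1) := ⟨t - (i - 1), by omega⟩
      have c1 := numeric_chain b h u (i - 1) fun s _ hs => tmin s (by omega)
      rw [← hu, bt, Nat.cast_sub (by omega)] at c1
      have c0 : h * u + m = q + h := by
        rw [← hq1, hm, ← Nat.mul_add]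
        congr 1
        omega
      have c0R : ((h * u : ℕ) : ℝ) + m = q + h := by exact_mod_cast c0
      have c2 := hs2 r (k + 8 * m + 4 * (h * u)) (by omega) (by omega)
      have c3 := hs2 (k + 8 * m + 4 * q) p (by omega) (by omega)
      have c4 : b u = a (k + 8 * m + 4 * (h * u)) := rfl
      have c5 : (h : ℝ) * ((i : ℝ) - (1 : ℕ)) = m - h := by rw [← hmR]; push_cast; ring
      rw [c5, c4] at c1
      rw [Nat.cast_add, Nat.cast_add, Nat.cast_mul 8, Nat.cast_mul 4] at c2 c3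
      simp only [Nat.cast_ofNat] at c2 c3
      linarith
  linarith

end Pool.Agent.Lib.MP_ecd12e_nt.Bar
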