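import Pool.Agent.Lib.MP_ecd12e_nt.Bar.Bridge
import Pool.Agent.Lib.MP_ecd12e_nt.Bar.Numeric

set_option autoImplicit false

namespace Pool.Agent.Lib.MP_ecd12e_nt.Bar

open Finset Real
open scoped Pointwise

theorem bilinear_log_iff {th u v : ℕ} (hth : 1000 ≤ th) (hu : 1 ≤ u) (hv : 1 ≤ v) :
    Real.logb th u ≤ Real.logb th v ↔ u ≤ v := by
  have h1 : (1 : ℝ) < th := by exact_mod_cast (by omega : 1 < th)
  rw [Real.logb_le_logb h1 (by exact_mod_cast hu) (by exact_mod_cast hv), Nat.cast_le]

theorem bilinear_log_mul {th u v : ℕ} (hu : 1 ≤ u) (hv : 1 ≤ v) :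
    Real.logb th ((u * v : ℕ) : ℝ) = Real.logb th u + Real.logb th v := by
  rw [Nat.cast_mul, Real.logb_mul (by exact_mod_cast (by omega : u ≠ 0))
    (by exact_mod_cast (by omega : v ≠ 0))]

theorem bilinear_log_pow {th u e : ℕ} :
    Real.logb th ((u ^ e : ℕ) : ℝ) = e * Real.logb th u := by
  rw [Nat.cast_pow, Real.logb_pow]

theorem bilinear_log_self {th e : ℕ} (hth : 1000 ≤ th) :
    Real.logb th ((th ^ e : ℕ) : ℝ) = e := by
  have h1 : (1 : ℝ) < th := by exact_mod_cast (by omega : 1 < th)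
  rw [bilinear_log_pow, Real.logb_self_eq_one h1, mul_one]

theorem bilinear_log_two {th : ℕ} (hth : 1000 ≤ th) : Real.logb th ((2 : ℕ) : ℝ) ≤ 1 := by
  have h1 : (1 : ℝ) < th := by exact_mod_cast (by omega : 1 < th)
  rw [← Real.logb_self_eq_one h1]
  exact (bilinear_log_iff hth (by omega) (by omega)).2 (by omega)

/-- The bilinear estimate. Take `n0` from `bridge`, `i = n0 + 20`, `n = 4 i - 1`,
`h = h0 + 100`, `k = 1000 h i`, `X = k + 8 h i`, and apply `numeric` to
`a j = Real.logb th (al j)` (all `al j ≥ 1`; `logb th 2 ≤ 1`). -/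
theorem bilinear : ∃ k X : ℕ, 100 ≤ k ∧ k ≤ X ∧ X + 100 ≤ 2 * k ∧
    ∀ (th : ℕ) (al : ℕ → ℕ) (A B : Finset ℕ) (jA jB : ℕ) (ca cb : ℕ → ℂ) (om : ℝ → ℂ),
      ¬ Setup th k X al A B jA jB ca cb om := by
  obtain ⟨n0, hn⟩ := bridge
  obtain ⟨i, hi⟩ : ∃ i, i = n0 + 20 := ⟨_, rfl⟩
  obtain ⟨h0, hh0⟩ := hn (4 * i - 1) (by omega)
  obtain ⟨h, hh⟩ : ∃ h, h = h0 + 100 := ⟨_, rfl⟩
  obtain ⟨m, hm⟩ : ∃ m, m = h * i := ⟨_, rfl⟩
  have hm1 : 20 * h ≤ m := by rw [hm]; nlinarith
  have e8 : 8 * h * i = 8 * m := by rw [hm]; ring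
  have e16 : 16 * h * i = 16 * m := by rw [hm]; ring
  have e1000 : 1000 * h * i = 1000 * m := by rw [hm]; ring
  have e4n : 4 * h * (4 * i - 1 + 1) = 16 * m := by
    rw [show 4 * i - 1 + 1 = 4 * i by omega, hm]; ring
  have e8n : 8 * h * (4 * i - 1 + 1) = 32 * m := by
    rw [show 4 * i - 1 + 1 = 4 * i by omega, hm]; ring
  obtain ⟨k, hk⟩ : ∃ k, k = 1000 * m := ⟨_, rfl⟩
  refine ⟨k, k + 8 * h * i, by omega, by omega, by omega, fun th al A B jA jB ca cb om S => ?_⟩
  have hth := S.big.h1000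
  have hB := S.nonempty.2
  have pos : ∀ j, j ≤ 2 * k → 1 ≤ al j := fun j hj => S.uB.pos hB hj
  have tp : ∀ e, 1 ≤ th ^ e := fun e => Nat.one_le_pow _ _ (by omega)
  have mp : ∀ {u v : ℕ}, 1 ≤ u → 1 ≤ v → 1 ≤ u * v := fun hu hv => Nat.mul_pos hu hv
  have pp : ∀ {u : ℕ} (e : ℕ), 1 ≤ u → 1 ≤ u ^ e := fun e hu => Nat.one_le_pow _ _ hu
  have l2 := bilinear_log_two hth
  refine numeric (fun j => Real.logb th (al j)) (i := i) (h := h) (k := k) (by omega) (by omega)
    (by omega) ?_ (fun u v huv hv => ?_) (fun u v huv hv => ?_) ?_ (fun x y hx hy h1 h2 => ?_) ?_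
    (fun x p r h1 h2 h3 h4 h5 h6 => ?_)
  · simp only [S.uB.zero hB, Nat.cast_one, Real.logb_one]
  · have := (bilinear_log_iff hth (pos u (by omega)) (mp (by omega) (pos v hv))).2
      (S.uB.mono hB huv hv)
    rw [bilinear_log_mul (by omega) (pos v hv)] at this
    linarith
  · have := (bilinear_log_iff hth (pos v hv) (mp (tp _) (mp (by omega) (pos u (by omega))))).2
      (S.uB.slope hB (by omega) huv hv)
    rw [bilinear_log_mul (tp _) (mp (by omega) (pos u (by omega))),
      bilinear_log_mul (by omega) (pos u (by omega)), bilinear_log_self hth,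
      Nat.cast_sub huv] at this
    linarith
  · have := (bilinear_log_iff hth (tp _) (mp (tp _) (pp 2 (pos _ le_rfl)))).2 S.top
    rw [bilinear_log_mul (tp _) (pp 2 (pos _ le_rfl)), bilinear_log_self hth,
      bilinear_log_self hth, bilinear_log_pow] at this
    push_cast at this
    linarith
  · have px := pos x (by omega)
    have py := pos y hy
    have px' := pos (2 * k - x) (by omega)
    have py' := pos (2 * k - y) (by omega)
    have := (bilinear_log_iff hth (mp px py) (mp (tp _) (mp px' py'))).2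
      (S.dual (by omega) hy h1 h2 (by omega))
    rw [bilinear_log_mul px py, bilinear_log_mul (tp _) (mp px' py'), bilinear_log_mul px' py',
      bilinear_log_self hth, Nat.cast_sub (by omega)] at this
    push_cast at this
    linarith
  · have pz := pos (k + 8 * h * i + 21) (by omega)
    have := (bilinear_log_iff hth (mp (pp 2 pz) (tp _)) (mp (tp _) (pp 2 (pos _ le_rfl)))).2
      (S.branch (z := k + 8 * h * i + 21) le_rfl (by omega))
    rw [bilinear_log_mul (pp 2 pz) (tp _), bilinear_log_mul (tp _) (pp 2 (pos _ le_rfl)),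
      bilinear_log_self hth, bilinear_log_self hth, bilinear_log_pow, bilinear_log_pow,
      Nat.cast_sub (by omega)] at this
    push_cast at this
    linarith
  · have pr := pos r (by omega)
    have pq := pos p (by omega)
    have px := pos x (by omega)
    have pq' := pos (2 * k - p) (by omega)
    have pq4 := pos (p - 4 * h) (by omega)
    have key := hh0 h (by omega) S (x := x) (p := p) (r := r) h1 (by omega) h3 (by omega) (by omega)
      (by
        refine (bilinear_log_iff hth (mp (tp _) (mp pr pq')) (mp (tp _) (mp px pq))).1 ?_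
        rw [bilinear_log_mul (tp _) (mp pr pq'), bilinear_log_mul (tp _) (mp px pq),
          bilinear_log_mul pr pq', bilinear_log_mul px pq, bilinear_log_self hth,
          bilinear_log_self hth, show p - r = 16 * h * i by omega]
        push_cast
        linarith)
      (by
        refine (bilinear_log_iff hth (mp pq4 (tp _)) pq).1 ?_
        rw [bilinear_log_mul pq4 (tp _), bilinear_log_self hth]
        exact h6)
    have p3 : 1 ≤ 2 * th ^ (4 * h) := mp (by omega) (tp _)
    have := (bilinear_log_iff hth (mp (tp _) (pp 10 pr)) (pp 10 (mp p3 pq))).2 key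
    rw [bilinear_log_mul (tp _) (pp 10 pr), bilinear_log_self hth, bilinear_log_pow,
      bilinear_log_pow, bilinear_log_mul p3 pq, bilinear_log_mul (by omega) (tp _),
      bilinear_log_self hth, Nat.cast_mul, Nat.cast_sub (by omega)] at this
    push_cast at this l2
    linarith

end Pool.Agent.Lib.MP_ecd12e_nt.Bar
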