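import Pool.Agent.Lib.MP_ecd12e_nt.Bar.Defs

set_option autoImplicit false

namespace Pool.Agent.Lib.MP_ecd12e_nt.Bar

open Finset Real
open scoped Pointwise

/-- At most `2k + 1` integers lie within distance `k` of a real number. -/
theorem farpair_card_near (T : Finset ℤ) (c : ℝ) (k : ℕ) :
    (T.filter (fun d : ℤ => |(d : ℝ) - c| ≤ k)).card ≤ 2 * k + 1 := by
  have hsub : T.filter (fun d : ℤ => |(d : ℝ) - c| ≤ k) ⊆ Icc ⌈c - k⌉ (⌈c - k⌉ + 2 * k) := by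
    intro d hd
    have h := abs_le.1 (mem_filter.1 hd).2
    rw [mem_Icc]
    constructor
    · rw [Int.ceil_le]; linarith [h.1]
    · have h1 := Int.le_ceil (c - k)
      have h2 : (d : ℝ) ≤ ((⌈c - k⌉ + 2 * k : ℤ) : ℝ) := by
        push_cast; linarith [h.2]
      exact_mod_cast h2
  refine le_trans (card_le_card hsub) ?_
  rw [Int.card_Icc]
  omega

/-- The number of pairs of `H` whose dilated difference is close to `d`. -/
noncomputable def farpair_rho (H : Finset ℤ) (y : ℝ) (d : ℤ) : ℝ :=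
  ∑ w ∈ H ×ˢ H, if |(d : ℝ) - y * ((w.1 : ℝ) - w.2)| ≤ 4 then 1 else 0

theorem farpair_enr_eq (Z H : Finset ℤ) (y c : ℝ) :
    (enr Z H y c : ℝ) = ∑ z ∈ Z ×ˢ Z, ∑ w ∈ H ×ˢ H,
      if |((z.1 : ℝ) - z.2) - y * ((w.1 : ℝ) - w.2)| ≤ c then 1 else 0 := by
  unfold enr
  rw [card_filter, sum_product]
  push_cast
  rfl

theorem farpair_enr_rho (Z H : Finset ℤ) (y : ℝ) :
    (enr Z H y 4 : ℝ) = ∑ z ∈ Z ×ˢ Z, farpair_rho H y (z.1 - z.2) := by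
  rw [farpair_enr_eq]
  refine sum_congr rfl fun z _ => ?_
  unfold farpair_rho
  push_cast
  rfl

/-- Cauchy-Schwarz against the representation function of the difference set. -/
theorem farpair_cs (Z : Finset ℤ) (f : ℤ → ℝ) :
    (∑ z ∈ Z ×ˢ Z, f (z.1 - z.2)) ^ 2 ≤
      (Z.card : ℝ) ^ 3 * ∑ d ∈ (Z ×ˢ Z).image (fun z : ℤ × ℤ => z.1 - z.2), f d ^ 2 := by
  rw [sum_comp f (fun z : ℤ × ℤ => z.1 - z.2)]
  simp only [nsmul_eq_mul]
  refine le_trans (sum_mul_sq_le_sq_mul_sq _ _ _) ?_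
  refine mul_le_mul_of_nonneg_right ?_ (sum_nonneg fun d _ => sq_nonneg _)
  have h1 : ∀ d : ℤ, (((Z ×ˢ Z).filter (fun z : ℤ × ℤ => z.1 - z.2 = d)).card : ℝ) ≤ Z.card := by
    intro d
    have h2 : ((Z ×ˢ Z).filter (fun z : ℤ × ℤ => z.1 - z.2 = d)).card ≤ Z.card := by
      refine card_le_card_of_injOn (fun z => z.1) ?_ ?_
      · intro z hz
        exact (mem_product.1 (mem_filter.1 (mem_coe.1 hz)).1).1
      · intro z hz z' hz' he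
        have e1 := (mem_filter.1 (mem_coe.1 hz)).2
        have e2 := (mem_filter.1 (mem_coe.1 hz')).2
        have e3 : z.1 = z'.1 := he
        exact Prod.ext e3 (by omega)
    exact_mod_cast h2
  have h3 : ∑ d ∈ (Z ×ˢ Z).image (fun z : ℤ × ℤ => z.1 - z.2),
      (((Z ×ˢ Z).filter (fun z : ℤ × ℤ => z.1 - z.2 = d)).card : ℝ) = (Z.card : ℝ) ^ 2 := by
    have h4 := card_eq_sum_card_image (fun z : ℤ × ℤ => z.1 - z.2) (Z ×ˢ Z)
    rw [card_product] at h4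
    have h5 : ((Z.card * Z.card : ℕ) : ℝ) = _ := congrArg (fun n : ℕ => (n : ℝ)) h4
    push_cast at h5
    rw [← h5]; ring
  calc ∑ d ∈ (Z ×ˢ Z).image (fun z : ℤ × ℤ => z.1 - z.2),
        (((Z ×ˢ Z).filter (fun z : ℤ × ℤ => z.1 - z.2 = d)).card : ℝ) ^ 2
      ≤ ∑ d ∈ (Z ×ˢ Z).image (fun z : ℤ × ℤ => z.1 - z.2), (Z.card : ℝ) *
        (((Z ×ˢ Z).filter (fun z : ℤ × ℤ => z.1 - z.2 = d)).card : ℝ) := by
        refine sum_le_sum fun d _ => ?_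
        rw [sq]
        exact mul_le_mul_of_nonneg_right (h1 d) (Nat.cast_nonneg _)
    _ = (Z.card : ℝ) ^ 3 := by rw [← mul_sum, h3]; ring

/-- Correlation of two of the counting functions. -/
theorem farpair_corr (T H : Finset ℤ) {l1 l2 : ℝ} (h1 : 1 / 2 ≤ l1) :
    ∑ d ∈ T, farpair_rho H l1 d * farpair_rho H l2 d ≤ 9 * (enr H H (l2 / l1) 16 : ℝ) := by
  have hl : 0 < l1 := by linarith
  rw [farpair_enr_eq, mul_sum]
  unfold farpair_rho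
  simp only [sum_mul_sum]
  rw [sum_comm]
  refine sum_le_sum fun w _ => ?_
  rw [sum_comm, mul_sum]
  refine sum_le_sum fun v _ => ?_
  split_ifs with hc
  · have h2 := farpair_card_near T (l1 * ((w.1 : ℝ) - w.2)) 4
    have h3 : ((T.filter (fun d : ℤ => |(d : ℝ) - l1 * ((w.1 : ℝ) - w.2)| ≤ 4)).card : ℝ) ≤ 9 := by
      exact_mod_cast h2
    rw [card_filter] at h3
    push_cast at h3
    refine le_trans (sum_le_sum fun d _ => ?_) (le_trans h3 (by norm_num))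
    split_ifs <;> norm_num
  · rw [mul_zero]
    refine le_of_eq (sum_eq_zero fun d _ => ?_)
    split_ifs with ha hb
    · exfalso
      apply hc
      have h4 : ((w.1 : ℝ) - w.2) - l2 / l1 * ((v.1 : ℝ) - v.2) =
          (((d : ℝ) - l2 * ((v.1 : ℝ) - v.2)) - ((d : ℝ) - l1 * ((w.1 : ℝ) - w.2))) / l1 := by
        field_simp
        ring
      rw [h4, abs_div, abs_of_pos hl, div_le_iff₀ hl]
      have h5 := abs_sub ((d : ℝ) - l2 * ((v.1 : ℝ) - v.2)) ((d : ℝ) - l1 * ((w.1 : ℝ) - w.2))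
      linarith
    · simp
    · simp
    · simp

/-- The bound for one `Q`. -/
theorem farpair_one (PP : Finset ℕ) (Z H : Finset ℤ) (l : ℕ → ℝ) (hl : ∀ P ∈ PP, 1 / 2 ≤ l P) :
    (∑ P ∈ PP, (enr Z H (l P) 4 : ℝ)) ^ 2 ≤
      (Z.card : ℝ) ^ 3 * (9 * ∑ P1 ∈ PP, ∑ P2 ∈ PP, (enr H H (l P2 / l P1) 16 : ℝ)) := by
  simp only [farpair_enr_rho]
  rw [sum_comm]
  refine le_trans (farpair_cs Z (fun d => ∑ P ∈ PP, farpair_rho H (l P) d)) ?_
  refine mul_le_mul_of_nonneg_left ?_ (by positivity)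
  simp only [sq, sum_mul_sum]
  rw [sum_comm, mul_sum]
  refine sum_le_sum fun P1 hP1 => ?_
  rw [sum_comm, mul_sum]
  exact sum_le_sum fun P2 _ => farpair_corr _ H (hl P1 hP1)

theorem farpair_num1 {a K S T m : ℝ} (ha : 0 < a) (hm : 0 < m) {n : ℝ} (hn : 0 ≤ n)
    (h1 : a * (n * m) ≤ K * S) (h2 : S ^ 2 ≤ m * (8 * a * (9 * T))) :
    a * (n ^ 2 * m) ≤ 72 * K ^ 2 * T := by
  have h3 : (a * (n * m)) ^ 2 ≤ (K * S) ^ 2 := pow_le_pow_left₀ (by positivity) h1 2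
  have h4 : (K * S) ^ 2 ≤ K ^ 2 * (m * (8 * a * (9 * T))) := by
    rw [mul_pow]
    exact mul_le_mul_of_nonneg_left h2 (sq_nonneg _)
  have h5 : (a * m) * (a * (n ^ 2 * m)) ≤ (a * m) * (72 * K ^ 2 * T) := by
    calc (a * m) * (a * (n ^ 2 * m)) = (a * (n * m)) ^ 2 := by ring
      _ ≤ K ^ 2 * (m * (8 * a * (9 * T))) := le_trans h3 h4
      _ = (a * m) * (72 * K ^ 2 * T) := by ring
  exact le_of_mul_le_mul_left h5 (by positivity)

/-- Trivial bound: given `z2, w1, w2` there are at most `33` integers `z1`. -/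
theorem enr_le (H : Finset ℤ) (y : ℝ) : enr H H y 16 ≤ 33 * H.card ^ 3 := by
  have h : (enr H H y 16 : ℝ) ≤ 33 * (H.card : ℝ) ^ 3 := by
    rw [farpair_enr_eq, sum_comm]
    have h1 : ∀ w ∈ H ×ˢ H, (∑ z ∈ H ×ˢ H,
        if |((z.1 : ℝ) - z.2) - y * ((w.1 : ℝ) - w.2)| ≤ 16 then (1 : ℝ) else 0) ≤
        H.card * 33 := by
      intro w _
      rw [sum_product_right]
      have h2 : ∀ b ∈ H, (∑ a ∈ H,
          if |((a : ℝ) - b) - y * ((w.1 : ℝ) - w.2)| ≤ 16 then (1 : ℝ) else 0) ≤ 33 := by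
        intro b _
        have h3 := farpair_card_near H ((b : ℝ) + y * ((w.1 : ℝ) - w.2)) 16
        have h4 : ((H.filter (fun d : ℤ =>
            |(d : ℝ) - ((b : ℝ) + y * ((w.1 : ℝ) - w.2))| ≤ 16)).card : ℝ) ≤ 33 := by
          exact_mod_cast h3
        rw [card_filter] at h4
        push_cast at h4
        simpa only [sub_sub] using h4
      have h5 := sum_le_card_nsmul H _ _ h2
      rwa [nsmul_eq_mul] at h5
    have h6 := sum_le_card_nsmul _ _ _ h1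
    rw [nsmul_eq_mul, card_product] at h6
    push_cast at h6
    refine le_trans h6 (le_of_eq ?_)
    ring
  exact_mod_cast h

/-- Elimination of the sets `Z Q`. Let `r Q d` be the number of `(z1, z2) ∈ Z Q × Z Q` with
`z1 - z2 = d` (so `∑_d (r Q d)^2 ≤ |Z Q|^3 ≤ 8 D^3`) and `ρ P Q d` the number of `(w1, w2) ∈ H × H`
with `|d - l P Q (w1 - w2)| ≤ 4`; then `enr = ∑_d r Q d * ρ P Q d`. Cauchy-Schwarz over `(Q, d)`:
`(∑_{P,Q} enr)^2 ≤ 8 D^3 |𝒬| ∑_Q ∑_d (∑_P ρ P Q d)^2`, and for each `P1, P2` and quadruple of `H`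
at most `9` integers `d` occur, and only if `|l1 (w1 - w2) - l2 (w3 - w4)| ≤ 8`, hence
`|(w1 - w2) - (l2 / l1)(w3 - w4)| ≤ 16`. So the mean of `E = enr H H (l2 / l1) 16` over
`(P1, P2, Q)` is at least `D^3 / (72 K^2)`. The near pairs contribute at most
`264 D^3 / (40000 K^2) ≤ D^3 / (144 K^2)` (`enr_le`). Choose a far pair with mean over `Q` at least
`D^3 / (144 K^2)` and let `𝒬'` be the set of `Q` with `E ≥ D^3 / (288 K^2)`. -/
theorem exists_far_pair (PP QQ : Finset ℕ) (Z : ℕ → Finset ℤ) (H : Finset ℤ) (l : ℕ → ℕ → ℝ)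
    (nr : ℕ → ℕ → Prop) [∀ P P', Decidable (nr P P')] {D K : ℝ} (hD : 0 < D) (hK : 0 < K)
    (hPP : PP.Nonempty) (hQQ : QQ.Nonempty)
    (hZ : ∀ Q ∈ QQ, ((Z Q).card : ℝ) ≤ 2 * D) (hH : (H.card : ℝ) ≤ 2 * D)
    (hl : ∀ P ∈ PP, ∀ Q ∈ QQ, 1 / 2 ≤ l P Q)
    (hE : D ^ 3 * (PP.card * QQ.card) ≤ K * ∑ P ∈ PP, ∑ Q ∈ QQ, (enr (Z Q) H (l P Q) 4 : ℝ))
    (hnr : ∀ P ∈ PP, ((PP.filter (fun P' => nr P P')).card : ℝ) * (40000 * K ^ 2) ≤ PP.card) :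
    ∃ P1 ∈ PP, ∃ P2 ∈ PP, ¬ nr P1 P2 ∧ ∃ QQ' ⊆ QQ, (QQ.card : ℝ) ≤ 80000 * K ^ 2 * QQ'.card ∧
      ∀ Q ∈ QQ', D ^ 3 ≤ 288 * K ^ 2 * (enr H H (l P2 Q / l P1 Q) 16 : ℝ) := by
  have hn : (0 : ℝ) < PP.card := by exact_mod_cast hPP.card_pos
  have hm : (0 : ℝ) < QQ.card := by exact_mod_cast hQQ.card_pos
  have hD3 : 0 < D ^ 3 := by positivity
  obtain ⟨E, hEdef⟩ : ∃ E : ℕ → ℕ → ℕ → ℝ,
      E = fun P1 P2 Q => (enr H H (l P2 Q / l P1 Q) 16 : ℝ) := ⟨_, rfl⟩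
  have hE0 : ∀ P1 P2 Q, 0 ≤ E P1 P2 Q := fun P1 P2 Q => by rw [hEdef]; exact Nat.cast_nonneg _
  have hE1 : ∀ P1 P2 Q, E P1 P2 Q ≤ 264 * D ^ 3 := by
    intro P1 P2 Q
    have h1 : E P1 P2 Q ≤ 33 * (H.card : ℝ) ^ 3 := by
      have h0 : (enr H H (l P2 Q / l P1 Q) 16 : ℝ) ≤ 33 * (H.card : ℝ) ^ 3 := by
        exact_mod_cast enr_le H (l P2 Q / l P1 Q)
      rw [hEdef]
      exact h0
    have h2 : (H.card : ℝ) ^ 3 ≤ (2 * D) ^ 3 := pow_le_pow_left₀ (Nat.cast_nonneg _) hH 3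
    have h3 : (2 * D) ^ 3 = 8 * D ^ 3 := by ring
    linarith
  have hF1 : ∀ P1 P2, ∑ Q ∈ QQ, E P1 P2 Q ≤ QQ.card * (264 * D ^ 3) := by
    intro P1 P2
    have h1 := sum_le_card_nsmul QQ (fun Q => E P1 P2 Q) _ (fun Q _ => hE1 P1 P2 Q)
    rwa [nsmul_eq_mul] at h1
  -- Cauchy-Schwarz
  have hCS : (∑ P ∈ PP, ∑ Q ∈ QQ, (enr (Z Q) H (l P Q) 4 : ℝ)) ^ 2 ≤
      QQ.card * (8 * D ^ 3 * (9 * ∑ P1 ∈ PP, ∑ P2 ∈ PP, ∑ Q ∈ QQ, E P1 P2 Q)) := by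
    rw [sum_comm]
    refine le_trans sq_sum_le_card_mul_sum_sq (mul_le_mul_of_nonneg_left ?_ hm.le)
    have h1 : ∑ P1 ∈ PP, ∑ P2 ∈ PP, ∑ Q ∈ QQ, E P1 P2 Q =
        ∑ Q ∈ QQ, ∑ P1 ∈ PP, ∑ P2 ∈ PP, E P1 P2 Q := by
      rw [sum_comm (s := QQ)]
      exact sum_congr rfl fun P1 _ => sum_comm
    rw [h1, mul_sum, mul_sum]
    refine sum_le_sum fun Q hQ => ?_
    refine le_trans (farpair_one PP (Z Q) H (fun P => l P Q) (fun P hP => hl P hP Q hQ)) ?_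
    have h2 : ((Z Q).card : ℝ) ^ 3 ≤ (2 * D) ^ 3 :=
      pow_le_pow_left₀ (Nat.cast_nonneg _) (hZ Q hQ) 3
    have h3 : (2 * D) ^ 3 = 8 * D ^ 3 := by ring
    rw [hEdef]
    exact mul_le_mul_of_nonneg_right (by linarith) (by positivity)
  have hT := farpair_num1 hD3 hm hn.le hE hCS
  -- removing the near pairs
  have hsplit : ∀ P1 ∈ PP, 144 * K ^ 2 * ∑ P2 ∈ PP, ∑ Q ∈ QQ, E P1 P2 Q ≤
      D ^ 3 * (PP.card * QQ.card) +
        ∑ P2 ∈ PP, if nr P1 P2 then 0 else 144 * K ^ 2 * ∑ Q ∈ QQ, E P1 P2 Q := by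
    intro P1 hP1
    have h1 : 144 * K ^ 2 * ∑ P2 ∈ PP, ∑ Q ∈ QQ, E P1 P2 Q =
        (∑ P2 ∈ PP.filter (fun P' => nr P1 P'), 144 * K ^ 2 * ∑ Q ∈ QQ, E P1 P2 Q) +
        ∑ P2 ∈ PP, if nr P1 P2 then 0 else 144 * K ^ 2 * ∑ Q ∈ QQ, E P1 P2 Q := by
      rw [mul_sum, sum_filter, ← sum_add_distrib]
      refine sum_congr rfl fun P2 _ => ?_
      split_ifs <;> simp
    rw [h1]
    refine add_le_add ?_ le_rfl
    have h2 := sum_le_card_nsmul (PP.filter (fun P' => nr P1 P'))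
      (fun P2 => 144 * K ^ 2 * ∑ Q ∈ QQ, E P1 P2 Q) (144 * K ^ 2 * (QQ.card * (264 * D ^ 3)))
      (fun P2 _ => mul_le_mul_of_nonneg_left (hF1 P1 P2) (by positivity))
    rw [nsmul_eq_mul] at h2
    refine le_trans h2 ?_
    have h3 := hnr P1 hP1
    have h4 : (0 : ℝ) ≤ ((PP.filter (fun P' => nr P1 P')).card : ℝ) * K ^ 2 := by positivity
    have h5 : ((PP.filter (fun P' => nr P1 P')).card : ℝ) * (38016 * K ^ 2) ≤ PP.card := by
      linarith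
    calc ((PP.filter (fun P' => nr P1 P')).card : ℝ) * (144 * K ^ 2 * (QQ.card * (264 * D ^ 3)))
        = (((PP.filter (fun P' => nr P1 P')).card : ℝ) * (38016 * K ^ 2)) *
          (D ^ 3 * QQ.card) := by ring
      _ ≤ PP.card * (D ^ 3 * QQ.card) := mul_le_mul_of_nonneg_right h5 (by positivity)
      _ = D ^ 3 * (PP.card * QQ.card) := by ring
  have hfar : ∑ _P1 ∈ PP, ∑ _P2 ∈ PP, D ^ 3 * (QQ.card : ℝ) ≤
      ∑ P1 ∈ PP, ∑ P2 ∈ PP, if nr P1 P2 then 0 else 144 * K ^ 2 * ∑ Q ∈ QQ, E P1 P2 Q := by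
    have h1 := sum_le_sum hsplit
    rw [← mul_sum, sum_add_distrib] at h1
    simp only [sum_const, nsmul_eq_mul] at h1 ⊢
    have h2 : (PP.card : ℝ) * (D ^ 3 * (PP.card * QQ.card)) = D ^ 3 * (PP.card ^ 2 * QQ.card) := by
      ring
    have h3 : (PP.card : ℝ) * (PP.card * (D ^ 3 * QQ.card)) = D ^ 3 * (PP.card ^ 2 * QQ.card) := by
      ring
    linarith
  obtain ⟨P1, hP1, h1⟩ := exists_le_of_sum_le hPP hfar
  obtain ⟨P2, hP2, h2⟩ := exists_le_of_sum_le hPP h1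
  have hpos : 0 < D ^ 3 * (QQ.card : ℝ) := by positivity
  by_cases hnear : nr P1 P2
  · rw [if_pos hnear] at h2
    linarith
  rw [if_neg hnear] at h2
  refine ⟨P1, hP1, P2, hP2, hnear, QQ.filter (fun Q => D ^ 3 ≤ 288 * K ^ 2 * E P1 P2 Q),
    filter_subset _ _, ?_, ?_⟩
  · have h3 : ∀ Q ∈ QQ, 288 * K ^ 2 * E P1 P2 Q ≤ D ^ 3 +
        (if D ^ 3 ≤ 288 * K ^ 2 * E P1 P2 Q then 1 else 0) * (76032 * K ^ 2 * D ^ 3) := by
      intro Q _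
      split_ifs with hq
      · have h4 : 288 * K ^ 2 * E P1 P2 Q ≤ 288 * K ^ 2 * (264 * D ^ 3) :=
          mul_le_mul_of_nonneg_left (hE1 P1 P2 Q) (by positivity)
        linarith
      · linarith [not_le.1 hq]
    have h5 := sum_le_sum h3
    rw [← mul_sum, sum_add_distrib, ← sum_mul, sum_const, nsmul_eq_mul, sum_boole] at h5
    have h6 : D ^ 3 * (QQ.card : ℝ) ≤ D ^ 3 * (76032 * K ^ 2 *
        ((QQ.filter (fun Q => D ^ 3 ≤ 288 * K ^ 2 * E P1 P2 Q)).card : ℝ)) := by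
      linarith
    have h7 := le_of_mul_le_mul_left h6 hD3
    have h8 : (0 : ℝ) ≤ K ^ 2 *
        ((QQ.filter (fun Q => D ^ 3 ≤ 288 * K ^ 2 * E P1 P2 Q)).card : ℝ) := by positivity
    linarith
  · intro Q hQ
    have h3 := (mem_filter.1 hQ).2
    rwa [hEdef] at h3

end Pool.Agent.Lib.MP_ecd12e_nt.Bar
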