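import Pool.Agent.Lib.MP_ecd12e_nt.Bar.Defs

set_option autoImplicit false

namespace Pool.Agent.Lib.MP_ecd12e_nt.Bar

open Finset Real
open scoped Pointwise

private lemma cov_card3 {L0 L1 L2 : ℝ} (f : ℝ → ℤ → ℝ) (k : ℝ → ℝ → ℝ) (T1 T2 : Finset ℝ)
    (T0 : Finset ℤ) (h1 : (T1.card : ℝ) ≤ L1) (h2 : (T2.card : ℝ) ≤ L2)
    (h0 : (T0.card : ℝ) ≤ L0) :
    ((Finset.image₂ f (Finset.image₂ k T1 T2) T0).card : ℝ) ≤ L1 * L2 * L0 := by
  have a1 : (Finset.image₂ f (Finset.image₂ k T1 T2) T0).card ≤ T1.card * T2.card * T0.card :=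
    (Finset.card_image₂_le _ _ _).trans
      (Nat.mul_le_mul_right _ (Finset.card_image₂_le _ _ _))
  have a2 : ((Finset.image₂ f (Finset.image₂ k T1 T2) T0).card : ℝ)
      ≤ (T1.card : ℝ) * T2.card * T0.card := by exact_mod_cast a1
  have p1 : (0 : ℝ) ≤ L1 := (Nat.cast_nonneg _).trans h1
  have p2 : (0 : ℝ) ≤ L2 := (Nat.cast_nonneg _).trans h2
  refine a2.trans (mul_le_mul (mul_le_mul h1 h2 (Nat.cast_nonneg _) p1) h0 (Nat.cast_nonneg _)
    (mul_nonneg p1 p2))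

private lemma cov_cube {L : ℝ} (hL : 2 ≤ L) : L + L ≤ L ^ 3 ∧ L + L * L ≤ L ^ 3 := by
  have h1 : 2 * L ≤ L * L := mul_le_mul_of_nonneg_right hL (by linarith)
  have h2 : 2 * (L * L) ≤ L * (L * L) := mul_le_mul_of_nonneg_right hL (by positivity)
  have h3 : L ^ 3 = L * (L * L) := by ring
  constructor <;> linarith

/-- Cauchy-Schwarz: many pairs have the same image. -/
private lemma cov_cs (H : Finset ℤ) (T : Finset ℝ) (τ : ℤ → ℝ) (hτ : ∀ h ∈ H, τ h ∈ T) :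
    (H.card : ℝ) * H.card ≤
      T.card * (((H ×ˢ H).filter (fun p : ℤ × ℤ => τ p.1 = τ p.2)).card : ℝ) := by
  classical
  have e1 : (H.card : ℝ) = ∑ t ∈ T, ((H.filter (fun h => τ h = t)).card : ℝ) := by
    exact_mod_cast Finset.card_eq_sum_card_fiberwise hτ
  have e2 : (((H ×ˢ H).filter (fun p : ℤ × ℤ => τ p.1 = τ p.2)).card : ℝ)
      = ∑ t ∈ T, ((H.filter (fun h => τ h = t)).card : ℝ) ^ 2 := by
    have hm : ∀ p ∈ (H ×ˢ H).filter (fun p : ℤ × ℤ => τ p.1 = τ p.2), τ p.1 ∈ T := by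
      intro p hp
      exact hτ _ (Finset.mem_product.mp (Finset.mem_filter.mp hp).1).1
    rw [Finset.card_eq_sum_card_fiberwise hm]
    push_cast
    refine Finset.sum_congr rfl (fun t _ => ?_)
    have : ((H ×ˢ H).filter (fun p : ℤ × ℤ => τ p.1 = τ p.2)).filter (fun p => τ p.1 = t)
        = (H.filter (fun h => τ h = t)) ×ˢ (H.filter (fun h => τ h = t)) := by
      ext p
      simp only [Finset.mem_filter, Finset.mem_product]
      constructor
      · rintro ⟨⟨⟨a, b⟩, c⟩, d⟩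
        exact ⟨⟨a, d⟩, b, c ▸ d⟩
      · rintro ⟨⟨a, d⟩, b, c⟩
        exact ⟨⟨⟨a, b⟩, d.trans c.symm⟩, d⟩
    rw [this, Finset.card_product]
    push_cast
    ring
  rw [e2, ← sq, e1]
  exact sq_sum_le_card_mul_sum_sq

private lemma cov_num1 {n t E a b L : ℝ} (hE : 0 ≤ E) (h1 : n * n ≤ t * E) (ht : t ≤ L)
    (h2 : E ≤ a + b) (h3 : b * (2 * L) ≤ n * n) (hL : 0 < L) : n * n ≤ a * (2 * L) := by
  have a1 : t * E ≤ L * E := mul_le_mul_of_nonneg_right ht hE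
  have a2 : L * E ≤ L * (a + b) := mul_le_mul_of_nonneg_left h2 hL.le
  linarith

/-- Packing: `1`-separated values in an interval of length `2 r`. -/
private lemma cov_pack (S : Finset ℝ) (u z r : ℝ) (hr : 0 ≤ r)
    (hsep : ∀ y ∈ S, ∀ y' ∈ S, y ≠ y' → 1 ≤ |y * u - y' * u|)
    (hnear : ∀ y ∈ S, |y * u - z| ≤ r) : (S.card : ℝ) ≤ 2 * r + 1 := by
  have h1 : S.card ≤ (Finset.range (⌊2 * r⌋₊ + 1)).card := by
    refine Finset.card_le_card_of_injOn (fun y => ⌊y * u - z + r⌋₊) ?_ ?_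
    · intro y hy
      have := abs_le.mp (hnear y hy)
      simp only [Finset.coe_range, Set.mem_Iio]
      exact Nat.lt_succ_of_le (Nat.floor_mono (by linarith [this.2]))
    · intro y hy y' hy' he
      by_contra hne
      have a := abs_le.mp (hnear y hy)
      have a' := abs_le.mp (hnear y' hy')
      have b1 := Nat.floor_le (a := y * u - z + r) (by linarith [a.1])
      have b2 := Nat.lt_floor_add_one (y * u - z + r)
      have b1' := Nat.floor_le (a := y' * u - z + r) (by linarith [a'.1])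
      have b2' := Nat.lt_floor_add_one (y' * u - z + r)
      have he' : ⌊y * u - z + r⌋₊ = ⌊y' * u - z + r⌋₊ := he
      rw [he'] at b1 b2
      have := hsep y hy y' hy' hne
      have h3 : |y * u - y' * u| < 1 := abs_lt.mpr ⟨by linarith, by linarith⟩
      linarith
  rw [Finset.card_range] at h1
  have h2 : (S.card : ℝ) ≤ (⌊2 * r⌋₊ : ℝ) + 1 := by exact_mod_cast h1
  have h3 := Nat.floor_le (a := 2 * r) (by linarith)
  linarith

theorem Cov.mono {G : Finset ℤ} {L L' c c' : ℝ} {X X' : Set ℝ} (h : Cov G L c X) (hL : L ≤ L')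
    (hc : c ≤ c') (hX : X' ⊆ X) : Cov G L' c' X' := by
  obtain ⟨T, hT, hcov⟩ := h
  refine ⟨T, hT.trans hL, fun x hx => ?_⟩
  obtain ⟨τ, hτ, g, hg, hle⟩ := hcov x (hX hx)
  exact ⟨τ, hτ, g, hg, hle.trans hc⟩

/-- Perturbation. -/
theorem Cov.perturb {G : Finset ℤ} {L c e : ℝ} {X X' : Set ℝ} (h : Cov G L c X)
    (hX : ∀ x' ∈ X', ∃ x ∈ X, |x' - x| ≤ e) : Cov G L (c + e) X' := by
  obtain ⟨T, hT, hcov⟩ := h
  refine ⟨T, hT, fun x' hx' => ?_⟩
  obtain ⟨x, hx, hxe⟩ := hX x' hx'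
  obtain ⟨τ, hτ, g, hg, hle⟩ := hcov x hx
  refine ⟨τ, hτ, g, hg, ?_⟩
  have e1 : x' - τ - (g : ℝ) = (x - τ - g) + (x' - x) := by ring
  rw [e1]
  exact (abs_add_le _ _).trans (add_le_add hle hxe)

/-- Translation by a finite set. -/
theorem Cov.translate {G : Finset ℤ} {L c : ℝ} {X : Set ℝ} (h : Cov G L c X) (F : Finset ℝ) :
    Cov G (F.card * L) c {z | ∃ f ∈ F, ∃ x ∈ X, z = f + x} := by
  classical
  obtain ⟨T, hT, hcov⟩ := h
  refine ⟨Finset.image₂ (· + ·) F T, ?_, ?_⟩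
  · have h1 : (Finset.image₂ (· + ·) F T).card ≤ F.card * T.card := Finset.card_image₂_le _ _ _
    have h2 : ((Finset.image₂ (· + ·) F T).card : ℝ) ≤ (F.card : ℝ) * T.card := by
      exact_mod_cast h1
    exact h2.trans (mul_le_mul_of_nonneg_left hT (Nat.cast_nonneg _))
  · rintro z ⟨f, hf, x, hx, rfl⟩
    obtain ⟨τ, hτ, g, hg, hle⟩ := hcov x hx
    refine ⟨f + τ, Finset.mem_image₂_of_mem hf hτ, g, hg, ?_⟩
    have e1 : f + x - (f + τ) - (g : ℝ) = x - τ - g := by ring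
    rw [e1]
    exact hle

theorem Cov.add {G : Finset ℤ} {L0 L1 L2 c1 c2 : ℝ} {X1 X2 : Set ℝ} (hG : AppGrp G L0)
    (h1 : Cov G L1 c1 X1) (h2 : Cov G L2 c2 X2) :
    Cov G (L1 * L2 * L0) (c1 + c2) {z | ∃ x1 ∈ X1, ∃ x2 ∈ X2, z = x1 + x2} := by
  classical
  obtain ⟨T1, hT1, hcov1⟩ := h1
  obtain ⟨T2, hT2, hcov2⟩ := h2
  obtain ⟨-, T0, hT0, hcov0⟩ := hG
  refine ⟨Finset.image₂ (fun (a : ℝ) (b : ℤ) => a + b) (Finset.image₂ (· + ·) T1 T2) T0,
    cov_card3 _ _ T1 T2 T0 hT1 hT2 hT0, ?_⟩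
  rintro z ⟨x1, hx1, x2, hx2, rfl⟩
  obtain ⟨τ1, hτ1, g1, hg1, hle1⟩ := hcov1 x1 hx1
  obtain ⟨τ2, hτ2, g2, hg2, hle2⟩ := hcov2 x2 hx2
  obtain ⟨τ, hτ, g, hg, he⟩ := hcov0 g1 hg1 g2 hg2
  refine ⟨τ1 + τ2 + τ, Finset.mem_image₂_of_mem (Finset.mem_image₂_of_mem hτ1 hτ2) hτ, g, hg, ?_⟩
  have he' : (g1 : ℝ) + g2 = τ + g := by exact_mod_cast he
  have e1 : x1 + x2 - (τ1 + τ2 + τ) - (g : ℝ) = (x1 - τ1 - g1) + (x2 - τ2 - g2) := by linarith
  rw [e1]
  exact (abs_add_le _ _).trans (add_le_add hle1 hle2)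

theorem Cov.sub {G : Finset ℤ} {L0 L1 L2 c1 c2 : ℝ} {X1 X2 : Set ℝ} (hG : AppGrp G L0)
    (h1 : Cov G L1 c1 X1) (h2 : Cov G L2 c2 X2) :
    Cov G (L1 * L2 * L0) (c1 + c2) {z | ∃ x1 ∈ X1, ∃ x2 ∈ X2, z = x1 - x2} := by
  classical
  obtain ⟨T1, hT1, hcov1⟩ := h1
  obtain ⟨T2, hT2, hcov2⟩ := h2
  obtain ⟨hsym, T0, hT0, hcov0⟩ := hG
  refine ⟨Finset.image₂ (fun (a : ℝ) (b : ℤ) => a + b) (Finset.image₂ (· - ·) T1 T2) T0,
    cov_card3 _ _ T1 T2 T0 hT1 hT2 hT0, ?_⟩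
  rintro z ⟨x1, hx1, x2, hx2, rfl⟩
  obtain ⟨τ1, hτ1, g1, hg1, hle1⟩ := hcov1 x1 hx1
  obtain ⟨τ2, hτ2, g2, hg2, hle2⟩ := hcov2 x2 hx2
  obtain ⟨τ, hτ, g, hg, he⟩ := hcov0 g1 hg1 (-g2) (hsym g2 hg2)
  refine ⟨τ1 - τ2 + τ, Finset.mem_image₂_of_mem (Finset.mem_image₂_of_mem hτ1 hτ2) hτ, g, hg, ?_⟩
  have he' : (g1 : ℝ) + -g2 = τ + g := by exact_mod_cast he
  have e1 : x1 - x2 - (τ1 - τ2 + τ) - (g : ℝ) = (x1 - τ1 - g1) - (x2 - τ2 - g2) := by linarith
  rw [e1]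
  exact (abs_sub _ _).trans (add_le_add hle1 hle2)

theorem good_one (G : Finset ℤ) {L : ℝ} (hL : 1 ≤ L) : Good G L 1 := by
  refine ⟨by simpa using hL, {0}, by simpa using hL, ?_⟩
  rintro x ⟨g, hg, rfl⟩
  refine ⟨0, by simp, g, hg, ?_⟩
  simp only [one_mul, sub_zero, sub_self, abs_zero]
  linarith

theorem Good.mono {G : Finset ℤ} {L L' y : ℝ} (h : Good G L y) (hL : L ≤ L') : Good G L' y := by
  exact ⟨h.1.trans hL, h.2.mono hL hL (fun _ hx => hx)⟩

theorem Good.add {G : Finset ℤ} {L0 L x y : ℝ} (hG : AppGrp G L0) (hL0 : L0 ≤ L) (hL : 2 ≤ L)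
    (hx : Good G L x) (hy : Good G L y) : Good G (L ^ 3) (x + y) := by
  obtain ⟨h2, h3⟩ := cov_cube hL
  refine ⟨((abs_add_le _ _).trans (add_le_add hx.1 hy.1)).trans h2, ?_⟩
  refine (Cov.add hG hx.2 hy.2).mono ?_ h2 ?_
  · have : L * L * L0 ≤ L * L * L := mul_le_mul_of_nonneg_left hL0 (by positivity)
    calc L * L * L0 ≤ L * L * L := this
      _ = L ^ 3 := by ring
  · rintro z ⟨g, hg, rfl⟩
    exact ⟨x * g, ⟨g, hg, rfl⟩, y * g, ⟨g, hg, rfl⟩, by ring⟩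

theorem Good.sub {G : Finset ℤ} {L0 L x y : ℝ} (hG : AppGrp G L0) (hL0 : L0 ≤ L) (hL : 2 ≤ L)
    (hx : Good G L x) (hy : Good G L y) : Good G (L ^ 3) (x - y) := by
  obtain ⟨h2, h3⟩ := cov_cube hL
  refine ⟨((abs_sub _ _).trans (add_le_add hx.1 hy.1)).trans h2, ?_⟩
  refine (Cov.sub hG hx.2 hy.2).mono ?_ h2 ?_
  · have : L * L * L0 ≤ L * L * L := mul_le_mul_of_nonneg_left hL0 (by positivity)
    calc L * L * L0 ≤ L * L * L := this
      _ = L ^ 3 := by ring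
  · rintro z ⟨g, hg, rfl⟩
    exact ⟨x * g, ⟨g, hg, rfl⟩, y * g, ⟨g, hg, rfl⟩, by ring⟩

/-- `x y g = x τ + x g' + x e` with `|e| ≤ L`: translate by `x T`, perturb by `L ^ 2`. -/
theorem Good.mul {G : Finset ℤ} {L x y : ℝ} (hL : 2 ≤ L)
    (hx : Good G L x) (hy : Good G L y) : Good G (L ^ 3) (x * y) := by
  classical
  obtain ⟨h2, h3⟩ := cov_cube hL
  have hL0 : 0 ≤ L := by linarith
  have hLL : L * L ≤ L ^ 3 := by linarith
  obtain ⟨hy1, T, hT, hcov⟩ := hy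
  refine ⟨?_, ?_⟩
  · rw [abs_mul]
    exact (mul_le_mul hx.1 hy1 (abs_nonneg _) hL0).trans hLL
  · have h4 := (hx.2.translate (T.image (fun τ => x * τ))).perturb (e := L * L)
      (X' := {z | ∃ g ∈ G, z = x * y * (g : ℝ)}) (by
        rintro z ⟨g, hg, rfl⟩
        obtain ⟨τ, hτ, g', hg', hle⟩ := hcov (y * g) ⟨g, hg, rfl⟩
        refine ⟨x * τ + x * g', ⟨x * τ, Finset.mem_image_of_mem _ hτ, x * g', ⟨g', hg', rfl⟩, rfl⟩,
          ?_⟩
        have e1 : x * y * (g : ℝ) - (x * τ + x * g') = x * (y * g - τ - g') := by ring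
        rw [e1, abs_mul]
        exact mul_le_mul hx.1 hle (abs_nonneg _) hL0)
    refine h4.mono ?_ h3 (fun _ hz => hz)
    have h5 : ((T.image (fun τ => x * τ)).card : ℝ) ≤ L :=
      (Nat.cast_le.mpr Finset.card_image_le).trans hT
    exact (mul_le_mul_of_nonneg_right h5 hL0).trans hLL

/-- The good multipliers form a tower. -/
theorem tower_good {G : Finset ℤ} {L0 L : ℝ} (hG : AppGrp G L0) (hL0 : L0 ≤ L) (hL : 2 ≤ L) :
    Tower (fun j => {y | Good G (L ^ (3 ^ j)) y}) := by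
  have h1 : (1 : ℝ) ≤ L := by linarith
  have hge : ∀ j : ℕ, L ≤ L ^ (3 ^ j) := fun j =>
    le_self_pow₀ h1 (pow_ne_zero _ (by norm_num))
  have hc : ∀ j : ℕ, (L ^ (3 ^ j)) ^ 3 = L ^ (3 ^ (j + 1)) := fun j => by
    rw [← pow_mul, pow_succ]
  refine ⟨fun j x hx => ?_, fun j x hx y hy => ?_, fun j x hx y hy => ?_, fun j x hx y hy => ?_⟩
  · refine Good.mono hx ?_
    exact pow_le_pow_right₀ h1 (pow_le_pow_right₀ (by norm_num) (Nat.le_succ j))
  · have := Good.add hG (hL0.trans (hge j)) (hL.trans (hge j)) hx hy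
    rw [hc] at this
    exact this
  · have := Good.sub hG (hL0.trans (hge j)) (hL.trans (hge j)) hx hy
    rw [hc] at this
    exact this
  · have := Good.mul (hL.trans (hge j)) hx hy
    rw [hc] at this
    exact this

/-- Counting good multipliers. Fix `h0 ∈ H`. For `y ∈ Y` let `τ y h ∈ T y` be the translate used
for `y (h - h0)`. By Cauchy-Schwarz at least `|H|^2 / L` pairs `(h, h')` have `τ y h = τ y h'`; at
most `|H|^2 / (2L)` pairs have `|h' - h| < F`. So some pair `(h, h')` with `|h' - h| ≥ F` works for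
at least `|Y| / (2L)` of the `y`; for these `y (h - h')` is within `2L` of a point of
`(H - H) - (H - H)`, and these numbers are `1`-separated, so each point is used at most `4L + 1`
times. -/
theorem count_good (H : Finset ℤ) (hH : H.Nonempty) (Y : Finset ℝ) {L d F : ℝ} (hL : 1 ≤ L)
    (hd : 0 < d) (hF : 1 ≤ d * F) (hsep : Sep d Y) (hY : ∀ y ∈ Y, Good (H - H) L y)
    (hnear : ∀ h ∈ H, ((H.filter (fun h' : ℤ => |(h' : ℝ) - h| < F)).card : ℝ) * (2 * L) ≤ H.card) :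
    (Y.card : ℝ) ≤ 10 * L ^ 2 * ((H - H) - (H - H)).card := by
  classical
  obtain ⟨h0, hh0⟩ := hH
  have hL0 : 0 < L := by linarith
  -- choose the translates
  have hch : ∀ y ∈ Y, ∃ T : Finset ℝ, (T.card : ℝ) ≤ L ∧ ∃ τ : ℤ → ℝ, ∃ g : ℤ → ℤ,
      ∀ h ∈ H, τ h ∈ T ∧ g h ∈ H - H ∧ |y * ((h : ℝ) - h0) - τ h - (g h : ℝ)| ≤ L := by
    intro y hy
    obtain ⟨-, T, hT, hcov⟩ := hY y hy
    refine ⟨T, hT, ?_⟩
    have : ∀ h ∈ H, ∃ τ ∈ T, ∃ g ∈ H - H, |y * ((h : ℝ) - h0) - τ - (g : ℝ)| ≤ L := by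
      intro h hh
      refine hcov _ ⟨h - h0, Finset.sub_mem_sub hh hh0, ?_⟩
      push_cast
      ring
    choose! τ hτ g hg hle using this
    exact ⟨τ, g, fun h hh => ⟨hτ h hh, hg h hh, hle h hh⟩⟩
  choose! T hT τ g hτ using hch
  set n : ℝ := (H.card : ℝ) with hn
  have hn0 : 0 < n := by
    rw [hn]
    exact_mod_cast Finset.card_pos.mpr ⟨h0, hh0⟩
  set P : Finset (ℤ × ℤ) := (H ×ˢ H).filter (fun p : ℤ × ℤ => ¬ |(p.2 : ℝ) - p.1| < F) with hP
  -- the near pairs are few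
  have hN : (((H ×ˢ H).filter (fun p : ℤ × ℤ => |(p.2 : ℝ) - p.1| < F)).card : ℝ) * (2 * L)
      ≤ n * n := by
    have e1 : ((H ×ˢ H).filter (fun p : ℤ × ℤ => |(p.2 : ℝ) - p.1| < F)).card
        = ∑ h ∈ H, (H.filter (fun h' : ℤ => |(h' : ℝ) - h| < F)).card := by
      simp only [Finset.card_filter, Finset.sum_product]
    rw [e1]
    push_cast
    rw [Finset.sum_mul]
    calc _ ≤ ∑ _h ∈ H, n := Finset.sum_le_sum hnear
      _ = n * n := by simp [hn]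
  -- each `y` has many far pairs with equal translates
  have hfar : ∀ y ∈ Y, n * n ≤ ((P.filter (fun p : ℤ × ℤ => τ y p.1 = τ y p.2)).card : ℝ)
      * (2 * L) := by
    intro y hy
    have h1 := cov_cs H (T y) (τ y) (fun h hh => (hτ y hy h hh).1)
    have h2 : ((H ×ˢ H).filter (fun p : ℤ × ℤ => τ y p.1 = τ y p.2)).card ≤
        (P.filter (fun p : ℤ × ℤ => τ y p.1 = τ y p.2)).card +
          ((H ×ˢ H).filter (fun p : ℤ × ℤ => |(p.2 : ℝ) - p.1| < F)).card := by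
      refine le_trans (Finset.card_le_card ?_) (Finset.card_union_le _ _)
      intro p hp
      rw [Finset.mem_filter] at hp
      by_cases hc : |(p.2 : ℝ) - p.1| < F
      · exact Finset.mem_union_right _ (Finset.mem_filter.mpr ⟨hp.1, hc⟩)
      · exact Finset.mem_union_left _
          (Finset.mem_filter.mpr ⟨Finset.mem_filter.mpr ⟨hp.1, hc⟩, hp.2⟩)
    have h2' : (((H ×ˢ H).filter (fun p : ℤ × ℤ => τ y p.1 = τ y p.2)).card : ℝ) ≤
        ((P.filter (fun p : ℤ × ℤ => τ y p.1 = τ y p.2)).card : ℝ) +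
          (((H ×ˢ H).filter (fun p : ℤ × ℤ => |(p.2 : ℝ) - p.1| < F)).card : ℝ) := by
      exact_mod_cast h2
    have h3 := hT y hy
    exact cov_num1 (Nat.cast_nonneg _) h1 h3 h2' hN hL0
  -- double counting
  have hPn : (P.card : ℝ) ≤ n * n := by
    have : P.card ≤ H.card * H.card :=
      (Finset.card_filter_le _ _).trans (Finset.card_product _ _).le
    rw [hn]
    exact_mod_cast this
  have hdc : ∑ y ∈ Y, (P.filter (fun p : ℤ × ℤ => τ y p.1 = τ y p.2)).card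
      = ∑ p ∈ P, (Y.filter (fun y => τ y p.1 = τ y p.2)).card := by
    simp only [Finset.card_filter]
    exact Finset.sum_comm
  set D : Finset ℤ := (H - H) - (H - H) with hD
  -- each far pair serves few `y`
  have hpair : ∀ p ∈ P, ((Y.filter (fun y => τ y p.1 = τ y p.2)).card : ℝ)
      ≤ 5 * L * D.card := by
    intro p hp
    obtain ⟨hpH, hpF⟩ := Finset.mem_filter.mp hp
    obtain ⟨hp1, hp2⟩ := Finset.mem_product.mp hpH
    have hpF' : F ≤ |(p.2 : ℝ) - p.1| := not_lt.mp hpF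
    have hmap : ∀ y ∈ Y.filter (fun y => τ y p.1 = τ y p.2), g y p.2 - g y p.1 ∈ D := by
      intro y hy
      have hy' := (Finset.mem_filter.mp hy).1
      exact Finset.sub_mem_sub (hτ y hy' _ hp2).2.1 (hτ y hy' _ hp1).2.1
    rw [Finset.card_eq_sum_card_fiberwise hmap]
    push_cast
    have hfib : ∀ z ∈ D, ((((Y.filter (fun y => τ y p.1 = τ y p.2)).filter
        (fun y => g y p.2 - g y p.1 = z)).card : ℕ) : ℝ) ≤ 5 * L := by
      intro z _
      refine (cov_pack _ ((p.2 : ℝ) - p.1) (z : ℝ) (2 * L) (by positivity) ?_ ?_).trans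
        (by linarith)
      · intro y hy y' hy' hne
        have hy1 := (Finset.mem_filter.mp (Finset.mem_filter.mp hy).1).1
        have hy2 := (Finset.mem_filter.mp (Finset.mem_filter.mp hy').1).1
        have h1 := hsep y hy1 y' hy2 hne
        have hF0 : 0 ≤ F := by
          by_contra hneg
          have := mul_neg_of_pos_of_neg hd (not_le.mp hneg)
          linarith
        rw [← sub_mul, abs_mul]
        exact hF.trans (mul_le_mul h1 hpF' hF0 (abs_nonneg _))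
      · intro y hy
        obtain ⟨hy1, hz⟩ := Finset.mem_filter.mp hy
        obtain ⟨hyY, he⟩ := Finset.mem_filter.mp hy1
        have a1 := (hτ y hyY _ hp1).2.2
        have a2 := (hτ y hyY _ hp2).2.2
        have hz' : (z : ℝ) = (g y p.2 : ℝ) - g y p.1 := by
          rw [← hz]
          push_cast
          ring
        have e1 : y * ((p.2 : ℝ) - p.1) - z = (y * ((p.2 : ℝ) - h0) - τ y p.2 - g y p.2)
            - (y * ((p.1 : ℝ) - h0) - τ y p.1 - g y p.1) := by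
          rw [hz', he]
          ring
        rw [e1]
        exact (abs_sub _ _).trans (by linarith)
    calc _ ≤ ∑ _z ∈ D, 5 * L := Finset.sum_le_sum hfib
      _ = 5 * L * D.card := by simp [mul_comm]
  have hlow : (Y.card : ℝ) * (n * n) ≤
      (∑ y ∈ Y, ((P.filter (fun p : ℤ × ℤ => τ y p.1 = τ y p.2)).card : ℝ)) * (2 * L) := by
    rw [Finset.sum_mul]
    calc (Y.card : ℝ) * (n * n) = ∑ _y ∈ Y, n * n := by simp
      _ ≤ _ := Finset.sum_le_sum hfar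
  have hdc' : (∑ y ∈ Y, ((P.filter (fun p : ℤ × ℤ => τ y p.1 = τ y p.2)).card : ℝ))
      = ∑ p ∈ P, ((Y.filter (fun y => τ y p.1 = τ y p.2)).card : ℝ) := by
    exact_mod_cast hdc
  have hup : (∑ p ∈ P, ((Y.filter (fun y => τ y p.1 = τ y p.2)).card : ℝ))
      ≤ (n * n) * (5 * L * D.card) := by
    calc _ ≤ ∑ _p ∈ P, 5 * L * (D.card : ℝ) := Finset.sum_le_sum hpair
      _ = P.card * (5 * L * D.card) := by simp
      _ ≤ _ := mul_le_mul_of_nonneg_right hPn (by positivity)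
  rw [hdc'] at hlow
  have hfin : (Y.card : ℝ) * (n * n) ≤ (10 * L ^ 2 * D.card) * (n * n) := by
    calc _ ≤ _ := hlow
      _ ≤ (n * n) * (5 * L * D.card) * (2 * L) :=
        mul_le_mul_of_nonneg_right hup (by positivity)
      _ = _ := by ring
  exact le_of_mul_le_mul_right hfin (by positivity)

end Pool.Agent.Lib.MP_ecd12e_nt.Bar
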