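import Pool.Agent.Lib.MP_ecd12e_nt.Bar.Piece
import Pool.Agent.Lib.MP_ecd12e_nt.Bar.Cov

set_option autoImplicit false

namespace Pool.Agent.Lib.MP_ecd12e_nt.Bar

open Finset Real
open scoped Pointwise

/-- Pluennecke-Ruzsa in real form. -/
lemma group_pr (H : Finset ℤ) (hH : H.Nonempty) {k : ℝ}
    (hk : ((H - H).card : ℝ) ≤ k * H.card) (m n : ℕ) :
    ((m • H - n • H).card : ℝ) ≤ k ^ (m + n) * H.card := by
  have h := Finset.pluennecke_ruzsa_inequality_nsmul_sub_nsmul_sub hH H m n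
  have h2 : ((m • H - n • H).card : ℝ) ≤
      (((H - H).card : ℝ) / (H.card : ℝ)) ^ (m + n) * H.card := by
    have h3 := (NNRat.cast_le (K := ℝ)).2 h
    push_cast at h3
    exact h3
  have hpos : (0 : ℝ) < H.card := by exact_mod_cast hH.card_pos
  have h4 : ((H - H).card : ℝ) / (H.card : ℝ) ≤ k := by
    rw [div_le_iff₀ hpos]; exact hk
  calc ((m • H - n • H).card : ℝ) ≤ (((H - H).card : ℝ) / (H.card : ℝ)) ^ (m + n) * H.card := h2
    _ ≤ k ^ (m + n) * H.card := by gcongr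

lemma group_card4 (H : Finset ℤ) (hH : H.Nonempty) {k : ℝ}
    (hk : ((H - H).card : ℝ) ≤ k * H.card) :
    (((H - H) - (H - H)).card : ℝ) ≤ k ^ 4 * H.card := by
  have h := group_pr H hH hk 2 2
  refine le_trans ?_ h
  have hsub : (H - H) - (H - H) ⊆ 2 • H - 2 • H := by
    intro x hx
    obtain ⟨a, ha, b, hb, rfl⟩ := Finset.mem_sub.1 hx
    obtain ⟨a1, ha1, a2, ha2, rfl⟩ := Finset.mem_sub.1 ha
    obtain ⟨b1, hb1, b2, hb2, rfl⟩ := Finset.mem_sub.1 hb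
    rw [two_nsmul]
    refine Finset.mem_sub.2 ⟨a1 + b2, Finset.add_mem_add ha1 hb2, a2 + b1,
      Finset.add_mem_add ha2 hb1, by ring⟩
  exact_mod_cast Finset.card_le_card hsub

lemma group_appgrp (H : Finset ℤ) (hH : H.Nonempty) {k : ℝ}
    (hk : ((H - H).card : ℝ) ≤ k * H.card) : AppGrp (H - H) (k ^ 5) := by
  refine ⟨?_, ?_⟩
  · intro g hg
    obtain ⟨a, ha, b, hb, rfl⟩ := Finset.mem_sub.1 hg
    exact Finset.mem_sub.2 ⟨b, hb, a, ha, by ring⟩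
  · have h := group_pr H hH hk 3 2
    have hsub : ((H - H) + (H - H)) + H ⊆ 3 • H - 2 • H := by
      intro x hx
      obtain ⟨a, ha, c, hc, rfl⟩ := Finset.mem_add.1 hx
      obtain ⟨a', ha', b', hb', rfl⟩ := Finset.mem_add.1 ha
      obtain ⟨a1, ha1, a2, ha2, rfl⟩ := Finset.mem_sub.1 ha'
      obtain ⟨b1, hb1, b2, hb2, rfl⟩ := Finset.mem_sub.1 hb'
      rw [three_nsmul, two_nsmul]
      refine Finset.mem_sub.2 ⟨a1 + (b1 + c), Finset.add_mem_add ha1 (Finset.add_mem_add hb1 hc),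
        a2 + b2, Finset.add_mem_add ha2 hb2, by ring⟩
    have hc : ((((H - H) + (H - H)) + H).card : ℝ) ≤ k ^ 5 * H.card :=
      le_trans (by exact_mod_cast Finset.card_le_card hsub) h
    obtain ⟨F, -, hF, hcov⟩ := Finset.ruzsa_covering_add hH hc
    refine ⟨F, hF, ?_⟩
    intro g1 hg1 g2 hg2
    obtain ⟨τ, hτ, g, hg, he⟩ := Finset.mem_add.1 (hcov (Finset.add_mem_add hg1 hg2))
    exact ⟨τ, hτ, g, hg, he.symm⟩

/-- Ruzsa covering by a large subset. -/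
lemma group_cover (U W : Finset ℤ) (hW : W.Nonempty) (hWU : W ⊆ U) {k : ℝ}
    (hk : ((U - U).card : ℝ) ≤ k * W.card) :
    ∃ T : Finset ℤ, (T.card : ℝ) ≤ k ∧
      ∀ u ∈ U, ∃ τ ∈ T, ∃ w1 ∈ W, ∃ w2 ∈ W, u = τ + (w1 - w2) := by
  have hsub : U + -W ⊆ U - U := by
    intro x hx
    obtain ⟨a, ha, b, hb, rfl⟩ := Finset.mem_add.1 hx
    obtain ⟨c, hc, rfl⟩ := Finset.mem_neg.1 hb
    exact Finset.mem_sub.2 ⟨a, ha, c, hWU hc, by ring⟩
  have hc : ((U + -W).card : ℝ) ≤ k * (-W).card := by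
    rw [Finset.card_neg]
    exact le_trans (by exact_mod_cast Finset.card_le_card hsub) hk
  obtain ⟨F, -, hF, hcov⟩ := Finset.ruzsa_covering_add hW.neg hc
  refine ⟨F, hF, ?_⟩
  intro u hu
  obtain ⟨τ, hτ, g, hg, he⟩ := Finset.mem_add.1 (hcov hu)
  obtain ⟨a, ha, b, hb, rfl⟩ := Finset.mem_sub.1 hg
  obtain ⟨a', ha', rfl⟩ := Finset.mem_neg.1 ha
  obtain ⟨b', hb', rfl⟩ := Finset.mem_neg.1 hb
  exact ⟨τ, hτ, b', hb', a', ha', by rw [← he]; ring⟩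

lemma group_floor {y : ℝ} {a b u v t : ℤ} (ha : ⌊y * (a : ℝ)⌋ = u - t)
    (hb : ⌊y * (b : ℝ)⌋ = v - t) : |y * ((a : ℝ) - b) - ((u : ℝ) - v)| ≤ 1 := by
  have h1 := Int.floor_le (y * (a : ℝ))
  have h2 := Int.lt_floor_add_one (y * (a : ℝ))
  have h3 := Int.floor_le (y * (b : ℝ))
  have h4 := Int.lt_floor_add_one (y * (b : ℝ))
  rw [ha] at h1 h2
  rw [hb] at h3 h4
  push_cast at h1 h2 h3 h4
  rw [abs_le]
  constructor <;> nlinarith

/-- One multiplier ratio is good. -/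
lemma group_good (H U : Finset ℤ) (t0 t : ℤ) (φ0 φ : ℤ → ℤ) {y0 y k D : ℝ} (hk : 1000 ≤ k)
    (hD : 0 < D) (hy0 : 3 / 4 ≤ y0) (hy1 : 3 / 4 ≤ y) (hy2 : y ≤ 5 / 4)
    (hφ0 : ∀ u ∈ H, ⌊y0 * (φ0 u : ℝ)⌋ = u - t0) (hφ : ∀ u ∈ U, ⌊y * (φ u : ℝ)⌋ = u - t)
    (hG : AppGrp (H - H) (k ^ 10)) (hU : ((U - U).card : ℝ) ≤ k * D)
    (hH' : ((H.image φ0 - H.image φ0).card : ℝ) ≤ 3 * k * D)
    (hW1 : D ≤ 2 * k ^ 4 * (U ∩ H).card)
    (hW2 : D ≤ 2 * k ^ 4 * (U.image φ ∩ H.image φ0).card) :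
    Good (H - H) (k ^ 61) (y / y0) := by
  have hk0 : 0 < k := by linarith
  have hk1 : 1 ≤ k := by linarith
  have hy00 : 0 < y0 := by linarith
  have hk61 : k ≤ k ^ 61 := le_self_pow₀ hk1 (by norm_num)
  have hq0 : 0 ≤ y / y0 := by positivity
  have hq : y / y0 ≤ 2 := by
    rw [div_le_iff₀ hy00]; linarith
  refine ⟨by rw [abs_of_nonneg hq0]; linarith, ?_⟩
  have hW1ne : (U ∩ H).Nonempty := by
    rw [← Finset.card_pos]
    by_contra h
    have : (U ∩ H).card = 0 := by omega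
    rw [this] at hW1
    simp at hW1
    linarith
  have hW2ne : (U.image φ ∩ H.image φ0).Nonempty := by
    rw [← Finset.card_pos]
    by_contra h
    have : (U.image φ ∩ H.image φ0).card = 0 := by omega
    rw [this] at hW2
    simp at hW2
    linarith
  obtain ⟨T1, hT1, hc1⟩ := group_cover U (U ∩ H) hW1ne Finset.inter_subset_left
    (k := 2 * k ^ 5) (by
      calc ((U - U).card : ℝ) ≤ k * D := hU
        _ ≤ k * (2 * k ^ 4 * (U ∩ H).card) := by gcongr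
        _ = 2 * k ^ 5 * (U ∩ H).card := by ring)
  obtain ⟨T2, hT2, hc2⟩ := group_cover (H.image φ0) (U.image φ ∩ H.image φ0) hW2ne
    Finset.inter_subset_right (k := 6 * k ^ 5) (by
      calc ((H.image φ0 - H.image φ0).card : ℝ) ≤ 3 * k * D := hH'
        _ ≤ 3 * k * (2 * k ^ 4 * (U.image φ ∩ H.image φ0).card) := by gcongr
        _ = 6 * k ^ 5 * (U.image φ ∩ H.image φ0).card := by ring)
  have c1 : Cov (H - H) (2 * k ^ 5) 0 {x | ∃ u ∈ U, x = (u : ℝ)} := by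
    refine ⟨T1.image (fun z : ℤ => (z : ℝ)), ?_, ?_⟩
    · exact le_trans (by exact_mod_cast Finset.card_image_le) hT1
    · rintro x ⟨u, hu, rfl⟩
      obtain ⟨τ, hτ, w1, hw1, w2, hw2, he⟩ := hc1 u hu
      refine ⟨(τ : ℝ), Finset.mem_image.2 ⟨τ, hτ, rfl⟩, w1 - w2,
        Finset.sub_mem_sub (Finset.mem_inter.1 hw1).2 (Finset.mem_inter.1 hw2).2, ?_⟩
      rw [he]
      push_cast
      simp
  have c2 := Cov.sub hG c1 c1
  have c3 := Cov.sub hG c2 c2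
  have c4 := Cov.translate c3
    ((T2 ×ˢ T2).image (fun p : ℤ × ℤ => y * ((p.1 : ℝ) - p.2)))
  have hF : (((T2 ×ˢ T2).image (fun p : ℤ × ℤ => y * ((p.1 : ℝ) - p.2))).card : ℝ) ≤
      36 * k ^ 10 := by
    have h1 : (((T2 ×ˢ T2).image (fun p : ℤ × ℤ => y * ((p.1 : ℝ) - p.2))).card : ℝ) ≤
        (T2.card : ℝ) * T2.card := by
      have := Finset.card_image_le (s := T2 ×ˢ T2)
        (f := fun p : ℤ × ℤ => y * ((p.1 : ℝ) - p.2))
      rw [Finset.card_product] at this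
      exact_mod_cast this
    calc _ ≤ (T2.card : ℝ) * T2.card := h1
      _ ≤ (6 * k ^ 5) * (6 * k ^ 5) := by gcongr
      _ = 36 * k ^ 10 := by ring
  have c5 := Cov.perturb (e := 4) (X' := {x | ∃ g ∈ H - H, x = y / y0 * (g : ℝ)}) c4 (by
    rintro x ⟨g, hg, rfl⟩
    obtain ⟨h1, hh1, h2, hh2, rfl⟩ := Finset.mem_sub.1 hg
    obtain ⟨τ1, hτ1, w1, hw1, w2, hw2, e1⟩ := hc2 (φ0 h1) (Finset.mem_image_of_mem _ hh1)
    obtain ⟨τ2, hτ2, w3, hw3, w4, hw4, e2⟩ := hc2 (φ0 h2) (Finset.mem_image_of_mem _ hh2)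
    obtain ⟨u1, hu1, rfl⟩ := Finset.mem_image.1 (Finset.mem_inter.1 hw1).1
    obtain ⟨u2, hu2, rfl⟩ := Finset.mem_image.1 (Finset.mem_inter.1 hw2).1
    obtain ⟨u3, hu3, rfl⟩ := Finset.mem_image.1 (Finset.mem_inter.1 hw3).1
    obtain ⟨u4, hu4, rfl⟩ := Finset.mem_image.1 (Finset.mem_inter.1 hw4).1
    have a0 := group_floor (hφ0 h1 hh1) (hφ0 h2 hh2)
    have a1 := group_floor (hφ u1 hu1) (hφ u2 hu2)
    have a2 := group_floor (hφ u3 hu3) (hφ u4 hu4)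
    refine ⟨y * ((τ1 : ℝ) - τ2) + (((u1 : ℝ) - u2) - ((u3 : ℝ) - u4)), ?_, ?_⟩
    · refine ⟨y * ((τ1 : ℝ) - τ2),
        Finset.mem_image.2 ⟨(τ1, τ2), Finset.mem_product.2 ⟨hτ1, hτ2⟩, rfl⟩,
        ((u1 : ℝ) - u2) - ((u3 : ℝ) - u4), ?_, rfl⟩
      exact ⟨(u1 : ℝ) - u2, ⟨u1, ⟨u1, hu1, rfl⟩, u2, ⟨u2, hu2, rfl⟩, rfl⟩,
        (u3 : ℝ) - u4, ⟨u3, ⟨u3, hu3, rfl⟩, u4, ⟨u4, hu4, rfl⟩, rfl⟩, rfl⟩
    · have e1' : (φ0 h1 : ℝ) = τ1 + ((φ u1 : ℝ) - φ u2) := by rw [e1]; push_cast; ring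
      have e2' : (φ0 h2 : ℝ) = τ2 + ((φ u3 : ℝ) - φ u4) := by rw [e2]; push_cast; ring
      have key : y / y0 * ((h1 - h2 : ℤ) : ℝ) -
          (y * ((τ1 : ℝ) - τ2) + (((u1 : ℝ) - u2) - ((u3 : ℝ) - u4))) =
          -(y / y0 * (y0 * ((φ0 h1 : ℝ) - φ0 h2) - ((h1 : ℝ) - h2))) +
            (y * ((φ u1 : ℝ) - φ u2) - ((u1 : ℝ) - u2)) -
            (y * ((φ u3 : ℝ) - φ u4) - ((u3 : ℝ) - u4)) := by
        rw [e1', e2']
        push_cast
        field_simp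
        ring
      rw [key]
      have b0 : |y / y0 * (y0 * ((φ0 h1 : ℝ) - φ0 h2) - ((h1 : ℝ) - h2))| ≤ 2 := by
        rw [abs_mul, abs_of_nonneg hq0]
        calc y / y0 * |y0 * ((φ0 h1 : ℝ) - φ0 h2) - ((h1 : ℝ) - h2)| ≤ 2 * 1 := by gcongr
          _ = 2 := by ring
      rw [abs_le] at a1 a2 b0 ⊢
      constructor <;> linarith [a1.1, a1.2, a2.1, a2.2, b0.1, b0.2])
  refine Cov.mono c5 ?_ (by linarith) (fun x hx => hx)
  calc _ ≤ (36 * k ^ 10) *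
        (2 * k ^ 5 * (2 * k ^ 5) * k ^ 10 * (2 * k ^ 5 * (2 * k ^ 5) * k ^ 10) * k ^ 10) := by
        gcongr
    _ = 576 * k ^ 60 := by ring
    _ ≤ k * k ^ 60 := by gcongr; linarith
    _ = k ^ 61 := by ring

/-- An approximate group with many multipliers. Put `K2 = K ^ 8`, `D = |H0|`. Take
`U i, t i, φ i` from `exists_piece` (choice), `U' i = (U i).image (φ i)` (`φ i` is injective on
`U i`), and apply `popular_pair` to `V i = U i ×ˢ U' i ⊆ H0 ×ˢ H0` with `β = 1 / K2 ^ 2`. For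
`i ∈ I'` both `W1 = U i ∩ U i0` and `W2 = U' i ∩ U' i0` have at least `D / (2 K2 ^ 4)` points. Let
`H = U i0`, `G = H - H`. Ruzsa covering (`Finset.ruzsa_covering_add` with `B = -W1`, using
`U i + (-W1) ⊆ U i - U i`) gives `U i ⊆ T1 + G`, `|T1| ≤ 2 K2 ^ 5`; likewise
`U' i0 ⊆ T2 + (W2 - W2)`, `|T2| ≤ 6 K2 ^ 5`. With `A = G + G`, `B = H` and
`Finset.pluennecke_ruzsa_inequality_nsmul_sub_nsmul_sub` (`|3H - 2H| ≤ (|H - H| / |H|)^5 |H|`,
`|H - H| ≤ K2 ^ 2 |H|`) it gives `AppGrp G (K2 ^ 10)`; `|2H - 2H| ≤ K2 ^ 8 |H|`. For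
`g = h1 - h2 ∈ G`: `|g - y i0 (φ h1 - φ h2)| < 1`, `φ h1 - φ h2 = τ1 - τ2 + (w1 - w2) - (w3 - w4)`
with `w = φ i u`, `|y i (w1 - w2) - (u1 - u2)| < 1`; so `(y i / y i0) g` is within `4` of
`y i (τ1 - τ2) + ((u1 - u2) - (u3 - u4))`. Use `Cov.sub` three times, `Cov.translate`,
`Cov.perturb`: at most `36 K2^10 * 16 K2^20 * K2^30 ≤ K2^61` translates. -/
theorem exists_group {ι : Type*} (H0 : Finset ℤ) (hH : H0.Nonempty) (I : Finset ι)
    (hI : I.Nonempty) (y : ι → ℝ) {K : ℝ} (hK : 1000 ≤ K)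
    (hy : ∀ i ∈ I, 3 / 4 ≤ y i ∧ y i ≤ 5 / 4)
    (hE : ∀ i ∈ I, (H0.card : ℝ) ^ 3 ≤ K * (enr H0 H0 (y i) 16 : ℝ)) :
    ∃ H ⊆ H0, ∃ i0 ∈ I, ∃ I' ⊆ I, (H0.card : ℝ) ≤ K ^ 8 * H.card ∧
      (I.card : ℝ) ≤ 2 * K ^ 32 * I'.card ∧ AppGrp (H - H) (K ^ 80) ∧
      (((H - H) - (H - H)).card : ℝ) ≤ K ^ 64 * H0.card ∧
      ∀ i ∈ I', Good (H - H) (K ^ 488) (y i / y i0) := by
  classical
  have hex : ∀ i, ∃ U : Finset ℤ, ∃ t : ℤ, ∃ φ : ℤ → ℤ, i ∈ I → U ⊆ H0 ∧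
      (∀ u ∈ U, φ u ∈ H0 ∧ ⌊y i * (φ u : ℝ)⌋ = u - t) ∧
      (H0.card : ℝ) ≤ K ^ 8 * U.card ∧ ((U - U).card : ℝ) ≤ K ^ 8 * H0.card ∧
      ((U.image φ - U.image φ).card : ℝ) ≤ 3 * K ^ 8 * H0.card := by
    intro i
    by_cases hi : i ∈ I
    · obtain ⟨U, hU, t, φ, h⟩ := exists_piece H0 hH hK (hy i hi).1 (hE i hi)
      exact ⟨U, t, φ, fun _ => ⟨hU, h⟩⟩
    · exact ⟨∅, 0, fun _ => 0, fun h => absurd h hi⟩
  choose U t φ hP using hex
  have hK1 : 1 ≤ K := by linarith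
  have hk : 1000 ≤ K ^ 8 := le_trans hK (le_self_pow₀ hK1 (by norm_num))
  generalize hkdef : K ^ 8 = k at hP hk
  have e32 : K ^ 32 = k ^ 4 := by rw [← hkdef]; ring
  have e64 : K ^ 64 = k ^ 8 := by rw [← hkdef]; ring
  have e80 : K ^ 80 = k ^ 10 := by rw [← hkdef]; ring
  have e488 : K ^ 488 = k ^ 61 := by rw [← hkdef]; ring
  rw [e32, e64, e80, e488]
  have hk0 : 0 < k := by linarith
  have hD : (0 : ℝ) < H0.card := by exact_mod_cast hH.card_pos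
  have himg : ∀ i ∈ I, (U i).image (φ i) ⊆ H0 := by
    intro i hi x hx
    obtain ⟨u, hu, rfl⟩ := Finset.mem_image.1 hx
    exact ((hP i hi).2.1 u hu).1
  have hcard : ∀ i ∈ I, ((U i).image (φ i)).card = (U i).card := by
    intro i hi
    apply Finset.card_image_of_injOn
    intro a ha b hb hab
    have h1 := ((hP i hi).2.1 a ha).2
    have h2 := ((hP i hi).2.1 b hb).2
    rw [hab] at h1
    omega
  obtain ⟨i0, hi0, I', hI', hc, hpop⟩ := popular_pair (H0 ×ˢ H0) (hH.product hH) I hI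
    (fun i => U i ×ˢ (U i).image (φ i))
    (fun i hi => Finset.product_subset_product (hP i hi).1 (himg i hi))
    (β := 1 / k ^ 2) (by positivity) (by
      intro i hi
      have h1 := (hP i hi).2.2.1
      rw [Finset.card_product, Finset.card_product, hcard i hi]
      push_cast
      rw [div_mul_eq_mul_div, one_mul, div_le_iff₀ (by positivity)]
      calc (H0.card : ℝ) * H0.card ≤ (k * (U i).card) * (k * (U i).card) := by gcongr
        _ = (U i).card * (U i).card * k ^ 2 := by ring)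
  obtain ⟨hsub0, hφ0, hc0, hd0, hd0'⟩ := hP i0 hi0
  have hHne : (U i0).Nonempty := by
    rw [← Finset.card_pos]
    by_contra h
    have : (U i0).card = 0 := by omega
    rw [this] at hc0
    simp at hc0
    exact absurd hc0 hH.ne_empty
  have hdbl : ((U i0 - U i0).card : ℝ) ≤ k ^ 2 * (U i0).card := by
    calc ((U i0 - U i0).card : ℝ) ≤ k * H0.card := hd0
      _ ≤ k * (k * (U i0).card) := by gcongr
      _ = k ^ 2 * (U i0).card := by ring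
  have hG : AppGrp (U i0 - U i0) (k ^ 10) := by
    have := group_appgrp (U i0) hHne hdbl
    rwa [← pow_mul] at this
  have hβ : (1 / k ^ 2) ^ 2 = 1 / k ^ 4 := by field_simp
  refine ⟨U i0, hsub0, i0, hi0, I', hI', hc0, ?_, hG, ?_, ?_⟩
  · rw [hβ, div_mul_eq_mul_div, one_mul, div_le_iff₀ (by positivity)] at hc
    linarith
  · have h1 := group_card4 (U i0) hHne hdbl
    rw [← pow_mul] at h1
    have h2 : ((U i0).card : ℝ) ≤ H0.card := by exact_mod_cast Finset.card_le_card hsub0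
    calc _ ≤ k ^ (2 * 4) * ((U i0).card : ℝ) := h1
      _ ≤ k ^ 8 * H0.card := by gcongr
  · intro i hi
    have hiI := hI' hi
    obtain ⟨hsub, hφ, -, hd, -⟩ := hP i hiI
    have h1 := hpop i hi
    rw [Finset.product_inter_product, Finset.card_product, Finset.card_product, hβ,
      div_mul_eq_mul_div, one_mul, div_le_iff₀ (by positivity)] at h1
    push_cast at h1
    have w1 : ((U i ∩ U i0).card : ℝ) ≤ H0.card := by
      exact_mod_cast Finset.card_le_card (Finset.inter_subset_left.trans hsub)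
    have w2 : (((U i).image (φ i) ∩ (U i0).image (φ i0)).card : ℝ) ≤ H0.card := by
      exact_mod_cast Finset.card_le_card (Finset.inter_subset_left.trans (himg i hiI))
    refine group_good (U i0) (U i) (t i0) (t i) (φ i0) (φ i) hk hD (hy i0 hi0).1 (hy i hiI).1
      (hy i hiI).2 (fun u hu => (hφ0 u hu).2) (fun u hu => (hφ u hu).2) hG hd hd0' ?_ ?_
    · refine le_of_mul_le_mul_right ?_ hD
      calc (H0.card : ℝ) * H0.card ≤ _ := h1
        _ ≤ 2 * (((U i ∩ U i0).card : ℝ) * H0.card) * k ^ 4 := by gcongr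
        _ = 2 * k ^ 4 * ((U i ∩ U i0).card : ℝ) * H0.card := by ring
    · refine le_of_mul_le_mul_right ?_ hD
      calc (H0.card : ℝ) * H0.card ≤ _ := h1
        _ ≤ 2 * ((H0.card : ℝ) * (((U i).image (φ i) ∩ (U i0).image (φ i0)).card : ℝ)) * k ^ 4 := by
          gcongr
        _ = 2 * k ^ 4 * (((U i).image (φ i) ∩ (U i0).image (φ i0)).card : ℝ) * H0.card := by ring

end Pool.Agent.Lib.MP_ecd12e_nt.Bar
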