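import Pool.Agent.Lib.MP_ecd12e_nt.Bar.GrowC
import Pool.Agent.Lib.MP_ecd12e_nt.Bar.Group

set_option autoImplicit false

namespace Pool.Agent.Lib.MP_ecd12e_nt.Bar

open Finset Real
open scoped Pointwise

/-- The lower bound on the family count at level `0` of the tower. -/
theorem sumprod_fam {S0 : Set ℝ} {Θ Ψ K v : ℕ} (hΘ : 100 ≤ Θ) (hKΨ : 4 * K ^ 32 * Ψ ≤ Θ)
    {I I' : Finset ℕ} (hI : I.Nonempty) (hI' : I' ⊆ I) {y : ℕ → ℝ} {i0 : ℕ} (hi0 : i0 ∈ I)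
    (hy : ∀ i ∈ I, 3 / 4 ≤ y i ∧ y i ≤ 5 / 4) (hc : I.card ≤ 2 * K ^ 32 * I'.card)
    (hS : ∀ i ∈ I', y i / y i0 - 1 ∈ S0)
    (hfib : ∀ i ∈ I, (I.filter (fun i' =>
      |y i' - y i| ≤ 2 * ((Θ : ℝ))⁻¹ ^ (2 * v))).card * Θ ^ v ≤ Ψ * I.card) :
    Θ ^ v ≤ Θ * NN S0 Θ 0 (2 * v) := by
  classical
  have hΘ0 : (0 : ℝ) < Θ := by exact_mod_cast (by omega : 0 < Θ)
  set d : ℝ := ((Θ : ℝ))⁻¹ ^ (2 * v) with hd
  have hd0 : 0 < d := by positivity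
  set s : ℕ → ℝ := fun i => y i / y i0 - 1 with hs
  obtain ⟨h01, h02⟩ := hy i0 hi0
  have hy0 : 0 < y i0 := by linarith
  obtain ⟨A', hA', hsep, hcard⟩ := exists_sep (I'.image s) hd0
  have hfam : Fam S0 Θ 0 (2 * v) A' := by
    refine ⟨fun x hx => ?_, hsep⟩
    obtain ⟨i, hi, rfl⟩ := mem_image.1 (hA' hx)
    refine ⟨hS i hi, ?_⟩
    obtain ⟨h1, h2⟩ := hy i (hI' hi)
    rw [pow_zero, abs_le]
    have e1 : 0 ≤ y i / y i0 := by positivity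
    have e2 : y i / y i0 ≤ 2 := by
      rw [div_le_iff₀ hy0]
      linarith
    constructor
    · simp only [hs]
      linarith
    · simp only [hs]
      linarith
  have hNN := hfam.le_NN hΘ
  set f : ℕ → ℤ := fun i => ⌊s i / d⌋ with hf
  have himg : (I'.image s).image (fun x => ⌊x / d⌋) = I'.image f := by
    rw [image_image]
    rfl
  rw [himg] at hcard
  have hfibre : ∀ c ∈ I'.image f, (I'.filter (fun i => f i = c)).card * Θ ^ v ≤ Ψ * I.card := by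
    intro c hc'
    obtain ⟨i, hi, rfl⟩ := mem_image.1 hc'
    refine le_trans (Nat.mul_le_mul_right _ (card_le_card ?_)) (hfib i (hI' hi))
    intro i' hi'
    obtain ⟨hi1, hi2⟩ := mem_filter.1 hi'
    refine mem_filter.2 ⟨hI' hi1, ?_⟩
    have h1 : |s i' / d - s i / d| < 1 := Int.abs_sub_lt_one_of_floor_eq_floor hi2
    have h2 : s i' / d - s i / d = (y i' - y i) / (y i0 * d) := by
      simp only [hs]
      field_simp
      ring
    rw [h2, abs_div, abs_of_pos (mul_pos hy0 hd0), div_lt_one (mul_pos hy0 hd0)] at h1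
    nlinarith
  have hsum : I'.card * Θ ^ v ≤ (I'.image f).card * (Ψ * I.card) := by
    rw [card_eq_sum_card_image f I', sum_mul]
    calc ∑ c ∈ I'.image f, (I'.filter (fun i => f i = c)).card * Θ ^ v
        ≤ ∑ _c ∈ I'.image f, Ψ * I.card := sum_le_sum hfibre
      _ = (I'.image f).card * (Ψ * I.card) := by rw [sum_const, smul_eq_mul]
  have hIpos : 0 < I.card := card_pos.2 hI
  have key : Θ ^ v * I.card ≤ (Θ * NN S0 Θ 0 (2 * v)) * I.card := by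
    calc Θ ^ v * I.card ≤ Θ ^ v * (2 * K ^ 32 * I'.card) := Nat.mul_le_mul_left _ hc
      _ = 2 * K ^ 32 * (I'.card * Θ ^ v) := by ring
      _ ≤ 2 * K ^ 32 * ((I'.image f).card * (Ψ * I.card)) := Nat.mul_le_mul_left _ hsum
      _ ≤ 2 * K ^ 32 * ((2 * NN S0 Θ 0 (2 * v)) * (Ψ * I.card)) := by
          apply Nat.mul_le_mul_left
          apply Nat.mul_le_mul_right
          omega
      _ = (4 * K ^ 32 * Ψ) * NN S0 Θ 0 (2 * v) * I.card := by ring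
      _ ≤ Θ * NN S0 Θ 0 (2 * v) * I.card :=
          Nat.mul_le_mul_right _ (Nat.mul_le_mul_right _ hKΨ)
  exact Nat.le_of_mul_le_mul_right key hIpos

/-- Discretised sum-product in energy form. Take `n0`, `J` from `growth`,
`C = 488 * 3 ^ (J + 1) + 100`, `Θ = Ψ ^ 4`, and `H, i0, I'` from `exists_group`. With
`L = K ^ 488`, `G = H - H`, the numbers `s i = y i / y i0 - 1` (`|s i| ≤ 1`) are `L^3`-good
(`good_one`, `Good.sub`); use the tower `tower_good` for `L ^ 3`. For `2v ≤ n` the map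
`i ↦ ⌊s i / Θ⁻¹ ^ (2v)⌋` on `I'` has fibres of size at most `Ψ |I| / Θ^v` (equal floors give
`|y i - y i'| ≤ 2 Θ⁻¹ ^ (2v)`), so `exists_sep` gives a family with at least
`Θ^v / (4 K^32 Ψ) ≥ Θ^(v-1)` points. `growth` gives `A ⊆ S J`; `count_good` with
`L' = (L^3)^(3^J)`, `d = Θ⁻¹ ^ n`, `F = Θ^n` (near count: `near * Ψ ≤ K |H0| ≤ K^9 |H|` and
`2 L' K^9 ≤ Ψ`) gives `|A| ≤ 10 L'^2 K^64 |H0| ≤ Θ |H0|`. -/
theorem sum_product : ∃ n0 : ℕ, ∀ n ≥ n0, ∃ C : ℕ, ∀ (K Ψ : ℕ), 1000 ≤ K → K ^ C ≤ Ψ →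
    ∀ (H0 : Finset ℤ) (I : Finset ℕ) (y : ℕ → ℝ), H0.Nonempty → I.Nonempty →
    (∀ i ∈ I, 3 / 4 ≤ y i ∧ y i ≤ 5 / 4) →
    (∀ i ∈ I, H0.card ^ 3 ≤ K * enr H0 H0 (y i) 16) →
    (∀ v, 2 * v ≤ n → ∀ i ∈ I, (I.filter (fun i' =>
      |y i' - y i| ≤ 2 * (((Ψ ^ 4 : ℕ) : ℝ))⁻¹ ^ (2 * v))).card * (Ψ ^ 4) ^ v ≤ Ψ * I.card) →
    (∀ h ∈ H0, (H0.filter (fun h' : ℤ => |(h' : ℝ) - h| < ((Ψ ^ 4 : ℕ) : ℝ) ^ n)).card * Ψ
      ≤ K * H0.card) →
    (Ψ ^ 4) ^ (9 * n) ≤ (Ψ ^ 4 * H0.card) ^ 10 := by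
  classical
  obtain ⟨n0, hgrow⟩ := growth
  refine ⟨n0, fun n hn => ?_⟩
  obtain ⟨J, hJ⟩ := hgrow n hn
  refine ⟨488 * 3 ^ (J + 1) + 100, ?_⟩
  intro K Ψ hK hKΨ H0 I y hH0 hI hy hE hfib hnear
  have hK1 : 1 ≤ K := by omega
  have hpow : ∀ a, a ≤ 488 * 3 ^ (J + 1) + 100 → K ^ a ≤ Ψ := fun a ha =>
    le_trans (Nat.pow_le_pow_right hK1 ha) hKΨ
  have hΨ : 1000 ≤ Ψ := by
    have := hpow 1 (by omega)
    rw [pow_one] at this
    omega
  have hΨ1 : 1 ≤ Ψ := by omega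
  have hΨΘ : ∀ a, a ≤ 4 → Ψ ^ a ≤ Ψ ^ 4 := fun a ha => Nat.pow_le_pow_right hΨ1 ha
  have hΘ : 100 ≤ Ψ ^ 4 := by
    have := hΨΘ 1 (by omega)
    rw [pow_one] at this
    omega
  generalize hΘdef : Ψ ^ 4 = Θ at *
  have hΘ0 : (0 : ℝ) < Θ := by exact_mod_cast (by omega : 0 < Θ)
  have hKr : (1000 : ℝ) ≤ K := by exact_mod_cast hK
  have hKr1 : (1 : ℝ) ≤ K := by linarith
  obtain ⟨H, hHH0, i0, hi0, I', hI', hc1, hc2, hG, hc3, hgood⟩ :=
    exists_group H0 hH0 I hI y hKr hy (fun i hi => by exact_mod_cast hE i hi)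
  set L : ℝ := (K : ℝ) ^ 488 with hL
  have hL80 : (K : ℝ) ^ 80 ≤ L := pow_le_pow_right₀ hKr1 (by norm_num)
  have hL2 : 2 ≤ L := by
    have : (K : ℝ) ^ 1 ≤ L := pow_le_pow_right₀ hKr1 (by norm_num)
    rw [pow_one] at this
    linarith
  have hL1 : 1 ≤ L := by linarith
  have hL3 : L ≤ L ^ 3 := by
    have : L ^ 1 ≤ L ^ 3 := pow_le_pow_right₀ hL1 (by norm_num)
    rwa [pow_one] at this
  have hT := tower_good (L := L ^ 3) hG (hL80.trans hL3) (hL2.trans hL3)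
  have h4 : 4 * K ^ 32 * Ψ ≤ Θ := by
    have e1 : K ^ 33 ≤ Ψ := hpow 33 (by omega)
    have e2 : 4 * K ^ 32 ≤ K ^ 33 := by
      rw [pow_succ K 32, mul_comm]
      exact Nat.mul_le_mul_left _ (by omega)
    have e3 := hΨΘ 2 (by omega)
    calc 4 * K ^ 32 * Ψ ≤ Ψ * Ψ := Nat.mul_le_mul_right _ (e2.trans e1)
      _ = Ψ ^ 2 := by ring
      _ ≤ Θ := e3
  obtain ⟨A, hAS, hAsep, hAc⟩ := hJ Θ _ hΘ hT (fun v hv =>
    sumprod_fam (K := K) hΘ h4 hI hI' hi0 hy (by exact_mod_cast hc2)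
      (fun i hi => by
        have := Good.sub hG hL80 hL2 (hgood i hi) (good_one (H - H) hL1)
        simpa using this) (hfib v hv))
  have hH0pos : (0 : ℝ) < H0.card := by exact_mod_cast card_pos.2 hH0
  have hHne : H.Nonempty := by
    rw [← card_pos]
    by_contra h0
    have : H.card = 0 := by omega
    rw [this] at hc1
    simp only [Nat.cast_zero, mul_zero] at hc1
    linarith
  set L' : ℝ := (L ^ 3) ^ (3 ^ J) with hL'
  have hL'eq : L' = (K : ℝ) ^ (488 * 3 ^ (J + 1)) := by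
    rw [hL', hL, ← pow_mul, ← pow_mul]
    congr 1
    ring
  have hL'1 : 1 ≤ L' := by
    rw [hL'eq]
    exact one_le_pow₀ hKr1
  have hL'Ψ : L' * (K : ℝ) ^ 10 ≤ Ψ := by
    rw [hL'eq, ← pow_add]
    exact_mod_cast hpow _ (by omega)
  have hK9 : (0 : ℝ) < (K : ℝ) ^ 9 := by positivity
  have hcount := count_good H hHne A (L := L') (d := ((Θ : ℝ))⁻¹ ^ n) (F := (Θ : ℝ) ^ n) hL'1
    (by positivity) (by rw [← mul_pow, inv_mul_cancel₀ hΘ0.ne', one_pow]) hAsep hAS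
    (fun h hh => by
      have e1 := hnear h (hHH0 hh)
      have e2 : (H.filter (fun h' : ℤ => |(h' : ℝ) - h| < (Θ : ℝ) ^ n)).card ≤
          (H0.filter (fun h' : ℤ => |(h' : ℝ) - h| < (Θ : ℝ) ^ n)).card :=
        card_le_card (filter_subset_filter _ hHH0)
      have e3 : ((H.filter (fun h' : ℤ => |(h' : ℝ) - h| < (Θ : ℝ) ^ n)).card : ℝ) * Ψ
          ≤ K * H0.card := by exact_mod_cast le_trans (Nat.mul_le_mul_right _ e2) e1
      generalize ((H.filter (fun h' : ℤ => |(h' : ℝ) - h| < (Θ : ℝ) ^ n)).card) = m at e3 ⊢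
      have hm : (0 : ℝ) ≤ m := Nat.cast_nonneg m
      have e4 : 2 * L' * (K : ℝ) ^ 9 ≤ Ψ := by
        have : 2 * L' * (K : ℝ) ^ 9 ≤ L' * (K : ℝ) ^ 10 := by
          rw [pow_succ (K : ℝ) 9]
          have : 0 ≤ L' * (K : ℝ) ^ 9 := by positivity
          nlinarith
        linarith
      refine le_of_mul_le_mul_right ?_ hK9
      calc (m : ℝ) * (2 * L') * (K : ℝ) ^ 9 = (m : ℝ) * (2 * L' * (K : ℝ) ^ 9) := by ring
        _ ≤ (m : ℝ) * Ψ := mul_le_mul_of_nonneg_left e4 hm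
        _ ≤ (K : ℝ) * H0.card := e3
        _ ≤ (K : ℝ) * ((K : ℝ) ^ 8 * H.card) := mul_le_mul_of_nonneg_left hc1 (by linarith)
        _ = (H.card : ℝ) * (K : ℝ) ^ 9 := by ring)
  have hfin : (A.card : ℝ) ≤ Θ * H0.card := by
    have e1 : L' ≤ Ψ := by
      have : (1 : ℝ) ≤ (K : ℝ) ^ 10 := one_le_pow₀ hKr1
      nlinarith
    have e2 : 10 * (K : ℝ) ^ 64 ≤ Ψ := by
      have f1 : (K : ℝ) ^ 65 ≤ Ψ := by exact_mod_cast hpow 65 (by omega)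
      have f2 : 10 * (K : ℝ) ^ 64 ≤ (K : ℝ) ^ 65 := by
        rw [pow_succ (K : ℝ) 64, mul_comm]
        exact mul_le_mul_of_nonneg_left (by linarith) (by positivity)
      linarith
    have e3 : (Ψ : ℝ) ^ 3 ≤ Θ := by exact_mod_cast hΨΘ 3 (by omega)
    have hΨ0 : (0 : ℝ) ≤ Ψ := Nat.cast_nonneg Ψ
    have e4 : L' ^ 2 ≤ (Ψ : ℝ) ^ 2 := pow_le_pow_left₀ (by linarith) e1 2
    calc (A.card : ℝ) ≤ 10 * L' ^ 2 * ((H - H) - (H - H)).card := hcount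
      _ ≤ 10 * L' ^ 2 * ((K : ℝ) ^ 64 * H0.card) :=
          mul_le_mul_of_nonneg_left hc3 (by positivity)
      _ = (L' ^ 2 * (10 * (K : ℝ) ^ 64)) * H0.card := by ring
      _ ≤ ((Ψ : ℝ) ^ 2 * Ψ) * H0.card :=
          mul_le_mul_of_nonneg_right (mul_le_mul e4 e2 (by positivity) (by positivity)) hH0pos.le
      _ = (Ψ : ℝ) ^ 3 * H0.card := by ring
      _ ≤ Θ * H0.card := mul_le_mul_of_nonneg_right e3 hH0pos.le
  have hfin' : A.card ≤ Θ * H0.card := by exact_mod_cast hfin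
  exact hAc.trans (Nat.pow_le_pow_left hfin' 10)

end Pool.Agent.Lib.MP_ecd12e_nt.Bar
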