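import Pool.Agent.Lib.MP_ecd12e_nt.Bar.Defs

set_option autoImplicit false

namespace Pool.Agent.Lib.MP_ecd12e_nt.Bar

open Finset Real
open scoped Pointwise

/-- The weight attached to the stationary point `mu`. -/
noncomputable def wt (g : ℝ → ℝ) (rho mu : ℕ) (u : ℝ) : ℂ :=
  (g (u / (2 * π * mu)) : ℂ) * gauss rho mu u / ((2 * rho + 1 : ℕ) : ℂ)

lemma cutoff_card (rho : ℕ) : (Icc (-(rho : ℤ)) rho).card = 2 * rho + 1 := by
  rw [Int.card_Icc]
  omega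

lemma cutoff_gauss_le (rho mu : ℕ) (u : ℝ) : ‖gauss rho mu u‖ ≤ ((2 * rho + 1 : ℕ) : ℝ) := by
  unfold gauss
  refine (norm_sum_le _ _).trans ?_
  simp only [norm_ei, sum_const, nsmul_eq_mul, mul_one, cutoff_card, le_refl]

lemma cutoff_gauss_sub (rho mu : ℕ) (u u' D : ℝ)
    (hD : ∀ j ∈ Icc (-(rho : ℤ)) rho,
      |(-(2 * π ^ 2 * (mu : ℝ) ^ 2 * (j : ℝ) ^ 2 / u)) -
        (-(2 * π ^ 2 * (mu : ℝ) ^ 2 * (j : ℝ) ^ 2 / u'))| ≤ D) :
    ‖gauss rho mu u - gauss rho mu u'‖ ≤ ((2 * rho + 1 : ℕ) : ℝ) * D := by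
  unfold gauss
  rw [← sum_sub_distrib]
  refine (norm_sum_le _ _).trans ?_
  refine (sum_le_sum fun j hj => (norm_ei_sub_ei_le _ _).trans (hD j hj)).trans ?_
  simp only [sum_const, nsmul_eq_mul, cutoff_card, le_refl]

theorem wt_norm_le {N : ℕ} {l : ℝ} {g : ℝ → ℝ} (hg : Cut N l g) (rho mu : ℕ) (u : ℝ) :
    ‖wt g rho mu u‖ ≤ 1 := by
  unfold wt
  have hpos : (0 : ℝ) < ((2 * rho + 1 : ℕ) : ℝ) := by positivity
  rw [norm_div, norm_mul, Complex.norm_natCast, div_le_one hpos, Complex.norm_real,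
    Real.norm_eq_abs, abs_of_nonneg (hg.nonneg _)]
  calc g (u / (2 * π * mu)) * ‖gauss rho mu u‖ ≤ 1 * ((2 * rho + 1 : ℕ) : ℝ) :=
        mul_le_mul (hg.le_one _) (cutoff_gauss_le _ _ _) (norm_nonneg _) zero_le_one
    _ = _ := one_mul _

lemma cutoff_wt_sub {g : ℝ → ℝ} (rho mu : ℕ) (u u' D E : ℝ)
    (h0 : 0 ≤ g (u' / (2 * π * mu))) (h1 : g (u' / (2 * π * mu)) ≤ 1)
    (hE : |g (u / (2 * π * mu)) - g (u' / (2 * π * mu))| ≤ E)
    (hD : ‖gauss rho mu u - gauss rho mu u'‖ ≤ ((2 * rho + 1 : ℕ) : ℝ) * D) :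
    ‖wt g rho mu u - wt g rho mu u'‖ ≤ E + D := by
  unfold wt
  have hpos : (0 : ℝ) < ((2 * rho + 1 : ℕ) : ℝ) := by positivity
  rw [← sub_div, norm_div, Complex.norm_natCast, div_le_iff₀ hpos]
  set a := g (u / (2 * π * mu))
  set b := g (u' / (2 * π * mu))
  have e1 : (a : ℂ) * gauss rho mu u - (b : ℂ) * gauss rho mu u'
      = ((a - b : ℝ) : ℂ) * gauss rho mu u + (b : ℂ) * (gauss rho mu u - gauss rho mu u') := by
    push_cast
    ring
  rw [e1]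
  refine (norm_add_le _ _).trans ?_
  rw [norm_mul, norm_mul, Complex.norm_real, Complex.norm_real, Real.norm_eq_abs,
    Real.norm_eq_abs, abs_of_nonneg h0]
  have h2 : |a - b| * ‖gauss rho mu u‖ ≤ E * ((2 * rho + 1 : ℕ) : ℝ) :=
    mul_le_mul hE (cutoff_gauss_le _ _ _) (norm_nonneg _) ((abs_nonneg _).trans hE)
  have h3 : b * ‖gauss rho mu u - gauss rho mu u'‖ ≤ 1 * (((2 * rho + 1 : ℕ) : ℝ) * D) :=
    mul_le_mul h1 hD (norm_nonneg _) zero_le_one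
  calc _ ≤ E * ((2 * rho + 1 : ℕ) : ℝ) + 1 * (((2 * rho + 1 : ℕ) : ℝ) * D) := add_le_add h2 h3
    _ = _ := by ring

lemma cutoff_phase {c u u' V d : ℝ} (hc : 0 ≤ c) (hV : 0 < V) (hu : V ≤ u) (hu' : V ≤ u')
    (hd : |u - u'| ≤ d) : |(-(c / u)) - (-(c / u'))| ≤ c * d / (V * V) := by
  have h1 : 0 < u := lt_of_lt_of_le hV hu
  have h2 : 0 < u' := lt_of_lt_of_le hV hu'
  have e1 : (-(c / u)) - (-(c / u')) = c * (u - u') / (u * u') := by
    field_simp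
    ring
  rw [e1, abs_div, abs_mul, abs_of_nonneg hc, abs_of_pos (mul_pos h1 h2)]
  have h3 : V * V ≤ u * u' := mul_le_mul hu hu' hV.le h1.le
  exact div_le_div₀ (mul_nonneg hc ((abs_nonneg _).trans hd))
    (mul_le_mul_of_nonneg_left hd hc) (mul_pos hV hV) h3

lemma cutoff_two_pi_mu {mu : ℕ} (h : 1 ≤ mu) : (1 : ℝ) ≤ 2 * π * mu := by
  have h1 : (1 : ℝ) ≤ mu := by exact_mod_cast h
  have h2 := Real.pi_gt_three
  nlinarith

lemma cutoff_div_sub {mu : ℕ} (h : 1 ≤ mu) (u v : ℝ) :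
    |u / (2 * π * mu) - v / (2 * π * mu)| ≤ |u - v| := by
  have h1 := cutoff_two_pi_mu h
  rw [← sub_div, abs_div, abs_of_pos (by linarith : (0 : ℝ) < 2 * π * mu)]
  exact div_le_self (abs_nonneg _) h1

/-- `|g x - g x'| ≤ th ^ (-21)` and each phase of the Gaussian sum moves by at most
`2π^2 th^2 rho^2 |u - u'| / (u u') ≤ 20 th ^ (10 + X - 2k)`. -/
theorem wt_slow {th k X N mu : ℕ} {g : ℝ → ℝ} (hth : 1000 ≤ th) (hX : X + 32 ≤ 2 * k)
    (hg : Cut N ((th : ℝ) ^ (X + 21)) g) (hmu : mu ∈ Icc 1 th) (u u' : ℝ)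
    (hu : (th : ℝ) ^ (2 * k) ≤ u) (hu' : (th : ℝ) ^ (2 * k) ≤ u') (huu : |u - u'| ≤ (th : ℝ) ^ X) :
    ‖wt g (th ^ (k + 4)) mu u - wt g (th ^ (k + 4)) mu u'‖ * (th : ℝ) ^ 20 ≤ 1 := by
  obtain ⟨hmu1, hmu2⟩ := mem_Icc.1 hmu
  have hT : (1000 : ℝ) ≤ th := by exact_mod_cast hth
  have hT0 : (0 : ℝ) < th := by linarith
  have hT1 : (1 : ℝ) ≤ th := by linarith
  have hE : |g (u / (2 * π * mu)) - g (u' / (2 * π * mu))| ≤ 1 / (th : ℝ) ^ 21 := by
    have h1 := (hg.lip (u / (2 * π * mu)) (u' / (2 * π * mu))).trans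
      ((cutoff_div_sub hmu1 u u').trans huu)
    rw [pow_add, ← mul_assoc, mul_right_comm] at h1
    rw [le_div_iff₀ (by positivity)]
    have h2 : (0 : ℝ) < (th : ℝ) ^ X := by positivity
    exact le_of_mul_le_mul_right (h1.trans_eq (one_mul _).symm) h2
  have hD : ‖gauss (th ^ (k + 4)) mu u - gauss (th ^ (k + 4)) mu u'‖
      ≤ ((2 * th ^ (k + 4) + 1 : ℕ) : ℝ) * (32 / (th : ℝ) ^ 22) := by
    refine cutoff_gauss_sub _ _ _ _ _ fun j hj => ?_
    have hV : (0 : ℝ) < (th : ℝ) ^ (2 * k) := by positivity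
    refine (cutoff_phase (by positivity) hV hu hu' huu).trans ?_
    have hj2 : (j : ℝ) ^ 2 ≤ ((th : ℝ) ^ (k + 4)) ^ 2 := by
      obtain ⟨h1, h2⟩ := mem_Icc.1 hj
      have h1' : -((th : ℝ) ^ (k + 4)) ≤ j := by exact_mod_cast h1
      have h2' : (j : ℝ) ≤ (th : ℝ) ^ (k + 4) := by exact_mod_cast h2
      exact sq_le_sq' h1' h2'
    have hm2 : (mu : ℝ) ^ 2 ≤ (th : ℝ) ^ 2 := by
      have : (mu : ℝ) ≤ th := by exact_mod_cast hmu2
      exact pow_le_pow_left₀ (Nat.cast_nonneg _) this 2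
    have hp2 : π ^ 2 ≤ 16 := by
      have h1 := Real.pi_le_four
      have h2 := Real.pi_pos
      nlinarith
    have hc : 2 * π ^ 2 * (mu : ℝ) ^ 2 * (j : ℝ) ^ 2
        ≤ 2 * 16 * (th : ℝ) ^ 2 * ((th : ℝ) ^ (k + 4)) ^ 2 := by gcongr
    rw [div_le_div_iff₀ (by positivity) (by positivity)]
    have hpw : (th : ℝ) ^ (X + 32) ≤ (th : ℝ) ^ (2 * k) := pow_le_pow_right₀ hT1 hX
    calc 2 * π ^ 2 * (mu : ℝ) ^ 2 * (j : ℝ) ^ 2 * (th : ℝ) ^ X * (th : ℝ) ^ 22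
        ≤ 2 * 16 * (th : ℝ) ^ 2 * ((th : ℝ) ^ (k + 4)) ^ 2 * (th : ℝ) ^ X * (th : ℝ) ^ 22 := by
          gcongr
      _ = 32 * ((th : ℝ) ^ (2 * k) * (th : ℝ) ^ (X + 32)) := by ring
      _ ≤ 32 * ((th : ℝ) ^ (2 * k) * (th : ℝ) ^ (2 * k)) := by gcongr
  have h := cutoff_wt_sub (th ^ (k + 4)) mu u u' _ _ (hg.nonneg _) (hg.le_one _) hE hD
  refine (mul_le_mul_of_nonneg_right h (by positivity)).trans ?_
  have e1 : (1 / (th : ℝ) ^ 21 + 32 / (th : ℝ) ^ 22) * (th : ℝ) ^ 20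
      = ((th : ℝ) + 32) / (th : ℝ) ^ 2 := by
    field_simp
  rw [e1, div_le_one (by positivity)]
  nlinarith

/-- At most `5 l` natural numbers lie within `2 l` of a given real. -/
lemma cutoff_near (l : ℕ) (hl : 1 ≤ l) (y : ℝ) (S : Finset ℕ) :
    (S.filter (fun n : ℕ => |y - n| ≤ 2 * l)).card ≤ 5 * l := by
  have hsub : S.filter (fun n : ℕ => |y - n| ≤ 2 * l)
      ⊆ Icc ⌈y - 2 * l⌉₊ (⌈y - 2 * l⌉₊ + 4 * l) := by
    intro n hn
    obtain ⟨h1, h2⟩ := abs_le.1 (mem_filter.1 hn).2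
    refine mem_Icc.2 ⟨Nat.ceil_le.2 (by linarith), ?_⟩
    have h3 := Nat.le_ceil (y - 2 * l)
    have h4 : (n : ℝ) ≤ ((⌈y - 2 * l⌉₊ + 4 * l : ℕ) : ℝ) := by
      push_cast
      linarith
    exact_mod_cast h4
  refine (card_le_card hsub).trans ?_
  rw [Nat.card_Icc]
  omega

/-- The number of triples whose point lies within `r` of `x`. -/
noncomputable def cutoffCnt (th : ℕ) (W : Finset ℕ) (r x : ℝ) : ℕ :=
  (((W ×ˢ W) ×ˢ Icc 1 th).filter (fun q : (ℕ × ℕ) × ℕ =>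
    |((q.1.1 : ℝ) - q.1.2) / (2 * π * q.2) - x| ≤ r)).card

lemma cutoff_popular (th l : ℕ) (hth : 1 ≤ th) (hl : 1 ≤ l) (W S : Finset ℕ) :
    ((S.filter (fun n : ℕ => th ^ 4 * l < cutoffCnt th W (2 * l) n)).card : ℝ) ≤
      5 * W.card ^ 2 / th ^ 3 := by
  set P := S.filter (fun n : ℕ => th ^ 4 * l < cutoffCnt th W (2 * l) n) with hP
  have h1 : P.card * (th ^ 4 * l) ≤ ∑ n ∈ P, cutoffCnt th W (2 * l) n := by
    rw [← smul_eq_mul]
    exact card_nsmul_le_sum _ _ _ fun n hn => (mem_filter.1 hn).2.le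
  have h2 : ∑ n ∈ P, cutoffCnt th W (2 * l) n ≤ ((W ×ˢ W) ×ˢ Icc 1 th).card * (5 * l) := by
    refine (sum_card_bipartiteAbove_eq_sum_card_bipartiteBelow
      (s := (W ×ˢ W) ×ˢ Icc 1 th) (t := P)
      (r := fun (q : (ℕ × ℕ) × ℕ) (n : ℕ) =>
        |((q.1.1 : ℝ) - q.1.2) / (2 * π * q.2) - n| ≤ 2 * l)).symm.le.trans ?_
    rw [← smul_eq_mul]
    exact sum_le_card_nsmul _ _ _ fun q _ => cutoff_near l hl _ P
  have h3 : ((W ×ˢ W) ×ˢ Icc 1 th).card = W.card ^ 2 * th := by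
    rw [card_product, card_product, Nat.card_Icc]
    simp [sq]
  rw [h3] at h2
  have h4 : P.card * th ^ 3 * (th * l) ≤ 5 * W.card ^ 2 * (th * l) := by
    calc P.card * th ^ 3 * (th * l) = P.card * (th ^ 4 * l) := by ring
      _ ≤ W.card ^ 2 * th * (5 * l) := h1.trans h2
      _ = _ := by ring
  have h5 : P.card * th ^ 3 ≤ 5 * W.card ^ 2 := Nat.le_of_mul_le_mul_right h4 (by positivity)
  rw [le_div_iff₀ (by positivity)]
  exact_mod_cast h5

lemma cutoff_cnt_mono (th : ℕ) (W : Finset ℕ) {r x y : ℝ} (h : |x - y| ≤ r) :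
    cutoffCnt th W r y ≤ cutoffCnt th W (2 * r) x := by
  unfold cutoffCnt
  refine card_le_card fun q hq => ?_
  obtain ⟨h1, h2⟩ := mem_filter.1 hq
  refine mem_filter.2 ⟨h1, ?_⟩
  obtain ⟨a1, a2⟩ := abs_le.1 h
  obtain ⟨b1, b2⟩ := abs_le.1 h2
  exact abs_le.2 ⟨by linarith, by linarith⟩

/-- The cutoff that avoids the popular points. Let `cnt x` be the number of
`(t, s, μ) ∈ W × W × [1, th]` with `|(t - s) / (2πμ) - x| ≤ l`, `Bad` the set of `x` with `x ≤ N`,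
`2N ≤ x` or `cnt x > th ^ 4 l`, and `g x = min 1 (Metric.infDist x Bad / l)`
(`Metric.lipschitz_infDist_pt`, `Metric.infDist_lt_iff`, `Metric.infDist_zero_of_mem`). If
`g n < 1` then `n < N + l`, or `n > 2N - l`, or more than `th ^ 4 l` triples lie within `2l` of
`n`; each triple is within `2 l` of at most `4 l + 1 ≤ 5 l` integers. -/
theorem exists_cut (N th l : ℕ) (hth : 1 ≤ th) (hl : 1 ≤ l) (W : Finset ℕ) :
    ∃ g : ℝ → ℝ, Cut N l g ∧
      (((Icc N (2 * N)).filter (fun n : ℕ => g n < 1)).card : ℝ) ≤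
        2 * l + 5 * W.card ^ 2 / th ^ 3 ∧
      ∀ mu ∈ Icc 1 th, ∀ u0 : ℝ, g (u0 / (2 * π * mu)) ≠ 0 →
        ((W ×ˢ W).filter (fun p : ℕ × ℕ => |((p.1 : ℝ) - p.2) - u0| ≤ l)).card ≤ th ^ 4 * l := by
  have hl0 : (0 : ℝ) < l := by exact_mod_cast hl
  set Bad : Set ℝ := {x | x ≤ N ∨ 2 * (N : ℝ) ≤ x ∨ th ^ 4 * l < cutoffCnt th W l x} with hBad
  have hne : Bad.Nonempty := ⟨N, Or.inl le_rfl⟩
  have hzero : ∀ x ∈ Bad, min 1 (Metric.infDist x Bad / l) = 0 := by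
    intro x hx
    rw [Metric.infDist_zero_of_mem hx, zero_div]
    exact min_eq_right zero_le_one
  refine ⟨fun x => min 1 (Metric.infDist x Bad / l), ⟨?_, ?_, ?_, ?_, ?_⟩, ?_, ?_⟩
  · intro x
    exact le_min zero_le_one (div_nonneg Metric.infDist_nonneg hl0.le)
  · intro x
    exact min_le_left _ _
  · intro x y
    have h1 : |min 1 (Metric.infDist x Bad / l) - min 1 (Metric.infDist y Bad / l)|
        ≤ |Metric.infDist x Bad / l - Metric.infDist y Bad / l| := by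
      simpa using abs_min_sub_min_le_max (1 : ℝ) (Metric.infDist x Bad / l) 1
        (Metric.infDist y Bad / l)
    have h2 : |Metric.infDist x Bad - Metric.infDist y Bad| ≤ |x - y| := by
      simpa [Real.dist_eq] using (Metric.lipschitz_infDist_pt Bad).dist_le_mul x y
    rw [← sub_div, abs_div, abs_of_pos hl0, le_div_iff₀ hl0] at h1
    exact h1.trans h2
  · intro x hx
    exact hzero x (Or.inl (by exact_mod_cast hx))
  · intro x hx
    exact hzero x (Or.inr (Or.inl hx))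
  · have hsub : (Icc N (2 * N)).filter (fun n : ℕ => min 1 (Metric.infDist (n : ℝ) Bad / l) < 1)
        ⊆ (Ico N (N + l) ∪ Ioc (2 * N - l) (2 * N)) ∪
          (Icc N (2 * N)).filter (fun n : ℕ => th ^ 4 * l < cutoffCnt th W (2 * l) n) := by
      intro n hn
      obtain ⟨hn1, hn2⟩ := mem_filter.1 hn
      obtain ⟨hn3, hn4⟩ := mem_Icc.1 hn1
      have h1 : Metric.infDist (n : ℝ) Bad < l := by
        rcases min_lt_iff.1 hn2 with h | h
        · exact absurd h (lt_irrefl _)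
        · exact (div_lt_one hl0).1 h
      obtain ⟨y, hy, hd⟩ := (Metric.infDist_lt_iff hne).1 h1
      rw [Real.dist_eq] at hd
      obtain ⟨a1, a2⟩ := abs_lt.1 hd
      simp only [mem_union, mem_Ico, mem_Ioc, mem_filter]
      rcases hy with hy | hy | hy
      · have : n < N + l := by
          have : (n : ℝ) < N + l := by linarith
          exact_mod_cast this
        exact Or.inl (Or.inl ⟨hn3, this⟩)
      · have : 2 * N < n + l := by
          have : 2 * (N : ℝ) < n + l := by linarith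
          exact_mod_cast this
        by_cases c : n < N + l
        · exact Or.inl (Or.inl ⟨hn3, c⟩)
        · exact Or.inl (Or.inr ⟨by omega, hn4⟩)
      · exact Or.inr ⟨hn1, hy.trans_le (cutoff_cnt_mono th W hd.le)⟩
    have h1 := (card_le_card hsub).trans (card_union_le _ _)
    have h2 : (Ico N (N + l) ∪ Ioc (2 * N - l) (2 * N)).card
        ≤ 2 * l := by
      refine (card_union_le _ _).trans ?_
      rw [Nat.card_Ico, Nat.card_Ioc]
      omega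
    have h3 := cutoff_popular th l hth hl W (Icc N (2 * N))
    have h4 := h1.trans (Nat.add_le_add_right h2 _)
    have h5 : (((Icc N (2 * N)).filter
        (fun n : ℕ => min 1 (Metric.infDist (n : ℝ) Bad / l) < 1)).card : ℝ) ≤ 2 * l +
          (((Icc N (2 * N)).filter
            (fun n : ℕ => th ^ 4 * l < cutoffCnt th W (2 * l) n)).card : ℝ) := by
      exact_mod_cast h4
    linarith
  · intro mu hmu u0 h0
    have hnb : u0 / (2 * π * mu) ∉ Bad := fun h => h0 (hzero _ h)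
    have h1 : cutoffCnt th W l (u0 / (2 * π * mu)) ≤ th ^ 4 * l :=
      not_lt.1 fun h => hnb (Or.inr (Or.inr h))
    refine le_trans ?_ h1
    unfold cutoffCnt
    refine card_le_card_of_injOn (fun p => (p, mu)) (fun p hp => ?_) ?_
    · obtain ⟨h2, h3⟩ := mem_filter.1 (mem_coe.1 hp)
      refine mem_coe.2 (mem_filter.2 ⟨mem_product.2 ⟨h2, hmu⟩, ?_⟩)
      exact (cutoff_div_sub (mem_Icc.1 hmu).1 _ _).trans h3
    · intro p _ q _ h
      exact (Prod.ext_iff.1 h).1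

end Pool.Agent.Lib.MP_ecd12e_nt.Bar
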