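import Mathlib

/-!
Definitions for the proof of the large value bound beyond the three-quarters barrier.
-/

set_option autoImplicit false

namespace Pool.Agent.Lib.MP_ecd12e_nt.Bar

open Finset Real
open scoped Pointwise

/-- `ei x = exp (i x)`. -/
noncomputable def ei (x : ℝ) : ℂ := Complex.exp ((x : ℂ) * Complex.I)

lemma norm_ei (x : ℝ) : ‖ei x‖ = 1 := Complex.norm_exp_ofReal_mul_I x

lemma ei_add (x y : ℝ) : ei (x + y) = ei x * ei y := by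
  unfold ei
  rw [← Complex.exp_add]
  congr 1
  push_cast
  ring

lemma ei_zero : ei 0 = 1 := by simp [ei]

lemma conj_ei (x : ℝ) : (starRingEnd ℂ) (ei x) = ei (-x) := by
  unfold ei
  rw [← Complex.exp_conj]
  congr 1
  simp

lemma ei_ne_zero (x : ℝ) : ei x ≠ 0 := Complex.exp_ne_zero _

lemma ei_two_pi_int (n : ℤ) : ei (2 * π * n) = 1 := by
  unfold ei
  have : ((2 * π * n : ℝ) : ℂ) * Complex.I = n * (2 * π * Complex.I) := by push_cast; ring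
  rw [this]
  exact Complex.exp_int_mul_two_pi_mul_I n

lemma norm_ei_sub_one (x : ℝ) : ‖ei x - 1‖ = 2 * |Real.sin (x / 2)| := by
  have h := Complex.norm_exp_I_mul_ofReal_sub_one x
  unfold ei
  rw [mul_comm, h, norm_mul, Real.norm_eq_abs, Real.norm_eq_abs]
  simp

lemma norm_ei_sub_one_le (x : ℝ) : ‖ei x - 1‖ ≤ |x| := by
  rw [norm_ei_sub_one]
  have := Real.abs_sin_le_abs (x := x / 2)
  rw [abs_div] at this
  simp at this
  linarith

lemma norm_ei_sub_ei_le (x y : ℝ) : ‖ei x - ei y‖ ≤ |x - y| := by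
  have : ei x - ei y = (ei (x - y) - 1) * ei y := by
    rw [sub_mul, ← ei_add]; simp
  rw [this, norm_mul, norm_ei, mul_one]
  exact norm_ei_sub_one_le _

/-- Lower bound: `‖e^{ix} - 1‖ ≥ (2/π) |x|` for `|x| ≤ π`. -/
lemma le_norm_ei_sub_one {x : ℝ} (hx : |x| ≤ π) : 2 / π * |x| ≤ ‖ei x - 1‖ := by
  rw [norm_ei_sub_one]
  have h := Real.mul_abs_le_abs_sin (x := x / 2) (by rw [abs_div]; simp; linarith)
  rw [abs_div] at h
  simp only [abs_two] at h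
  linarith

/-- The points of `W` in the cell number `c` of length `q`. -/
def cell (W : Finset ℕ) (q c : ℕ) : Finset ℕ := W.filter (fun a => a / q = c)

/-- The numbers of the occupied cells of length `q`. -/
def cells (W : Finset ℕ) (q : ℕ) : Finset ℕ := W.image (fun a => a / q)

/-- `W` is uniform at the levels `0, ..., m`: each occupied cell of length `th ^ j` has between
`al j` and `2 * al j` points. -/
def Unif (th m : ℕ) (al : ℕ → ℕ) (W : Finset ℕ) : Prop :=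
  ∀ j ≤ m, ∀ c ∈ cells W (th ^ j),
    al j ≤ (cell W (th ^ j) c).card ∧ (cell W (th ^ j) c).card ≤ 2 * al j

/-- The grid ratio `th` is large. -/
structure Big (th m : ℕ) : Prop where
  h1000 : 1000 ≤ th
  hlog : 10 * (1 + (m : ℝ) * Real.log th) ≤ th

/-- The bilinear form with phase `u log u`. -/
noncomputable def bil (A B : Finset ℕ) (ca cb : ℕ → ℂ) (om : ℝ → ℂ) : ℂ :=
  ∑ a ∈ A, ∑ s ∈ B,
    ca a * cb s * om ((a : ℝ) - s) * ei (((a : ℝ) - s) * Real.log ((a : ℝ) - s))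

/-- The hypotheses of the bilinear estimate together with its failure (`nogain`).
Here `m = 2 * k`, the blocks have length `th ^ (2 * k)`, and `X` is the level up to which the
weight `om` is nearly constant. -/
structure Setup (th k X : ℕ) (al : ℕ → ℕ) (A B : Finset ℕ) (jA jB : ℕ) (ca cb : ℕ → ℂ)
    (om : ℝ → ℂ) : Prop where
  big : Big th (2 * k)
  uA : Unif th (2 * k) al A
  uB : Unif th (2 * k) al B
  hj : jB + 3 ≤ jA
  hjA : jA < th
  blkA : ∀ a ∈ A, a / th ^ (2 * k) = jA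
  blkB : ∀ s ∈ B, s / th ^ (2 * k) = jB
  cardA : A.card ≤ th ^ (k + 1)
  cardB : B.card ≤ th ^ (k + 1)
  hca : ∀ a, ‖ca a‖ ≤ 1
  hcb : ∀ s, ‖cb s‖ ≤ 1
  hom : ∀ u, ‖om u‖ ≤ 1
  slow : ∀ u u' : ℝ, (th : ℝ) ^ (2 * k) ≤ u → (th : ℝ) ^ (2 * k) ≤ u' →
    |u - u'| ≤ (th : ℝ) ^ X → ‖om u - om u'‖ * (th : ℝ) ^ 20 ≤ 1
  flat : ∀ a0 ∈ A, ∀ s0 ∈ B, om ((a0 : ℝ) - s0) ≠ 0 →
    ((A ×ˢ B).filter (fun p : ℕ × ℕ =>
      |((p.1 : ℝ) - p.2) - ((a0 : ℝ) - s0)| ≤ (th : ℝ) ^ (X + 21))).card ≤ th ^ (X + 25)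
  nogain : (th : ℝ) ^ (2 * k) < (th : ℝ) ^ 16 * ‖bil A B ca cb om‖

/-- Discretised logarithm seen from the left end `P * th ^ x` of the level `x` cell `P`. -/
noncomputable def kk (th x P s : ℕ) : ℤ :=
  ⌊(th : ℝ) ^ (x + 21) * Real.log ((P : ℝ) * (th : ℝ) ^ x - s) / (2 * π)⌋

/-- The local exponential sum over the points of `B` in the level `y` cell `Q`, evaluated at the
point `a` of the level `x` cell `P`. -/
noncomputable def loc (th x y : ℕ) (B : Finset ℕ) (θ : ℕ → ℕ → ℂ) (P Q a : ℕ) : ℂ :=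
  ∑ s ∈ cell B (th ^ y) Q,
    θ P s * ei (2 * π * ((a : ℝ) - (P : ℝ) * (th : ℝ) ^ x) * (kk th x P s) / (th : ℝ) ^ (x + 21))

/-- The level `r` cells inside the level `p` cell `Q`, as integers. -/
def zc (th r p : ℕ) (B : Finset ℕ) (Q : ℕ) : Finset ℤ :=
  (cells (cell B (th ^ p) Q) (th ^ r)).image (fun z : ℕ => (z : ℤ))

/-- Number of `(z1, z2, w1, w2)` in `Z × Z × H × H` with `|(z1 - z2) - y (w1 - w2)| ≤ c`. -/
noncomputable def enr (Z H : Finset ℤ) (y c : ℝ) : ℕ :=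
  (((Z ×ˢ Z) ×ˢ (H ×ˢ H)).filter (fun q : (ℤ × ℤ) × (ℤ × ℤ) =>
    |((q.1.1 : ℝ) - q.1.2) - y * ((q.2.1 : ℝ) - q.2.2)| ≤ c)).card

/-- The ratio of the distances from the cell `P` (level `x`) to the cells `Q`, `Q'` (level `p`). -/
noncomputable def lam (th x p P Q Q' : ℕ) : ℝ :=
  ((P : ℝ) * (th : ℝ) ^ x - (Q : ℝ) * (th : ℝ) ^ p) /
    ((P : ℝ) * (th : ℝ) ^ x - (Q' : ℝ) * (th : ℝ) ^ p)

/-- A finite set of reals is `d`-separated. -/
def Sep (d : ℝ) (A : Finset ℝ) : Prop := ∀ x ∈ A, ∀ y ∈ A, x ≠ y → d ≤ |x - y|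

/-- `X` is covered, up to an error `c`, by at most `L` translates of `G`. -/
def Cov (G : Finset ℤ) (L c : ℝ) (X : Set ℝ) : Prop :=
  ∃ T : Finset ℝ, (T.card : ℝ) ≤ L ∧ ∀ x ∈ X, ∃ τ ∈ T, ∃ g ∈ G, |x - τ - (g : ℝ)| ≤ c

/-- `y` is an `L`-good multiplier of `G`. -/
def Good (G : Finset ℤ) (L y : ℝ) : Prop :=
  |y| ≤ L ∧ Cov G L L {x | ∃ g ∈ G, x = y * (g : ℝ)}

/-- `G` is symmetric and `G + G` is covered by `L` translates of `G`. -/
def AppGrp (G : Finset ℤ) (L : ℝ) : Prop :=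
  (∀ g ∈ G, -g ∈ G) ∧ ∃ T : Finset ℤ, (T.card : ℝ) ≤ L ∧
    ∀ g1 ∈ G, ∀ g2 ∈ G, ∃ τ ∈ T, ∃ g ∈ G, g1 + g2 = τ + g

/-- An increasing family of sets of reals, each step closed under one ring operation. -/
structure Tower (S : ℕ → Set ℝ) : Prop where
  mono : ∀ j, ∀ x ∈ S j, x ∈ S (j + 1)
  add : ∀ j, ∀ x ∈ S j, ∀ y ∈ S j, x + y ∈ S (j + 1)
  sub : ∀ j, ∀ x ∈ S j, ∀ y ∈ S j, x - y ∈ S (j + 1)
  mul : ∀ j, ∀ x ∈ S j, ∀ y ∈ S j, x * y ∈ S (j + 1)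

/-- The Gaussian sum attached to the stationary point number `mu`. -/
noncomputable def gauss (rho mu : ℕ) (u : ℝ) : ℂ :=
  ∑ j ∈ Icc (-(rho : ℤ)) rho, ei (-(2 * π ^ 2 * (mu : ℝ) ^ 2 * (j : ℝ) ^ 2 / u))

/-- A cutoff with values in `[0,1]`, Lipschitz constant `1 / l`, vanishing outside `(N, 2N)`. -/
structure Cut (N : ℕ) (l : ℝ) (g : ℝ → ℝ) : Prop where
  nonneg : ∀ x, 0 ≤ g x
  le_one : ∀ x, g x ≤ 1
  lip : ∀ x y, |g x - g y| * l ≤ |x - y|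
  left : ∀ x, x ≤ N → g x = 0
  right : ∀ x, 2 * (N : ℝ) ≤ x → g x = 0

end Pool.Agent.Lib.MP_ecd12e_nt.Bar
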