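import Pool.Agent.Lib.MP_ecd12e_nt.Bar.Defs

set_option autoImplicit false

namespace Pool.Agent.Lib.MP_ecd12e_nt.Bar

open Finset Real
open scoped Pointwise

/-- Duality and the Schur test. -/
lemma ls_dual (A : Finset ℕ) (K : Finset ℤ) (e : ℕ → ℤ → ℂ) (γ : ℤ → ℂ) (D : ℕ → ℕ → ℝ) (R : ℝ)
    (hR : 0 ≤ R) (hsym : ∀ a a', D a a' = D a' a)
    (hD : ∀ a ∈ A, ∀ a' ∈ A, ‖∑ k ∈ K, e a k * (starRingEnd ℂ) (e a' k)‖ ≤ D a a')
    (hrow : ∀ a ∈ A, ∑ a' ∈ A, D a a' ≤ R) :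
    ∑ a ∈ A, ‖∑ k ∈ K, γ k * e a k‖ ^ 2 ≤ R * ∑ k ∈ K, ‖γ k‖ ^ 2 := by
  set G : ℕ → ℂ := fun a => ∑ k ∈ K, γ k * e a k with hG
  set H : ℤ → ℂ := fun k => ∑ a ∈ A, (starRingEnd ℂ) (G a) * e a k with hH
  set S : ℝ := ∑ a ∈ A, ‖G a‖ ^ 2 with hS
  set C : ℝ := ∑ k ∈ K, ‖γ k‖ ^ 2 with hC
  have hS0 : 0 ≤ S := sum_nonneg fun _ _ => sq_nonneg _
  have hC0 : 0 ≤ C := sum_nonneg fun _ _ => sq_nonneg _
  have h1 : (S : ℂ) = ∑ k ∈ K, γ k * H k := by
    simp only [hH, mul_sum]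
    rw [sum_comm, hS]
    push_cast
    refine sum_congr rfl fun a _ => ?_
    rw [← Complex.conj_mul', hG]
    simp only []
    rw [mul_sum]
    refine sum_congr rfl fun k _ => ?_
    ring
  have h2 : S ≤ ∑ k ∈ K, ‖γ k‖ * ‖H k‖ := by
    have : S = ‖(S : ℂ)‖ := by rw [Complex.norm_real, Real.norm_eq_abs, abs_of_nonneg hS0]
    rw [this, h1]
    refine (norm_sum_le _ _).trans (le_of_eq ?_)
    simp only [norm_mul]
  have h3 : (∑ k ∈ K, ‖γ k‖ * ‖H k‖) ^ 2 ≤ C * ∑ k ∈ K, ‖H k‖ ^ 2 :=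
    sum_mul_sq_le_sq_mul_sq _ _ _
  have h4 : ((∑ k ∈ K, ‖H k‖ ^ 2 : ℝ) : ℂ) = ∑ a ∈ A, ∑ a' ∈ A,
      (starRingEnd ℂ) (G a) * G a' * ∑ k ∈ K, e a k * (starRingEnd ℂ) (e a' k) := by
    push_cast
    have : ∀ k ∈ K, ((‖H k‖ : ℂ)) ^ 2 = ∑ a ∈ A, ∑ a' ∈ A,
        (starRingEnd ℂ) (G a) * G a' * (e a k * (starRingEnd ℂ) (e a' k)) := by
      intro k _
      rw [← Complex.mul_conj', hH]
      simp only [map_sum, map_mul, Complex.conj_conj]
      rw [sum_mul_sum]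
      refine sum_congr rfl fun a _ => sum_congr rfl fun a' _ => ?_
      ring
    rw [sum_congr rfl this, sum_comm]
    refine sum_congr rfl fun a _ => ?_
    rw [sum_comm]
    refine sum_congr rfl fun a' _ => ?_
    exact (mul_sum _ _ _).symm
  have h5 : ∑ k ∈ K, ‖H k‖ ^ 2 ≤ ∑ a ∈ A, ∑ a' ∈ A, ‖G a‖ * ‖G a'‖ * D a a' := by
    have h0 : 0 ≤ ∑ k ∈ K, ‖H k‖ ^ 2 := sum_nonneg fun _ _ => sq_nonneg _
    have : ∑ k ∈ K, ‖H k‖ ^ 2 = ‖((∑ k ∈ K, ‖H k‖ ^ 2 : ℝ) : ℂ)‖ := by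
      rw [Complex.norm_real, Real.norm_eq_abs, abs_of_nonneg h0]
    rw [this, h4]
    refine (norm_sum_le _ _).trans (sum_le_sum fun a ha => ?_)
    refine (norm_sum_le _ _).trans (sum_le_sum fun a' ha' => ?_)
    rw [norm_mul, norm_mul, Complex.norm_conj]
    exact mul_le_mul_of_nonneg_left (hD a ha a' ha') (by positivity)
  have h6 : ∑ a ∈ A, ∑ a' ∈ A, ‖G a‖ * ‖G a'‖ * D a a' ≤ R * S := by
    have hle : ∑ a ∈ A, ∑ a' ∈ A, ‖G a‖ * ‖G a'‖ * D a a' ≤
        ∑ a ∈ A, ∑ a' ∈ A, (‖G a‖ ^ 2 * D a a' / 2 + ‖G a'‖ ^ 2 * D a' a / 2) := by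
      refine sum_le_sum fun a ha => sum_le_sum fun a' ha' => ?_
      have hD0 : 0 ≤ D a a' := (norm_nonneg _).trans (hD a ha a' ha')
      rw [hsym a' a]
      nlinarith [mul_nonneg hD0 (sq_nonneg (‖G a‖ - ‖G a'‖))]
    refine hle.trans ?_
    simp only [sum_add_distrib]
    rw [sum_comm (f := fun a a' => ‖G a'‖ ^ 2 * D a' a / 2), ← sum_add_distrib, hS, mul_sum]
    refine sum_le_sum fun a ha => ?_
    rw [← sum_add_distrib]
    have : ∑ a' ∈ A, (‖G a‖ ^ 2 * D a a' / 2 + ‖G a‖ ^ 2 * D a a' / 2) =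
        ‖G a‖ ^ 2 * ∑ a' ∈ A, D a a' := by
      rw [mul_sum]
      refine sum_congr rfl fun a' _ => ?_
      ring
    rw [this, mul_comm R]
    exact mul_le_mul_of_nonneg_left (hrow a ha) (sq_nonneg _)
  have h7 : S * S ≤ (R * C) * S := by
    have : S ^ 2 ≤ (∑ k ∈ K, ‖γ k‖ * ‖H k‖) ^ 2 := pow_le_pow_left₀ hS0 h2 2
    have h8 : C * ∑ k ∈ K, ‖H k‖ ^ 2 ≤ C * (R * S) :=
      mul_le_mul_of_nonneg_left (h5.trans h6) hC0
    nlinarith
  rcases hS0.eq_or_lt with h | h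
  · rw [← h]; positivity
  · exact le_of_mul_le_mul_right h7 h

/-- Telescoping geometric sum. -/
lemma ls_geom (t : ℝ) (lo : ℤ) (n : ℕ) :
    (∑ k ∈ Ico lo (lo + n), ei (t * k)) * (ei t - 1) = ei (t * (lo + n)) - ei (t * lo) := by
  induction n with
  | zero => simp
  | succ n ih =>
    have : Ico lo (lo + ((n + 1 : ℕ) : ℤ)) = insert (lo + n) (Ico lo (lo + n)) := by
      ext k; simp only [mem_Ico, mem_insert]; push_cast; omega
    rw [this, sum_insert (by simp), add_mul, ih, mul_sub, ← ei_add]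
    push_cast
    ring_nf

lemma ls_geom_le (q d : ℝ) (hq : 0 < q) (hd : 0 < |d|) (hdq : 2 * |d| ≤ q) (lo : ℤ) (n : ℕ) :
    ‖∑ k ∈ Ico lo (lo + n), ei (2 * π * d / q * k)‖ ≤ q / (2 * |d|) := by
  have hpi := Real.pi_pos
  have habs : |2 * π * d / q| = 2 * π * |d| / q := by
    rw [abs_div, abs_mul, abs_of_pos hq, abs_of_pos (by positivity : (0 : ℝ) < 2 * π)]
  have h1 : |2 * π * d / q| ≤ π := by
    rw [habs, div_le_iff₀ hq]; nlinarith
  have h2 := le_norm_ei_sub_one h1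
  rw [habs] at h2
  have h3 : 2 / π * (2 * π * |d| / q) = 4 * |d| / q := by field_simp; ring
  rw [h3] at h2
  have h4 := congrArg norm (ls_geom (2 * π * d / q) lo n)
  rw [norm_mul] at h4
  have h5 : ‖ei (2 * π * d / q * (lo + n)) - ei (2 * π * d / q * lo)‖ ≤ 2 := by
    refine (norm_sub_le _ _).trans ?_
    rw [norm_ei, norm_ei]; norm_num
  have h6 : ‖∑ k ∈ Ico lo (lo + n), ei (2 * π * d / q * k)‖ * (4 * |d| / q) ≤ 2 :=
    (mul_le_mul_of_nonneg_left h2 (norm_nonneg _)).trans (h4.le.trans h5)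
  rw [le_div_iff₀ (by positivity)]
  rw [← mul_div_assoc, div_le_iff₀ hq] at h6
  linarith

lemma ls_triv (t : ℝ) (lo : ℤ) (n : ℕ) : ‖∑ k ∈ Ico lo (lo + n), ei (t * k)‖ ≤ n := by
  refine (norm_sum_le _ _).trans (le_of_eq ?_)
  simp [norm_ei]

lemma ls_dist_lt {N c c' : ℕ} (hN : 0 < N) (h : c / N = c' / N) : Nat.dist c c' < N := by
  have h1 := Nat.div_add_mod c N
  have h2 := Nat.div_add_mod c' N
  have h3 := Nat.mod_lt c hN
  have h4 := Nat.mod_lt c' hN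
  rw [h] at h1
  unfold Nat.dist
  omega

lemma ls_dist_ge {Q a a' : ℕ} (hQ : 0 < Q) :
    Nat.dist (a / Q) (a' / Q) * Q ≤ Nat.dist a a' + Q := by
  have h1 := Nat.div_add_mod a Q
  have h2 := Nat.div_add_mod a' Q
  have h3 := Nat.mod_lt a hQ
  have h4 := Nat.mod_lt a' hQ
  rcases le_total (a / Q) (a' / Q) with h | h
  · obtain ⟨j, hj⟩ := Nat.exists_eq_add_of_le h
    rw [hj, Nat.dist_eq_sub_of_le (Nat.le_add_right _ _), Nat.add_sub_cancel_left]
    rw [hj, mul_add] at h2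
    unfold Nat.dist
    rw [mul_comm j]
    omega
  · obtain ⟨j, hj⟩ := Nat.exists_eq_add_of_le h
    rw [hj, Nat.dist_eq_sub_of_le_right (Nat.le_add_right _ _), Nat.add_sub_cancel_left]
    rw [hj, mul_add] at h1
    unfold Nat.dist
    rw [mul_comm j]
    omega

lemma ls_cast_dist (a a' : ℕ) : ((Nat.dist a a' : ℕ) : ℝ) = |(a : ℝ) - a'| := by
  rcases le_total a a' with h | h
  · rw [Nat.dist_eq_sub_of_le h, Nat.cast_sub h, abs_sub_comm,
      abs_of_nonneg (sub_nonneg.2 (by exact_mod_cast h))]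
  · rw [Nat.dist_eq_sub_of_le_right h, Nat.cast_sub h,
      abs_of_nonneg (sub_nonneg.2 (by exact_mod_cast h))]

/-- Row sums. -/
lemma ls_row (A : Finset ℕ) (Q N β c : ℕ) (hβ : ∀ c, (cell A Q c).card ≤ β)
    (hN : ∀ a ∈ A, Nat.dist c (a / Q) < N) :
    ∑ a ∈ A, (1 : ℝ) / (Nat.dist c (a / Q) + 1) ≤ 2 * β * (1 + Real.log N) := by
  rw [← sum_fiberwise_of_maps_to (t := range N) (g := fun a => Nat.dist c (a / Q))
    (fun a ha => mem_range.2 (hN a ha))]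
  have h1 : ∀ j ∈ range N, ∑ a ∈ A with Nat.dist c (a / Q) = j,
      (1 : ℝ) / (Nat.dist c (a / Q) + 1) ≤ 2 * β * (1 / ((j : ℝ) + 1)) := by
    intro j _
    have hsub : A.filter (fun a => Nat.dist c (a / Q) = j) ⊆ cell A Q (c + j) ∪ cell A Q (c - j) := by
      intro a ha
      simp only [mem_filter, mem_union, cell] at ha ⊢
      obtain ⟨h1, h2⟩ := ha
      unfold Nat.dist at h2
      generalize a / Q = z at h2 ⊢
      rcases le_total c z with h | h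
      · left; exact ⟨h1, by omega⟩
      · right; exact ⟨h1, by omega⟩
    have hc : (A.filter (fun a => Nat.dist c (a / Q) = j)).card ≤ 2 * β := by
      refine (card_le_card hsub).trans ((card_union_le _ _).trans ?_)
      have := hβ (c + j)
      have := hβ (c - j)
      omega
    rw [sum_congr rfl (g := fun _ => 1 / ((j : ℝ) + 1))
      (fun a ha => by rw [(mem_filter.1 ha).2]), sum_const, nsmul_eq_mul]
    refine mul_le_mul_of_nonneg_right ?_ (by positivity)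
    exact_mod_cast hc
  refine (sum_le_sum h1).trans ?_
  rw [← mul_sum]
  refine mul_le_mul_of_nonneg_left ?_ (by positivity)
  have h2 := harmonic_le_one_add_log N
  have h3 : ((harmonic N : ℚ) : ℝ) = ∑ j ∈ range N, 1 / ((j : ℝ) + 1) := by
    unfold harmonic
    push_cast
    simp only [one_div]
  rw [← h3]
  exact h2

lemma ls_coll {ι : Type*} (s : Finset ι) (κ : ι → ℤ) (θ : ι → ℂ) (hθ : ∀ i ∈ s, ‖θ i‖ ≤ 1)
    (K : Finset ℤ) :
    ∑ k ∈ K, ‖∑ i ∈ s with κ i = k, θ i‖ ^ 2 ≤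
      (((s ×ˢ s).filter (fun p : ι × ι => κ p.1 = κ p.2)).card : ℝ) := by
  classical
  have h1 : ∀ k ∈ K, ‖∑ i ∈ s with κ i = k, θ i‖ ^ 2 ≤
      (((s.filter (fun i => κ i = k)) ×ˢ (s.filter (fun i => κ i = k))).card : ℝ) := by
    intro k _
    rw [card_product]
    push_cast
    rw [← sq]
    refine pow_le_pow_left₀ (norm_nonneg _) ?_ 2
    refine (norm_sum_le _ _).trans ?_
    refine (sum_le_sum (g := fun _ => (1 : ℝ)) fun i hi => hθ i (mem_filter.1 hi).1).trans ?_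
    simp
  refine (sum_le_sum h1).trans ?_
  rw [← Nat.cast_sum, ← card_biUnion]
  · refine Nat.cast_le.2 (card_le_card ?_)
    intro p hp
    simp only [mem_biUnion, mem_product, mem_filter] at hp ⊢
    obtain ⟨k, _, ⟨h1, h2⟩, h3, h4⟩ := hp
    exact ⟨⟨h1, h3⟩, h2.trans h4.symm⟩
  · intro k _ k' _ hkk
    refine disjoint_left.2 fun p hp hp' => hkk ?_
    simp only [mem_product, mem_filter] at hp hp'
    exact hp.1.2.symm.trans hp'.1.2

/-- Large sieve for integer frequencies. Put `q = th ^ (x + 21)`, `I = th ^ (x + 21 - x')`.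
Group the terms by the value of `κ i`: the inner sum is `∑ k ∈ Ico lo (lo + I + 1), γ k * ei (2π h k / q)`
with `lo` the minimum of `κ` and `γ k = ∑ i with κ i = k, θ i`, so `∑ ‖γ k‖ ^ 2 ≤` number of
collisions. Duality: with `G a` the inner sum, `∑ ‖G a‖ ^ 2 = ∑ k, γ k * ∑ a, conj (G a) * ei (..)`,
Cauchy-Schwarz, expand the square, bound the geometric sum over `k` by
`min (I + 1) (q / (2 |a - a'|))` (use `le_norm_ei_sub_one`, as `|a - a'| < th ^ x ≤ q / 2`) and use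
`2 |G a| |G a'| ≤ |G a| ^ 2 + |G a'| ^ 2`. Row sums: group `a'` by the distance `j` of the level
`x'` cells; the geometric sum is at most `4 I / (j + 1)`; the harmonic sum
up to `th ^ (x - x')` is at most `1 + m log th` (`harmonic_le_one_add_log`), so a row is at most
`8 β I (1 + m log th) ≤ β I th`. -/
theorem ls_unif {ι : Type*} {th m x x' P β : ℕ} (hb : Big th m) (hx' : x' ≤ x) (hx : x ≤ m)
    (A : Finset ℕ) (hA : ∀ a ∈ A, a / th ^ x = P) (hβ : ∀ c, (cell A (th ^ x') c).card ≤ β)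
    (s : Finset ι) (κ : ι → ℤ) (θ : ι → ℂ) (hθ : ∀ i ∈ s, ‖θ i‖ ≤ 1)
    (hκ : ∀ i ∈ s, ∀ i' ∈ s, |κ i - κ i'| ≤ (th : ℤ) ^ (x + 21 - x')) :
    ∑ a ∈ A, ‖∑ i ∈ s, θ i * ei (2 * π * ((a : ℝ) - (P : ℝ) * (th : ℝ) ^ x) * (κ i) /
        (th : ℝ) ^ (x + 21))‖ ^ 2
      ≤ β * (th : ℝ) ^ (x + 22 - x') *
        (((s ×ˢ s).filter (fun p : ι × ι => κ p.1 = κ p.2)).card : ℝ) := by
  rcases s.eq_empty_or_nonempty with rfl | hs
  · simp
  obtain ⟨i0, hi0, hmin⟩ := exists_min_image s κ hs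
  have h1000 := hb.h1000
  have hth : 0 < th := by omega
  have hthR : (1000 : ℝ) ≤ th := by exact_mod_cast h1000
  have hth0 : (0 : ℝ) < th := by linarith
  set I : ℕ := th ^ (x + 21 - x') with hI
  have hI1 : 1 ≤ I := Nat.one_le_pow _ _ hth
  have hI1R : (1 : ℝ) ≤ I := by exact_mod_cast hI1
  set K : Finset ℤ := Ico (κ i0) (κ i0 + ((I + 1 : ℕ) : ℤ)) with hK
  have hmap : ∀ i ∈ s, κ i ∈ K := by
    intro i hi
    have h1 := hmin i hi
    have h2 := (abs_le.1 (hκ i hi i0 hi0)).2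
    have h3 : ((I : ℕ) : ℤ) = (th : ℤ) ^ (x + 21 - x') := by rw [hI]; push_cast; rfl
    rw [← h3] at h2
    simp only [hK, mem_Ico]
    push_cast
    omega
  set e : ℕ → ℤ → ℂ := fun a k =>
    ei (2 * π * ((a : ℝ) - (P : ℝ) * (th : ℝ) ^ x) * k / (th : ℝ) ^ (x + 21)) with he
  have hgrp : ∀ a, ∑ i ∈ s, θ i * e a (κ i) =
      ∑ k ∈ K, (∑ i ∈ s with κ i = k, θ i) * e a k := by
    intro a
    rw [← sum_fiberwise_of_maps_to hmap]
    refine sum_congr rfl fun k _ => ?_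
    rw [sum_mul]
    refine sum_congr rfl fun i hi => ?_
    rw [(mem_filter.1 hi).2]
  have hQN : th ^ x = th ^ x' * th ^ (x - x') := by
    rw [← pow_add]; congr 1; omega
  have hq : (th : ℝ) ^ (x + 21) = I * ((th ^ x' : ℕ) : ℝ) := by
    rw [hI]; push_cast; rw [← pow_add]; congr 1; omega
  have hQ0 : 0 < th ^ x' := pow_pos hth _
  have hmain := ls_dual A K e (fun k => ∑ i ∈ s with κ i = k, θ i)
    (fun a a' => 4 * I * (1 / ((Nat.dist (a / th ^ x') (a' / th ^ x') : ℝ) + 1)))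
    (β * (th : ℝ) ^ (x + 22 - x')) (by positivity)
    (fun a a' => by rw [Nat.dist_comm]) ?_ ?_
  · change ∑ a ∈ A, ‖∑ i ∈ s, θ i * e a (κ i)‖ ^ 2 ≤ _
    simp only [hgrp]
    exact hmain.trans (mul_le_mul_of_nonneg_left (ls_coll s κ θ hθ K) (by positivity))
  · intro a ha a' ha'
    have hterm : ∀ k ∈ K, e a k * (starRingEnd ℂ) (e a' k) =
        ei (2 * π * ((a : ℝ) - a') / (th : ℝ) ^ (x + 21) * k) := by
      intro k _
      simp only [he]
      rw [conj_ei, ← ei_add]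
      congr 1
      ring
    rw [sum_congr rfl hterm]
    set j := Nat.dist (a / th ^ x') (a' / th ^ x') with hj
    rcases le_or_gt j 1 with h | h
    · refine (ls_triv _ _ _).trans ?_
      have hjR : (j : ℝ) ≤ 1 := by exact_mod_cast h
      have hj0 : (0 : ℝ) ≤ j := by positivity
      rw [mul_one_div, le_div_iff₀ (by positivity)]
      push_cast
      nlinarith
    · have hjR : (2 : ℝ) ≤ j := by exact_mod_cast h
      have h1 : Nat.dist a a' < th ^ x :=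
        ls_dist_lt (pow_pos hth _) ((hA a ha).trans (hA a' ha').symm)
      have h1R : |(a : ℝ) - a'| < (th : ℝ) ^ x := by
        rw [← ls_cast_dist]; exact_mod_cast h1
      have h2 : j * th ^ x' ≤ Nat.dist a a' + th ^ x' := ls_dist_ge hQ0
      have h2R : (j : ℝ) * ((th ^ x' : ℕ) : ℝ) ≤ |(a : ℝ) - a'| + ((th ^ x' : ℕ) : ℝ) := by
        rw [← ls_cast_dist]; exact_mod_cast h2
      have hQR : (0 : ℝ) < ((th ^ x' : ℕ) : ℝ) := by exact_mod_cast hQ0
      have hd0 : 0 < |(a : ℝ) - a'| := by nlinarith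
      have h21 : (2 : ℝ) ≤ (th : ℝ) ^ 21 :=
        le_trans (by linarith) (le_self_pow₀ (by linarith) (by norm_num))
      have hdq : 2 * |(a : ℝ) - a'| ≤ (th : ℝ) ^ (x + 21) := by
        rw [pow_add]
        have : (0 : ℝ) < (th : ℝ) ^ x := by positivity
        nlinarith
      refine (ls_geom_le _ _ (by positivity) hd0 hdq _ _).trans ?_
      rw [hq, mul_one_div, div_le_div_iff₀ (by positivity) (by positivity)]
      have h3 : ((th ^ x' : ℕ) : ℝ) * (j + 1) ≤ 8 * |(a : ℝ) - a'| := by nlinarith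
      nlinarith
  · intro a ha
    rw [← mul_sum]
    have h1 := ls_row A (th ^ x') (th ^ (x - x')) β (a / th ^ x') hβ (fun a' ha' => by
      refine ls_dist_lt (pow_pos hth _) ?_
      rw [Nat.div_div_eq_div_mul, Nat.div_div_eq_div_mul, ← hQN, hA a ha, hA a' ha'])
    have hlog0 : 0 ≤ Real.log th := Real.log_nonneg (by linarith)
    have h2 : Real.log ((th ^ (x - x') : ℕ) : ℝ) ≤ m * Real.log th := by
      push_cast
      rw [Real.log_pow]
      refine mul_le_mul_of_nonneg_right ?_ hlog0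
      exact_mod_cast (by omega : x - x' ≤ m)
    have h3 := hb.hlog
    have h4 : (th : ℝ) ^ (x + 22 - x') = I * th := by
      rw [hI]; push_cast; rw [← pow_succ]; congr 1; omega
    have hβ0 : (0 : ℝ) ≤ β := by positivity
    have h5 : 2 * (β : ℝ) * (1 + Real.log ((th ^ (x - x') : ℕ) : ℝ)) ≤ β * (th / 4) := by
      have : 2 * (1 + Real.log ((th ^ (x - x') : ℕ) : ℝ)) ≤ th / 4 := by linarith
      nlinarith
    rw [h4]
    have h6 := mul_le_mul_of_nonneg_left (h1.trans h5) (by positivity : (0 : ℝ) ≤ 4 * I)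
    linarith

end Pool.Agent.Lib.MP_ecd12e_nt.Bar
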