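import Pool.Agent.Lib.MP_ecd12e_nt.Bar.Local
import Pool.Agent.Lib.MP_ecd12e_nt.Bar.LS

set_option autoImplicit false

namespace Pool.Agent.Lib.MP_ecd12e_nt.Bar

open Finset Real
open scoped Pointwise

private lemma dual_log_le {m u v : ℝ} (hm : 0 < m) (hu : m ≤ u) (hv : m ≤ v) :
    |Real.log u - Real.log v| ≤ |u - v| / m := by
  have key : ∀ a b : ℝ, m ≤ a → m ≤ b → Real.log a - Real.log b ≤ |a - b| / m := by
    intro a b ha hb
    have ha0 : 0 < a := hm.trans_le ha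
    have hb0 : 0 < b := hm.trans_le hb
    have h1 := Real.log_le_sub_one_of_pos (div_pos ha0 hb0)
    rw [Real.log_div ha0.ne' hb0.ne'] at h1
    have h2 : a / b - 1 = (a - b) / b := by field_simp
    have h3 : (a - b) / b ≤ |a - b| / b := div_le_div_of_nonneg_right (le_abs_self _) hb0.le
    have h4 : |a - b| / b ≤ |a - b| / m := div_le_div_of_nonneg_left (abs_nonneg _) hm hb
    linarith
  rw [abs_le]
  refine ⟨?_, key u v hu hv⟩
  have := key v u hv hu
  rw [abs_sub_comm] at this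
  linarith

private lemma dual_le_log {M u v : ℝ} (hu0 : 0 < u) (hv0 : 0 < v) (hu : u ≤ M) (hv : v ≤ M) :
    |u - v| ≤ M * |Real.log u - Real.log v| := by
  have key : ∀ a b : ℝ, 0 < a → 0 < b → a ≤ M → a - b ≤ M * |Real.log a - Real.log b| := by
    intro a b ha0 hb0 ha
    have h1 := Real.log_le_sub_one_of_pos (div_pos hb0 ha0)
    rw [Real.log_div hb0.ne' ha0.ne'] at h1
    have h2 : a * (Real.log b - Real.log a) ≤ a * (b / a - 1) :=
      mul_le_mul_of_nonneg_left h1 ha0.le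
    have h3 : a * (b / a - 1) = b - a := by field_simp
    have h4 : a * (Real.log a - Real.log b) ≤ a * |Real.log a - Real.log b| :=
      mul_le_mul_of_nonneg_left (le_abs_self _) ha0.le
    have h5 : a * |Real.log a - Real.log b| ≤ M * |Real.log a - Real.log b| :=
      mul_le_mul_of_nonneg_right ha (abs_nonneg _)
    linarith
  rw [abs_le]
  refine ⟨?_, key u v hu0 hv0 hu⟩
  have := key v u hv0 hu0 hv
  rw [abs_sub_comm] at this
  linarith

private lemma dual_floor_diff (a b : ℝ) : ((|⌊a⌋ - ⌊b⌋| : ℤ) : ℝ) ≤ |a - b| + 1 := by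
  have h1 := Int.floor_le a
  have h2 := Int.floor_le b
  have h3 := Int.lt_floor_add_one a
  have h4 := Int.lt_floor_add_one b
  have h5 := le_abs_self (a - b)
  have h6 := neg_abs_le (a - b)
  push_cast
  rw [abs_le]
  constructor <;> linarith

private lemma dual_same_div {q a b : ℕ} (hq : 0 < q) (h : a / q = b / q) :
    |(a : ℝ) - b| ≤ q := by
  have h1 := Nat.div_add_mod a q
  have h2 := Nat.div_add_mod b q
  have h3 := Nat.mod_lt a hq
  have h4 := Nat.mod_lt b hq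
  rw [h] at h1
  have h5 : a ≤ b + q := by omega
  have h6 : b ≤ a + q := by omega
  have h7 : (a : ℝ) ≤ b + q := by exact_mod_cast h5
  have h8 : (b : ℝ) ≤ a + q := by exact_mod_cast h6
  rw [abs_le]
  constructor <;> linarith

private lemma dual_gap0 {th k X : ℕ} {al : ℕ → ℕ} {A B : Finset ℕ} {jA jB : ℕ}
    {ca cb : ℕ → ℂ} {om : ℝ → ℂ} (h : Setup th k X al A B jA jB ca cb om) {x : ℕ}
    (hx : x ≤ 2 * k) {P : ℕ} (hP : P ∈ cells A (th ^ x)) {s : ℕ} (hs : s ∈ B) :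
    2 * (th : ℝ) ^ (2 * k) < (P : ℝ) * (th : ℝ) ^ x - s ∧
      (P : ℝ) * (th : ℝ) ^ x - s < (th : ℝ) ^ (2 * k + 1) := by
  have hs' : s ∈ cells B (th ^ 0) := mem_image.2 ⟨s, hs, by simp⟩
  simpa using h.gap hx (Nat.zero_le _) hP hs'

private lemma dual_norm_bil {A B : Finset ℕ} {ca cb : ℕ → ℂ} {om : ℝ → ℂ}
    (hca : ∀ a, ‖ca a‖ ≤ 1) (hcb : ∀ s, ‖cb s‖ ≤ 1) (hom : ∀ u, ‖om u‖ ≤ 1) :
    ‖bil A B ca cb om‖ ≤
      (((A ×ˢ B).filter (fun p : ℕ × ℕ => om ((p.1 : ℝ) - p.2) ≠ 0)).card : ℝ) := by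
  classical
  unfold bil
  rw [← sum_product' A B (fun a s : ℕ =>
    ca a * cb s * om ((a : ℝ) - s) * ei (((a : ℝ) - s) * Real.log ((a : ℝ) - s)))]
  refine (norm_sum_le _ _).trans ?_
  rw [card_filter]
  push_cast
  refine sum_le_sum fun p _ => ?_
  by_cases h0 : om ((p.1 : ℝ) - p.2) = 0
  · simp [h0]
  · rw [if_pos h0, norm_mul, norm_mul, norm_mul, norm_ei, mul_one]
    exact mul_le_one₀ (mul_le_one₀ (hca _) (norm_nonneg _) (hcb _)) (norm_nonneg _) (hom _)

private lemma dual_single {th m j : ℕ} {al : ℕ → ℕ} {W : Finset ℕ} (h : Unif th m al W)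
    (hW : W.Nonempty) (hj : ∀ a ∈ W, a / th ^ m = j) : al m ≤ W.card ∧ W.card ≤ 2 * al m := by
  obtain ⟨a, ha⟩ := hW
  have h1 := h m le_rfl j (mem_image.2 ⟨a, ha, hj a ha⟩)
  have e : cell W (th ^ m) j = W := filter_true_of_mem hj
  rwa [e] at h1

private lemma dual_card_bounds {th k X : ℕ} {al : ℕ → ℕ} {A B : Finset ℕ} {jA jB : ℕ}
    {ca cb : ℕ → ℂ} {om : ℝ → ℂ} (h : Setup th k X al A B jA jB ca cb om) :
    al (2 * k) ≤ A.card ∧ A.card ≤ 2 * al (2 * k) ∧
      al (2 * k) ≤ B.card ∧ B.card ≤ 2 * al (2 * k) := by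
  obtain ⟨hA, hB⟩ := h.nonempty
  have h1 := dual_single h.uA hA h.blkA
  have h2 := dual_single h.uB hB h.blkB
  exact ⟨h1.1, h1.2, h2.1, h2.2⟩

/-- Range of the discretised logarithm on a level `y` cell:
`|log u - log u'| ≤ |u - u'| / min u u' ≤ th ^ y / (2 th ^ (2k))`, so the two floors differ by at
most `th ^ (x + 21 + y - 2k) / 12 + 1`. -/
theorem Setup.kk_diam {th k X : ℕ} {al : ℕ → ℕ} {A B : Finset ℕ} {jA jB : ℕ}
    {ca cb : ℕ → ℂ} {om : ℝ → ℂ} (h : Setup th k X al A B jA jB ca cb om) {x y : ℕ}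
    (hx : x ≤ 2 * k) (hy : y ≤ 2 * k) (hxy : 2 * k ≤ x + y) {P Q : ℕ}
    (hP : P ∈ cells A (th ^ x)) {s s' : ℕ} (hs : s ∈ cell B (th ^ y) Q)
    (hs' : s' ∈ cell B (th ^ y) Q) :
    2 * |kk th x P s - kk th x P s'| ≤ (th : ℤ) ^ (x + 21 - (2 * k - y)) := by
  have h1000 := h.big.h1000
  have hth : (1000 : ℝ) ≤ th := by exact_mod_cast h1000
  have hth0 : (0 : ℝ) < th := by linarith
  obtain ⟨hsB, hsq⟩ := mem_filter.1 hs
  obtain ⟨hsB', hsq'⟩ := mem_filter.1 hs'
  have g1 := (dual_gap0 h hx hP hsB).1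
  have g2 := (dual_gap0 h hx hP hsB').1
  have hm : 0 < 2 * (th : ℝ) ^ (2 * k) := by positivity
  have hl := dual_log_le hm g1.le g2.le
  have hd : |(s' : ℝ) - s| ≤ (th : ℝ) ^ y := by
    have := dual_same_div (q := th ^ y) (by positivity) (hsq'.trans hsq.symm)
    simpa using this
  have e1 : ((P : ℝ) * (th : ℝ) ^ x - s) - ((P : ℝ) * (th : ℝ) ^ x - s') = (s' : ℝ) - s := by ring
  rw [e1] at hl
  set L := Real.log ((P : ℝ) * (th : ℝ) ^ x - s) with hL
  set L' := Real.log ((P : ℝ) * (th : ℝ) ^ x - s') with hL'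
  have hl2 : |L - L'| ≤ (th : ℝ) ^ y / (2 * (th : ℝ) ^ (2 * k)) :=
    hl.trans (div_le_div_of_nonneg_right hd hm.le)
  set E : ℝ := (th : ℝ) ^ (x + 21 - (2 * k - y)) with hE
  have hEe : (th : ℝ) ^ (x + 21) * (th : ℝ) ^ y = E * (th : ℝ) ^ (2 * k) := by
    rw [hE, ← pow_add, ← pow_add]
    congr 1
    omega
  have hE3 : 1000 ≤ E := by
    refine hth.trans ?_
    calc (th : ℝ) = (th : ℝ) ^ 1 := (pow_one _).symm
      _ ≤ E := pow_le_pow_right₀ (by linarith) (by omega)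
  have hv : |(th : ℝ) ^ (x + 21) * L / (2 * π) - (th : ℝ) ^ (x + 21) * L' / (2 * π)| ≤ E / 12 := by
    have hpi := Real.pi_gt_three
    have e2 : (th : ℝ) ^ (x + 21) * L / (2 * π) - (th : ℝ) ^ (x + 21) * L' / (2 * π)
        = (th : ℝ) ^ (x + 21) * (L - L') / (2 * π) := by ring
    rw [e2, abs_div, abs_mul, abs_of_pos (by positivity : 0 < (th : ℝ) ^ (x + 21)),
      abs_of_pos (by positivity : 0 < 2 * π)]
    have h3 : (th : ℝ) ^ (x + 21) * |L - L'| ≤ E / 2 := by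
      calc (th : ℝ) ^ (x + 21) * |L - L'|
          ≤ (th : ℝ) ^ (x + 21) * ((th : ℝ) ^ y / (2 * (th : ℝ) ^ (2 * k))) :=
            mul_le_mul_of_nonneg_left hl2 (by positivity)
        _ = ((th : ℝ) ^ (x + 21) * (th : ℝ) ^ y) / (2 * (th : ℝ) ^ (2 * k)) := by ring
        _ = E / 2 := by rw [hEe]; field_simp
    calc (th : ℝ) ^ (x + 21) * |L - L'| / (2 * π) ≤ (E / 2) / (2 * π) :=
          div_le_div_of_nonneg_right h3 (by positivity)
      _ ≤ (E / 2) / 6 := div_le_div_of_nonneg_left (by linarith) (by norm_num) (by linarith)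
      _ = E / 12 := by ring
  have hf := dual_floor_diff ((th : ℝ) ^ (x + 21) * L / (2 * π))
    ((th : ℝ) ^ (x + 21) * L' / (2 * π))
  have hfin : (2 : ℝ) * ((|kk th x P s - kk th x P s'| : ℤ) : ℝ) ≤ E := by
    unfold kk
    linarith
  rw [hE] at hfin
  exact_mod_cast hfin

/-- Collisions of the discretised logarithm: `|log u - log u'| ≥ |u - u'| / max u u'` and
`max u u' < th ^ (2k+1)`, so equal floors force `|s - s'| ≤ 2π th ^ (2k + 1 - x - 21)`. -/
theorem Setup.kk_coll {th k X : ℕ} {al : ℕ → ℕ} {A B : Finset ℕ} {jA jB : ℕ}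
    {ca cb : ℕ → ℂ} {om : ℝ → ℂ} (h : Setup th k X al A B jA jB ca cb om) {x : ℕ}
    (hx : x ≤ 2 * k) {P : ℕ} (hP : P ∈ cells A (th ^ x)) {s s' : ℕ} (hs : s ∈ B) (hs' : s' ∈ B)
    (he : kk th x P s = kk th x P s') : |(s' : ℝ) - s| ≤ (th : ℝ) ^ (2 * k - x) := by
  have h1000 := h.big.h1000
  have hth : (1000 : ℝ) ≤ th := by exact_mod_cast h1000
  have hth0 : (0 : ℝ) < th := by linarith
  obtain ⟨g1, g1'⟩ := dual_gap0 h hx hP hs
  obtain ⟨g2, g2'⟩ := dual_gap0 h hx hP hs'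
  have hm : 0 < 2 * (th : ℝ) ^ (2 * k) := by positivity
  have hl := dual_le_log (hm.trans g1) (hm.trans g2) g1'.le g2'.le
  have e1 : ((P : ℝ) * (th : ℝ) ^ x - s) - ((P : ℝ) * (th : ℝ) ^ x - s') = (s' : ℝ) - s := by ring
  rw [e1] at hl
  unfold kk at he
  set L := Real.log ((P : ℝ) * (th : ℝ) ^ x - s) with hL
  set L' := Real.log ((P : ℝ) * (th : ℝ) ^ x - s') with hL'
  have hv := Int.abs_sub_lt_one_of_floor_eq_floor he
  have hpi := Real.pi_lt_four
  have e2 : (th : ℝ) ^ (x + 21) * L / (2 * π) - (th : ℝ) ^ (x + 21) * L' / (2 * π)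
      = (th : ℝ) ^ (x + 21) * (L - L') / (2 * π) := by ring
  rw [e2, abs_div, abs_mul, abs_of_pos (by positivity : 0 < (th : ℝ) ^ (x + 21)),
    abs_of_pos (by positivity : 0 < 2 * π), div_lt_one (by positivity)] at hv
  have h8 : (8 : ℝ) ≤ (th : ℝ) ^ 20 := by
    calc (8 : ℝ) ≤ (th : ℝ) ^ 1 := by rw [pow_one]; linarith
      _ ≤ (th : ℝ) ^ 20 := pow_le_pow_right₀ (by linarith) (by omega)
  have e3 : (th : ℝ) ^ (2 * k + 1) * (th : ℝ) ^ 20
      = (th : ℝ) ^ (2 * k - x) * (th : ℝ) ^ (x + 21) := by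
    rw [← pow_add, ← pow_add]
    congr 1
    omega
  have h9 : (th : ℝ) ^ (2 * k + 1) * |L - L'| * (th : ℝ) ^ 20
      ≤ (th : ℝ) ^ (2 * k - x) * (th : ℝ) ^ 20 := by
    calc (th : ℝ) ^ (2 * k + 1) * |L - L'| * (th : ℝ) ^ 20
        = (th : ℝ) ^ (2 * k + 1) * (th : ℝ) ^ 20 * |L - L'| := by ring
      _ = (th : ℝ) ^ (2 * k - x) * ((th : ℝ) ^ (x + 21) * |L - L'|) := by rw [e3]; ring
      _ ≤ (th : ℝ) ^ (2 * k - x) * (th : ℝ) ^ 20 :=
          mul_le_mul_of_nonneg_left (by linarith) (by positivity)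
  exact hl.trans (le_of_mul_le_mul_right h9 (by positivity))

/-- Duality inequality. Take `θ` from `local_model`; Cauchy-Schwarz over the pairs `(a, Q)` gives
`(|A||B|)^2 ≤ th ^ 38 |A| n_y ∑_P ∑_Q ∑_{a ∈ cell P} ‖loc‖^2`; apply `ls_unif` to
`cell A (th ^ x) P` with `x' = 2k - y`, `β = 2 al x'` (a cell of a subset is a subset of the cell;
`Unif.cell_le`), index set `cell B (th ^ y) Q`; the collisions number at most
`|cell Q| * 6 al (2k - x)` by `kk_coll` and `Unif.near_pts`. Finish with `n_x al x ≤ |A|`,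
`n_y al y ≤ |B|` (`Unif.cells_mul_le`) and `12 ≤ th`. -/
theorem Setup.dual {th k X : ℕ} {al : ℕ → ℕ} {A B : Finset ℕ} {jA jB : ℕ}
    {ca cb : ℕ → ℂ} {om : ℝ → ℂ} (h : Setup th k X al A B jA jB ca cb om) {x y : ℕ} (hx : x ≤ X)
    (hy : y ≤ 2 * k) (hxy : 2 * x + y + 21 ≤ 4 * k) (hxy' : 2 * k ≤ x + y) (hx2 : x ≤ 2 * k) :
    al x * al y ≤ th ^ (61 + x + y - 2 * k) * (al (2 * k - x) * al (2 * k - y)) := by
  have h1000 := h.big.h1000
  have hth : (1000 : ℝ) ≤ th := by exact_mod_cast h1000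
  have hth0 : (0 : ℝ) < th := by linarith
  obtain ⟨θ, hθ, hloc⟩ := h.local_model hx hy hxy hx2
  obtain ⟨hAne, hBne⟩ := h.nonempty
  set x' := 2 * k - y with hx'
  have hcoll : ∀ P ∈ cells A (th ^ x), ∀ Q : ℕ,
      ((((cell B (th ^ y) Q) ×ˢ (cell B (th ^ y) Q)).filter
        (fun p : ℕ × ℕ => kk th x P p.1 = kk th x P p.2)).card : ℝ)
        ≤ 6 * al (2 * k - x) * (cell B (th ^ y) Q).card := by
    intro P hP Q
    have := card_le_mul_card_image_of_maps_to
      (s := ((cell B (th ^ y) Q) ×ˢ (cell B (th ^ y) Q)).filter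
        (fun p : ℕ × ℕ => kk th x P p.1 = kk th x P p.2))
      (t := cell B (th ^ y) Q) (f := Prod.fst)
      (fun p hp => (mem_product.1 (mem_filter.1 hp).1).1) (6 * al (2 * k - x)) (by
        intro s hs
        refine le_trans ?_ (h.uB.near_pts (by omega) (j := 2 * k - x) (by omega) (s : ℝ))
        refine card_le_card_of_injOn Prod.snd ?_ ?_
        · intro p hp
          obtain ⟨hp1, hp2⟩ := mem_filter.1 (mem_coe.1 hp)
          obtain ⟨hp3, hp4⟩ := mem_filter.1 hp1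
          obtain ⟨hp5, hp6⟩ := mem_product.1 hp3
          refine mem_coe.2 (mem_filter.2 ⟨(mem_filter.1 hp6).1, ?_⟩)
          rw [← hp2]
          exact h.kk_coll hx2 hP (mem_filter.1 hp5).1 (mem_filter.1 hp6).1 hp4
        · intro p hp p' hp' e
          exact Prod.ext ((mem_filter.1 (mem_coe.1 hp)).2.trans
            (mem_filter.1 (mem_coe.1 hp')).2.symm) e)
    exact_mod_cast this
  set K : ℝ := 12 * (th : ℝ) ^ (x + 22 - x') * (al (2 * k - x) * al x') with hK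
  have hPQ : ∀ P ∈ cells A (th ^ x), ∀ Q : ℕ,
      ∑ a ∈ cell A (th ^ x) P, ‖loc th x y B θ P Q a‖ ^ 2 ≤ K * (cell B (th ^ y) Q).card := by
    intro P hP Q
    have hls := ls_unif (m := 2 * k) (x := x) (x' := x') (P := P) (β := 2 * al x') h.big
      (by omega) hx2 (cell A (th ^ x) P) (fun a ha => (mem_filter.1 ha).2)
      (fun c => le_trans (card_le_card (filter_subset_filter _ (filter_subset _ _)))
        (h.uA.cell_le (j := x') (by omega) c))
      (cell B (th ^ y) Q) (kk th x P) (θ P) (fun i _ => hθ P i)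
      (fun i hi i' hi' => by
        have h1 := h.kk_diam hx2 hy hxy' hP hi hi'
        have h2 := abs_nonneg (kk th x P i - kk th x P i')
        linarith)
    refine le_trans hls ?_
    refine le_trans (mul_le_mul_of_nonneg_left (hcoll P hP Q) (by positivity)) (le_of_eq ?_)
    rw [hK]
    push_cast
    ring
  have hK0 : 0 ≤ K := by rw [hK]; positivity
  have hsq : ∑ a ∈ A, ∑ Q ∈ cells B (th ^ y), ‖loc th x y B θ (a / th ^ x) Q a‖ ^ 2
      ≤ (cells A (th ^ x)).card * (K * B.card) := by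
    rw [sum_cells A (th ^ x), ← nsmul_eq_mul]
    refine sum_le_card_nsmul _ _ _ fun P hP => ?_
    rw [sum_comm]
    have e1 : (B.card : ℝ) = ∑ Q ∈ cells B (th ^ y), ((cell B (th ^ y) Q).card : ℝ) := by
      have := sum_cells B (th ^ y) (fun _ => (1 : ℝ))
      simpa using this
    rw [e1, mul_sum]
    refine sum_le_sum fun Q _ => le_trans (le_of_eq ?_) (hPQ P hP Q)
    refine sum_congr rfl fun a ha => ?_
    rw [(mem_filter.1 ha).2]
  have hcs : (∑ a ∈ A, ∑ Q ∈ cells B (th ^ y), ‖loc th x y B θ (a / th ^ x) Q a‖) ^ 2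
      ≤ A.card * (cells B (th ^ y)).card *
        ∑ a ∈ A, ∑ Q ∈ cells B (th ^ y), ‖loc th x y B θ (a / th ^ x) Q a‖ ^ 2 := by
    have := sq_sum_le_card_mul_sum_sq (s := A ×ˢ cells B (th ^ y))
      (f := fun p : ℕ × ℕ => ‖loc th x y B θ (p.1 / th ^ x) p.2 p.1‖)
    rw [sum_product, sum_product, card_product] at this
    push_cast at this
    exact this
  have hnA : ((cells A (th ^ x)).card : ℝ) * al x ≤ A.card := by
    exact_mod_cast h.uA.cells_mul_le hx2
  have hnB : ((cells B (th ^ y)).card : ℝ) * al y ≤ B.card := by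
    exact_mod_cast h.uB.cells_mul_le hy
  have hA0 : (0 : ℝ) < A.card := by exact_mod_cast hAne.card_pos
  have hB0 : (0 : ℝ) < B.card := by exact_mod_cast hBne.card_pos
  set S := ∑ a ∈ A, ∑ Q ∈ cells B (th ^ y), ‖loc th x y B θ (a / th ^ x) Q a‖ with hS
  set nx : ℝ := ((cells A (th ^ x)).card : ℝ) with hnx
  set ny : ℝ := ((cells B (th ^ y)).card : ℝ) with hny
  have hnx0 : 0 ≤ nx := by rw [hnx]; positivity
  have hny0 : 0 ≤ ny := by rw [hny]; positivity
  have h1 : ((A.card : ℝ) * B.card) ^ 2 ≤ (th : ℝ) ^ 38 * (A.card * ny * (nx * (K * B.card))) := by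
    calc ((A.card : ℝ) * B.card) ^ 2 ≤ ((th : ℝ) ^ 19 * S) ^ 2 :=
          pow_le_pow_left₀ (by positivity) hloc 2
      _ = (th : ℝ) ^ 38 * S ^ 2 := by ring
      _ ≤ _ := mul_le_mul_of_nonneg_left
          (hcs.trans (mul_le_mul_of_nonneg_left hsq (by positivity))) (by positivity)
  have h2 : ((al x : ℝ) * al y) * ((A.card : ℝ) * B.card) ^ 2
      ≤ ((th : ℝ) ^ 38 * K) * ((A.card : ℝ) * B.card) ^ 2 := by
    calc ((al x : ℝ) * al y) * ((A.card : ℝ) * B.card) ^ 2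
        ≤ ((al x : ℝ) * al y) * ((th : ℝ) ^ 38 * (A.card * ny * (nx * (K * B.card)))) :=
          mul_le_mul_of_nonneg_left h1 (by positivity)
      _ = ((th : ℝ) ^ 38 * K * (A.card * B.card)) * ((nx * al x) * (ny * al y)) := by ring
      _ ≤ ((th : ℝ) ^ 38 * K * (A.card * B.card)) * (A.card * B.card) :=
          mul_le_mul_of_nonneg_left (mul_le_mul hnA hnB (by positivity) hA0.le) (by positivity)
      _ = _ := by ring
  have h3 := le_of_mul_le_mul_right h2 (by positivity)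
  have h4 : (th : ℝ) ^ 38 * K
      ≤ (th : ℝ) ^ (61 + x + y - 2 * k) * (al (2 * k - x) * al x') := by
    have e : 61 + x + y - 2 * k = 1 + 38 + (x + 22 - x') := by omega
    rw [hK, e, pow_add, pow_add, pow_one]
    calc (th : ℝ) ^ 38 * (12 * (th : ℝ) ^ (x + 22 - x') * (al (2 * k - x) * al x'))
        = 12 * ((th : ℝ) ^ 38 * (th : ℝ) ^ (x + 22 - x') * (al (2 * k - x) * al x')) := by ring
      _ ≤ th * ((th : ℝ) ^ 38 * (th : ℝ) ^ (x + 22 - x') * (al (2 * k - x) * al x')) :=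
          mul_le_mul_of_nonneg_right (by linarith) (by positivity)
      _ = _ := by ring
  exact_mod_cast h3.trans h4

/-- `th ^ (2k) < th ^ 16 |A| |B| ≤ 4 th ^ 16 (al (2k)) ^ 2`, as `A` and `B` are single cells. -/
theorem Setup.top {th k X : ℕ} {al : ℕ → ℕ} {A B : Finset ℕ} {jA jB : ℕ}
    {ca cb : ℕ → ℂ} {om : ℝ → ℂ} (h : Setup th k X al A B jA jB ca cb om) :
    th ^ (2 * k) ≤ th ^ 17 * al (2 * k) ^ 2 := by
  have h1000 := h.big.h1000
  obtain ⟨-, hA, -, hB⟩ := dual_card_bounds h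
  have h1 := dual_norm_bil (A := A) (B := B) h.hca h.hcb h.hom
  have h2 : ((A ×ˢ B).filter (fun p : ℕ × ℕ => om ((p.1 : ℝ) - p.2) ≠ 0)).card
      ≤ th * al (2 * k) ^ 2 := by
    calc _ ≤ (A ×ˢ B).card := card_filter_le _ _
      _ = A.card * B.card := card_product _ _
      _ ≤ (2 * al (2 * k)) * (2 * al (2 * k)) := Nat.mul_le_mul hA hB
      _ = 4 * al (2 * k) ^ 2 := by ring
      _ ≤ th * al (2 * k) ^ 2 := Nat.mul_le_mul_right _ (by omega)
  have h3 : (th : ℝ) ^ (2 * k) ≤ (th : ℝ) ^ 16 * ((th * al (2 * k) ^ 2 : ℕ) : ℝ) :=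
    h.nogain.le.trans (mul_le_mul_of_nonneg_left (h1.trans (by exact_mod_cast h2)) (by positivity))
  have h4 : th ^ (2 * k) ≤ th ^ 16 * (th * al (2 * k) ^ 2) := by exact_mod_cast h3
  calc th ^ (2 * k) ≤ th ^ 16 * (th * al (2 * k) ^ 2) := h4
    _ = th ^ 17 * al (2 * k) ^ 2 := by ring

/-- `A` and `B` are single cells of the top level. -/
theorem Setup.card_bounds {th k X : ℕ} {al : ℕ → ℕ} {A B : Finset ℕ} {jA jB : ℕ}
    {ca cb : ℕ → ℂ} {om : ℝ → ℂ} (h : Setup th k X al A B jA jB ca cb om) :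
    al (2 * k) ≤ A.card ∧ A.card ≤ 2 * al (2 * k) ∧
      al (2 * k) ≤ B.card ∧ B.card ≤ 2 * al (2 * k) := by
  exact dual_card_bounds h

/-- Branching at the top. `‖bil‖ ≤` number of pairs with `om (a - s) ≠ 0`. For level `z` cells
`P`, `Q` the differences lie in an interval of length `2 th ^ z`; cut it into `2 th ^ (z - X - 21)`
pieces of length `th ^ (X + 21)`; by `flat` each piece holds at most `th ^ (X + 25)` such pairs.
So `th ^ (2k) < th ^ 16 n_z(A) n_z(B) 2 th ^ (z + 4)` and `n_z al z ≤ 2 al (2k)`. -/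
theorem Setup.branch {th k X : ℕ} {al : ℕ → ℕ} {A B : Finset ℕ} {jA jB : ℕ}
    {ca cb : ℕ → ℂ} {om : ℝ → ℂ} (h : Setup th k X al A B jA jB ca cb om) {z : ℕ}
    (hz : X + 21 ≤ z) (hz' : z ≤ 2 * k) :
    al z ^ 2 * th ^ (2 * k - z) ≤ th ^ 21 * al (2 * k) ^ 2 := by
  classical
  have h1000 := h.big.h1000
  obtain ⟨-, hA, -, hB⟩ := dual_card_bounds h
  have h1 := dual_norm_bil (A := A) (B := B) h.hca h.hcb h.hom
  have hq : 0 < th ^ z := by positivity
  have hw : 0 < th ^ (X + 21) := by positivity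
  have hqw : th ^ z = th ^ (z - (X + 21)) * th ^ (X + 21) := by
    rw [← pow_add]
    congr 1
    omega
  have h2 := card_le_mul_card_image_of_maps_to
    (s := (A ×ˢ B).filter (fun p : ℕ × ℕ => om ((p.1 : ℝ) - p.2) ≠ 0))
    (t := (cells A (th ^ z) ×ˢ cells B (th ^ z)) ×ˢ range (2 * th ^ (z - (X + 21))))
    (f := fun p : ℕ × ℕ => ((p.1 / th ^ z, p.2 / th ^ z),
      (p.1 % th ^ z + th ^ z - p.2 % th ^ z) / th ^ (X + 21)))
    (by
      intro p hp
      obtain ⟨hp1, hp2⟩ := mem_product.1 (mem_filter.1 hp).1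
      refine mem_product.2 ⟨mem_product.2 ⟨mem_image_of_mem _ hp1, mem_image_of_mem _ hp2⟩, ?_⟩
      rw [mem_range, Nat.div_lt_iff_lt_mul hw, mul_assoc, ← hqw]
      calc _ ≤ p.1 % th ^ z + th ^ z := Nat.sub_le _ _
        _ < th ^ z + th ^ z := Nat.add_lt_add_right (Nat.mod_lt p.1 hq) _
        _ = 2 * th ^ z := (two_mul _).symm) (th ^ (X + 25))
    (by
      intro b _
      rcases eq_empty_or_nonempty
        (((A ×ˢ B).filter (fun p : ℕ × ℕ => om ((p.1 : ℝ) - p.2) ≠ 0)).filter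
          (fun p : ℕ × ℕ => ((p.1 / th ^ z, p.2 / th ^ z),
            (p.1 % th ^ z + th ^ z - p.2 % th ^ z) / th ^ (X + 21)) = b)) with he | ⟨p0, hp0⟩
      · rw [he]
        simp
      · obtain ⟨hp1, hp2⟩ := mem_filter.1 hp0
        obtain ⟨hp3, hp4⟩ := mem_filter.1 hp1
        obtain ⟨hp5, hp6⟩ := mem_product.1 hp3
        refine le_trans (card_le_card ?_) (h.flat p0.1 hp5 p0.2 hp6 hp4)
        intro p hp
        obtain ⟨hp7, hp8⟩ := mem_filter.1 hp
        refine mem_filter.2 ⟨(mem_filter.1 hp7).1, ?_⟩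
        have he := hp8.trans hp2.symm
        simp only [Prod.mk.injEq] at he
        obtain ⟨⟨e1, e2⟩, e3⟩ := he
        have hd := dual_same_div hw e3
        have m1 := (Nat.mod_lt p.2 hq).le
        have m2 := (Nat.mod_lt p0.2 hq).le
        rw [Nat.add_sub_assoc m1, Nat.add_sub_assoc m2] at hd
        push_cast [Nat.cast_sub m1, Nat.cast_sub m2] at hd
        have c : ∀ a : ℕ, (a : ℝ) = (th : ℝ) ^ z * ((a / th ^ z : ℕ) : ℝ) + ((a % th ^ z : ℕ) : ℝ) := by
          intro a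
          exact_mod_cast (Nat.div_add_mod a (th ^ z)).symm
        have c1 := c p.1
        have c2 := c p.2
        have c3 := c p0.1
        have c4 := c p0.2
        rw [e1] at c1
        rw [e2] at c2
        refine le_trans (le_of_eq ?_) hd
        congr 1
        linarith)
  rw [card_product, card_product, card_range] at h2
  have h3 : (th : ℝ) ^ (2 * k) ≤ (th : ℝ) ^ 16 * ((th ^ (X + 25) *
      ((cells A (th ^ z)).card * (cells B (th ^ z)).card * (2 * th ^ (z - (X + 21)))) : ℕ) : ℝ) :=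
    h.nogain.le.trans (mul_le_mul_of_nonneg_left (h1.trans (by exact_mod_cast h2)) (by positivity))
  have h4 : th ^ (2 * k) ≤ th ^ 16 * (th ^ (X + 25) *
      ((cells A (th ^ z)).card * (cells B (th ^ z)).card * (2 * th ^ (z - (X + 21))))) := by
    exact_mod_cast h3
  have hnA := (h.uA.cells_mul_le hz').trans hA
  have hnB := (h.uB.cells_mul_le hz').trans hB
  have e1 : th ^ (2 * k) = th ^ (2 * k - z) * th ^ z := by
    rw [← pow_add]
    congr 1
    omega
  have e2 : th ^ (X + 25) * th ^ (z - (X + 21)) = th ^ 4 * th ^ z := by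
    rw [← pow_add, ← pow_add]
    congr 1
    omega
  refine Nat.le_of_mul_le_mul_right ?_ hq
  calc al z ^ 2 * th ^ (2 * k - z) * th ^ z = al z ^ 2 * th ^ (2 * k) := by rw [e1]; ring
    _ ≤ al z ^ 2 * (th ^ 16 * (th ^ (X + 25) * ((cells A (th ^ z)).card *
          (cells B (th ^ z)).card * (2 * th ^ (z - (X + 21)))))) := Nat.mul_le_mul_left _ h4
    _ = 2 * th ^ 16 * (th ^ (X + 25) * th ^ (z - (X + 21))) *
          (((cells A (th ^ z)).card * al z) * ((cells B (th ^ z)).card * al z)) := by ring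
    _ ≤ 2 * th ^ 16 * (th ^ (X + 25) * th ^ (z - (X + 21))) *
          ((2 * al (2 * k)) * (2 * al (2 * k))) := Nat.mul_le_mul_left _ (Nat.mul_le_mul hnA hnB)
    _ = 8 * (th ^ 20 * al (2 * k) ^ 2 * th ^ z) := by rw [e2]; ring
    _ ≤ th * (th ^ 20 * al (2 * k) ^ 2 * th ^ z) := Nat.mul_le_mul_right _ (by omega)
    _ = th ^ 21 * al (2 * k) ^ 2 * th ^ z := by ring

end Pool.Agent.Lib.MP_ecd12e_nt.Bar
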