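import Pool.Agent.Lib.MP_ecd12e_nt.Bar.Defs

set_option autoImplicit false

namespace Pool.Agent.Lib.MP_ecd12e_nt.Bar

open Finset Real
open scoped Pointwise

theorem unif_div_eq {th i j a b : ℕ} (hij : i ≤ j) (h : a / th ^ i = b / th ^ i) :
    a / th ^ j = b / th ^ j := by
  obtain ⟨d, rfl⟩ := Nat.exists_eq_add_of_le hij
  rw [pow_add, ← Nat.div_div_eq_div_mul, ← Nat.div_div_eq_div_mul, h]

theorem unif_div_div {th i j : ℕ} (hij : i ≤ j) (a : ℕ) :
    a / th ^ i / th ^ (j - i) = a / th ^ j := by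
  rw [Nat.div_div_eq_div_mul, ← pow_add, Nat.add_sub_cancel' hij]

theorem unif_mem_cell {W : Finset ℕ} {q c a : ℕ} : a ∈ cell W q c ↔ a ∈ W ∧ a / q = c :=
  Finset.mem_filter

theorem unif_mem_cells {W : Finset ℕ} {q c : ℕ} : c ∈ cells W q ↔ ∃ a ∈ W, a / q = c :=
  Finset.mem_image

theorem unif_sum_card (W : Finset ℕ) (q : ℕ) (S : Finset ℕ) :
    ∑ c ∈ S, (cell W q c).card = (W.filter (fun a => a / q ∈ S)).card :=
  Finset.sum_card_fiberwise_eq_card_filter W S (fun a => a / q)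

theorem unif_card_eq (W : Finset ℕ) (q : ℕ) : W.card = ∑ c ∈ cells W q, (cell W q c).card := by
  rw [unif_sum_card, Finset.filter_true_of_mem]
  intro a ha
  exact unif_mem_cells.2 ⟨a, ha, rfl⟩

theorem unif_pigeon (W : Finset ℕ) (L : ℕ) (hL : 0 < L) (f : ℕ → ℕ) (hf : ∀ a ∈ W, f a < L) :
    ∃ t, W.card ≤ L * (W.filter (fun a => f a = t)).card := by
  obtain ⟨t, -, ht⟩ := Finset.exists_max_image (range L)
    (fun t => (W.filter (fun a => f a = t)).card) ⟨0, mem_range.2 hL⟩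
  refine ⟨t, ?_⟩
  rw [Finset.card_eq_sum_card_fiberwise (f := f) (s := W) (t := range L)
    (fun a ha => mem_coe.2 (mem_range.2 (hf a ha)))]
  have := Finset.sum_le_card_nsmul (range L) _ _ ht
  rwa [card_range, smul_eq_mul] at this

theorem unif_aux (th : ℕ) (W : Finset ℕ) (n : ℕ) :
    ∃ W' ⊆ W, ∃ al : ℕ → ℕ, (∀ j < n, ∀ c ∈ cells W' (th ^ j),
      al j ≤ (cell W' (th ^ j) c).card ∧ (cell W' (th ^ j) c).card ≤ 2 * al j) ∧
      W.card ≤ (Nat.log 2 W.card + 1) ^ n * W'.card := by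
  induction n with
  | zero => exact ⟨W, subset_rfl, fun _ => 0, fun j hj => absurd hj (Nat.not_lt_zero _), by simp⟩
  | succ n ih =>
    obtain ⟨V, hVW, al, hal, hcard⟩ := ih
    obtain ⟨t, ht⟩ := unif_pigeon V (Nat.log 2 W.card + 1) (Nat.succ_pos _)
      (fun a => Nat.log 2 (cell V (th ^ n) (a / th ^ n)).card) (fun a _ => by
        apply Nat.lt_succ_of_le
        apply Nat.log_mono_right
        exact le_trans (card_filter_le _ _) (card_le_card hVW))
    set U := V.filter (fun a => Nat.log 2 (cell V (th ^ n) (a / th ^ n)).card = t) with hU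
    have hUV : U ⊆ V := filter_subset _ _
    have hcell : ∀ j ≤ n, ∀ c ∈ cells U (th ^ j), cell U (th ^ j) c = cell V (th ^ j) c := by
      intro j hj c hc
      obtain ⟨a, ha, rfl⟩ := unif_mem_cells.1 hc
      ext b
      rw [unif_mem_cell, unif_mem_cell]
      constructor
      · rintro ⟨hb, hb'⟩
        exact ⟨hUV hb, hb'⟩
      · rintro ⟨hb, hb'⟩
        refine ⟨mem_filter.2 ⟨hb, ?_⟩, hb'⟩
        rw [unif_div_eq hj hb']
        exact (mem_filter.1 ha).2
    refine ⟨U, hUV.trans hVW, Function.update al n (2 ^ t), ?_, ?_⟩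
    · intro j hj c hc
      have hjn : j ≤ n := Nat.lt_succ_iff.1 hj
      rw [hcell j hjn c hc]
      rcases hjn.lt_or_eq with hlt | rfl
      · rw [Function.update_of_ne hlt.ne]
        exact hal j hlt c (image_subset_image hUV hc)
      · rw [Function.update_self]
        obtain ⟨a, ha, rfl⟩ := unif_mem_cells.1 hc
        have h1 := (mem_filter.1 ha).2
        have h2 : (cell V (th ^ j) (a / th ^ j)).card ≠ 0 :=
          (card_pos.2 ⟨a, unif_mem_cell.2 ⟨hUV ha, rfl⟩⟩).ne'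
        rw [← h1]
        refine ⟨Nat.pow_log_le_self 2 h2, ?_⟩
        have h3 := Nat.lt_pow_succ_log_self (b := 2) (by norm_num)
          (cell V (th ^ j) (a / th ^ j)).card
        rw [pow_succ] at h3
        omega
    · calc W.card ≤ (Nat.log 2 W.card + 1) ^ n * V.card := hcard
        _ ≤ (Nat.log 2 W.card + 1) ^ n * ((Nat.log 2 W.card + 1) * U.card) := by gcongr
        _ = (Nat.log 2 W.card + 1) ^ (n + 1) * U.card := by ring

theorem unif_three {T : ℕ} (hT : 0 < T) (S : Finset ℕ) (c0 : ℝ)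
    (hS : ∀ c ∈ S, |(c : ℝ) - c0| ≤ (T : ℝ)) : (S.image (fun c => c / T)).card ≤ 3 := by
  have hTr : (0 : ℝ) < T := by exact_mod_cast hT
  have hsub : S.image (fun c => c / T) ⊆
      (Finset.Icc (⌊c0 / T⌋ - 1) (⌊c0 / T⌋ + 1)).image Int.toNat := by
    intro q hq
    obtain ⟨c, hc, rfl⟩ := mem_image.1 hq
    obtain ⟨h1, h2⟩ := abs_le.1 (hS c hc)
    have hfl : ⌊(c : ℝ) / T⌋ = ((c / T : ℕ) : ℤ) := by
      rw [← Int.natCast_floor_eq_floor (by positivity), Nat.floor_div_eq_div]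
    refine mem_image.2 ⟨((c / T : ℕ) : ℤ), ?_, Int.toNat_natCast _⟩
    rw [← hfl, mem_Icc, ← Int.floor_sub_one, ← Int.floor_add_one]
    constructor
    · apply Int.floor_mono
      rw [div_sub_one hTr.ne']
      gcongr
      linarith
    · apply Int.floor_mono
      rw [div_add_one hTr.ne']
      gcongr
      linarith
  refine le_trans (card_le_card hsub) (le_trans card_image_le ?_)
  rw [Int.card_Icc]
  omega

/-- Uniformisation. Induct on `m`, bottom up: given a set uniform at the levels `< j`, sort the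
occupied level `j` cells by `Nat.log 2` of their number of points, keep the class that holds most
points (at least a fraction `1 / (Nat.log 2 W.card + 1)`), and delete the other level `j` cells
entirely; this does not change the counts of the surviving cells of lower levels, because
`a / th ^ j = b / th ^ j` whenever `a / th ^ i = b / th ^ i` and `i ≤ j`
(`Nat.div_div_eq_div_mul`). Take `al j = 2 ^ (class)`. -/
theorem exists_unif (th m : ℕ) (W : Finset ℕ) :
    ∃ W' ⊆ W, ∃ al : ℕ → ℕ, Unif th m al W' ∧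
      W.card ≤ (Nat.log 2 W.card + 1) ^ (m + 1) * W'.card := by
  obtain ⟨W', h1, al, h2, h3⟩ := unif_aux th W (m + 1)
  exact ⟨W', h1, al, fun j hj => h2 j (Nat.lt_succ_of_le hj), h3⟩

/-- A cell of level `j` of a uniform set is uniform at the levels `≤ j`. -/
theorem Unif.restrict {th m : ℕ} {al : ℕ → ℕ} {W : Finset ℕ} (h : Unif th m al W) {j : ℕ}
    (hj : j ≤ m) (c : ℕ) : Unif th j al (cell W (th ^ j) c) := by
  intro i hi d hd
  obtain ⟨a, ha, rfl⟩ := unif_mem_cells.1 hd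
  obtain ⟨haW, hac⟩ := unif_mem_cell.1 ha
  have he : cell (cell W (th ^ j) c) (th ^ i) (a / th ^ i) = cell W (th ^ i) (a / th ^ i) := by
    ext b
    rw [unif_mem_cell, unif_mem_cell, unif_mem_cell]
    constructor
    · rintro ⟨⟨hb, -⟩, hb'⟩
      exact ⟨hb, hb'⟩
    · rintro ⟨hb, hb'⟩
      exact ⟨⟨hb, (unif_div_eq hi hb').trans hac⟩, hb'⟩
  rw [he]
  exact h i (hi.trans hj) _ (unif_mem_cells.2 ⟨a, haW, rfl⟩)

/-- `W` is the disjoint union of its cells. -/
theorem sum_cells {M : Type*} [AddCommMonoid M] (W : Finset ℕ) (q : ℕ) (f : ℕ → M) :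
    ∑ a ∈ W, f a = ∑ c ∈ cells W q, ∑ a ∈ cell W q c, f a := by
  exact (Finset.sum_fiberwise_of_maps_to (g := fun a => a / q)
    (fun a ha => unif_mem_cells.2 ⟨a, ha, rfl⟩) f).symm

theorem Unif.cells_mul_le {th m : ℕ} {al : ℕ → ℕ} {W : Finset ℕ} (h : Unif th m al W) {j : ℕ}
    (hj : j ≤ m) : (cells W (th ^ j)).card * al j ≤ W.card := by
  rw [unif_card_eq W (th ^ j), ← smul_eq_mul]
  exact Finset.card_nsmul_le_sum _ _ _ (fun c hc => (h j hj c hc).1)

theorem Unif.le_cells_mul {th m : ℕ} {al : ℕ → ℕ} {W : Finset ℕ} (h : Unif th m al W) {j : ℕ}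
    (hj : j ≤ m) : W.card ≤ (cells W (th ^ j)).card * (2 * al j) := by
  rw [unif_card_eq W (th ^ j), ← smul_eq_mul]
  exact Finset.sum_le_card_nsmul _ _ _ (fun c hc => (h j hj c hc).2)

/-- Every cell (occupied or not) has at most `2 * al j` points. -/
theorem Unif.cell_le {th m : ℕ} {al : ℕ → ℕ} {W : Finset ℕ} (h : Unif th m al W) {j : ℕ}
    (hj : j ≤ m) (c : ℕ) : (cell W (th ^ j) c).card ≤ 2 * al j := by
  rcases (cell W (th ^ j) c).eq_empty_or_nonempty with he | ⟨a, ha⟩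
  · rw [he]
    exact Nat.zero_le _
  · exact (h j hj c (unif_mem_cells.2 ⟨a, unif_mem_cell.1 ha⟩)).2

theorem Unif.pos {th m : ℕ} {al : ℕ → ℕ} {W : Finset ℕ} (h : Unif th m al W) (hW : W.Nonempty)
    {j : ℕ} (hj : j ≤ m) : 1 ≤ al j := by
  obtain ⟨a, ha⟩ := hW
  have h1 := h.cell_le hj (a / th ^ j)
  have h2 : 0 < (cell W (th ^ j) (a / th ^ j)).card :=
    card_pos.2 ⟨a, unif_mem_cell.2 ⟨ha, rfl⟩⟩
  omega

theorem Unif.zero {th m : ℕ} {al : ℕ → ℕ} {W : Finset ℕ} (h : Unif th m al W)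
    (hW : W.Nonempty) : al 0 = 1 := by
  have h1 := h.pos hW (Nat.zero_le m)
  obtain ⟨a, ha⟩ := hW
  have h2 := (h 0 (Nat.zero_le m) _ (unif_mem_cells.2 ⟨a, ha, rfl⟩)).1
  have h3 : (cell W (th ^ 0) (a / th ^ 0)).card ≤ 1 := by
    rw [card_le_one]
    intro b hb c hc
    have hb' := (unif_mem_cell.1 hb).2
    have hc' := (unif_mem_cell.1 hc).2
    simp only [pow_zero, Nat.div_one] at hb' hc'
    omega
  omega

theorem Unif.mono {th m : ℕ} {al : ℕ → ℕ} {W : Finset ℕ} (h : Unif th m al W) (hW : W.Nonempty)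
    {i j : ℕ} (hij : i ≤ j) (hj : j ≤ m) : al i ≤ 2 * al j := by
  obtain ⟨a, ha⟩ := hW
  have h1 := (h i (hij.trans hj) _ (unif_mem_cells.2 ⟨a, ha, rfl⟩)).1
  refine le_trans h1 (le_trans (card_le_card ?_) (h.cell_le hj (a / th ^ j)))
  intro b hb
  obtain ⟨hb1, hb2⟩ := unif_mem_cell.1 hb
  exact unif_mem_cell.2 ⟨hb1, unif_div_eq hij hb2⟩

/-- A level `j` cell meets at most `th ^ (j - i)` cells of level `i`. -/
theorem Unif.slope {th m : ℕ} {al : ℕ → ℕ} {W : Finset ℕ} (h : Unif th m al W) (hW : W.Nonempty)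
    (hth : 0 < th) {i j : ℕ} (hij : i ≤ j) (hj : j ≤ m) : al j ≤ th ^ (j - i) * (2 * al i) := by
  obtain ⟨a, ha⟩ := hW
  have h1 := (h j hj _ (unif_mem_cells.2 ⟨a, ha, rfl⟩)).1
  have h2 := (h.restrict hj (a / th ^ j)).le_cells_mul hij
  refine le_trans h1 (le_trans h2 (Nat.mul_le_mul_right _ ?_))
  have hT : 0 < th ^ (j - i) := pow_pos hth _
  have hsub : cells (cell W (th ^ j) (a / th ^ j)) (th ^ i) ⊆
      Finset.Ico (a / th ^ j * th ^ (j - i)) (a / th ^ j * th ^ (j - i) + th ^ (j - i)) := by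
    intro c hc
    obtain ⟨b, hb, rfl⟩ := unif_mem_cells.1 hc
    rw [← (unif_mem_cell.1 hb).2, ← unif_div_div hij b, mem_Ico]
    exact ⟨Nat.div_mul_le_self _ _, Nat.lt_div_mul_add hT⟩
  refine le_trans (card_le_card hsub) ?_
  rw [Nat.card_Ico]
  omega

/-- The occupied level `i` cells whose number is within `th ^ (j - i)` of `c0` lie in at most three
cells of level `j` (the numbers `c / th ^ (j - i)` take at most three consecutive values); these
hold at most `6 * al j` points, and each occupied level `i` cell holds at least `al i`. -/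
theorem Unif.near {th m : ℕ} {al : ℕ → ℕ} {W : Finset ℕ} (h : Unif th m al W) (hth : 0 < th)
    {i j : ℕ} (hij : i ≤ j) (hj : j ≤ m) (c0 : ℝ) :
    ((cells W (th ^ i)).filter (fun c : ℕ => |(c : ℝ) - c0| ≤ (th : ℝ) ^ (j - i))).card * al i
      ≤ 6 * al j := by
  set S := (cells W (th ^ i)).filter (fun c : ℕ => |(c : ℝ) - c0| ≤ (th : ℝ) ^ (j - i)) with hS
  have h3 := unif_three (pow_pos hth (j - i)) S c0 (fun c hc => by
    rw [Nat.cast_pow]
    exact (mem_filter.1 hc).2)
  calc S.card * al i ≤ ∑ c ∈ S, (cell W (th ^ i) c).card := by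
        rw [← smul_eq_mul]
        exact Finset.card_nsmul_le_sum _ _ _
          (fun c hc => (h i (hij.trans hj) c (mem_filter.1 hc).1).1)
    _ = (W.filter (fun a => a / th ^ i ∈ S)).card := unif_sum_card _ _ _
    _ ≤ (W.filter (fun a => a / th ^ j ∈ S.image (fun c => c / th ^ (j - i)))).card := by
        apply card_le_card
        intro a ha
        obtain ⟨ha1, ha2⟩ := mem_filter.1 ha
        exact mem_filter.2 ⟨ha1, mem_image.2 ⟨_, ha2, unif_div_div hij a⟩⟩
    _ = ∑ c ∈ S.image (fun c => c / th ^ (j - i)), (cell W (th ^ j) c).card :=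
        (unif_sum_card _ _ _).symm
    _ ≤ (S.image (fun c => c / th ^ (j - i))).card * (2 * al j) := by
        rw [← smul_eq_mul]
        exact Finset.sum_le_card_nsmul _ _ _ (fun c _ => h.cell_le hj c)
    _ ≤ 3 * (2 * al j) := Nat.mul_le_mul_right _ h3
    _ = 6 * al j := by ring

/-- The same for points. -/
theorem Unif.near_pts {th m : ℕ} {al : ℕ → ℕ} {W : Finset ℕ} (h : Unif th m al W) (hth : 0 < th)
    {j : ℕ} (hj : j ≤ m) (c0 : ℝ) :
    (W.filter (fun a : ℕ => |(a : ℝ) - c0| ≤ (th : ℝ) ^ j)).card ≤ 6 * al j := by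
  set S := W.filter (fun a : ℕ => |(a : ℝ) - c0| ≤ (th : ℝ) ^ j) with hS
  have h3 := unif_three (pow_pos hth j) S c0 (fun c hc => by
    rw [Nat.cast_pow]
    exact (mem_filter.1 hc).2)
  calc S.card ≤ (W.filter (fun a => a / th ^ j ∈ S.image (fun c => c / th ^ j))).card := by
        apply card_le_card
        intro a ha
        exact mem_filter.2 ⟨(mem_filter.1 ha).1, mem_image.2 ⟨a, ha, rfl⟩⟩
    _ = ∑ c ∈ S.image (fun c => c / th ^ j), (cell W (th ^ j) c).card :=
        (unif_sum_card _ _ _).symm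
    _ ≤ (S.image (fun c => c / th ^ j)).card * (2 * al j) := by
        rw [← smul_eq_mul]
        exact Finset.sum_le_card_nsmul _ _ _ (fun c _ => h.cell_le hj c)
    _ ≤ 3 * (2 * al j) := Nat.mul_le_mul_right _ h3
    _ = 6 * al j := by ring

end Pool.Agent.Lib.MP_ecd12e_nt.Bar
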