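import Pool.Agent.Lib.MP_ecd12e_nt.Bar.Kernel
import Pool.Agent.Lib.MP_ecd12e_nt.Bar.Cutoff
import Pool.Agent.Lib.MP_ecd12e_nt.Bar.Unif

set_option autoImplicit false

namespace Pool.Agent.Lib.MP_ecd12e_nt.Bar

open Finset Real
open scoped Pointwise

/-- Expansion of the weighted inner product of two sums. -/
private lemma farblocks_expand (N : ℕ) (g : ℝ → ℝ) (η : ℕ → ℂ) (A B : Finset ℕ) :
    ∑ n ∈ Icc N (2 * N), (g n : ℂ) *
        ((∑ t ∈ A, η t * ei (t * Real.log n)) *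
          (starRingEnd ℂ) (∑ s ∈ B, η s * ei (s * Real.log n))) =
      ∑ t ∈ A, ∑ s ∈ B, η t * (starRingEnd ℂ) (η s) *
        ∑ n ∈ Icc N (2 * N), (g n : ℂ) * ei (((t : ℝ) - s) * Real.log n) := by
  have h1 : ∀ n : ℕ, (g n : ℂ) * ((∑ t ∈ A, η t * ei (t * Real.log n)) *
          (starRingEnd ℂ) (∑ s ∈ B, η s * ei (s * Real.log n))) =
      ∑ t ∈ A, ∑ s ∈ B, η t * (starRingEnd ℂ) (η s) *
        ((g n : ℂ) * ei (((t : ℝ) - s) * Real.log n)) := by
    intro n
    rw [map_sum, Finset.sum_mul_sum, Finset.mul_sum]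
    refine Finset.sum_congr rfl fun t _ => ?_
    rw [Finset.mul_sum]
    refine Finset.sum_congr rfl fun s _ => ?_
    rw [map_mul, conj_ei]
    have : ((t : ℝ) - s) * Real.log n = t * Real.log n + -(s * Real.log n) := by ring
    rw [this, ei_add]
    ring
  simp_rw [h1]
  rw [Finset.sum_comm]
  refine Finset.sum_congr rfl fun t _ => ?_
  rw [Finset.sum_comm]
  refine Finset.sum_congr rfl fun s _ => ?_
  rw [Finset.mul_sum]

/-- One term of the main part. -/
private lemma farblocks_term (g : ℝ → ℝ) (η : ℕ → ℂ) (rho : ℕ) {mu : ℕ} (hmu : 1 ≤ mu)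
    {t s : ℕ} (hu : 0 < (t : ℝ) - s) :
    η t * (starRingEnd ℂ) (η s) * ((g (((t : ℝ) - s) / (2 * π * mu)) : ℂ) *
        ei (((t : ℝ) - s) * Real.log (((t : ℝ) - s) / (2 * π * mu)) - ((t : ℝ) - s)) *
          gauss rho mu ((t : ℝ) - s)) =
      ((2 * rho + 1 : ℕ) : ℂ) * (η t * ei (-(t * (1 + Real.log (2 * π * mu)))) *
        ((starRingEnd ℂ) (η s) * ei (s * (1 + Real.log (2 * π * mu)))) *
          wt g rho mu ((t : ℝ) - s) * ei (((t : ℝ) - s) * Real.log ((t : ℝ) - s))) := by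
  have hm : (0 : ℝ) < 2 * π * mu := by
    have : (0 : ℝ) < mu := by exact_mod_cast hmu
    positivity
  have hph : ((t : ℝ) - s) * Real.log (((t : ℝ) - s) / (2 * π * mu)) - ((t : ℝ) - s) =
      -(t * (1 + Real.log (2 * π * mu))) + s * (1 + Real.log (2 * π * mu)) +
        ((t : ℝ) - s) * Real.log ((t : ℝ) - s) := by
    rw [Real.log_div hu.ne' hm.ne']
    ring
  have hne : ((2 * rho + 1 : ℕ) : ℂ) ≠ 0 := by exact_mod_cast (by omega : 2 * rho + 1 ≠ 0)
  rw [hph, ei_add, ei_add]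
  unfold wt
  field_simp

/-- Trivial bound for the bilinear form. -/
private lemma farblocks_triv (A B : Finset ℕ) {ca cb : ℕ → ℂ} {om : ℝ → ℂ}
    (hca : ∀ a, ‖ca a‖ ≤ 1) (hcb : ∀ s, ‖cb s‖ ≤ 1) (hom : ∀ u, ‖om u‖ ≤ 1) :
    ‖bil A B ca cb om‖ ≤ (A.card : ℝ) * B.card := by
  unfold bil
  calc _ ≤ ∑ a ∈ A, ∑ s ∈ B, (1 : ℝ) := by
        refine (_root_.norm_sum_le _ _).trans (Finset.sum_le_sum fun a _ => ?_)
        refine (_root_.norm_sum_le _ _).trans (Finset.sum_le_sum fun s _ => ?_)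
        rw [norm_mul, norm_mul, norm_mul, norm_ei, mul_one]
        exact mul_le_one₀ (mul_le_one₀ (hca a) (norm_nonneg _) (hcb s)) (norm_nonneg _) (hom _)
    _ = _ := by simp

/-- Geometry of two far blocks. -/
private lemma farblocks_gap {th q N jA jB t s : ℕ} (hq : 0 < q) (hN1 : q ≤ N) (hN2 : N ≤ 2 * q)
    (hj : jB + 3 ≤ jA) (hjA : jA < th) (ht : t / q = jA) (hs : s / q = jB) :
    (N : ℝ) ≤ (t : ℝ) - s ∧ (t : ℝ) - s ≤ th * N := by
  have h1 : jA * q ≤ t := ht ▸ Nat.div_mul_le_self t q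
  have h2 : s < (jB + 1) * q := by
    have := Nat.lt_mul_div_succ s hq
    rw [hs] at this
    linarith
  have h3 : t < (jA + 1) * q := by
    have := Nat.lt_mul_div_succ t hq
    rw [ht] at this
    linarith
  have h4 : (jB + 3) * q ≤ jA * q := Nat.mul_le_mul_right q hj
  have h5 : (jA + 1) * q ≤ th * N := Nat.mul_le_mul hjA hN1
  have h6 : s + N ≤ t := by nlinarith
  have h7 : t ≤ th * N := by omega
  constructor
  · have : ((s + N : ℕ) : ℝ) ≤ t := by exact_mod_cast h6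
    push_cast at this
    linarith
  · have : (t : ℝ) ≤ ((th * N : ℕ) : ℝ) := by exact_mod_cast h7
    push_cast at this
    have : (0 : ℝ) ≤ s := Nat.cast_nonneg s
    linarith

private lemma farblocks_sqrt {x w a : ℝ} (hx : 0 ≤ x) (hw : 0 ≤ w) (ha : 0 ≤ a)
    (h1 : x ≤ w * w) (h2 : x ≤ a * a) : x ≤ w * a := by
  have h3 : x * x ≤ (w * a) * (w * a) := by
    calc x * x ≤ (w * w) * (a * a) := mul_le_mul h1 h2 hx (mul_nonneg hw hw)
      _ = _ := by ring
  exact (mul_self_le_mul_self_iff hx (mul_nonneg hw ha)).2 h3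

/-- Two far blocks. Expand: the sum is `∑_{t ∈ A, s ∈ B} η t conj (η s) K (t - s)` with
`K u = ∑ g n ei (u log n)` and `N ≤ 2 th^(2k) < t - s < th ^ (2k+1) ≤ th N`. Replace `K` by
`kernel`; the term `μ` equals `(2 rho + 1) * bil A B ca cb (wt g rho μ)` with
`ca t = η t * ei (-(t (1 + log (2πμ))))`, `cb s = conj (η s) * ei (s (1 + log (2πμ)))`. As `Setup`
fails while all its other fields hold (`Unif.restrict`, `wt_norm_le`, `wt_slow`, `hflat`),
`‖bil‖ ≤ th ^ (2k - 16)`; also `‖bil‖ ≤ |W|^2`, so `‖bil‖ ≤ |W| th ^ (k - 8)`. Finally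
`th * 3 th ^ (k + 4) * th ^ (k - 8) ≤ 3 th ^ (2k - 3)`. -/
theorem far_blocks {th k X N : ℕ} {al : ℕ → ℕ} {W : Finset ℕ} {g : ℝ → ℝ} {η : ℕ → ℂ}
    (hB : ∀ (A B : Finset ℕ) (jA jB : ℕ) (ca cb : ℕ → ℂ) (om : ℝ → ℂ),
      ¬ Setup th k X al A B jA jB ca cb om)
    (hb : Big th (2 * k)) (hk : 100 ≤ k) (hkX : k ≤ X) (hX : X + 100 ≤ 2 * k)
    (hN1 : th ^ (2 * k) ≤ N) (hN2 : N ≤ 2 * th ^ (2 * k)) (hU : Unif th (2 * k) al W)
    (hW : W.card ≤ th ^ (k + 1)) (hη : ∀ t, ‖η t‖ ≤ 1) (hg : Cut N ((th : ℝ) ^ (X + 21)) g)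
    (hflat : ∀ mu ∈ Icc 1 th, ∀ u0 : ℝ, g (u0 / (2 * π * mu)) ≠ 0 →
      ((W ×ˢ W).filter (fun p : ℕ × ℕ =>
        |((p.1 : ℝ) - p.2) - u0| ≤ (th : ℝ) ^ (X + 21))).card ≤ th ^ (X + 25))
    {jA jB : ℕ} (hj : jB + 3 ≤ jA) (hjA : jA < th) :
    ‖∑ n ∈ Icc N (2 * N), (g n : ℂ) *
        ((∑ t ∈ cell W (th ^ (2 * k)) jA, η t * ei (t * Real.log n)) *
          (starRingEnd ℂ) (∑ s ∈ cell W (th ^ (2 * k)) jB, η s * ei (s * Real.log n)))‖
      ≤ ((cell W (th ^ (2 * k)) jA).card : ℝ) * (cell W (th ^ (2 * k)) jB).card * (th : ℝ) ^ (k - 1)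
        + 3 * W.card * (th : ℝ) ^ (2 * k - 3) := by
  have hth : 1000 ≤ th := hb.h1000
  have hth0 : 0 < th := by omega
  have hthR : (1 : ℝ) ≤ th := by exact_mod_cast hth0
  have hq : 0 < th ^ (2 * k) := pow_pos hth0 _
  set A := cell W (th ^ (2 * k)) jA with hA
  set B := cell W (th ^ (2 * k)) jB with hBdef
  have hAW : A ⊆ W := Finset.filter_subset _ _
  have hBW : B ⊆ W := Finset.filter_subset _ _
  have hblkA : ∀ a ∈ A, a / th ^ (2 * k) = jA := fun a ha => (Finset.mem_filter.1 ha).2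
  have hblkB : ∀ s ∈ B, s / th ^ (2 * k) = jB := fun s hs => (Finset.mem_filter.1 hs).2
  have hNpos : (0 : ℝ) < N := by exact_mod_cast lt_of_lt_of_le hq hN1
  set rho := th ^ (k + 4) with hrho
  -- the bilinear forms
  have hbil : ∀ mu ∈ Icc 1 th,
      ‖bil A B (fun t => η t * ei (-(t * (1 + Real.log (2 * π * mu)))))
        (fun s => (starRingEnd ℂ) (η s) * ei (s * (1 + Real.log (2 * π * mu))))
        (wt g rho mu)‖ ≤ W.card * (th : ℝ) ^ (k - 8) := by
    intro mu hmu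
    have hca : ∀ t : ℕ, ‖η t * ei (-(t * (1 + Real.log (2 * π * mu))))‖ ≤ 1 := by
      intro t
      rw [norm_mul, norm_ei, mul_one]
      exact hη t
    have hcb : ∀ s : ℕ,
        ‖(starRingEnd ℂ) (η s) * ei (s * (1 + Real.log (2 * π * mu)))‖ ≤ 1 := by
      intro s
      rw [norm_mul, norm_ei, mul_one, Complex.norm_conj]
      exact hη s
    have hom : ∀ u, ‖wt g rho mu u‖ ≤ 1 := wt_norm_le hg rho mu
    refine farblocks_sqrt (norm_nonneg _) (Nat.cast_nonneg _) (by positivity) ?_ ?_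
    · refine (farblocks_triv A B hca hcb hom).trans ?_
      exact mul_le_mul (by exact_mod_cast Finset.card_le_card hAW)
        (by exact_mod_cast Finset.card_le_card hBW) (Nat.cast_nonneg _) (Nat.cast_nonneg _)
    · by_contra hlt
      push Not at hlt
      refine hB A B jA jB _ _ (wt g rho mu)
        ⟨hb, hU.restrict le_rfl jA, hU.restrict le_rfl jB, hj, hjA, hblkA, hblkB,
          (Finset.card_le_card hAW).trans hW, (Finset.card_le_card hBW).trans hW, hca, hcb, hom,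
          fun u u' hu hu' huu => wt_slow hth (by omega) hg hmu u u' hu hu' huu, ?_, ?_⟩
      · intro a0 _ s0 _ hne
        have hg0 : g (((a0 : ℝ) - s0) / (2 * π * mu)) ≠ 0 := by
          intro h0
          apply hne
          unfold wt
          rw [h0]
          simp
        refine le_trans (Finset.card_le_card ?_) (hflat mu hmu _ hg0)
        exact Finset.filter_subset_filter _ (Finset.product_subset_product hAW hBW)
      · have he : (th : ℝ) ^ (2 * k) = (th : ℝ) ^ 16 * ((th : ℝ) ^ (k - 8) * (th : ℝ) ^ (k - 8)) := by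
          rw [← pow_add, ← pow_add]
          congr 1
          omega
        rw [he]
        exact mul_lt_mul_of_pos_left hlt (by positivity)
  -- the main part
  have hmain : ∑ t ∈ A, ∑ s ∈ B, η t * (starRingEnd ℂ) (η s) *
      ∑ mu ∈ Icc 1 th, (g (((t : ℝ) - s) / (2 * π * mu)) : ℂ) *
        ei (((t : ℝ) - s) * Real.log (((t : ℝ) - s) / (2 * π * mu)) - ((t : ℝ) - s)) *
          gauss rho mu ((t : ℝ) - s) =
      ∑ mu ∈ Icc 1 th, ((2 * rho + 1 : ℕ) : ℂ) *
        bil A B (fun t => η t * ei (-(t * (1 + Real.log (2 * π * mu)))))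
          (fun s => (starRingEnd ℂ) (η s) * ei (s * (1 + Real.log (2 * π * mu))))
          (wt g rho mu) := by
    unfold bil
    simp_rw [Finset.mul_sum]
    rw [Finset.sum_comm (s := Icc 1 th)]
    refine Finset.sum_congr rfl fun t ht => ?_
    rw [Finset.sum_comm (s := Icc 1 th)]
    refine Finset.sum_congr rfl fun s hs => ?_
    refine Finset.sum_congr rfl fun mu hmu => ?_
    have hgap := farblocks_gap hq hN1 hN2 hj hjA (hblkA t ht) (hblkB s hs)
    exact farblocks_term g η rho (Finset.mem_Icc.1 hmu).1 (by linarith [hgap.1])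
  have hmain_le : ‖∑ mu ∈ Icc 1 th, ((2 * rho + 1 : ℕ) : ℂ) *
        bil A B (fun t => η t * ei (-(t * (1 + Real.log (2 * π * mu)))))
          (fun s => (starRingEnd ℂ) (η s) * ei (s * (1 + Real.log (2 * π * mu))))
          (wt g rho mu)‖ ≤ 3 * W.card * (th : ℝ) ^ (2 * k - 3) := by
    have h3 : ((2 * rho + 1 : ℕ) : ℝ) ≤ 3 * (th : ℝ) ^ (k + 4) := by
      have : 1 ≤ rho := Nat.one_le_pow _ _ hth0
      have h4 : 2 * rho + 1 ≤ 3 * rho := by omega
      calc ((2 * rho + 1 : ℕ) : ℝ) ≤ ((3 * rho : ℕ) : ℝ) := by exact_mod_cast h4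
        _ = _ := by rw [hrho]; push_cast; ring
    calc _ ≤ ∑ mu ∈ Icc 1 th, 3 * (th : ℝ) ^ (k + 4) * (W.card * (th : ℝ) ^ (k - 8)) := by
          refine (_root_.norm_sum_le _ _).trans (Finset.sum_le_sum fun mu hmu => ?_)
          rw [norm_mul, Complex.norm_natCast]
          exact mul_le_mul h3 (hbil mu hmu) (norm_nonneg _) (by positivity)
      _ = 3 * W.card * ((th : ℝ) ^ 1 * (th : ℝ) ^ (k + 4) * (th : ℝ) ^ (k - 8)) := by
          rw [Finset.sum_const, Nat.card_Icc, nsmul_eq_mul, Nat.add_sub_cancel]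
          ring
      _ = 3 * W.card * (th : ℝ) ^ (2 * k - 3) := by
          rw [← pow_add, ← pow_add]
          congr 2
          omega
  -- the error
  have herr : ‖∑ t ∈ A, ∑ s ∈ B, η t * (starRingEnd ℂ) (η s) *
      (∑ n ∈ Icc N (2 * N), (g n : ℂ) * ei (((t : ℝ) - s) * Real.log n) -
        ∑ mu ∈ Icc 1 th, (g (((t : ℝ) - s) / (2 * π * mu)) : ℂ) *
          ei (((t : ℝ) - s) * Real.log (((t : ℝ) - s) / (2 * π * mu)) - ((t : ℝ) - s)) *
            gauss rho mu ((t : ℝ) - s))‖ ≤ (A.card : ℝ) * B.card * (th : ℝ) ^ (k - 1) := by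
    calc _ ≤ ∑ t ∈ A, ∑ s ∈ B, (th : ℝ) ^ (k - 1) := by
          refine (_root_.norm_sum_le _ _).trans (Finset.sum_le_sum fun t ht => ?_)
          refine (_root_.norm_sum_le _ _).trans (Finset.sum_le_sum fun s hs => ?_)
          have hgap := farblocks_gap hq hN1 hN2 hj hjA (hblkA t ht) (hblkB s hs)
          have hK := kernel hb (by omega) hN1 hN2 hgap.1 hgap.2
            (pow_le_pow_right₀ hthR (by omega : k + 11 ≤ X + 21)) hg
          rw [norm_mul, norm_mul, Complex.norm_conj]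
          calc _ ≤ 1 * (th : ℝ) ^ (k - 1) :=
                mul_le_mul (mul_le_one₀ (hη t) (norm_nonneg _) (hη s)) hK (norm_nonneg _)
                  zero_le_one
            _ = _ := one_mul _
      _ = _ := by
          rw [Finset.sum_const, Finset.sum_const, nsmul_eq_mul, nsmul_eq_mul]
          ring
  rw [farblocks_expand]
  have hsplit : ∑ t ∈ A, ∑ s ∈ B, η t * (starRingEnd ℂ) (η s) *
        ∑ n ∈ Icc N (2 * N), (g n : ℂ) * ei (((t : ℝ) - s) * Real.log n) =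
      ∑ t ∈ A, ∑ s ∈ B, η t * (starRingEnd ℂ) (η s) *
      (∑ n ∈ Icc N (2 * N), (g n : ℂ) * ei (((t : ℝ) - s) * Real.log n) -
        ∑ mu ∈ Icc 1 th, (g (((t : ℝ) - s) / (2 * π * mu)) : ℂ) *
          ei (((t : ℝ) - s) * Real.log (((t : ℝ) - s) / (2 * π * mu)) - ((t : ℝ) - s)) *
            gauss rho mu ((t : ℝ) - s)) +
      ∑ t ∈ A, ∑ s ∈ B, η t * (starRingEnd ℂ) (η s) *
      ∑ mu ∈ Icc 1 th, (g (((t : ℝ) - s) / (2 * π * mu)) : ℂ) *
        ei (((t : ℝ) - s) * Real.log (((t : ℝ) - s) / (2 * π * mu)) - ((t : ℝ) - s)) *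
          gauss rho mu ((t : ℝ) - s) := by
    rw [← Finset.sum_add_distrib]
    refine Finset.sum_congr rfl fun t _ => ?_
    rw [← Finset.sum_add_distrib]
    refine Finset.sum_congr rfl fun s _ => ?_
    ring
  rw [hsplit, hmain]
  exact (norm_add_le _ _).trans (add_le_add herr hmain_le)

end Pool.Agent.Lib.MP_ecd12e_nt.Bar
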