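import Pool.Agent.Lib.MP_ecd12e_nt.Bar.L1

set_option autoImplicit false

namespace Pool.Agent.Lib.MP_ecd12e_nt.Bar

open Finset Real
open scoped Pointwise

lemma final_log2 {N w : ℕ} (hN : 1 ≤ N) (hw : w ≤ N) :
    (Nat.log 2 w : ℝ) + 1 ≤ 2 * (1 + Real.log N) := by
  have h1 : 2 ^ Nat.log 2 w ≤ N :=
    (Nat.pow_le_pow_right (by norm_num) (Nat.log_mono_right hw)).trans
      (Nat.pow_log_le_self 2 (by omega))
  have h2 : ((2 : ℝ) ^ Nat.log 2 w) ≤ N := by exact_mod_cast h1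
  have h3 := Real.log_le_log (by positivity) h2
  rw [Real.log_pow] at h3
  have h4 : (0 : ℝ) ≤ Nat.log 2 w := Nat.cast_nonneg _
  nlinarith [Real.log_two_gt_d9]

lemma final_dual (N : ℕ) (W : Finset ℕ) (b η : ℕ → ℂ) (V : ℝ) (hb : ∀ n, ‖b n‖ ≤ 1)
    (hV : ∀ t ∈ W, V ≤ ‖∑ n ∈ Icc N (2 * N), b n * ei (t * Real.log n)‖)
    (hη : ∀ t : ℕ, ((‖∑ n ∈ Icc N (2 * N), b n * ei (t * Real.log n)‖ : ℝ) : ℂ) =
      η t * ∑ n ∈ Icc N (2 * N), b n * ei (t * Real.log n)) :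
    W.card * V ≤ ∑ n ∈ Icc N (2 * N), ‖∑ t ∈ W, η t * ei (t * Real.log n)‖ := by
  have h1 : ((∑ t ∈ W, ‖∑ n ∈ Icc N (2 * N), b n * ei (t * Real.log n)‖ : ℝ) : ℂ) =
      ∑ n ∈ Icc N (2 * N), b n * ∑ t ∈ W, η t * ei (t * Real.log n) := by
    rw [Complex.ofReal_sum]
    simp_rw [hη, Finset.mul_sum]
    rw [Finset.sum_comm]
    exact Finset.sum_congr rfl fun n _ => Finset.sum_congr rfl fun t _ => by ring
  calc (W.card : ℝ) * V ≤ ∑ t ∈ W, ‖∑ n ∈ Icc N (2 * N), b n * ei (t * Real.log n)‖ := by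
        rw [← nsmul_eq_mul]
        exact Finset.card_nsmul_le_sum _ _ _ hV
    _ ≤ ‖((∑ t ∈ W, ‖∑ n ∈ Icc N (2 * N), b n * ei (t * Real.log n)‖ : ℝ) : ℂ)‖ := by
        rw [Complex.norm_real]
        exact le_abs_self _
    _ ≤ _ := by
        rw [h1]
        refine (_root_.norm_sum_le _ _).trans (Finset.sum_le_sum fun n _ => ?_)
        rw [norm_mul]
        exact mul_le_of_le_one_left (norm_nonneg _) (hb n)

lemma final_ev (C : ℝ) (m : ℕ) {s : ℝ} (hs : 0 < s) :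
    ∀ᶠ x : ℝ in Filter.atTop, C * Real.log x ^ m < x ^ s := by
  have h := (isLittleO_log_rpow_rpow_atTop (m : ℝ) hs).bound (c := 1 / (2 * (|C| + 1)))
    (by positivity)
  filter_upwards [h, Filter.eventually_ge_atTop (1 : ℝ)] with x hx hx1
  have h0 : 0 ≤ Real.log x ^ m := pow_nonneg (Real.log_nonneg hx1) m
  have h1 : 0 < x ^ s := by positivity
  rw [Real.rpow_natCast, Real.norm_of_nonneg h0, Real.norm_of_nonneg h1.le, one_div,
    le_inv_mul_iff₀ (by positivity)] at hx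
  have h2 : C * Real.log x ^ m ≤ (|C| + 1) * Real.log x ^ m :=
    mul_le_mul_of_nonneg_right (by linarith [le_abs_self C]) h0
  linarith

lemma final_succ_pow {x : ℝ} {m : ℕ} (hx : 0 < x) (hm : 2 * (m : ℝ) ≤ x) :
    (x + 1) ^ m ≤ 2 * x ^ m := by
  have h1 : x + 1 ≤ Real.exp (1 / x) * x := by
    have := Real.add_one_le_exp (1 / x)
    calc x + 1 = (1 / x + 1) * x := by field_simp; ring
      _ ≤ _ := mul_le_mul_of_nonneg_right this hx.le
  have h2 : Real.exp (1 / x) ^ m ≤ 2 := by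
    rw [← Real.exp_nat_mul, ← Real.le_log_iff_exp_le (by norm_num), mul_one_div,
      div_le_iff₀ hx]
    nlinarith [Real.log_two_gt_d9]
  calc (x + 1) ^ m ≤ (Real.exp (1 / x) * x) ^ m := pow_le_pow_left₀ (by positivity) h1 m
    _ = Real.exp (1 / x) ^ m * x ^ m := mul_pow _ _ _
    _ ≤ _ := mul_le_mul_of_nonneg_right h2 (by positivity)

lemma final_logpow (m : ℕ) {ε : ℝ} (hε : 0 < ε) :
    ∃ C : ℝ, 0 ≤ C ∧ ∀ x : ℝ, 1 ≤ x → (2 * (1 + Real.log x)) ^ m ≤ C * x ^ ε := by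
  have he : 0 < ε / (m + 1) := by positivity
  refine ⟨(2 * (1 + (ε / (m + 1))⁻¹)) ^ m, by positivity, fun x hx => ?_⟩
  have h1 := Real.log_le_rpow_div (by linarith : 0 ≤ x) he
  have h2 : 1 ≤ x ^ (ε / (m + 1)) := Real.one_le_rpow hx he.le
  have h3 : (x ^ (ε / (m + 1))) ^ m ≤ x ^ ε := by
    rw [← Real.rpow_natCast, ← Real.rpow_mul (by linarith)]
    refine Real.rpow_le_rpow_of_exponent_le hx ?_
    rw [div_mul_eq_mul_div, div_le_iff₀ (by positivity)]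
    nlinarith
  have h4 := Real.log_nonneg hx
  calc (2 * (1 + Real.log x)) ^ m ≤ (2 * (1 + (ε / (m + 1))⁻¹) * x ^ (ε / (m + 1))) ^ m := by
        refine pow_le_pow_left₀ (by positivity) ?_ m
        rw [div_eq_mul_inv (x ^ (ε / (m + 1)))] at h1
        linarith
    _ = (2 * (1 + (ε / (m + 1))⁻¹)) ^ m * (x ^ (ε / (m + 1))) ^ m := mul_pow _ _ _
    _ ≤ _ := mul_le_mul_of_nonneg_left h3 (by positivity)

/-- Large values on sets of natural numbers. Uniformise `W` (`exists_unif`) to `W'`, choose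
`η t` of norm one with `η t * D t = ‖D t‖`; then `|W'| V ≤ ∑_n ‖F n‖`, and `l1_bound` gives
`|W'| V^2 ≤ 10000 N^2 (1 + log N)`. Also `Nat.log 2 |W| + 1 ≤ 2 (1 + log N)` because
`|W| ≤ th ^ (k+1) ≤ N` and `1 / log 2 < 2`. -/
theorem lv_small : ∃ k : ℕ, 1 ≤ k ∧ ∀ (th N : ℕ) (W : Finset ℕ) (b : ℕ → ℂ) (V : ℝ),
    Big th (2 * k) → th ^ (2 * k) ≤ N → N ≤ 2 * th ^ (2 * k) →
    (∀ t ∈ W, t < th ^ (2 * k + 1)) → W.card ≤ th ^ (k + 1) → (∀ n, ‖b n‖ ≤ 1) → 0 ≤ V →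
    (∀ t ∈ W, V ≤ ‖∑ n ∈ Icc N (2 * N), b n * ei (t * Real.log n)‖) →
    W.card * V ^ 2 ≤ 10000 * (N : ℝ) ^ 2 * (2 * (1 + Real.log N)) ^ (2 * k + 2) := by
  obtain ⟨k, hk, hl1⟩ := l1_bound
  refine ⟨k, hk, fun th N W b V hbig hN1 hN2 hWt hWc hb hV hWV => ?_⟩
  have hth : 1 ≤ th := le_trans (by norm_num) hbig.h1000
  have hN : 1 ≤ N := le_trans (Nat.one_le_pow _ _ hth) hN1
  have hN' : (1 : ℝ) ≤ N := by exact_mod_cast hN
  have hlog : 0 ≤ Real.log N := Real.log_nonneg hN'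
  have hWN : W.card ≤ N := hWc.trans ((Nat.pow_le_pow_right hth (by omega)).trans hN1)
  obtain ⟨W', hsub, al, hU, hcard⟩ := exists_unif th (2 * k) W
  choose η hη1 hη2 using fun t : ℕ =>
    Complex.exists_norm_eq_mul_self (∑ n ∈ Icc N (2 * N), b n * ei (t * Real.log n))
  have h1 := hl1 th N al W' η hbig hN1 hN2 hU (fun t ht => hWt t (hsub ht))
    ((Finset.card_le_card hsub).trans hWc) (fun t => (hη1 t).le)
  have h2 := final_dual N W' b η V hb (fun t ht => hWV t (hsub ht)) hη2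
  have h3 : (W'.card : ℝ) * V ^ 2 ≤ 10000 * (N : ℝ) ^ 2 * (1 + Real.log N) := by
    rcases Nat.eq_zero_or_pos W'.card with h0 | hpos
    · rw [h0, Nat.cast_zero, zero_mul]
      positivity
    · have hpos' : (0 : ℝ) < W'.card := by exact_mod_cast hpos
      refine le_of_mul_le_mul_left ?_ hpos'
      calc (W'.card : ℝ) * (W'.card * V ^ 2) = (W'.card * V) ^ 2 := by ring
        _ ≤ _ := pow_le_pow_left₀ (by positivity) h2 2
        _ ≤ _ := h1
        _ = _ := by ring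
  have h4 : (W.card : ℝ) ≤ (2 * (1 + Real.log N)) ^ (2 * k + 1) * W'.card := by
    have h5 : (W.card : ℝ) ≤ ((Nat.log 2 W.card : ℝ) + 1) ^ (2 * k + 1) * W'.card := by
      exact_mod_cast hcard
    refine h5.trans (mul_le_mul_of_nonneg_right ?_ (Nat.cast_nonneg _))
    exact pow_le_pow_left₀ (by positivity) (final_log2 hN hWN) _
  calc (W.card : ℝ) * V ^ 2 ≤ (2 * (1 + Real.log N)) ^ (2 * k + 1) * W'.card * V ^ 2 :=
        mul_le_mul_of_nonneg_right h4 (sq_nonneg _)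
    _ = (2 * (1 + Real.log N)) ^ (2 * k + 1) * (W'.card * V ^ 2) := by ring
    _ ≤ (2 * (1 + Real.log N)) ^ (2 * k + 1) * (10000 * (N : ℝ) ^ 2 * (2 * (1 + Real.log N))) := by
        refine mul_le_mul_of_nonneg_left (h3.trans ?_) (by positivity)
        exact mul_le_mul_of_nonneg_left (by linarith) (by positivity)
    _ = _ := by ring

/-- Choice of the grid: for large `N`, `th = ⌊N ^ (1 / (2k))⌋` (for instance the largest `th` with
`th ^ (2k) ≤ N`) is `Big`, `N < (th + 1) ^ (2k) ≤ 2 th ^ (2k)`,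
`N ^ (1 + 1/(8k)) < th ^ (2k+1)`, and `c N ^ (1/2 + 1/(4k)) (2 (1 + log N)) ^ (2k+2) < th ^ (k+1)`
(as `th ^ (k+1) ≥ (N/2) ^ (1/2 + 1/(2k))`). -/
theorem exists_grid (k : ℕ) (hk : 1 ≤ k) : ∃ N0 : ℕ, ∀ N ≥ N0, ∃ th : ℕ, Big th (2 * k) ∧
    th ^ (2 * k) ≤ N ∧ N ≤ 2 * th ^ (2 * k) ∧
    (N : ℝ) ^ (1 + 1 / (8 * (k : ℝ))) < (th : ℝ) ^ (2 * k + 1) ∧
    10000 * (N : ℝ) ^ (1 / 2 + 1 / (4 * (k : ℝ))) * (2 * (1 + Real.log N)) ^ (2 * k + 2)
      < (th : ℝ) ^ (k + 1) := by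
  have hk' : (1 : ℝ) ≤ k := by exact_mod_cast hk
  have e1 := final_ev (10 + 20 * (k : ℝ)) 1 (s := 1) one_pos
  have e2 := final_ev 4 0 (s := 3 / 4) (by norm_num)
  have e3 := final_ev (20000 * (4 + 4 * (k : ℝ)) ^ (2 * k + 2)) (2 * k + 2) (s := 1 / 2)
    (by norm_num)
  obtain ⟨x0, hx0⟩ := Filter.eventually_atTop.1
    (e1.and (e2.and (e3.and (Filter.eventually_ge_atTop (1000 : ℝ)))))
  refine ⟨⌈x0⌉₊ ^ (2 * k), fun N hN => ?_⟩
  have hk0 : 2 * k ≠ 0 := by omega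
  set th := Nat.nthRoot (2 * k) N with hth
  have hlo : th ^ (2 * k) ≤ N := Nat.pow_nthRoot_le (Or.inl hk0)
  have hhi : N < (th + 1) ^ (2 * k) := Nat.lt_pow_nthRoot_add_one hk0 N
  have hx : x0 ≤ th := by
    have h1 : ⌈x0⌉₊ < th + 1 := lt_of_pow_lt_pow_left₀ (2 * k) (Nat.zero_le _) (hN.trans_lt hhi)
    exact (Nat.le_ceil x0).trans (by exact_mod_cast Nat.lt_succ_iff.1 h1)
  obtain ⟨h1, h2, h3, h4⟩ := hx0 th hx
  have hth0 : (0 : ℝ) < th := by linarith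
  have hlog : 1 ≤ Real.log th := by
    rw [Real.le_log_iff_exp_le hth0]
    linarith [Real.exp_one_lt_d9]
  rw [pow_one, Real.rpow_one] at h1
  rw [pow_zero, mul_one] at h2
  have hbig : Big th (2 * k) := ⟨by exact_mod_cast h4, by push_cast; nlinarith⟩
  have hN2 : (N : ℝ) ≤ 2 * (th : ℝ) ^ (2 * k) := by
    have h5 : (N : ℝ) ≤ ((th : ℝ) + 1) ^ (2 * k) := by exact_mod_cast hhi.le
    exact h5.trans (final_succ_pow hth0 (by push_cast; nlinarith))
  have hN1 : (1 : ℝ) ≤ N := by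
    have : 1 ≤ th ^ (2 * k) := Nat.one_le_pow _ _ (by exact_mod_cast hth0)
    exact_mod_cast this.trans hlo
  have hpow : ∀ a : ℝ, 0 ≤ a → (N : ℝ) ^ a ≤ 2 ^ a * (th : ℝ) ^ (2 * k * a) := by
    intro a ha
    refine (Real.rpow_le_rpow (by linarith) hN2 ha).trans (le_of_eq ?_)
    rw [Real.mul_rpow (by norm_num) (by positivity), ← Real.rpow_natCast, ← Real.rpow_mul hth0.le]
    push_cast
    rfl
  refine ⟨th, hbig, hlo, by exact_mod_cast hN2, ?_, ?_⟩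
  · have ha : 1 / (8 * (k : ℝ)) ≤ 1 := by
      rw [div_le_one (by positivity)]
      linarith
    have h5 : (2 : ℝ) ^ (1 + 1 / (8 * (k : ℝ))) ≤ 4 := by
      calc (2 : ℝ) ^ (1 + 1 / (8 * (k : ℝ))) ≤ 2 ^ (2 : ℝ) :=
            Real.rpow_le_rpow_of_exponent_le (by norm_num) (by linarith)
        _ = 4 := by norm_num
    have h6 : 2 * (k : ℝ) * (1 + 1 / (8 * (k : ℝ))) = 2 * k + 1 / 4 := by
      field_simp
      ring
    calc (N : ℝ) ^ (1 + 1 / (8 * (k : ℝ))) ≤ _ := hpow _ (by positivity)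
      _ ≤ 4 * (th : ℝ) ^ (2 * (k : ℝ) + 1 / 4) := by
          rw [h6]
          exact mul_le_mul_of_nonneg_right h5 (by positivity)
      _ < (th : ℝ) ^ (3 / 4 : ℝ) * (th : ℝ) ^ (2 * (k : ℝ) + 1 / 4) :=
          mul_lt_mul_of_pos_right h2 (by positivity)
      _ = _ := by
          rw [← Real.rpow_add hth0, ← Real.rpow_natCast]
          congr 1
          push_cast
          ring
  · have ha : 1 / (4 * (k : ℝ)) ≤ 1 / 2 := by
      rw [div_le_div_iff₀ (by positivity) (by norm_num)]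
      linarith
    have h5 : (2 : ℝ) ^ (1 / 2 + 1 / (4 * (k : ℝ))) ≤ 2 := by
      calc (2 : ℝ) ^ (1 / 2 + 1 / (4 * (k : ℝ))) ≤ 2 ^ (1 : ℝ) :=
            Real.rpow_le_rpow_of_exponent_le (by norm_num) (by linarith)
        _ = 2 := by norm_num
    have h6 : 2 * (k : ℝ) * (1 / 2 + 1 / (4 * (k : ℝ))) = k + 1 / 2 := by
      field_simp
      ring
    have h7 : (N : ℝ) ^ (1 / 2 + 1 / (4 * (k : ℝ))) ≤ 2 * (th : ℝ) ^ ((k : ℝ) + 1 / 2) := by
      refine (hpow _ (by positivity)).trans ?_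
      rw [h6]
      exact mul_le_mul_of_nonneg_right h5 (by positivity)
    have h8 : Real.log N ≤ 1 + 2 * k * Real.log th := by
      refine (Real.log_le_log (by linarith) hN2).trans ?_
      rw [Real.log_mul (by norm_num) (by positivity), Real.log_pow]
      push_cast
      linarith [Real.log_two_lt_d9]
    have h9 : (2 * (1 + Real.log N)) ^ (2 * k + 2) ≤
        (4 + 4 * (k : ℝ)) ^ (2 * k + 2) * Real.log th ^ (2 * k + 2) := by
      rw [← mul_pow]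
      have := Real.log_nonneg hN1
      exact pow_le_pow_left₀ (by positivity) (by nlinarith) _
    calc 10000 * (N : ℝ) ^ (1 / 2 + 1 / (4 * (k : ℝ))) * (2 * (1 + Real.log N)) ^ (2 * k + 2)
        ≤ 10000 * (2 * (th : ℝ) ^ ((k : ℝ) + 1 / 2)) *
            ((4 + 4 * (k : ℝ)) ^ (2 * k + 2) * Real.log th ^ (2 * k + 2)) := by
          have := Real.log_nonneg hN1
          exact mul_le_mul (mul_le_mul_of_nonneg_left h7 (by norm_num)) h9 (by positivity)
            (by positivity)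
      _ = (20000 * (4 + 4 * (k : ℝ)) ^ (2 * k + 2) * Real.log th ^ (2 * k + 2)) *
            (th : ℝ) ^ ((k : ℝ) + 1 / 2) := by ring
      _ < (th : ℝ) ^ (1 / 2 : ℝ) * (th : ℝ) ^ ((k : ℝ) + 1 / 2) :=
          mul_lt_mul_of_pos_right h3 (by positivity)
      _ = _ := by
          rw [← Real.rpow_add hth0, ← Real.rpow_natCast]
          congr 1
          push_cast
          ring

/-- The theorem. Take `δ = 1 / (8k)`. For `N ≥ N0` pass to the natural numbers `t.toNat`; if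
`|W| > th ^ (k+1)` apply `lv_small` to a subset with `th ^ (k+1)` points and contradict the last
clause of `exists_grid` (`2 - 2σ ≤ 1/2 + 1/(4k)`); so `lv_small` applies to `W`, and
`(2 (1 + log N)) ^ (2k+2) ≤ C N ^ ε`. For `N < N0`: `|W| ≤ T + 1 ≤ N0 ^ 2 + 1`, and if `W` is
nonempty then `N ^ σ < 2 N`, so `N ^ (2 - 2σ + ε) ≥ 1/4`. -/
theorem large_values : ∃ δ : ℝ, 0 < δ ∧ ∀ ε : ℝ, 0 < ε → ∃ C : ℝ, ∀ σ : ℝ, 3 / 4 - δ ≤ σ →
    ∀ N : ℕ, 1 ≤ N → ∀ T : ℝ, (N : ℝ) ≤ T → T ≤ (N : ℝ) ^ (1 + δ) →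
    ∀ b : ℕ → ℂ, (∀ n, ‖b n‖ ≤ 1) →
    ∀ W : Finset ℤ,
      (∀ t ∈ W, 0 ≤ (t : ℝ) ∧ (t : ℝ) ≤ T ∧
        (N : ℝ) ^ σ < ‖∑ n ∈ Finset.Icc N (2 * N),
            b n * Complex.exp ((((t : ℝ) * Real.log (n : ℝ) : ℝ) : ℂ) * Complex.I)‖) →
      (W.card : ℝ) ≤ C * (N : ℝ) ^ (2 - 2 * σ + ε) := by
  obtain ⟨k, hk, hlv⟩ := lv_small
  obtain ⟨N0, hN0⟩ := exists_grid k hk
  have hk' : (1 : ℝ) ≤ k := by exact_mod_cast hk
  refine ⟨1 / (8 * (k : ℝ)), by positivity, fun ε hε => ?_⟩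
  obtain ⟨C1, hC1, hlogC⟩ := final_logpow (2 * k + 2) hε
  refine ⟨10000 * C1 + 4 * ((N0 : ℝ) ^ 2 + 1), fun σ hσ N hN T hNT hT b hb W hW => ?_⟩
  have hN' : (1 : ℝ) ≤ N := by exact_mod_cast hN
  have hN0' : (0 : ℝ) < N := by linarith
  have hsplit : (N : ℝ) ^ (2 - 2 * σ) * ((N : ℝ) ^ σ) ^ 2 = (N : ℝ) ^ 2 := by
    rw [← Real.rpow_natCast ((N : ℝ) ^ σ), ← Real.rpow_mul hN0'.le, ← Real.rpow_add hN0',
      ← Real.rpow_natCast]
    congr 1
    push_cast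
    ring
  have hV : 0 < (N : ℝ) ^ σ := by positivity
  have hP : 0 < (N : ℝ) ^ (2 - 2 * σ) := by positivity
  have hE : 1 ≤ (N : ℝ) ^ ε := Real.one_le_rpow hN' hε.le
  rw [Real.rpow_add hN0']
  rcases le_or_gt N0 N with hle | hlt
  · obtain ⟨th, hbig, h1, h2, h3, h4⟩ := hN0 N hle
    have hinj : Set.InjOn Int.toNat (W : Set ℤ) := by
      intro s hs t ht hst
      have hs0 : 0 ≤ s := by exact_mod_cast (hW s hs).1
      have ht0 : 0 ≤ t := by exact_mod_cast (hW t ht).1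
      omega
    have hcard : (W.image Int.toNat).card = W.card := Finset.card_image_of_injOn hinj
    have key : ∀ U ⊆ W.image Int.toNat, U.card ≤ th ^ (k + 1) →
        (U.card : ℝ) ≤ 10000 * (N : ℝ) ^ (2 - 2 * σ) * (2 * (1 + Real.log N)) ^ (2 * k + 2) := by
      intro U hU hUc
      have hmem : ∀ u ∈ U, ∃ t ∈ W, (t : ℝ) = (u : ℝ) := by
        intro u hu
        obtain ⟨t, ht, rfl⟩ := Finset.mem_image.1 (hU hu)
        have ht0 : 0 ≤ t := by exact_mod_cast (hW t ht).1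
        refine ⟨t, ht, ?_⟩
        have : ((t.toNat : ℕ) : ℤ) = t := Int.toNat_of_nonneg ht0
        exact_mod_cast this.symm
      have h5 := hlv th N U b ((N : ℝ) ^ σ) hbig h1 h2 (fun u hu => ?_) hUc hb hV.le
        (fun u hu => ?_)
      · refine le_of_mul_le_mul_right (h5.trans (le_of_eq ?_)) (pow_pos hV 2)
        rw [← hsplit]
        ring
      · obtain ⟨t, ht, htu⟩ := hmem u hu
        have : (u : ℝ) < (th : ℝ) ^ (2 * k + 1) :=
          lt_of_le_of_lt (htu ▸ ((hW t ht).2.1.trans hT)) h3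
        exact_mod_cast this
      · obtain ⟨t, ht, htu⟩ := hmem u hu
        have := (hW t ht).2.2.le
        rw [htu] at this
        exact this
    have hL : 0 ≤ (2 * (1 + Real.log N)) ^ (2 * k + 2) := by
      have := Real.log_nonneg hN'
      positivity
    have hsmall : W.card ≤ th ^ (k + 1) := by
      by_contra hbigW
      obtain ⟨U, hU, hUc⟩ := Finset.exists_subset_card_eq
        (s := W.image Int.toNat) (n := th ^ (k + 1)) (by omega)
      have h5 := key U hU hUc.le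
      rw [hUc] at h5
      push_cast at h5
      have h6 : (N : ℝ) ^ (2 - 2 * σ) ≤ (N : ℝ) ^ (1 / 2 + 1 / (4 * (k : ℝ))) := by
        refine Real.rpow_le_rpow_of_exponent_le hN' ?_
        have : 1 / (4 * (k : ℝ)) = 2 * (1 / (8 * (k : ℝ))) := by
          field_simp
          ring
        linarith
      have h7 := mul_le_mul_of_nonneg_right
        (mul_le_mul_of_nonneg_left h6 (by norm_num : (0 : ℝ) ≤ 10000)) hL
      linarith
    have h5 := key _ subset_rfl (hcard ▸ hsmall)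
    rw [hcard] at h5
    calc (W.card : ℝ) ≤ 10000 * (N : ℝ) ^ (2 - 2 * σ) * (C1 * (N : ℝ) ^ ε) :=
          h5.trans (mul_le_mul_of_nonneg_left (hlogC N hN') (by positivity))
      _ = 10000 * C1 * ((N : ℝ) ^ (2 - 2 * σ) * (N : ℝ) ^ ε) := by ring
      _ ≤ _ := mul_le_mul_of_nonneg_right (le_add_of_nonneg_right (by positivity)) (by positivity)
  · rcases W.eq_empty_or_nonempty with rfl | ⟨t, ht⟩
    · simp only [Finset.card_empty, Nat.cast_zero]
      positivity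
    have hT2 : T ≤ (N0 : ℝ) ^ 2 := by
      have ha : 1 / (8 * (k : ℝ)) ≤ 1 := by
        rw [div_le_one (by positivity)]
        linarith
      calc T ≤ (N : ℝ) ^ (2 : ℝ) :=
            hT.trans (Real.rpow_le_rpow_of_exponent_le hN' (by linarith))
        _ = (N : ℝ) ^ 2 := by norm_cast
        _ ≤ _ := pow_le_pow_left₀ hN0'.le (by exact_mod_cast hlt.le) 2
    have hWc : (W.card : ℝ) ≤ (N0 : ℝ) ^ 2 + 1 := by
      have hsub : W ⊆ Icc (0 : ℤ) ((N0 : ℤ) ^ 2) := by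
        intro s hs
        rw [Finset.mem_Icc]
        exact ⟨by exact_mod_cast (hW s hs).1, by exact_mod_cast (hW s hs).2.1.trans hT2⟩
      have h1 := Finset.card_le_card hsub
      rw [Int.card_Icc] at h1
      have h2 : (W.card : ℤ) ≤ (N0 : ℤ) ^ 2 + 1 := by
        have : (0 : ℤ) ≤ (N0 : ℤ) ^ 2 := by positivity
        omega
      exact_mod_cast h2
    have hV2 : (N : ℝ) ^ σ ≤ 2 * N := by
      refine (hW t ht).2.2.le.trans ((_root_.norm_sum_le _ _).trans ?_)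
      refine (Finset.sum_le_card_nsmul _ _ 1 fun n _ => ?_).trans ?_
      · rw [norm_mul, Complex.norm_exp_ofReal_mul_I, mul_one]
        exact hb n
      · rw [Nat.card_Icc, nsmul_eq_mul, mul_one]
        have : 2 * N + 1 - N ≤ 2 * N := by omega
        exact_mod_cast this
    have hq : 1 ≤ 4 * (N : ℝ) ^ (2 - 2 * σ) := by
      have h1 : ((N : ℝ) ^ σ) ^ 2 ≤ (2 * N) ^ 2 := pow_le_pow_left₀ hV.le hV2 2
      have h2 := mul_le_mul_of_nonneg_left h1 hP.le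
      rw [hsplit] at h2
      refine le_of_mul_le_mul_right ?_ (pow_pos hN0' 2)
      linarith
    calc (W.card : ℝ) ≤ ((N0 : ℝ) ^ 2 + 1) * (1 * 1) := by linarith
      _ ≤ ((N0 : ℝ) ^ 2 + 1) * ((4 * (N : ℝ) ^ (2 - 2 * σ)) * (N : ℝ) ^ ε) :=
          mul_le_mul_of_nonneg_left (mul_le_mul hq hE zero_le_one (by positivity)) (by positivity)
      _ = 4 * ((N0 : ℝ) ^ 2 + 1) * ((N : ℝ) ^ (2 - 2 * σ) * (N : ℝ) ^ ε) := by ring
      _ ≤ _ := mul_le_mul_of_nonneg_right (le_add_of_nonneg_left (by positivity)) (by positivity)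

end Pool.Agent.Lib.MP_ecd12e_nt.Bar
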