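import Pool.Agent.Lib.MP_ecd12e_nt.Bar.Defs

set_option autoImplicit false

namespace Pool.Agent.Lib.MP_ecd12e_nt.Bar

open Finset Real
open scoped Pointwise

/-- `A` is a `Θ^(-v)`-separated family of points of `S` of size at most `Θ^(-u)`. -/
def Fam (S : Set ℝ) (Θ u v : ℕ) (A : Finset ℝ) : Prop :=
  (∀ x ∈ A, x ∈ S ∧ |x| ≤ (Θ : ℝ)⁻¹ ^ u) ∧ Sep ((Θ : ℝ)⁻¹ ^ v) A

/-- The largest size of such a family. -/
noncomputable def NN (S : Set ℝ) (Θ u v : ℕ) : ℕ := sSup {n | ∃ A, Fam S Θ u v A ∧ A.card = n}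

/-- Five more steps of the tower do not increase the counts by more than a factor `Θ`. -/
def Stab (S : ℕ → Set ℝ) (Θ n j : ℕ) : Prop :=
  ∀ u ≤ n, ∀ v ≤ n, NN (S (j + 5)) Θ u v ≤ Θ * NN (S j) Θ u v

/-- `S` has elements of all sizes. -/
def Dil (S : Set ℝ) (Θ n : ℕ) : Prop :=
  ∀ t ≤ n, ∃ d ∈ S, (Θ : ℝ)⁻¹ ^ (t + 6) ≤ |d| ∧ |d| ≤ (Θ : ℝ)⁻¹ ^ t

theorem Tower.mono_le {S : ℕ → Set ℝ} (h : Tower S) {i j : ℕ} (hij : i ≤ j) : S i ⊆ S j := by
  induction hij with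
  | refl => exact subset_rfl
  | step _ ih => exact fun x hx => h.mono _ x (ih hx)

/-- Packing: `x ↦ ⌊(x - c + ρ) / d⌋` is injective on `A` with values in `[0, 2ρ / d]`. -/
theorem Sep.card_le {d ρ c : ℝ} {A : Finset ℝ} (h : Sep d A) (hd : 0 < d) (hρ : 0 ≤ ρ)
    (hA : ∀ x ∈ A, |x - c| ≤ ρ) : (A.card : ℝ) * d ≤ 2 * ρ + d := by
  have h1 : ∀ x ∈ A, ⌊(x - c + ρ) / d⌋ ∈ Finset.Icc (0 : ℤ) ⌊2 * ρ / d⌋ := by
    intro x hx
    have h2 := abs_le.1 (hA x hx)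
    rw [Finset.mem_Icc]
    constructor
    · exact Int.floor_nonneg.2 (div_nonneg (by linarith) hd.le)
    · exact Int.floor_le_floor (div_le_div_of_nonneg_right (by linarith) hd.le)
  have h2 : Set.InjOn (fun x => ⌊(x - c + ρ) / d⌋) (A : Set ℝ) := by
    intro x hx y hy hxy
    by_contra hne
    have h3 := h x hx y hy hne
    have h4 := Int.abs_sub_lt_one_of_floor_eq_floor hxy
    have h5 : (x - c + ρ) / d - (y - c + ρ) / d = (x - y) / d := by ring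
    rw [h5, abs_div, abs_of_pos hd, div_lt_one hd] at h4
    linarith
  have h3 := Finset.card_le_card_of_injOn _ h1 h2
  rw [Int.card_Icc] at h3
  have h4 : 0 ≤ ⌊2 * ρ / d⌋ := Int.floor_nonneg.2 (by positivity)
  have h5 : (A.card : ℤ) ≤ ⌊2 * ρ / d⌋ + 1 := by omega
  have h6 : (A.card : ℝ) ≤ 2 * ρ / d + 1 := by
    have h7 : ((A.card : ℤ) : ℝ) ≤ ((⌊2 * ρ / d⌋ + 1 : ℤ) : ℝ) := by exact_mod_cast h5
    have h8 := Int.floor_le (2 * ρ / d)
    push_cast at h7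
    linarith
  calc (A.card : ℝ) * d ≤ (2 * ρ / d + 1) * d := mul_le_mul_of_nonneg_right h6 hd.le
    _ = 2 * ρ + d := by field_simp

/-- One point in each cell of the more frequent parity. -/
theorem exists_sep (A : Finset ℝ) {d : ℝ} (hd : 0 < d) :
    ∃ A' ⊆ A, Sep d A' ∧ (A.image (fun x => ⌊x / d⌋)).card ≤ 2 * A'.card := by
  classical
  set I := A.image (fun x => ⌊x / d⌋) with hI
  have hf : ∀ k : ℤ, ∃ x : ℝ, k ∈ I → x ∈ A ∧ ⌊x / d⌋ = k := by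
    intro k
    by_cases hk : k ∈ I
    · obtain ⟨x, hx, hxk⟩ := Finset.mem_image.1 hk
      exact ⟨x, fun _ => ⟨hx, hxk⟩⟩
    · exact ⟨0, fun h => absurd h hk⟩
  choose f hf using hf
  have key : ∀ J ⊆ I, (∀ k ∈ J, ∀ l ∈ J, k % 2 = l % 2) → I.card ≤ 2 * J.card →
      ∃ A' ⊆ A, Sep d A' ∧ I.card ≤ 2 * A'.card := by
    intro J hJ hpar hc
    refine ⟨J.image f, ?_, ?_, ?_⟩
    · intro x hx
      obtain ⟨k, hk, rfl⟩ := Finset.mem_image.1 hx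
      exact (hf k (hJ hk)).1
    · intro x hx y hy hxy
      obtain ⟨k, hk, rfl⟩ := Finset.mem_image.1 hx
      obtain ⟨l, hl, rfl⟩ := Finset.mem_image.1 hy
      have hkl : k ≠ l := fun h => hxy (by rw [h])
      have h1 := (hf k (hJ hk)).2
      have h2 := (hf l (hJ hl)).2
      have h3 := hpar k hk l hl
      have a1 := Int.floor_le (f k / d)
      have a2 := Int.lt_floor_add_one (f k / d)
      have a3 := Int.floor_le (f l / d)
      have a4 := Int.lt_floor_add_one (f l / d)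
      rw [h1] at a1 a2
      rw [h2] at a3 a4
      rw [le_div_iff₀ hd] at a1 a3
      rw [div_lt_iff₀ hd] at a2 a4
      rcases lt_or_gt_of_ne hkl with h4 | h4
      · have h5 : k + 2 ≤ l := by omega
        have h6 : (k : ℝ) + 2 ≤ l := by exact_mod_cast h5
        have h7 := mul_le_mul_of_nonneg_right h6 hd.le
        rw [le_abs]
        right
        linarith
      · have h5 : l + 2 ≤ k := by omega
        have h6 : (l : ℝ) + 2 ≤ k := by exact_mod_cast h5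
        have h7 := mul_le_mul_of_nonneg_right h6 hd.le
        rw [le_abs]
        left
        linarith
    · rw [Finset.card_image_of_injOn (s := J)]
      · exact hc
      · intro k hk l hl hkl
        rw [← (hf k (hJ hk)).2, ← (hf l (hJ hl)).2, hkl]
  have hsplit := Finset.card_filter_add_card_filter_not (s := I) (fun k => k % 2 = 0)
  by_cases hc : I.card ≤ 2 * (I.filter (fun k => k % 2 = 0)).card
  · refine key _ (Finset.filter_subset _ _) ?_ hc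
    intro k hk l hl
    rw [(Finset.mem_filter.1 hk).2, (Finset.mem_filter.1 hl).2]
  · refine key (I.filter (fun k => ¬ k % 2 = 0)) (Finset.filter_subset _ _) ?_ (by omega)
    intro k hk l hl
    have h1 := (Finset.mem_filter.1 hk).2
    have h2 := (Finset.mem_filter.1 hl).2
    omega

lemma growa_one {Θ : ℕ} (hΘ : 100 ≤ Θ) : (1 : ℝ) ≤ Θ := by
  exact_mod_cast (by omega : 1 ≤ Θ)

lemma growa_pos {Θ : ℕ} (hΘ : 100 ≤ Θ) (u : ℕ) : 0 < (Θ : ℝ)⁻¹ ^ u :=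
  pow_pos (inv_pos.2 (one_pos.trans_le (growa_one hΘ))) u

lemma growa_anti {Θ : ℕ} (hΘ : 100 ≤ Θ) {u v : ℕ} (h : u ≤ v) : (Θ : ℝ)⁻¹ ^ v ≤ (Θ : ℝ)⁻¹ ^ u :=
  pow_le_pow_of_le_one (by positivity) (inv_le_one_of_one_le₀ (growa_one hΘ)) h

lemma growa_mul {Θ : ℕ} (hΘ : 100 ≤ Θ) (u t : ℕ) :
    (Θ : ℝ) ^ t * (Θ : ℝ)⁻¹ ^ (u + t) = (Θ : ℝ)⁻¹ ^ u := by
  have h0 : (Θ : ℝ) ≠ 0 := (one_pos.trans_le (growa_one hΘ)).ne'
  rw [pow_add, mul_left_comm, ← mul_pow, mul_inv_cancel₀ h0, one_pow, mul_one]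

theorem Fam.card_le {S : Set ℝ} {Θ u v : ℕ} (hΘ : 100 ≤ Θ) {A : Finset ℝ} (h : Fam S Θ u v A) :
    A.card ≤ 3 * Θ ^ (v - u) := by
  have h0 := growa_pos hΘ v
  have h1 := h.2.card_le (c := 0) h0 (growa_pos hΘ u).le (fun x hx => by
    rw [sub_zero]; exact (h.1 x hx).2)
  have h2 : (Θ : ℝ)⁻¹ ^ u ≤ (Θ : ℝ) ^ (v - u) * (Θ : ℝ)⁻¹ ^ v := by
    rw [← growa_mul hΘ u (v - u)]
    exact mul_le_mul_of_nonneg_left (growa_anti hΘ (by omega)) (by positivity)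
  have h3 : (1 : ℝ) ≤ (Θ : ℝ) ^ (v - u) := one_le_pow₀ (growa_one hΘ)
  have h4 : (A.card : ℝ) * (Θ : ℝ)⁻¹ ^ v ≤ (3 * (Θ : ℝ) ^ (v - u)) * (Θ : ℝ)⁻¹ ^ v := by
    have h5 := mul_le_mul_of_nonneg_right h3 h0.le
    linarith
  have h6 := le_of_mul_le_mul_right h4 h0
  exact_mod_cast h6

lemma growa_bdd (S : Set ℝ) {Θ : ℕ} (hΘ : 100 ≤ Θ) (u v : ℕ) :
    BddAbove {n | ∃ A, Fam S Θ u v A ∧ A.card = n} := by
  refine ⟨3 * Θ ^ (v - u), ?_⟩
  rintro n ⟨A, hA, rfl⟩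
  exact hA.card_le hΘ

theorem Fam.le_NN {S : Set ℝ} {Θ u v : ℕ} (hΘ : 100 ≤ Θ) {A : Finset ℝ} (h : Fam S Θ u v A) :
    A.card ≤ NN S Θ u v := by
  exact le_csSup (growa_bdd S hΘ u v) ⟨A, h, rfl⟩

theorem exists_fam (S : Set ℝ) {Θ : ℕ} (hΘ : 100 ≤ Θ) (u v : ℕ) :
    ∃ A, Fam S Θ u v A ∧ A.card = NN S Θ u v := by
  have h1 : ({n | ∃ A, Fam S Θ u v A ∧ A.card = n} : Set ℕ).Nonempty :=
    ⟨0, ∅, ⟨by simp, by simp [Sep]⟩, rfl⟩
  exact Nat.sSup_mem h1 (growa_bdd S hΘ u v)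

theorem NN_le (S : Set ℝ) {Θ : ℕ} (hΘ : 100 ≤ Θ) (u v : ℕ) : NN S Θ u v ≤ 3 * Θ ^ (v - u) := by
  obtain ⟨A, hA, hc⟩ := exists_fam S hΘ u v
  rw [← hc]
  exact hA.card_le hΘ

theorem NN_pos {S : Set ℝ} {Θ : ℕ} (hΘ : 100 ≤ Θ) (h0 : (0 : ℝ) ∈ S) (u v : ℕ) :
    1 ≤ NN S Θ u v := by
  have h1 : Fam S Θ u v {0} := by
    refine ⟨?_, by simp [Sep]⟩
    intro x hx
    rw [Finset.mem_singleton.1 hx, abs_zero]
    exact ⟨h0, (growa_pos hΘ u).le⟩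
  simpa using h1.le_NN hΘ

theorem NN_mono {S S' : Set ℝ} {Θ : ℕ} (hΘ : 100 ≤ Θ) (hS : S ⊆ S') {u u' v v' : ℕ}
    (hu : u' ≤ u) (hv : v ≤ v') : NN S Θ u v ≤ NN S' Θ u' v' := by
  obtain ⟨A, hA, hc⟩ := exists_fam S hΘ u v
  rw [← hc]
  refine Fam.le_NN hΘ ⟨fun x hx => ⟨hS (hA.1 x hx).1, (hA.1 x hx).2.trans (growa_anti hΘ hu)⟩, ?_⟩
  exact fun x hx y hy hxy => (growa_anti hΘ hv).trans (hA.2 x hx y hy hxy)

/-- Localisation: cut `A` by `⌊x / Θ^(-u)⌋ ∈ [-c, c]` and translate each piece by one of its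
points. -/
theorem localise {S S' : Set ℝ} {Θ : ℕ} (hΘ : 100 ≤ Θ) (hS : ∀ x ∈ S, ∀ y ∈ S, x - y ∈ S')
    {u w c : ℕ} {A : Finset ℝ} (hA : ∀ x ∈ A, x ∈ S ∧ |x| ≤ c * (Θ : ℝ)⁻¹ ^ u)
    (hsep : Sep ((Θ : ℝ)⁻¹ ^ w) A) : A.card ≤ (2 * c + 1) * NN S' Θ u w := by
  classical
  have h0 := growa_pos hΘ u
  have h1 : ∀ x ∈ A, ⌊x / (Θ : ℝ)⁻¹ ^ u⌋ ∈ Finset.Icc (-(c : ℤ)) c := by
    intro x hx
    have h2 := abs_le.1 (hA x hx).2
    rw [Finset.mem_Icc]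
    constructor
    · rw [Int.le_floor, le_div_iff₀ h0]
      push_cast
      linarith
    · have h3 : x / (Θ : ℝ)⁻¹ ^ u ≤ c := by
        rw [div_le_iff₀ h0]
        exact h2.2
      have h4 := Int.floor_le_floor h3
      simpa using h4
  have h2 := Finset.card_le_mul_card_image_of_maps_to h1 (NN S' Θ u w) ?_
  · rw [Int.card_Icc] at h2
    have h3 : ((c : ℤ) + 1 - -(c : ℤ)).toNat = 2 * c + 1 := by omega
    rw [h3, mul_comm] at h2
    exact h2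
  · intro b _
    rcases (A.filter (fun a => ⌊a / (Θ : ℝ)⁻¹ ^ u⌋ = b)).eq_empty_or_nonempty with he | ⟨x0, hx0⟩
    · rw [he]; simp
    · have h3 : Fam S' Θ u w ((A.filter (fun a => ⌊a / (Θ : ℝ)⁻¹ ^ u⌋ = b)).image
          (fun x => x - x0)) := by
        constructor
        · intro z hz
          obtain ⟨x, hx, rfl⟩ := Finset.mem_image.1 hz
          have a1 := Finset.mem_filter.1 hx
          have a2 := Finset.mem_filter.1 hx0
          refine ⟨hS x (hA x a1.1).1 x0 (hA x0 a2.1).1, ?_⟩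
          have h4 := Int.abs_sub_lt_one_of_floor_eq_floor (a1.2.trans a2.2.symm)
          rw [← sub_div, abs_div, abs_of_pos h0, div_lt_one h0] at h4
          exact h4.le
        · intro z hz z' hz' hne
          obtain ⟨x, hx, rfl⟩ := Finset.mem_image.1 hz
          obtain ⟨y, hy, rfl⟩ := Finset.mem_image.1 hz'
          have h5 := hsep x (Finset.mem_filter.1 hx).1 y (Finset.mem_filter.1 hy).1
            (fun h => hne (by rw [h]))
          rwa [sub_sub_sub_cancel_right]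
      have h4 := h3.le_NN hΘ
      rwa [Finset.card_image_of_injective _ (sub_left_injective (b := x0))] at h4

/-- A cell of length `Θ^(-w)` holds at most `Θ^t + 1` points of the family, and the number of
occupied cells is at most `2 NN u w` by `exists_sep`. -/
theorem NN_refine (S : Set ℝ) {Θ : ℕ} (hΘ : 100 ≤ Θ) (u w t : ℕ) :
    NN S Θ u (w + t) ≤ 4 * Θ ^ t * NN S Θ u w := by
  classical
  obtain ⟨A, hA, hc⟩ := exists_fam S hΘ u (w + t)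
  have h0 := growa_pos hΘ w
  have h0' := growa_pos hΘ (w + t)
  obtain ⟨A', hA', hsep, hcard⟩ := exists_sep A h0
  have h1 : A'.card ≤ NN S Θ u w :=
    Fam.le_NN hΘ ⟨fun x hx => hA.1 x (hA' hx), hsep⟩
  have h2 := Finset.card_le_mul_card_image (f := fun x => ⌊x / (Θ : ℝ)⁻¹ ^ w⌋) A (2 * Θ ^ t) ?_
  · rw [← hc]
    calc A.card ≤ 2 * Θ ^ t * (2 * A'.card) := h2.trans (Nat.mul_le_mul_left _ hcard)
      _ ≤ 2 * Θ ^ t * (2 * NN S Θ u w) := by gcongr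
      _ = 4 * Θ ^ t * NN S Θ u w := by ring
  · intro b _
    have h3 : Sep ((Θ : ℝ)⁻¹ ^ (w + t)) (A.filter (fun x => ⌊x / (Θ : ℝ)⁻¹ ^ w⌋ = b)) :=
      fun x hx y hy hxy => hA.2 x (Finset.mem_filter.1 hx).1 y (Finset.mem_filter.1 hy).1 hxy
    have h4 := h3.card_le (c := (b + 1 / 2) * (Θ : ℝ)⁻¹ ^ w) (ρ := (Θ : ℝ)⁻¹ ^ w / 2) h0'
      (by positivity) (by
        intro x hx
        have a0 := (Finset.mem_filter.1 hx).2
        have a1 := Int.floor_le (x / (Θ : ℝ)⁻¹ ^ w)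
        have a2 := Int.lt_floor_add_one (x / (Θ : ℝ)⁻¹ ^ w)
        rw [a0] at a1 a2
        rw [le_div_iff₀ h0] at a1
        rw [div_lt_iff₀ h0] at a2
        rw [abs_le]
        constructor <;> linarith)
    have h5 := growa_mul hΘ w t
    have h6 : (1 : ℝ) ≤ (Θ : ℝ) ^ t := one_le_pow₀ (growa_one hΘ)
    have h7 := mul_le_mul_of_nonneg_right h6 h0'.le
    have h8 : ((A.filter (fun x => ⌊x / (Θ : ℝ)⁻¹ ^ w⌋ = b)).card : ℝ) * (Θ : ℝ)⁻¹ ^ (w + t) ≤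
        (2 * (Θ : ℝ) ^ t) * (Θ : ℝ)⁻¹ ^ (w + t) := by linarith
    have h9 := le_of_mul_le_mul_right h8 h0'
    exact_mod_cast h9

lemma growa_step {S : ℕ → Set ℝ} {Θ n j : ℕ} (hΘ : 100 ≤ Θ) (hS : Tower S) (h : Stab S Θ n j)
    {u v : ℕ} (hu : u + 1 ≤ n) (hv : v ≤ n) :
    NN (S j) Θ u v ≤ (2 * Θ + 1) * (Θ * NN (S j) Θ (u + 1) v) := by
  obtain ⟨A, hA, hc⟩ := exists_fam (S j) hΘ u v
  have h1 := localise hΘ (hS.sub j) (u := u + 1) (w := v) (c := Θ) (A := A) (by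
    intro x hx
    refine ⟨(hA.1 x hx).1, ?_⟩
    have h2 := growa_mul hΘ u 1
    rw [pow_one] at h2
    rw [h2]
    exact (hA.1 x hx).2) hA.2
  rw [← hc]
  refine h1.trans (Nat.mul_le_mul_left _ ?_)
  exact (NN_mono hΘ (hS.mono_le (by omega)) le_rfl le_rfl).trans (h _ hu _ hv)

lemma growa_sum {S : ℕ → Set ℝ} {Θ j : ℕ} (hΘ : 100 ≤ Θ) (hS : Tower S)
    {u v w : ℕ} (huv : u ≤ v) (hvw : v < w) :
    NN (S j) Θ (u + 1) v * NN (S j) Θ (v + 1) w ≤ NN (S (j + 1)) Θ u w := by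
  classical
  obtain ⟨A, hA, hcA⟩ := exists_fam (S j) hΘ (u + 1) v
  obtain ⟨B, hB, hcB⟩ := exists_fam (S j) hΘ (v + 1) w
  have h100 : (100 : ℝ) ≤ Θ := by exact_mod_cast hΘ
  have hstep : ∀ r : ℕ, 3 * (Θ : ℝ)⁻¹ ^ (r + 1) ≤ (Θ : ℝ)⁻¹ ^ r := by
    intro r
    have h2 := growa_mul hΘ r 1
    rw [pow_one] at h2
    rw [← h2]
    exact mul_le_mul_of_nonneg_right (by linarith) (growa_pos hΘ _).le
  have key : ∀ p ∈ A ×ˢ B, ∀ q ∈ A ×ˢ B, p ≠ q →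
      (Θ : ℝ)⁻¹ ^ w ≤ |(p.1 + p.2) - (q.1 + q.2)| := by
    rintro ⟨x, y⟩ hp ⟨x', y'⟩ hq hne
    obtain ⟨hx, hy⟩ := Finset.mem_product.1 hp
    obtain ⟨hx', hy'⟩ := Finset.mem_product.1 hq
    simp only at hx hy hx' hy' ⊢
    by_cases hxx : x = x'
    · subst hxx
      have h3 := hB.2 y hy y' hy' (fun h => hne (by rw [h]))
      rwa [add_sub_add_left_eq_sub]
    · have h3 := hA.2 x hx x' hx' hxx
      have h4 := abs_le.1 (hB.1 y hy).2
      have h5 := abs_le.1 (hB.1 y' hy').2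
      have h6 := hstep v
      have h7 := growa_anti hΘ (show v + 1 ≤ w by omega)
      rw [le_abs] at h3 ⊢
      rcases h3 with h3 | h3
      · left; linarith
      · right; linarith
  have h1 : Fam (S (j + 1)) Θ u w ((A ×ˢ B).image (fun p => p.1 + p.2)) := by
    constructor
    · intro z hz
      obtain ⟨p, hp, rfl⟩ := Finset.mem_image.1 hz
      obtain ⟨hx, hy⟩ := Finset.mem_product.1 hp
      refine ⟨hS.add j _ (hA.1 _ hx).1 _ (hB.1 _ hy).1, ?_⟩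
      have h3 := (hA.1 _ hx).2
      have h4 := (hB.1 _ hy).2
      have h5 := growa_anti hΘ (show u + 1 ≤ v + 1 by omega)
      have h6 := hstep u
      have h7 := abs_add_le p.1 p.2
      have h8 := growa_pos hΘ (u + 1)
      linarith
    · intro z hz z' hz' hne
      obtain ⟨p, hp, rfl⟩ := Finset.mem_image.1 hz
      obtain ⟨q, hq, rfl⟩ := Finset.mem_image.1 hz'
      exact key p hp q hq (fun h => hne (by rw [h]))
  have h2 := h1.le_NN hΘ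
  rw [Finset.card_image_of_injOn, Finset.card_product, hcA, hcB] at h2
  · exact h2
  · intro p hp q hq hpq
    by_contra hne
    have h3 := key p hp q hq hne
    simp only at hpq
    rw [hpq, sub_self, abs_zero] at h3
    exact absurd h3 (not_le.2 (growa_pos hΘ w))

/-- `NN u w ≤ (2Θ + 1) NN_{j+1} (u+1) w ≤ 3 Θ^2 NN (u+1) w` by `localise`; sums `x + y` of an
optimal family for `(u+1, v)` and one for `(v+1, w)` are distinct and form a family for `(u, w)` in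
`S (j+1)`. So the product is at most `9 Θ^4 * Θ * NN u w`. -/
theorem Stab.super {S : ℕ → Set ℝ} {Θ n j : ℕ} (hΘ : 100 ≤ Θ) (hS : Tower S) (h : Stab S Θ n j)
    {u v w : ℕ} (huv : u ≤ v) (hvw : v < w) (hw : w ≤ n) :
    NN (S j) Θ u v * NN (S j) Θ v w ≤ Θ ^ 6 * NN (S j) Θ u w := by
  have h1 := growa_step hΘ hS h (u := u) (v := v) (by omega) (by omega)
  have h2 := growa_step hΘ hS h (u := v) (v := w) (by omega) hw
  have h3 := growa_sum hΘ hS (j := j) huv hvw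
  have h4 : NN (S (j + 1)) Θ u w ≤ Θ * NN (S j) Θ u w :=
    (NN_mono hΘ (hS.mono_le (by omega)) le_rfl le_rfl).trans (h u (by omega) w hw)
  have h5 : (2 * Θ + 1) * (2 * Θ + 1) ≤ Θ ^ 3 := by
    calc (2 * Θ + 1) * (2 * Θ + 1) ≤ (3 * Θ) * (3 * Θ) := by
          apply Nat.mul_le_mul <;> omega
      _ = 9 * Θ ^ 2 := by ring
      _ ≤ Θ * Θ ^ 2 := Nat.mul_le_mul_right _ (by omega)
      _ = Θ ^ 3 := by ring
  calc NN (S j) Θ u v * NN (S j) Θ v w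
      ≤ ((2 * Θ + 1) * (Θ * NN (S j) Θ (u + 1) v)) * ((2 * Θ + 1) * (Θ * NN (S j) Θ (v + 1) w)) :=
        Nat.mul_le_mul h1 h2
    _ = ((2 * Θ + 1) * (2 * Θ + 1)) * Θ ^ 2 * (NN (S j) Θ (u + 1) v * NN (S j) Θ (v + 1) w) := by
        ring
    _ ≤ Θ ^ 3 * Θ ^ 2 * (Θ * NN (S j) Θ u w) :=
        Nat.mul_le_mul (Nat.mul_le_mul_right _ h5) (h3.trans h4)
    _ = Θ ^ 6 * NN (S j) Θ u w := by ring

/-- Dilate an optimal family by `d`: a family for `(u + t, v + t + 6)` in `S (j+1)`; then `Stab`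
and `NN_refine`. -/
theorem Stab.shift {S : ℕ → Set ℝ} {Θ n j : ℕ} (hΘ : 100 ≤ Θ) (hS : Tower S) (h : Stab S Θ n j)
    (hd : Dil (S j) Θ n) {u v t : ℕ} (hu : u + t ≤ n) (hv : v + t + 6 ≤ n) :
    NN (S j) Θ u v ≤ Θ ^ 8 * NN (S j) Θ (u + t) (v + t) := by
  classical
  obtain ⟨d, hdS, hd1, hd2⟩ := hd t (by omega)
  obtain ⟨A, hA, hc⟩ := exists_fam (S j) hΘ u v
  have hd0 : d ≠ 0 := abs_pos.1 ((growa_pos hΘ _).trans_le hd1)
  have h1 : Fam (S (j + 1)) Θ (u + t) (v + t + 6) (A.image (fun x => d * x)) := by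
    constructor
    · intro z hz
      obtain ⟨x, hx, rfl⟩ := Finset.mem_image.1 hz
      refine ⟨hS.mul j d hdS x (hA.1 x hx).1, ?_⟩
      rw [abs_mul, pow_add, mul_comm]
      exact mul_le_mul (hA.1 x hx).2 hd2 (abs_nonneg _) (growa_pos hΘ u).le
    · intro z hz z' hz' hne
      obtain ⟨x, hx, rfl⟩ := Finset.mem_image.1 hz
      obtain ⟨y, hy, rfl⟩ := Finset.mem_image.1 hz'
      have h5 := hA.2 x hx y hy (fun h => hne (by rw [h]))
      rw [← mul_sub, abs_mul, add_assoc, pow_add, mul_comm]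
      exact mul_le_mul hd1 h5 (growa_pos hΘ v).le (abs_nonneg _)
  have h2 := h1.le_NN hΘ
  rw [Finset.card_image_of_injective _ (mul_right_injective₀ hd0), hc] at h2
  have h3 : NN (S (j + 1)) Θ (u + t) (v + t + 6) ≤ Θ * NN (S j) Θ (u + t) (v + t + 6) :=
    (NN_mono hΘ (hS.mono_le (by omega)) le_rfl le_rfl).trans (h _ hu _ hv)
  have h4 := NN_refine (S j) hΘ (u + t) (v + t) 6
  calc NN (S j) Θ u v ≤ Θ * (4 * Θ ^ 6 * NN (S j) Θ (u + t) (v + t)) :=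
        h2.trans (h3.trans (Nat.mul_le_mul_left _ h4))
    _ = 4 * (Θ ^ 7 * NN (S j) Θ (u + t) (v + t)) := by ring
    _ ≤ Θ * (Θ ^ 7 * NN (S j) Θ (u + t) (v + t)) := Nat.mul_le_mul_right _ (by omega)
    _ = Θ ^ 8 * NN (S j) Θ (u + t) (v + t) := by ring

end Pool.Agent.Lib.MP_ecd12e_nt.Bar
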