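import Pool.Agent.Lib.MP_ecd12e_nt.Bar.GrowA

set_option autoImplicit false

namespace Pool.Agent.Lib.MP_ecd12e_nt.Bar

open Finset Real
open scoped Pointwise

/-- The quadruples `(x, x', y, y')` with `x ≠ x'` whose slope is within `η` of `b`. -/
noncomputable def slopes (C F : Finset ℝ) (b η : ℝ) : Finset ((ℝ × ℝ) × (ℝ × ℝ)) :=
  ((C ×ˢ C) ×ˢ (F ×ˢ F)).filter (fun q => q.1.1 ≠ q.1.2 ∧
    |b - (q.2.2 - q.2.1) / (q.1.1 - q.1.2)| ≤ η)

/-- Cauchy-Schwarz over the fibres of a map. -/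
lemma growb_cs {α β : Type*} [DecidableEq α] [DecidableEq β] (A : Finset α) (f : α → β) :
    A.card ^ 2 ≤ (A.image f).card * ((A ×ˢ A).filter (fun p => f p.1 = f p.2)).card := by
  have h1 : A.card = ∑ b ∈ A.image f, (A.filter (fun a => f a = b)).card :=
    card_eq_sum_card_image f A
  have h2 : ((A ×ˢ A).filter (fun p => f p.1 = f p.2)).card
      = ∑ b ∈ A.image f, (A.filter (fun a => f a = b)).card ^ 2 := by
    rw [card_eq_sum_card_fiberwise (f := fun p : α × α => f p.1) (t := A.image f)]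
    · refine sum_congr rfl fun b _ => ?_
      rw [sq, ← card_product]
      congr 1
      ext p
      simp only [mem_filter, mem_product]
      constructor
      · rintro ⟨⟨⟨h1, h2⟩, h3⟩, h4⟩
        exact ⟨⟨h1, h4⟩, h2, h3 ▸ h4⟩
      · rintro ⟨⟨h1, h2⟩, h3, h4⟩
        exact ⟨⟨⟨h1, h3⟩, h2.trans h4.symm⟩, h2⟩
    · intro p hp
      simp only [coe_filter, mem_product, Set.mem_ofPred_eq] at hp
      exact mem_coe.2 (mem_image_of_mem f hp.1.1)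
  rw [h2]
  conv_lhs => rw [h1]
  exact sq_sum_le_card_mul_sum_sq

lemma growb_inv_pos {Θ : ℕ} (hΘ : 100 ≤ Θ) : (0 : ℝ) < (Θ : ℝ)⁻¹ := by
  have : (0 : ℝ) < Θ := by exact_mod_cast (by omega : 0 < Θ)
  positivity

lemma growb_mul_inv {Θ : ℕ} (hΘ : 100 ≤ Θ) : (Θ : ℝ) * (Θ : ℝ)⁻¹ = 1 := by
  have : (0 : ℝ) < Θ := by exact_mod_cast (by omega : 0 < Θ)
  exact mul_inv_cancel₀ this.ne'

lemma growb_inv_le {Θ : ℕ} (hΘ : 100 ≤ Θ) : (Θ : ℝ)⁻¹ ≤ 1 / 100 := by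
  have : (100 : ℝ) ≤ Θ := by exact_mod_cast hΘ
  rw [one_div]
  exact inv_anti₀ (by norm_num) this

/-- The scale of `Q`. -/
lemma growb_scale {δ Q : ℝ} (hδ : 0 < δ) (hδ1 : δ ≤ 1) {V : ℕ} (hQ1 : δ ^ (V + 44) ≤ |Q|)
    (hQ2 : |Q| ≤ 4 * δ ^ V) :
    ∃ W ≤ 44, δ ^ (V + W + 1) ≤ |Q| ∧ |Q| ≤ 4 * δ ^ (V + W) := by
  classical
  have h0 : |Q| ≤ 4 * δ ^ (V + 0) := by simpa using hQ2
  refine ⟨Nat.findGreatest (fun W => |Q| ≤ 4 * δ ^ (V + W)) 44, Nat.findGreatest_le 44, ?_,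
    Nat.findGreatest_spec (P := fun W => |Q| ≤ 4 * δ ^ (V + W)) (Nat.zero_le 44) h0⟩
  set W := Nat.findGreatest (fun W => |Q| ≤ 4 * δ ^ (V + W)) 44 with hW
  by_cases h : W + 1 ≤ 44
  · have := Nat.findGreatest_is_greatest (P := fun W => |Q| ≤ 4 * δ ^ (V + W))
      (show Nat.findGreatest (fun W => |Q| ≤ 4 * δ ^ (V + W)) 44 < W + 1 by omega) h
    simp only [not_le] at this
    have hp : 0 < δ ^ (V + (W + 1)) := by positivity
    rw [add_assoc]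
    linarith
  · exact le_trans (pow_le_pow_of_le_one hδ.le hδ1 (by omega)) hQ1

/-- The number of cells occupied by the numbers `P x + Q y`. -/
lemma growb_cells {S : ℕ → Set ℝ} {Θ n j V W l : ℕ} (hΘ : 100 ≤ Θ) (hS : Tower S)
    (h : Stab S Θ n j) (hd : Dil (S j) Θ n) (hW : W ≤ V) (hn : 3 * V + l + 6 ≤ n)
    (hV : NN (S j) Θ (3 * V) (3 * V + l) ≤ Θ * NN (S j) Θ V (V + l))
    {C F : Finset ℝ} (hC : ∀ x ∈ C, x ∈ S j ∧ |x| ≤ (Θ : ℝ)⁻¹ ^ V)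
    (hF : ∀ x ∈ F, x ∈ S j ∧ |x| ≤ (Θ : ℝ)⁻¹ ^ V)
    {P Q : ℝ} (hP : P ∈ S (j + 2)) (hQ : Q ∈ S (j + 2))
    (hQ2 : |Q| ≤ 4 * (Θ : ℝ)⁻¹ ^ (V + W)) (hPQ : |P| ≤ 2 * |Q|) :
    ((C ×ˢ F).image (fun p : ℝ × ℝ => ⌊(P * p.1 + Q * p.2) / (Θ : ℝ)⁻¹ ^ (2 * V + W + l)⌋)).card
      ≤ Θ ^ 11 * NN (S j) Θ V (V + l) := by
  classical
  have hδ := growb_inv_pos hΘ
  obtain ⟨A', hA', hsep, hcard⟩ := exists_sep
    ((C ×ˢ F).image (fun p : ℝ × ℝ => P * p.1 + Q * p.2))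
    (show 0 < (Θ : ℝ)⁻¹ ^ (2 * V + W + l) by positivity)
  rw [image_image] at hcard
  have hmem : ∀ x ∈ A', x ∈ S (j + 4) ∧ |x| ≤ (12 : ℕ) * (Θ : ℝ)⁻¹ ^ (2 * V + W) := by
    intro z hz
    obtain ⟨p, hp, rfl⟩ := mem_image.1 (hA' hz)
    rw [mem_product] at hp
    obtain ⟨hx1, hx2⟩ := hC _ hp.1
    obtain ⟨hy1, hy2⟩ := hF _ hp.2
    refine ⟨hS.add (j + 3) _ (hS.mul (j + 2) _ hP _ (hS.mono_le (by omega) hx1)) _
      (hS.mul (j + 2) _ hQ _ (hS.mono_le (by omega) hy1)), ?_⟩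
    have e : (Θ : ℝ)⁻¹ ^ (2 * V + W) = (Θ : ℝ)⁻¹ ^ (V + W) * (Θ : ℝ)⁻¹ ^ V := by ring
    calc |P * p.1 + Q * p.2| ≤ |P| * |p.1| + |Q| * |p.2| := by
          rw [← abs_mul, ← abs_mul]; exact abs_add_le _ _
      _ ≤ (2 * (4 * (Θ : ℝ)⁻¹ ^ (V + W))) * (Θ : ℝ)⁻¹ ^ V
            + (4 * (Θ : ℝ)⁻¹ ^ (V + W)) * (Θ : ℝ)⁻¹ ^ V := by
          gcongr
          linarith
      _ = (12 : ℕ) * (Θ : ℝ)⁻¹ ^ (2 * V + W) := by rw [e]; push_cast; ring
  have h1 := localise hΘ (hS.sub (j + 4)) hmem hsep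
  have h2 := h (2 * V + W) (by omega) (2 * V + W + l) (by omega)
  have h3 := h.shift hΘ hS hd (u := 2 * V + W) (v := 2 * V + W + l) (t := V - W)
    (by omega) (by omega)
  rw [show 2 * V + W + (V - W) = 3 * V by omega,
    show 2 * V + W + l + (V - W) = 3 * V + l by omega] at h3
  calc _ ≤ 2 * A'.card := hcard
    _ ≤ 2 * ((2 * 12 + 1) * (Θ * (Θ ^ 8 * (Θ * NN (S j) Θ V (V + l))))) := by
        refine Nat.mul_le_mul_left 2 (h1.trans (Nat.mul_le_mul_left _ (h2.trans ?_)))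
        exact Nat.mul_le_mul_left _ (h3.trans (Nat.mul_le_mul_left _ hV))
    _ = 50 * (Θ ^ 10 * NN (S j) Θ V (V + l)) := by ring
    _ ≤ Θ * (Θ ^ 10 * NN (S j) Θ V (V + l)) := Nat.mul_le_mul_right _ (by omega)
    _ = Θ ^ 11 * NN (S j) Θ V (V + l) := by ring

/-- Few pairs of points of a separated family are close. -/
lemma growb_close {Θ : ℕ} (hΘ : 100 ≤ Θ) {d : ℝ} (hd : 0 < d) {F : Finset ℝ} (hF : Sep d F) :
    ((F ×ˢ F).filter (fun p : ℝ × ℝ => |p.2 - p.1| ≤ Θ * d)).card ≤ F.card * (3 * Θ) := by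
  classical
  rw [card_eq_sum_card_fiberwise (f := fun p : ℝ × ℝ => p.1) (t := F)]
  · rw [← smul_eq_mul]
    refine sum_le_card_nsmul _ _ _ fun y hy => ?_
    have hΘ' : (100 : ℝ) ≤ Θ := by exact_mod_cast hΘ
    have hs : Sep d (F.filter (fun y' => |y' - y| ≤ Θ * d)) := fun a ha b hb hab =>
      hF a (mem_filter.1 ha).1 b (mem_filter.1 hb).1 hab
    have h1 := hs.card_le (c := y) (ρ := Θ * d) hd (by positivity)
      (fun a ha => (mem_filter.1 ha).2)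
    have h2 : ((F.filter (fun y' => |y' - y| ≤ Θ * d)).card : ℝ) ≤ 3 * Θ := by
      refine le_of_mul_le_mul_right (h1.trans ?_) hd
      nlinarith
    have h3 : (F.filter (fun y' => |y' - y| ≤ Θ * d)).card ≤ 3 * Θ := by exact_mod_cast h2
    refine le_trans (card_le_card_of_injOn (fun p : ℝ × ℝ => p.2) ?_ ?_) h3
    · intro p hp
      simp only [coe_filter, mem_filter, mem_product, Set.mem_ofPred_eq] at hp ⊢
      exact ⟨hp.1.1.2, hp.2 ▸ hp.1.2⟩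
    · intro p hp q hq hpq
      simp only [coe_filter, mem_filter, mem_product, Set.mem_ofPred_eq] at hp hq
      exact Prod.ext (hp.2.trans hq.2.symm) hpq
  · intro p hp
    simp only [coe_filter, mem_product, Set.mem_ofPred_eq] at hp
    exact hp.1.1

lemma growb_floor {a b d : ℝ} (hd : 0 < d) (h : ⌊a / d⌋ = ⌊b / d⌋) : |a - b| ≤ d := by
  have := Int.abs_sub_lt_one_of_floor_eq_floor h
  rw [← sub_div, abs_div, abs_of_pos hd, div_lt_one hd] at this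
  exact this.le

lemma growb_slope {P Q x x' y y' a b c : ℝ} (ha : 0 < a) (hb : 0 < b) (hc : 0 ≤ c) (hQ : a ≤ |Q|)
    (hx : b ≤ |x - x'|) (h : |(P * x + Q * y) - (P * x' + Q * y')| ≤ c * (a * b)) :
    |P / Q - (y' - y) / (x - x')| ≤ c := by
  have hQ0 : Q ≠ 0 := abs_pos.1 (ha.trans_le hQ)
  have hx0 : x - x' ≠ 0 := abs_pos.1 (hb.trans_le hx)
  have e : P / Q - (y' - y) / (x - x') = ((P * x + Q * y) - (P * x' + Q * y')) / (Q * (x - x')) := by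
    field_simp
    ring
  rw [e, abs_div, abs_mul, div_le_iff₀ (mul_pos (ha.trans_le hQ) (hb.trans_le hx))]
  refine h.trans ?_
  gcongr

lemma growb_diag {P Q x y y' a c : ℝ} (ha : 0 < a) (hc : 0 ≤ c) (hQ : a ≤ |Q|)
    (h : |(P * x + Q * y) - (P * x + Q * y')| ≤ c * a) : |y' - y| ≤ c := by
  have e : (P * x + Q * y) - (P * x + Q * y') = Q * (y - y') := by ring
  rw [e, abs_mul, abs_sub_comm] at h
  have h2 : |Q| * |y' - y| ≤ |Q| * c := by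
    refine h.trans ?_
    rw [mul_comm |Q|]
    gcongr
  exact le_of_mul_le_mul_left h2 (ha.trans_le hQ)

/-- Collision lemma. Write `δ = Θ⁻¹`. Let `W' ∈ [0, 44]` be largest with `|Q| ≤ 4 δ^(V+W')`; then
`|Q| ≥ δ^(V+W'+1)`. Put `Z = 2V + W' + l`. The numbers `P x + Q y` (`x ∈ C`, `y ∈ F`) lie in
`S (j+4)` and have size at most `12 δ^(2V+W')`; by `exists_sep`, `localise` (`c = 12`), `Stab`,
`Stab.shift` (`t = V - W'`) and `hV` they occupy at most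
`50 Θ * Θ^8 * Θ |F| ≤ Θ^11 |F|` cells `⌊· / δ^Z⌋`. By Cauchy-Schwarz
(`sq_sum_le_card_mul_sum_sq` over the fibres) at least `|C|^2 |F| / Θ^11` pairs of pairs collide.
Collisions with `x = x'` have `|y - y'| < Θ δ^(V+l)`, at most `3 Θ |C| |F|` of them
(`Sep.card_le`), which is at most half since `|C| ≥ Θ^13`. A collision with `x ≠ x'` has
`|P/Q - (y' - y)/(x - x')| < δ^Z / (|Q| |x - x'|) ≤ δ^(l - 45)`. -/
theorem collision {S : ℕ → Set ℝ} {Θ n j V l : ℕ} (hΘ : 100 ≤ Θ) (hS : Tower S)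
    (h : Stab S Θ n j) (hd : Dil (S j) Θ n) (h44 : 44 ≤ V) (hl : 46 ≤ l) (hn : 3 * V + l + 6 ≤ n)
    (hV : NN (S j) Θ (3 * V) (3 * V + l) ≤ Θ * NN (S j) Θ V (V + l))
    {C F : Finset ℝ} (hC : Fam (S j) Θ V (V + 44) C) (hCc : Θ ^ 13 ≤ C.card)
    (hF : Fam (S j) Θ V (V + l) F) (hFc : F.card = NN (S j) Θ V (V + l))
    {P Q : ℝ} (hP : P ∈ S (j + 2)) (hQ : Q ∈ S (j + 2)) (hQ1 : (Θ : ℝ)⁻¹ ^ (V + 44) ≤ |Q|)
    (hQ2 : |Q| ≤ 4 * (Θ : ℝ)⁻¹ ^ V) (hPQ : |P| ≤ 2 * |Q|) :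
    C.card ^ 2 * F.card ≤ 2 * Θ ^ 11 * (slopes C F (P / Q) ((Θ : ℝ)⁻¹ ^ (l - 45))).card := by
  classical
  have hδ := growb_inv_pos hΘ
  have hδ1 : (Θ : ℝ)⁻¹ ≤ 1 := (growb_inv_le hΘ).trans (by norm_num)
  have hmi := growb_mul_inv hΘ
  obtain ⟨W, hW, hW1, hW2⟩ := growb_scale hδ hδ1 hQ1 hQ2
  obtain ⟨l', rfl⟩ : ∃ l', l = l' + 45 := ⟨l - 45, by omega⟩
  rw [Nat.add_sub_cancel]
  have hcells := growb_cells hΘ hS h hd (hW.trans h44) hn hV hC.1 hF.1 hP hQ hW2 hPQ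
  rw [← hFc] at hcells
  set f : ℝ × ℝ → ℤ :=
    fun p => ⌊(P * p.1 + Q * p.2) / (Θ : ℝ)⁻¹ ^ (2 * V + W + (l' + 45))⌋ with hf
  have hcs := growb_cs (C ×ˢ F) f
  set D := (F ×ˢ F).filter (fun p : ℝ × ℝ => |p.2 - p.1| ≤ Θ * (Θ : ℝ)⁻¹ ^ (V + (l' + 45)))
    with hD
  have hDc : D.card ≤ F.card * (3 * Θ) := growb_close hΘ (by positivity) hF.2
  set sl := slopes C F (P / Q) ((Θ : ℝ)⁻¹ ^ l') with hsl
  have hcol : (((C ×ˢ F) ×ˢ (C ×ˢ F)).filter (fun p => f p.1 = f p.2)).card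
      ≤ C.card * D.card + sl.card := by
    rw [← card_filter_add_card_filter_not (fun p : (ℝ × ℝ) × (ℝ × ℝ) => p.1.1 = p.2.1)]
    refine Nat.add_le_add ?_ ?_
    · rw [← card_product]
      refine card_le_card_of_injOn (fun p : (ℝ × ℝ) × (ℝ × ℝ) => (p.1.1, (p.1.2, p.2.2))) ?_ ?_
      · rintro ⟨⟨x, y⟩, ⟨x', y'⟩⟩ hp
        simp only [coe_filter, mem_filter, mem_product, Set.mem_ofPred_eq] at hp
        obtain ⟨⟨⟨⟨hx, hy⟩, -, hy'⟩, hff⟩, rfl⟩ := hp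
        simp only [coe_product, Set.mem_prod, mem_coe, hD, mem_filter, mem_product]
        refine ⟨hx, ⟨hy, hy'⟩, ?_⟩
        have h1 := growb_floor (by positivity) hff
        refine growb_diag (P := P) (x := x) (by positivity) (by positivity) hW1 (h1.trans_eq ?_)
        calc (Θ : ℝ)⁻¹ ^ (2 * V + W + (l' + 45))
            = ((Θ : ℝ) * (Θ : ℝ)⁻¹) * (Θ : ℝ)⁻¹ ^ (2 * V + W + (l' + 45)) := by rw [hmi, one_mul]
          _ = _ := by ring
      · rintro ⟨⟨x, y⟩, ⟨x', y'⟩⟩ hp ⟨⟨u, v⟩, ⟨u', v'⟩⟩ hq hpq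
        simp only [coe_filter, mem_filter, mem_product, Set.mem_ofPred_eq] at hp hq
        simp only [Prod.mk.injEq] at hpq ⊢
        exact ⟨⟨hpq.1, hpq.2.1⟩, hp.2.symm.trans (hpq.1.trans hq.2), hpq.2.2⟩
    · refine card_le_card_of_injOn
        (fun p : (ℝ × ℝ) × (ℝ × ℝ) => ((p.1.1, p.2.1), (p.1.2, p.2.2))) ?_ ?_
      · rintro ⟨⟨x, y⟩, ⟨x', y'⟩⟩ hp
        simp only [coe_filter, mem_filter, mem_product, Set.mem_ofPred_eq] at hp
        obtain ⟨⟨⟨⟨hx, hy⟩, hx', hy'⟩, hff⟩, hne⟩ := hp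
        simp only [mem_coe, hsl, slopes, mem_filter, mem_product]
        refine ⟨⟨⟨hx, hx'⟩, hy, hy'⟩, hne, ?_⟩
        have h1 := growb_floor (by positivity) hff
        refine growb_slope (by positivity) (by positivity) (by positivity) hW1
          (hC.2 x hx x' hx' hne) (h1.trans_eq ?_)
        ring
      · rintro ⟨⟨x, y⟩, ⟨x', y'⟩⟩ _ ⟨⟨u, v⟩, ⟨u', v'⟩⟩ _ hpq
        simp only [Prod.mk.injEq] at hpq ⊢
        exact ⟨⟨hpq.1.1, hpq.2.1⟩, hpq.1.2, hpq.2.2⟩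
  rcases Nat.eq_zero_or_pos F.card with hF0 | hF0
  · rw [hF0]; simp
  rw [card_product] at hcs
  have h1 : F.card * (C.card ^ 2 * F.card)
      ≤ F.card * (Θ ^ 11 * (C.card * (F.card * (3 * Θ)) + sl.card)) := by
    calc F.card * (C.card ^ 2 * F.card) = (C.card * F.card) ^ 2 := by ring
      _ ≤ _ := hcs
      _ ≤ (Θ ^ 11 * F.card) * (C.card * (F.card * (3 * Θ)) + sl.card) :=
          Nat.mul_le_mul hcells (hcol.trans (by gcongr))
      _ = _ := by ring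
  have h2 := Nat.le_of_mul_le_mul_left h1 hF0
  have h3 : 6 * Θ ^ 12 ≤ C.card := by
    refine le_trans ?_ hCc
    calc 6 * Θ ^ 12 ≤ Θ * Θ ^ 12 := Nat.mul_le_mul_right _ (by omega)
      _ = Θ ^ 13 := by ring
  have h4 : 2 * (Θ ^ 11 * (C.card * (F.card * (3 * Θ)))) ≤ C.card ^ 2 * F.card := by
    calc 2 * (Θ ^ 11 * (C.card * (F.card * (3 * Θ)))) = (6 * Θ ^ 12) * (C.card * F.card) := by ring
      _ ≤ C.card * (C.card * F.card) := Nat.mul_le_mul_right _ h3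
      _ = _ := by ring
  rw [Nat.mul_add] at h2
  rw [mul_assoc 2]
  omega

/-- Fullness on one range. Take optimal families `C` for `(V, V + 44)` and `F` for `(V, V + l)`;
`|C| ≥ Θ^13` by `Stab.shift` and `h21`, `F` is nonempty by `NN_pos`. Let `R` be the set of slopes
`(y' - y) / (x - x')`, `x ≠ x'` in `C`, `y, y'` in `F`, and `η = Θ⁻¹ ^ (l - 45) ≤ 1/100`. Claim:
for all `i` and `β ∈ [0,1]` some `b ∈ R` has `|b - β| ≤ 2η + 2⁻¹ ^ i` (start with `b = 0`; write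
`β = (β' + ε)/2` with `ε ∈ {0,1}`, `b = p / q`, and apply `collision` to `P = p + ε q`,
`Q = q + q`: the set `slopes` is nonempty). Take `2⁻¹ ^ i ≤ η` and `b_r` within `3η` of `9 r η`,
`0 ≤ r ≤ 1 / (9η)`; the sets `slopes C F b_r η` are pairwise disjoint subsets of
`(C ×ˢ C) ×ˢ (F ×ˢ F)`, each of size at least `|C|^2 |F| / (2 Θ^11)` by `collision` with
`P = p`, `Q = q`. Hence `|F| ≥ Θ^(l - 45) / (18 Θ^11)`. -/
theorem full_range {S : ℕ → Set ℝ} {Θ n j V l : ℕ} (hΘ : 100 ≤ Θ) (hS : Tower S)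
    (h : Stab S Θ n j) (hd : Dil (S j) Θ n) (h0 : (0 : ℝ) ∈ S j) (h44 : 44 ≤ V) (hl : 57 ≤ l)
    (hn : 3 * V + l + 6 ≤ n) (h21 : Θ ^ 21 ≤ NN (S j) Θ 0 44)
    (hV : NN (S j) Θ (3 * V) (3 * V + l) ≤ Θ * NN (S j) Θ V (V + l)) :
    Θ ^ (l - 57) ≤ NN (S j) Θ V (V + l) := by
  classical
  have hδ := growb_inv_pos hΘ
  have hδ2 := growb_inv_le hΘ
  have hmi := growb_mul_inv hΘ
  obtain ⟨C, hC, hCc⟩ := exists_fam (S j) hΘ V (V + 44)
  obtain ⟨F, hF, hFc⟩ := exists_fam (S j) hΘ V (V + l)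
  have hΘ0 : 0 < Θ := by omega
  have hC13 : Θ ^ 13 ≤ C.card := by
    have h1 := h.shift hΘ hS hd (u := 0) (v := 44) (t := V) (by omega) (by omega)
    rw [zero_add, add_comm 44 V, ← hCc] at h1
    have h2 : Θ ^ 8 * Θ ^ 13 ≤ Θ ^ 8 * C.card := by
      rw [← pow_add]; exact h21.trans h1
    exact Nat.le_of_mul_le_mul_left h2 (by positivity)
  have hF1 : 1 ≤ F.card := hFc ▸ NN_pos hΘ h0 V (V + l)
  have hC2 : 1 < C.card := by
    refine lt_of_lt_of_le ?_ hC13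
    exact Nat.one_lt_pow (by norm_num) (by omega)
  set η : ℝ := (Θ : ℝ)⁻¹ ^ (l - 45) with hη
  have hη0 : 0 < η := by positivity
  have hη1 : η ≤ 1 / 100 := by
    refine le_trans ?_ hδ2
    exact pow_le_of_le_one hδ.le (hδ2.trans (by norm_num)) (by omega)
  -- basic facts on quadruples
  have hq : ∀ x ∈ C, ∀ x' ∈ C, x ≠ x' → (x - x') ∈ S (j + 1) ∧
      (Θ : ℝ)⁻¹ ^ (V + 44) ≤ |x - x'| ∧ |x - x'| ≤ 2 * (Θ : ℝ)⁻¹ ^ V := by
    intro x hx x' hx' hne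
    refine ⟨hS.sub j _ (hC.1 x hx).1 _ (hC.1 x' hx').1, hC.2 x hx x' hx' hne, ?_⟩
    have := abs_sub x x'
    linarith [(hC.1 x hx).2, (hC.1 x' hx').2]
  have hp : ∀ y ∈ F, ∀ y' ∈ F, (y' - y) ∈ S (j + 1) := fun y hy y' hy' =>
    hS.sub j _ (hF.1 y' hy').1 _ (hF.1 y hy).1
  have hcol : ∀ P Q : ℝ, P ∈ S (j + 2) → Q ∈ S (j + 2) → (Θ : ℝ)⁻¹ ^ (V + 44) ≤ |Q| →
      |Q| ≤ 4 * (Θ : ℝ)⁻¹ ^ V → |P / Q| ≤ 2 →
      C.card ^ 2 * F.card ≤ 2 * Θ ^ 11 * (slopes C F (P / Q) η).card := by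
    intro P Q hP hQ hQ1 hQ2 hPQ
    refine collision hΘ hS h hd h44 (by omega) hn hV hC hC13 hF hFc hP hQ hQ1 hQ2 ?_
    rwa [abs_div, div_le_iff₀ (lt_of_lt_of_le (by positivity) hQ1)] at hPQ
  -- density of the slopes
  have hdense : ∀ i : ℕ, ∀ β : ℝ, 0 ≤ β → β ≤ 1 → ∃ x ∈ C, ∃ x' ∈ C, ∃ y ∈ F, ∃ y' ∈ F,
      x ≠ x' ∧ |(y' - y) / (x - x') - β| ≤ 2 * η + (2 : ℝ)⁻¹ ^ i := by
    intro i
    induction i with
    | zero =>
      intro β hβ0 hβ1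
      obtain ⟨x, hx, x', hx', hne⟩ := one_lt_card.1 hC2
      obtain ⟨y, hy⟩ := card_pos.1 hF1
      refine ⟨x, hx, x', hx', y, hy, y, hy, hne, ?_⟩
      rw [sub_self, zero_div, zero_sub, abs_neg, abs_of_nonneg hβ0, pow_zero]
      linarith
    | succ i ih =>
      intro β hβ0 hβ1
      obtain ⟨ε, hε, hβ'0, hβ'1⟩ : ∃ ε : ℝ, (ε = 0 ∨ ε = 1) ∧ 0 ≤ 2 * β - ε ∧ 2 * β - ε ≤ 1 := by
        by_cases hb : β ≤ 1 / 2
        · exact ⟨0, Or.inl rfl, by linarith, by linarith⟩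
        · exact ⟨1, Or.inr rfl, by linarith, by linarith⟩
      obtain ⟨x, hx, x', hx', y, hy, y', hy', hne, hb⟩ := ih _ hβ'0 hβ'1
      obtain ⟨hq1, hq2, hq3⟩ := hq x hx x' hx' hne
      have hp1 := hp y hy y' hy'
      have hx0 : x - x' ≠ 0 := sub_ne_zero.2 hne
      have hP : (y' - y) + ε * (x - x') ∈ S (j + 2) := by
        rcases hε with rfl | rfl
        · rw [zero_mul, add_zero]; exact hS.mono _ _ hp1
        · rw [one_mul]; exact hS.add _ _ hp1 _ hq1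
      have hQ : (x - x') + (x - x') ∈ S (j + 2) := hS.add _ _ hq1 _ hq1
      have hQa : |(x - x') + (x - x')| = 2 * |x - x'| := by
        rw [← two_mul, abs_mul, abs_two]
      have e : ((y' - y) + ε * (x - x')) / ((x - x') + (x - x'))
          = ((y' - y) / (x - x') + ε) / 2 := by
        rw [← two_mul]
        field_simp
      have hi : (2 : ℝ)⁻¹ ^ i ≤ 1 := pow_le_one₀ (by norm_num) (by norm_num)
      have hb' := abs_le.1 hb
      have hc := hcol _ _ hP hQ (by rw [hQa]; linarith [abs_nonneg (x - x')])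
        (by rw [hQa]; linarith) (by
          rw [e, abs_le]
          constructor <;> linarith)
      rw [e] at hc
      have hpos : 0 < (slopes C F (((y' - y) / (x - x') + ε) / 2) η).card := by
        rcases Nat.eq_zero_or_pos (slopes C F (((y' - y) / (x - x') + ε) / 2) η).card with h1 | h1
        · rw [h1, mul_zero] at hc
          have : 0 < C.card ^ 2 * F.card := by positivity
          omega
        · exact h1
      obtain ⟨⟨⟨u, u'⟩, ⟨v, v'⟩⟩, hm⟩ := card_pos.1 hpos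
      simp only [slopes, mem_filter, mem_product] at hm
      obtain ⟨⟨⟨hu, hu'⟩, hv, hv'⟩, hne', hs⟩ := hm
      refine ⟨u, hu, u', hu', v, hv, v', hv', hne', ?_⟩
      have hs' := abs_le.1 hs
      have e2 : (2 : ℝ)⁻¹ ^ (i + 1) = (2 : ℝ)⁻¹ ^ i / 2 := by rw [pow_succ]; ring
      rw [e2, abs_le]
      constructor <;> linarith
  obtain ⟨i, hi⟩ := exists_pow_lt_of_lt_one hη0 (show (2 : ℝ)⁻¹ < 1 by norm_num)
  obtain ⟨l', rfl⟩ : ∃ l', l = l' + 57 := ⟨l - 57, by omega⟩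
  rw [Nat.add_sub_cancel]
  have hηe : η = (Θ : ℝ)⁻¹ ^ (l' + 12) := by
    rw [hη, show l' + 57 - 45 = l' + 12 by omega]
  have hb : ∀ r : ℕ, ∃ b : ℝ, r < 2 * Θ ^ (l' + 11) → |b - 9 * r * η| ≤ 3 * η ∧
      C.card ^ 2 * F.card ≤ 2 * Θ ^ 11 * (slopes C F b η).card := by
    intro r
    by_cases hr : r < 2 * Θ ^ (l' + 11)
    swap
    · exact ⟨0, fun h => absurd h hr⟩
    have hr1 : 9 * r * η ≤ 1 := by
      have h1 : (r : ℝ) ≤ 2 * (Θ : ℝ) ^ (l' + 11) := by exact_mod_cast hr.le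
      have h2 : (Θ : ℝ) ^ (l' + 11) * η = (Θ : ℝ)⁻¹ := by
        rw [hηe, pow_succ _ (l' + 11), ← mul_assoc, ← mul_pow, hmi, one_pow, one_mul]
      calc 9 * r * η ≤ 9 * (2 * (Θ : ℝ) ^ (l' + 11)) * η := by gcongr
        _ = 18 * ((Θ : ℝ) ^ (l' + 11) * η) := by ring
        _ ≤ 1 := by rw [h2]; linarith
    have hr0 : 0 ≤ 9 * r * η := by positivity
    obtain ⟨x, hx, x', hx', y, hy, y', hy', hne, hb⟩ := hdense i _ hr0 hr1
    obtain ⟨hq1, hq2, hq3⟩ := hq x hx x' hx' hne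
    have hb' := abs_le.1 hb
    refine ⟨(y' - y) / (x - x'), fun _ => ⟨by linarith, ?_⟩⟩
    refine hcol _ _ (hS.mono _ _ (hp y hy y' hy')) (hS.mono _ _ hq1) hq2
      (by linarith [abs_nonneg (x - x')]) ?_
    rw [abs_le]
    constructor <;> linarith
  choose b hb using hb
  have hdisj : ((range (2 * Θ ^ (l' + 11)) : Finset ℕ) : Set ℕ).PairwiseDisjoint
      (fun r => slopes C F (b r) η) := by
    intro r hr r' hr' hne
    rw [Function.onFun, disjoint_left]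
    intro q hq1 hq2
    simp only [slopes, mem_filter] at hq1 hq2
    have h1 := abs_le.1 hq1.2.2
    have h2 := abs_le.1 hq2.2.2
    have h3 := abs_le.1 (hb r (mem_range.1 hr)).1
    have h4 := abs_le.1 (hb r' (mem_range.1 hr')).1
    rcases lt_or_gt_of_ne hne with hlt | hlt
    · have h5 : (r : ℝ) + 1 ≤ r' := by exact_mod_cast hlt
      have h6 := mul_le_mul_of_nonneg_right h5 hη0.le
      linarith
    · have h5 : (r' : ℝ) + 1 ≤ r := by exact_mod_cast hlt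
      have h6 := mul_le_mul_of_nonneg_right h5 hη0.le
      linarith
  have hsum : ∑ r ∈ range (2 * Θ ^ (l' + 11)), (slopes C F (b r) η).card
      ≤ (C.card * C.card) * (F.card * F.card) := by
    rw [← card_biUnion hdisj, ← card_product, ← card_product, ← card_product]
    refine card_le_card (biUnion_subset.2 fun r _ => ?_)
    exact filter_subset _ _
  have hlow : (2 * Θ ^ (l' + 11)) * (C.card ^ 2 * F.card)
      ≤ 2 * Θ ^ 11 * ∑ r ∈ range (2 * Θ ^ (l' + 11)), (slopes C F (b r) η).card := by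
    rw [mul_sum]
    have := card_nsmul_le_sum (range (2 * Θ ^ (l' + 11)))
      (fun r => 2 * Θ ^ 11 * (slopes C F (b r) η).card) (C.card ^ 2 * F.card)
      (fun r hr => (hb r (mem_range.1 hr)).2)
    rwa [card_range, smul_eq_mul] at this
  rw [← hFc]
  have hfin : (2 * Θ ^ 11 * (C.card ^ 2 * F.card)) * Θ ^ l'
      ≤ (2 * Θ ^ 11 * (C.card ^ 2 * F.card)) * F.card := by
    calc (2 * Θ ^ 11 * (C.card ^ 2 * F.card)) * Θ ^ l'
        = (2 * Θ ^ (l' + 11)) * (C.card ^ 2 * F.card) := by ring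
      _ ≤ _ := hlow
      _ ≤ 2 * Θ ^ 11 * ((C.card * C.card) * (F.card * F.card)) := Nat.mul_le_mul_left _ hsum
      _ = _ := by ring
  exact Nat.le_of_mul_le_mul_left hfin (by positivity)

end Pool.Agent.Lib.MP_ecd12e_nt.Bar
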