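import Pool.Agent.Lib.MP_ecd12e_nt.Bar.GrowB

set_option autoImplicit false

namespace Pool.Agent.Lib.MP_ecd12e_nt.Bar

open Finset Real
open scoped Pointwise

/-- A family of `Θ^2 > 2Θ + 1` points of `[-1,1]` that is `Θ^(-6)`-separated has two points with
the same `⌊Θ x⌋`; their difference `y0 ∈ S 1` has `Θ^(-6) ≤ |y0| ≤ Θ⁻¹`, the power `y0 ^ (i+1)` is
in `S (i+1)`, and for `t ≤ n` the least `i` with `|y0| ^ (i+1) ≤ Θ^(-t)` has `i ≤ n`. -/
theorem dil_of {S : ℕ → Set ℝ} {Θ n : ℕ} (hΘ : 100 ≤ Θ) (hS : Tower S)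
    (h2 : Θ ^ 2 ≤ NN (S 0) Θ 0 6) : Dil (S (n + 1)) Θ n ∧ (0 : ℝ) ∈ S (n + 1) := by
  obtain ⟨A, hA, hc⟩ := exists_fam (S 0) hΘ 0 6
  have hΘR : (100 : ℝ) ≤ Θ := by exact_mod_cast hΘ
  have hΘ0 : (0 : ℝ) < Θ := by linarith
  have hmap : ∀ x ∈ A, ⌊(Θ : ℝ) * x⌋ ∈ Finset.Icc (-(Θ : ℤ)) Θ := by
    intro x hx
    have h1 := (hA.1 x hx).2
    rw [pow_zero, abs_le] at h1
    rw [Finset.mem_Icc]
    constructor
    · rw [Int.le_floor]
      push_cast
      nlinarith [h1.1]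
    · rw [← Int.floor_intCast (R := ℝ) (Θ : ℤ)]
      apply Int.floor_mono
      push_cast
      nlinarith [h1.2]
  have hcard : (Finset.Icc (-(Θ : ℤ)) Θ).card < A.card := by
    rw [Int.card_Icc, hc]
    have e : ((Θ : ℤ) + 1 - -(Θ : ℤ)).toNat = 2 * Θ + 1 := by omega
    rw [e]
    nlinarith
  obtain ⟨x, hx, y, hy, hne, hxy⟩ := Finset.exists_ne_map_eq_of_card_lt_of_maps_to hcard hmap
  have hlow : (Θ : ℝ)⁻¹ ^ 6 ≤ |x - y| := hA.2 x hx y hy hne
  have hup : |x - y| ≤ (Θ : ℝ)⁻¹ := by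
    have h1 := Int.abs_sub_lt_one_of_floor_eq_floor hxy
    rw [← mul_sub, abs_mul, abs_of_pos hΘ0] at h1
    rw [← one_div, le_div_iff₀ hΘ0]
    linarith
  have hd0 : (0 : ℝ) ≤ (Θ : ℝ)⁻¹ := by positivity
  have hd1 : (Θ : ℝ)⁻¹ ≤ 1 := inv_le_one_of_one_le₀ (by linarith)
  have hy0 : x - y ∈ S 1 := hS.sub 0 x (hA.1 x hx).1 y (hA.1 y hy).1
  have hpow : ∀ i : ℕ, (x - y) ^ (i + 1) ∈ S (i + 1) := by
    intro i
    induction i with
    | zero => simpa using hy0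
    | succ i ih =>
      rw [pow_succ]
      exact hS.mul _ _ ih _ (hS.mono_le (by omega) hy0)
  refine ⟨?_, ?_⟩
  · intro t ht
    have hex : ∃ i : ℕ, |x - y| ^ (i + 1) ≤ (Θ : ℝ)⁻¹ ^ t :=
      ⟨t, (pow_le_pow_left₀ (abs_nonneg _) hup _).trans
        (pow_le_pow_of_le_one hd0 hd1 (by omega))⟩
    classical
    have hi : Nat.find hex ≤ t := Nat.find_min' hex
      ((pow_le_pow_left₀ (abs_nonneg _) hup _).trans (pow_le_pow_of_le_one hd0 hd1 (by omega)))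
    have hspec := Nat.find_spec hex
    refine ⟨(x - y) ^ (Nat.find hex + 1), hS.mono_le (by omega) (hpow _), ?_, ?_⟩
    · rw [abs_pow]
      rcases Nat.eq_zero_or_pos (Nat.find hex) with h0 | h0
      · rw [h0, zero_add, pow_one]
        exact (pow_le_pow_of_le_one hd0 hd1 (by omega)).trans hlow
      · have hmin := Nat.find_min hex (m := Nat.find hex - 1) (by omega)
        rw [Nat.sub_add_cancel h0] at hmin
        push Not at hmin
        rw [pow_add, pow_succ |x - y|]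
        exact mul_le_mul hmin.le hlow (pow_nonneg hd0 _) (pow_nonneg (abs_nonneg _) _)
    · rw [abs_pow]
      exact hspec
  · have h0 : x - x ∈ S 1 := hS.sub 0 x (hA.1 x hx).1 x (hA.1 x hx).1
    rw [sub_self] at h0
    exact hS.mono_le (by omega) h0

/-- Pigeonhole: the product of `NN (S j) Θ u v` over `u, v ≤ n` is between `1` and
`(3 Θ^n)^((n+1)^2) ≤ Θ^((n+1)^3)`, nondecreasing in `j`, and grows by a factor `> Θ` from `j` to
`j + 5` when `Stab` fails at `j`. -/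
theorem exists_stab {S : ℕ → Set ℝ} {Θ : ℕ} (hΘ : 100 ≤ Θ) (hS : Tower S) (n j0 : ℕ)
    (h0 : (0 : ℝ) ∈ S j0) : ∃ j, j0 ≤ j ∧ j ≤ j0 + 5 * (n + 1) ^ 3 ∧ Stab S Θ n j := by
  by_contra hcon
  push Not at hcon
  set P : Finset (ℕ × ℕ) := Finset.range (n + 1) ×ˢ Finset.range (n + 1) with hP
  have step : ∀ j, j0 ≤ j → j ≤ j0 + 5 * (n + 1) ^ 3 →
      Θ * ∏ p ∈ P, NN (S j) Θ p.1 p.2 ≤ ∏ p ∈ P, NN (S (j + 5)) Θ p.1 p.2 := by
    intro j h1 h2
    have h3 := hcon j h1 h2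
    unfold Stab at h3
    push Not at h3
    obtain ⟨u, hu, v, hv, h4⟩ := h3
    have hmem : (u, v) ∈ P := by
      rw [hP, Finset.mem_product, Finset.mem_range, Finset.mem_range]
      constructor <;> simp only <;> omega
    rw [← Finset.mul_prod_erase P _ hmem, ← Finset.mul_prod_erase P _ hmem, ← mul_assoc]
    apply Nat.mul_le_mul h4.le
    apply Finset.prod_le_prod'
    intro p _
    exact NN_mono hΘ (hS.mono_le (by omega)) le_rfl le_rfl
  have grow : ∀ k, k ≤ (n + 1) ^ 3 + 1 → Θ ^ k ≤ ∏ p ∈ P, NN (S (j0 + 5 * k)) Θ p.1 p.2 := by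
    intro k
    induction k with
    | zero =>
      intro _
      rw [pow_zero]
      apply Finset.one_le_prod'
      intro p _
      exact NN_pos hΘ (by simpa using h0) _ _
    | succ k ih =>
      intro hk
      have h1 := ih (by omega)
      have h2 := step (j0 + 5 * k) (by omega) (by omega)
      rw [show j0 + 5 * (k + 1) = j0 + 5 * k + 5 by ring, pow_succ, mul_comm]
      exact (Nat.mul_le_mul_left _ h1).trans h2
  have h1 := grow _ le_rfl
  have h2 : ∏ p ∈ P, NN (S (j0 + 5 * ((n + 1) ^ 3 + 1))) Θ p.1 p.2 ≤ (Θ ^ (n + 1)) ^ P.card := by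
    apply Finset.prod_le_pow_card
    intro p hp
    rw [hP, Finset.mem_product, Finset.mem_range, Finset.mem_range] at hp
    refine (NN_le _ hΘ _ _).trans ?_
    rw [pow_succ, mul_comm]
    exact Nat.mul_le_mul (Nat.pow_le_pow_right (by omega) (by omega)) (by omega)
  rw [hP, Finset.card_product, Finset.card_range, ← pow_mul] at h2
  have h3 := (Nat.pow_le_pow_iff_right (by omega : 1 < Θ)).1 (h1.trans h2)
  have e : (n + 1) * ((n + 1) * (n + 1)) = (n + 1) ^ 3 := by ring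
  omega

/-- Growth lemma. Take `l = 1420`, `n0 = 20 (3 ^ (l+1) * 44 + l + 6)`,
`J = n + 1 + 5 (n+1)^3`, and `j` from `exists_stab` with `j0 = n + 1`. Among `V = 3^i * 44`,
`i ≤ l`, one has `NN (3V) (3V + l) ≤ Θ NN V (V + l)` (otherwise `NN > Θ^(l+1) > 3 Θ^l`).
`full_range` and `Stab.shift` give `Θ^(l - 65) ≤ NN (V + i l) (V + (i+1) l)`, `Stab.super` and
induction give `Θ^(i (l - 71)) ≤ NN V (V + i l)` while `V + i l + 6 ≤ n`; take
`i = (n - 6 - V) / l` and use `NN_mono`, `exists_fam`. Avoid evaluating `3 ^ 1421`: generalise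
`l` with the facts `l = 1420` used only in linear arithmetic. -/
theorem growth : ∃ n0 : ℕ, ∀ n ≥ n0, ∃ J : ℕ, ∀ (Θ : ℕ) (S : ℕ → Set ℝ), 100 ≤ Θ → Tower S →
    (∀ v, 2 * v ≤ n → Θ ^ v ≤ Θ * NN (S 0) Θ 0 (2 * v)) →
    ∃ A : Finset ℝ, (∀ x ∈ A, x ∈ S J) ∧ Sep ((Θ : ℝ)⁻¹ ^ n) A ∧ Θ ^ (9 * n) ≤ A.card ^ 10 := by
  obtain ⟨l, hl⟩ : ∃ l : ℕ, l = 1420 := ⟨_, rfl⟩
  refine ⟨20 * (3 * (3 ^ l * 44) + l + 6), fun n hn => ⟨n + 1 + 5 * (n + 1) ^ 3, ?_⟩⟩
  intro Θ S hΘ hS hN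
  have hV0 : ∀ i ≤ l, 3 ^ i * 44 ≤ 3 ^ l * 44 := fun i hi =>
    Nat.mul_le_mul_right _ (Nat.pow_le_pow_right (by omega) hi)
  have hV1 : ∀ i : ℕ, 44 ≤ 3 ^ i * 44 := fun i =>
    Nat.le_mul_of_pos_left _ (Nat.pow_pos (by omega))
  generalize hM : 3 ^ l * 44 = M at hn hV0
  clear hM
  have hcanc : ∀ a b : ℕ, Θ ^ (a + 1) ≤ Θ * b → Θ ^ a ≤ b := by
    intro a b h
    rw [pow_succ, mul_comm] at h
    exact Nat.le_of_mul_le_mul_left h (by omega)
  have h2 : Θ ^ 2 ≤ NN (S 0) Θ 0 6 := hcanc 2 _ (hN 3 (by omega))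
  have h21 : Θ ^ 21 ≤ NN (S 0) Θ 0 44 := hcanc 21 _ (hN 22 (by omega))
  obtain ⟨hd, h0⟩ := dil_of (n := n) hΘ hS h2
  obtain ⟨j, hj1, hj2, hst⟩ := exists_stab hΘ hS n (n + 1) h0
  have hdj : Dil (S j) Θ n := by
    intro t ht
    obtain ⟨d, d1, d2⟩ := hd t ht
    exact ⟨d, hS.mono_le hj1 d1, d2⟩
  have h0j : (0 : ℝ) ∈ S j := hS.mono_le hj1 h0
  have h21j : Θ ^ 21 ≤ NN (S j) Θ 0 44 :=
    h21.trans (NN_mono hΘ (hS.mono_le (by omega)) le_rfl le_rfl)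
  obtain ⟨V, hV44, hVM, hV⟩ : ∃ V, 44 ≤ V ∧ V ≤ M ∧
      NN (S j) Θ (3 * V) (3 * V + l) ≤ Θ * NN (S j) Θ V (V + l) := by
    by_contra hcon
    push Not at hcon
    have grow : ∀ i, i ≤ l + 1 → Θ ^ i ≤ NN (S j) Θ (3 ^ i * 44) (3 ^ i * 44 + l) := by
      intro i
      induction i with
      | zero => intro _; rw [pow_zero]; exact NN_pos hΘ h0j _ _
      | succ i ih =>
        intro hi
        have h1 := ih (by omega)
        have h3 := hcon (3 ^ i * 44) (hV1 i) (hV0 i (by omega))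
        rw [show 3 ^ (i + 1) * 44 = 3 * (3 ^ i * 44) by ring, pow_succ, mul_comm]
        exact (Nat.mul_le_mul_left _ h1).trans h3.le
    have h1 := (grow (l + 1) le_rfl).trans (NN_le _ hΘ _ _)
    rw [Nat.add_sub_cancel_left, pow_succ, mul_comm] at h1
    have h3 := Nat.le_of_mul_le_mul_right h1 (Nat.pow_pos (by omega))
    omega
  have hfull := full_range hΘ hS hst hdj h0j hV44 (by omega) (by omega) h21j hV
  have hpiece : ∀ t, V + l + t + 6 ≤ n → Θ ^ (l - 65) ≤ NN (S j) Θ (V + t) (V + l + t) := by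
    intro t ht
    have h1 := hfull.trans (hst.shift hΘ hS hdj (u := V) (v := V + l) (t := t) (by omega) ht)
    rw [show l - 57 = 8 + (l - 65) by omega, pow_add] at h1
    exact Nat.le_of_mul_le_mul_left h1 (Nat.pow_pos (by omega))
  have hind : ∀ i : ℕ, V + 1420 * i + 6 ≤ n → Θ ^ (1349 * i) ≤ NN (S j) Θ V (V + 1420 * i) := by
    intro i
    induction i with
    | zero => intro _; rw [mul_zero, pow_zero]; exact NN_pos hΘ h0j _ _
    | succ i ih =>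
      intro hi
      have h1 := ih (by omega)
      have h3 := hpiece (1420 * i) (by omega)
      have h4 := hst.super hΘ hS (u := V) (v := V + 1420 * i) (w := V + l + 1420 * i)
        (by omega) (by omega) (by omega)
      have h5 := (Nat.mul_le_mul h1 h3).trans h4
      rw [← pow_add, show 1349 * i + (l - 65) = 6 + 1349 * (i + 1) by omega, pow_add,
        show V + l + 1420 * i = V + 1420 * (i + 1) by omega] at h5
      exact Nat.le_of_mul_le_mul_left h5 (Nat.pow_pos (by omega))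
  obtain ⟨i, hi1, hi2⟩ : ∃ i : ℕ, V + 1420 * i + 6 ≤ n ∧ 9 * n ≤ 1349 * i * 10 :=
    ⟨(n - 6 - V) / 1420, by omega, by omega⟩
  obtain ⟨A, hA, hc⟩ := exists_fam (S j) hΘ V (V + 1420 * i)
  have hΘR : (100 : ℝ) ≤ Θ := by exact_mod_cast hΘ
  have hd0 : (0 : ℝ) ≤ (Θ : ℝ)⁻¹ := by positivity
  have hd1 : (Θ : ℝ)⁻¹ ≤ 1 := inv_le_one_of_one_le₀ (by linarith)
  refine ⟨A, fun x hx => hS.mono_le hj2 (hA.1 x hx).1, ?_, ?_⟩
  · intro x hx y hy hne
    exact (pow_le_pow_of_le_one hd0 hd1 (by omega)).trans (hA.2 x hx y hy hne)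
  · rw [hc]
    refine (Nat.pow_le_pow_right (by omega) hi2).trans ?_
    rw [pow_mul]
    exact Nat.pow_le_pow_left (hind i hi1) 10

end Pool.Agent.Lib.MP_ecd12e_nt.Bar
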