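import Pool.Agent.Lib.MP_ecd12e_nt.Bar.MeanV

set_option autoImplicit false

namespace Pool.Agent.Lib.MP_ecd12e_nt.Bar

open Finset Real
open scoped Pointwise

/-- The integer next to the stationary point `u / (2π μ)`. -/
noncomputable def ctr (u : ℝ) (mu : ℕ) : ℤ := ⌊u / (2 * π * mu)⌋

/-- `n` is far from all the stationary points. -/
def Far (th rho : ℕ) (u : ℝ) (n : ℕ) : Prop := ∀ mu ∈ Icc 1 th, (rho : ℤ) < |(n : ℤ) - ctr u mu|

noncomputable instance (th rho : ℕ) (u : ℝ) : DecidablePred (Far th rho u) :=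
  fun _ => Classical.propDecidable _

lemma kernfar_log_bounds {x : ℝ} (hx : 0 < x) :
    1 / (x + 1) ≤ Real.log (1 + 1 / x) ∧ Real.log (1 + 1 / x) ≤ 1 / x := by
  have h0 : 0 < 1 + 1 / x := by positivity
  constructor
  · have h := Real.one_sub_inv_le_log_of_pos h0
    have e : 1 - (1 + 1 / x)⁻¹ = 1 / (x + 1) := by
      field_simp
      ring
    rwa [e] at h
  · have h := Real.log_le_sub_one_of_pos h0
    linarith

lemma kernfar_theta {x M t u : ℝ} (hM : 0 < M) (hx : M ≤ x) (hu0 : 0 ≤ u) (hu : u ≤ t * M) :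
    u / x - t / M ≤ u * Real.log (1 + 1 / x) ∧ u * Real.log (1 + 1 / x) ≤ u / x := by
  have hx0 : 0 < x := hM.trans_le hx
  obtain ⟨h1, h2⟩ := kernfar_log_bounds hx0
  constructor
  · have h3 : u * (1 / (x + 1)) ≤ u * Real.log (1 + 1 / x) := mul_le_mul_of_nonneg_left h1 hu0
    have e : u * (1 / (x + 1)) = u / x - u / (x * (x + 1)) := by
      field_simp
      ring
    have h4 : u / (x * (x + 1)) ≤ t * M / (M * M) :=
      div_le_div₀ (hu0.trans hu) hu (by positivity) (mul_le_mul hx (by linarith) hM.le hx0.le)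
    have e2 : t * M / (M * M) = t / M := by field_simp
    linarith
  · calc u * Real.log (1 + 1 / x) ≤ u * (1 / x) := mul_le_mul_of_nonneg_left h2 hu0
      _ = u / x := by ring

lemma kernfar_dtheta {x M t u : ℝ} (hM : 0 < M) (hx : M ≤ x) (hu0 : 0 ≤ u) (hu : u ≤ t * M) :
    |u * Real.log (1 + 1 / x) - u * Real.log (1 + 1 / (x + 1))| ≤ 2 * t / M := by
  have hx0 : 0 < x := hM.trans_le hx
  obtain ⟨h1, h2⟩ := kernfar_theta hM hx hu0 hu
  obtain ⟨h3, h4⟩ := kernfar_theta (x := x + 1) hM (by linarith) hu0 hu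
  have e : u / (x + 1) = u / x - u / (x * (x + 1)) := by
    field_simp
    ring
  have h5 : u / (x * (x + 1)) ≤ t * M / (M * M) :=
    div_le_div₀ (hu0.trans hu) hu (by positivity) (mul_le_mul hx (by linarith) hM.le hx0.le)
  have e2 : t * M / (M * M) = t / M := by field_simp
  have h6 : 0 ≤ u / (x * (x + 1)) := by positivity
  have e3 : 2 * t / M = 2 * (t / M) := by ring
  rw [abs_le, e3]
  constructor <;> linarith

lemma kernfar_gap {x M t D y m θ : ℝ} (hM : 0 < M) (hx0 : 0 < x) (hx : x ≤ 2 * M) (hm : 1 ≤ m)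
    (hD : t + 4 ≤ D) (ht : 0 ≤ t) (hy : D - 1 ≤ |y - x|)
    (hθ : |θ - 2 * π * m * y / x| ≤ t / M) : D / M ≤ 2 / π * |θ - 2 * π * m| := by
  have hpi := Real.pi_gt_three
  have e : 2 * π * m * y / x - 2 * π * m = (2 * π * m / x) * (y - x) := by
    field_simp
  have h1 : π / M ≤ 2 * π * m / x := by
    rw [div_le_div_iff₀ hM hx0]
    have : π * x ≤ π * (2 * M) := mul_le_mul_of_nonneg_left hx (by linarith)
    have h2 : 2 * π * M * 1 ≤ 2 * π * M * m := mul_le_mul_of_nonneg_left hm (by positivity)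
    linarith
  have h2 : π / M * (D - 1) ≤ |2 * π * m * y / x - 2 * π * m| := by
    rw [e, abs_mul, abs_of_pos (by positivity : 0 < 2 * π * m / x)]
    exact mul_le_mul h1 hy (by linarith) (by positivity)
  have h3 : |2 * π * m * y / x - 2 * π * m| ≤ t / M + |θ - 2 * π * m| := by
    have := abs_sub_le (2 * π * m * y / x) θ (2 * π * m)
    rw [abs_sub_comm (2 * π * m * y / x) θ] at this
    linarith
  have h4 : π / M * (D - 1) - t / M ≤ |θ - 2 * π * m| := by linarith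
  refine le_trans ?_ (mul_le_mul_of_nonneg_left h4 (by positivity))
  have e2 : 2 / π * (π / M * (D - 1) - t / M) = (2 * (D - 1) - 2 * t / π) / M := by
    field_simp
  rw [e2]
  refine div_le_div_of_nonneg_right ?_ hM.le
  have h5 : 2 * t / π ≤ t := by
    rw [div_le_iff₀ (by positivity)]
    nlinarith
  linarith

/-- Lower bound for the increments away from the stationary points. Let `θ = u log (1 + 1/n)`,
`|θ - u/n| ≤ u / n^2 ≤ th / N`, and let `ν` be the integer nearest to `θ / (2π)` (`round`), so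
`0 ≤ ν ≤ th` and `‖ei θ - 1‖ = ‖ei (θ - 2πν) - 1‖ ≥ (2/π) |θ - 2πν|`. If `ν = 0` then
`θ ≥ 1/2 - th / N ≥ 2/5`. If `ν = μ ≥ 1` then `|u/n - 2πμ| = 2πμ |u/(2πμ) - n| / n ≥
π (|n - ctr| - 1) / N`, and `|n - ctr| > rho ≥ th + 4`. -/
theorem far_lower {th N rho n : ℕ} {u : ℝ} (hth : 1000 ≤ th) (hN : 10 * th ≤ N)
    (hrho : th + 4 ≤ rho) (hu1 : (N : ℝ) ≤ u) (hu2 : u ≤ th * N) (hn : n ∈ Icc N (2 * N))
    (hf : Far th rho u n) :
    1 / 5 ≤ ‖ei (u * Real.log (1 + 1 / (n : ℝ))) - 1‖ ∨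
      ∃ mu ∈ Icc 1 th, |(n : ℝ) - ctr u mu| / N ≤ ‖ei (u * Real.log (1 + 1 / (n : ℝ))) - 1‖ := by
  obtain ⟨hn1, hn2⟩ := mem_Icc.mp hn
  have hth' : (1000 : ℝ) ≤ th := by exact_mod_cast hth
  have hN' : 10 * (th : ℝ) ≤ N := by exact_mod_cast hN
  have hM : (0 : ℝ) < N := by linarith
  have hn1' : (N : ℝ) ≤ n := by exact_mod_cast hn1
  have hn2' : (n : ℝ) ≤ 2 * N := by exact_mod_cast hn2
  have hn0 : (0 : ℝ) < n := by linarith
  have hpi := Real.pi_gt_three
  obtain ⟨h1, h2⟩ := kernfar_theta hM hn1' (by linarith) hu2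
  set θ := u * Real.log (1 + 1 / (n : ℝ)) with hθ
  have h3 : (th : ℝ) / N ≤ 1 / 10 := by
    rw [div_le_iff₀ hM]
    linarith
  have h4 : 1 / 2 ≤ u / n := by
    rw [le_div_iff₀ hn0]
    linarith
  have h5 : u / n ≤ th := by
    rw [div_le_iff₀ hn0]
    exact hu2.trans (mul_le_mul_of_nonneg_left hn1' (by linarith))
  set ν := round (θ / (2 * π)) with hν
  have h6 : |θ / (2 * π) - ν| ≤ 1 / 2 := abs_sub_round _
  have h7 : |θ - 2 * π * ν| ≤ π := by
    have e : θ - 2 * π * ν = 2 * π * (θ / (2 * π) - ν) := by field_simp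
    rw [e, abs_mul, abs_of_pos (by positivity : 0 < 2 * π)]
    nlinarith
  have h8 : 2 / π * |θ - 2 * π * ν| ≤ ‖ei θ - 1‖ := by
    have e : ei θ = ei (θ - 2 * π * ν) := by
      rw [← mul_one (ei (θ - 2 * π * ν)), ← ei_two_pi_int ν, ← ei_add]
      congr 1
      ring
    rw [e]
    exact le_norm_ei_sub_one h7
  have h9 : 0 ≤ θ / (2 * π) := div_nonneg (by linarith) (by positivity)
  have h10 : θ / (2 * π) ≤ th / 2 := div_le_div₀ (by linarith) (by linarith) (by norm_num)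
    (by linarith)
  obtain ⟨h11, h12⟩ := abs_le.mp h6
  have hν0 : 0 ≤ ν := by
    have : (-1 : ℝ) < ν := by linarith
    have : (-1 : ℤ) < ν := by exact_mod_cast this
    omega
  have hν1 : ν ≤ th := by
    have : (ν : ℝ) ≤ th := by linarith
    exact_mod_cast this
  rcases hν0.eq_or_lt with h0 | h0
  · left
    rw [← h0] at h8
    simp only [Int.cast_zero, mul_zero, sub_zero] at h8
    refine le_trans ?_ h8
    rw [abs_of_nonneg (by linarith), div_mul_eq_mul_div, le_div_iff₀ (by positivity)]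
    have := Real.pi_lt_four
    linarith
  · right
    obtain ⟨mu, hmu⟩ := Int.eq_ofNat_of_zero_le hν0
    have hm : mu ∈ Icc 1 th := mem_Icc.mpr ⟨by omega, by omega⟩
    refine ⟨mu, hm, le_trans ?_ h8⟩
    have hm1 : (1 : ℝ) ≤ mu := by exact_mod_cast (mem_Icc.mp hm).1
    have e : ((ν : ℤ) : ℝ) = mu := by rw [hmu]; simp
    rw [e]
    have hD : (rho : ℝ) < |(n : ℝ) - ctr u mu| := by exact_mod_cast hf mu hm
    have hrho' : (th : ℝ) + 4 ≤ rho := by exact_mod_cast hrho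
    refine kernfar_gap (y := u / (2 * π * mu)) (t := th) hM hn0 hn2' hm1 (by linarith)
      (by linarith) ?_ ?_
    · have a1 : ((ctr u mu : ℤ) : ℝ) ≤ u / (2 * π * mu) := Int.floor_le _
      have a2 : u / (2 * π * mu) < (ctr u mu : ℤ) + 1 := Int.lt_floor_add_one _
      have a3 := abs_sub_le (n : ℝ) (u / (2 * π * mu)) (ctr u mu : ℤ)
      rw [abs_sub_comm (n : ℝ) (u / (2 * π * mu)),
        abs_of_nonneg (by linarith : 0 ≤ u / (2 * π * mu) - (ctr u mu : ℤ))] at a3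
      linarith
    · have e2 : 2 * π * mu * (u / (2 * π * mu)) / n = u / n := by field_simp
      rw [e2, abs_le]
      have : (0 : ℝ) ≤ th / N := by positivity
      constructor <;> linarith

lemma kernfar_two_sided (S T : Finset ℕ) (c : ℤ) (F : ℕ → ℝ) (hF : ∀ j, 0 ≤ F j)
    (h : ∀ n ∈ S, ((n : ℤ) - c).natAbs ∈ T) :
    ∑ n ∈ S, F ((n : ℤ) - c).natAbs ≤ 2 * ∑ j ∈ T, F j := by
  have key : ∀ S' : Finset ℕ, S' ⊆ S → Set.InjOn (fun n : ℕ => ((n : ℤ) - c).natAbs) S' →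
      ∑ n ∈ S', F ((n : ℤ) - c).natAbs ≤ ∑ j ∈ T, F j := by
    intro S' hS hi
    rw [← sum_image (g := fun n : ℕ => ((n : ℤ) - c).natAbs) hi]
    refine sum_le_sum_of_subset_of_nonneg (fun j hj => ?_) fun j _ _ => hF j
    obtain ⟨n, hn, rfl⟩ := mem_image.mp hj
    exact h n (hS hn)
  rw [← sum_filter_add_sum_filter_not S (fun n : ℕ => c ≤ (n : ℤ)), two_mul]
  refine add_le_add (key _ (filter_subset _ _) ?_) (key _ (filter_subset _ _) ?_)
  · intro a ha b hb hab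
    have h1 := (mem_filter.mp (mem_coe.mp ha)).2
    have h2 := (mem_filter.mp (mem_coe.mp hb)).2
    simp only at hab
    omega
  · intro a ha b hb hab
    have h1 := (mem_filter.mp (mem_coe.mp ha)).2
    have h2 := (mem_filter.mp (mem_coe.mp hb)).2
    simp only at hab
    omega

lemma kernfar_cast (n : ℕ) (c : ℤ) : ((((n : ℤ) - c).natAbs : ℕ) : ℝ) = |(n : ℝ) - c| := by
  rw [Nat.cast_natAbs]
  push_cast
  rfl

lemma kernfar_sum1 {N rho : ℕ} (hN : 1 ≤ N) (c : ℤ) :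
    ∑ n ∈ (Icc N (2 * N)).filter (fun n : ℕ => (rho : ℤ) < |(n : ℤ) - c|), 1 / |(n : ℝ) - c|
      ≤ 2 * (2 + Real.log N) := by
  set c' : ℤ := max ((N : ℤ) - 1) (min c (2 * N + 1)) with hc'
  have hN' : (1 : ℝ) ≤ N := by exact_mod_cast hN
  have hm : ∀ n ∈ (Icc N (2 * N)).filter (fun n : ℕ => (rho : ℤ) < |(n : ℤ) - c|),
      ((n : ℤ) - c').natAbs ∈ Icc 1 (N + 1) ∧ ((n : ℤ) - c').natAbs ≤ ((n : ℤ) - c).natAbs := by
    intro n hn
    obtain ⟨h1, h2⟩ := mem_filter.mp hn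
    obtain ⟨h3, h4⟩ := mem_Icc.mp h1
    rw [← Int.natCast_natAbs] at h2
    rw [mem_Icc]
    omega
  have h1 := kernfar_two_sided _ (Icc 1 (N + 1)) c' (fun j => ((j : ℝ))⁻¹)
    (fun j => by positivity) fun n hn => (hm n hn).1
  refine le_trans (sum_le_sum fun n hn => ?_) (h1.trans ?_)
  · rw [one_div, ← kernfar_cast]
    have h2 : 0 < ((n : ℤ) - c').natAbs := (mem_Icc.mp (hm n hn).1).1
    exact inv_anti₀ (by exact_mod_cast h2) (by exact_mod_cast (hm n hn).2)
  · have h2 := harmonic_le_one_add_log (N + 1)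
    rw [harmonic_eq_sum_Icc] at h2
    push_cast at h2
    have h3 : Real.log ((N : ℝ) + 1) ≤ 1 + Real.log N := by
      have h4 := (kernfar_log_bounds (x := N) (by linarith)).2
      have e : (N : ℝ) + 1 = (1 + 1 / N) * N := by field_simp
      rw [e, Real.log_mul (by positivity) (by positivity)]
      have : 1 / (N : ℝ) ≤ 1 := by
        rw [div_le_one (by linarith)]
        exact hN'
      linarith
    linarith

lemma kernfar_sum2 {N rho : ℕ} (hrho : 1 ≤ rho) (c : ℤ) :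
    ∑ n ∈ (Icc N (2 * N)).filter (fun n : ℕ => (rho : ℤ) < |(n : ℤ) - c|),
      (1 / |(n : ℝ) - c|) ^ 2 ≤ 2 / (rho : ℝ) := by
  have h1 := kernfar_two_sided ((Icc N (2 * N)).filter (fun n : ℕ => (rho : ℤ) < |(n : ℤ) - c|))
    (Ioc rho (rho + 2 * N + c.natAbs)) c (fun j => ((j : ℝ) ^ 2)⁻¹)
    (fun j => by positivity) fun n hn => by
      obtain ⟨h1, h2⟩ := mem_filter.mp hn
      obtain ⟨h3, h4⟩ := mem_Icc.mp h1
      rw [← Int.natCast_natAbs] at h2
      rw [mem_Ioc]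
      omega
  refine le_trans (le_of_eq (sum_congr rfl fun n _ => ?_)) (h1.trans ?_)
  · rw [kernfar_cast, one_div, inv_pow]
  · have h2 := sum_Ioc_inv_sq_le_sub (α := ℝ) (k := rho) (n := rho + 2 * N + c.natAbs)
      (by omega) (by omega)
    have h3 : (0 : ℝ) ≤ ((rho + 2 * N + c.natAbs : ℕ) : ℝ)⁻¹ := by positivity
    rw [div_eq_mul_inv]
    linarith

/-- The inverse of the increment of the phase. -/
noncomputable def kernfarC (u : ℝ) (n : ℕ) : ℂ := (ei (u * Real.log (1 + 1 / (n : ℝ))) - 1)⁻¹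

/-- The size of `kernfarC` on the far points. -/
noncomputable def kernfarA (th rho : ℕ) (u : ℝ) (n : ℕ) : ℝ :=
  if Far th rho u n then ‖kernfarC u n‖ else 0

lemma kernfarA_nonneg (th rho : ℕ) (u : ℝ) (n : ℕ) : 0 ≤ kernfarA th rho u n := by
  unfold kernfarA
  split_ifs <;> positivity

lemma kernfar_point {th N rho n : ℕ} {u : ℝ} (hth : 1000 ≤ th) (hN : 10 * th ≤ N)
    (hrho : th + 4 ≤ rho) (hu1 : (N : ℝ) ≤ u) (hu2 : u ≤ th * N) (hn : n ∈ Icc N (2 * N))
    (hf : Far th rho u n) :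
    ei (u * Real.log (1 + 1 / (n : ℝ))) - 1 ≠ 0 ∧ (‖kernfarC u n‖ ≤ 5 ∨
      ∃ mu ∈ Icc 1 th, ‖kernfarC u n‖ ≤ N * (1 / |(n : ℝ) - ctr u mu|)) := by
  have hM : (0 : ℝ) < N := by exact_mod_cast (by omega : 0 < N)
  unfold kernfarC
  rw [norm_inv]
  rcases far_lower hth hN hrho hu1 hu2 hn hf with h | ⟨mu, hmu, h⟩
  · refine ⟨norm_pos_iff.mp (by linarith), Or.inl ?_⟩
    refine (inv_anti₀ (by norm_num) h).trans (by norm_num)
  · have hD : (rho : ℝ) < |(n : ℝ) - ctr u mu| := by exact_mod_cast hf mu hmu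
    have hD0 : 0 < |(n : ℝ) - ctr u mu| := lt_of_le_of_lt (by positivity) hD
    refine ⟨norm_pos_iff.mp (lt_of_lt_of_le (by positivity) h), Or.inr ⟨mu, hmu, ?_⟩⟩
    refine (inv_anti₀ (by positivity) h).trans (le_of_eq ?_)
    field_simp

lemma kernfar_sumA {th N rho : ℕ} {u : ℝ} (hth : 1000 ≤ th) (hN : 10 * th ≤ N)
    (hrho : th + 4 ≤ rho) (hu1 : (N : ℝ) ≤ u) (hu2 : u ≤ th * N) (p : ℕ) {B : ℝ}
    (hB : ∀ c : ℤ, ∑ n ∈ (Icc N (2 * N)).filter (fun n : ℕ => (rho : ℤ) < |(n : ℤ) - c|),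
      (1 / |(n : ℝ) - c|) ^ (p + 1) ≤ B) :
    ∑ n ∈ Icc N (2 * N), kernfarA th rho u n ^ (p + 1) ≤
      5 ^ (p + 1) * (2 * N) + th * (N ^ (p + 1) * B) := by
  have h1 : ∀ n ∈ Icc N (2 * N), kernfarA th rho u n ^ (p + 1) ≤ 5 ^ (p + 1) +
      ∑ mu ∈ Icc 1 th, if (rho : ℤ) < |(n : ℤ) - ctr u mu| then
        (N : ℝ) ^ (p + 1) * (1 / |(n : ℝ) - ctr u mu|) ^ (p + 1) else 0 := by
    intro n hn
    have h0 : ∀ mu ∈ Icc 1 th, (0 : ℝ) ≤ if (rho : ℤ) < |(n : ℤ) - ctr u mu| then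
        (N : ℝ) ^ (p + 1) * (1 / |(n : ℝ) - ctr u mu|) ^ (p + 1) else 0 := fun mu _ => by
      split_ifs <;> positivity
    have h00 := sum_nonneg h0
    unfold kernfarA
    split_ifs with hf
    · rcases (kernfar_point hth hN hrho hu1 hu2 hn hf).2 with h | ⟨mu, hmu, h⟩
      · have := pow_le_pow_left₀ (norm_nonneg _) h (p + 1)
        linarith
      · have h2 := pow_le_pow_left₀ (norm_nonneg _) h (p + 1)
        have h3 := single_le_sum h0 hmu
        rw [if_pos (hf mu hmu), ← mul_pow] at h3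
        have : (0 : ℝ) ≤ 5 ^ (p + 1) := by positivity
        linarith
    · rw [zero_pow (by omega)]
      positivity
  refine (sum_le_sum h1).trans ?_
  rw [sum_add_distrib, sum_comm]
  refine add_le_add ?_ ?_
  · rw [sum_const, Nat.card_Icc, nsmul_eq_mul, mul_comm]
    refine mul_le_mul_of_nonneg_left ?_ (by positivity)
    exact_mod_cast (by omega : 2 * N + 1 - N ≤ 2 * N)
  · refine (sum_le_sum (g := fun _ => (N : ℝ) ^ (p + 1) * B) fun mu _ => ?_).trans (by simp)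
    rw [← sum_filter, ← mul_sum]
    exact mul_le_mul_of_nonneg_left (hB _) (by positivity)

lemma kernfar_both {a b x y : ℂ} {g0 g1 l d : ℝ} (ha : x - 1 ≠ 0) (hb : y - 1 ≠ 0)
    (ea : a = (x - 1)⁻¹) (eb : b = (y - 1)⁻¹) (hd : ‖x - y‖ ≤ 2 * d) (hl : 0 < l)
    (h0 : 0 ≤ g0) (h1 : g0 ≤ 1) (hlip : |g1 - g0| * l ≤ 1) :
    ‖(g1 : ℂ) * b - g0 * a‖ ≤ ‖b‖ / l + d * (‖a‖ ^ 2 + ‖b‖ ^ 2) := by
  have e : (g1 : ℂ) * b - g0 * a = ((g1 - g0 : ℝ) : ℂ) * b + g0 * ((x - y) * (a * b)) := by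
    rw [ea, eb]
    push_cast
    field_simp
    ring
  rw [e]
  refine (norm_add_le _ _).trans (add_le_add ?_ ?_)
  · rw [norm_mul, Complex.norm_real, Real.norm_eq_abs, le_div_iff₀ hl, mul_right_comm]
    exact mul_le_of_le_one_left (norm_nonneg _) hlip
  · rw [norm_mul, norm_mul, norm_mul, Complex.norm_real, Real.norm_eq_abs, abs_of_nonneg h0]
    have hd0 : 0 ≤ d := by linarith [norm_nonneg (x - y)]
    calc g0 * (‖x - y‖ * (‖a‖ * ‖b‖)) ≤ 1 * (2 * d * (‖a‖ * ‖b‖)) := by gcongr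
      _ = d * (2 * ‖a‖ * ‖b‖) := by ring
      _ ≤ _ := mul_le_mul_of_nonneg_left (two_mul_le_add_sq _ _) hd0

/-- The points where the status changes. -/
noncomputable def kernfarB (th rho : ℕ) (u : ℝ) : Finset ℤ :=
  (Icc 1 th).image (fun mu => ctr u mu + rho) ∪ (Icc 1 th).image (fun mu => ctr u mu - rho - 1)

lemma kernfar_step {th N rho n : ℕ} {u l : ℝ} {g : ℝ → ℝ} (hth : 1000 ≤ th) (hN : 10 * th ≤ N)
    (hrho : th + 4 ≤ rho) (hu1 : (N : ℝ) ≤ u) (hu2 : u ≤ th * N) (hl : 0 < l) (hg : Cut N l g)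
    (hn : n ∈ Ico N (2 * N)) :
    ‖(if Far th rho u (n + 1) then (g (n + 1 : ℕ) : ℂ) * kernfarC u (n + 1) else 0) -
      (if Far th rho u n then (g n : ℂ) * kernfarC u n else 0)‖ ≤
      kernfarA th rho u (n + 1) / l +
        th / N * (kernfarA th rho u n ^ 2 + kernfarA th rho u (n + 1) ^ 2) +
        if (n : ℤ) ∈ kernfarB th rho u then 5 + (N : ℝ) / rho else 0 := by
  obtain ⟨hn1, hn2⟩ := mem_Ico.mp hn
  have hm0 : n ∈ Icc N (2 * N) := mem_Icc.mpr ⟨hn1, hn2.le⟩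
  have hm1 : n + 1 ∈ Icc N (2 * N) := mem_Icc.mpr ⟨by omega, hn2⟩
  have hM : (0 : ℝ) < N := by exact_mod_cast (by omega : 0 < N)
  have hr : (0 : ℝ) < rho := by exact_mod_cast (by omega : 0 < rho)
  have hA0 := kernfarA_nonneg th rho u n
  have hA1 := kernfarA_nonneg th rho u (n + 1)
  have hone : ∀ m ∈ Icc N (2 * N), Far th rho u m →
      ‖(g m : ℂ) * kernfarC u m‖ ≤ 5 + (N : ℝ) / rho := by
    intro m hm hf
    rw [norm_mul, Complex.norm_real, Real.norm_eq_abs, abs_of_nonneg (hg.nonneg _)]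
    refine (mul_le_of_le_one_left (norm_nonneg _) (hg.le_one _)).trans ?_
    have : 0 ≤ (N : ℝ) / rho := by positivity
    rcases (kernfar_point hth hN hrho hu1 hu2 hm hf).2 with h | ⟨mu, hmu, h⟩
    · linarith
    · have hD : (rho : ℝ) < |(m : ℝ) - ctr u mu| := by exact_mod_cast hf mu hmu
      have h2 : (N : ℝ) * (1 / |(m : ℝ) - ctr u mu|) ≤ N / rho := by
        rw [mul_one_div]
        exact div_le_div_of_nonneg_left hM.le hr hD.le
      linarith
  have hpos : 0 ≤ kernfarA th rho u (n + 1) / l +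
      th / N * (kernfarA th rho u n ^ 2 + kernfarA th rho u (n + 1) ^ 2) := by positivity
  have hite : (0 : ℝ) ≤ if (n : ℤ) ∈ kernfarB th rho u then 5 + (N : ℝ) / rho else 0 := by
    split_ifs <;> positivity
  by_cases f1 : Far th rho u (n + 1) <;> by_cases f0 : Far th rho u n
  · refine le_trans ?_ (le_add_of_nonneg_right hite)
    unfold kernfarA
    simp only [if_pos f1, if_pos f0]
    refine kernfar_both (kernfar_point hth hN hrho hu1 hu2 hm0 f0).1
      (kernfar_point hth hN hrho hu1 hu2 hm1 f1).1 rfl rfl ?_ hl (hg.nonneg _) (hg.le_one _) ?_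
    · refine (norm_ei_sub_ei_le _ _).trans ?_
      have := kernfar_dtheta (x := n) (t := th) hM (by exact_mod_cast hn1) (by linarith) hu2
      push_cast
      rw [← mul_div_assoc]
      exact this
    · simpa using hg.lip ((n + 1 : ℕ) : ℝ) n
  · have hb : (n : ℤ) ∈ kernfarB th rho u := by
      unfold Far at f0
      push Not at f0
      obtain ⟨mu, hmu, h⟩ := f0
      have h2 := f1 mu hmu
      refine mem_union_left _ (mem_image.mpr ⟨mu, hmu, ?_⟩)
      rw [← Int.natCast_natAbs] at h h2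
      omega
    rw [if_pos f1, if_neg f0, if_pos hb, sub_zero]
    exact (hone _ hm1 f1).trans (le_add_of_nonneg_left hpos)
  · have hb : (n : ℤ) ∈ kernfarB th rho u := by
      unfold Far at f1
      push Not at f1
      obtain ⟨mu, hmu, h⟩ := f1
      have h2 := f0 mu hmu
      refine mem_union_right _ (mem_image.mpr ⟨mu, hmu, ?_⟩)
      rw [← Int.natCast_natAbs] at h h2
      omega
    rw [if_neg f1, if_pos f0, if_pos hb, zero_sub, norm_neg]
    exact (hone _ hm0 f0).trans (le_add_of_nonneg_left hpos)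
  · rw [if_neg f1, if_neg f0, sub_zero, norm_zero]
    positivity

lemma kernfar_count (th rho N : ℕ) (u : ℝ) :
    ((Ico N (2 * N)).filter (fun n : ℕ => (n : ℤ) ∈ kernfarB th rho u)).card ≤ 2 * th := by
  refine (card_le_card_of_injOn (t := kernfarB th rho u) (fun n : ℕ => (n : ℤ))
    (fun n hn => (mem_filter.mp (mem_coe.mp hn)).2) fun a _ b _ h => Nat.cast_injective h).trans ?_
  refine (card_union_le _ _).trans ?_
  have h1 := card_image_le (s := Icc 1 th) (f := fun mu => ctr u mu + rho)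
  have h2 := card_image_le (s := Icc 1 th) (f := fun mu => ctr u mu - rho - 1)
  rw [Nat.card_Icc] at h1 h2
  omega

lemma kernfar_final {t M r : ℝ} (ht : 1 ≤ t) (hM : 0 < M) (hr : 0 < r) :
    t / M * (2 * (5 ^ 2 * (2 * M) + t * (M ^ 2 * (2 / r)))) + 2 * t * (5 + M / r) ≤
      200 * t + 10 * t ^ 2 * M / r := by
  have e : t / M * (2 * (5 ^ 2 * (2 * M) + t * (M ^ 2 * (2 / r)))) =
      100 * t + 4 * (t ^ 2 * (M / r)) := by
    field_simp
    ring
  have e2 : 10 * t ^ 2 * M / r = 10 * (t ^ 2 * (M / r)) := by ring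
  have h0 : 0 < M / r := by positivity
  have h1 : t * (M / r) ≤ t ^ 2 * (M / r) := mul_le_mul_of_nonneg_right (by nlinarith) h0.le
  have h2 : 0 ≤ t * (M / r) := by positivity
  rw [e, e2]
  linarith

/-- The part of the kernel away from the stationary points. Apply `abel_log` on `[N, 2N]` with
`w n = if Far n then g n * c n else 0`, `c n = (ei (θ n) - 1)⁻¹`; `w N = w (2N) = 0`. By
`far_lower`, for far `n`: `‖c n‖ ≤ 5 + N / rho`, `‖c n‖ ≤ 5 + ∑_μ N / |n - ctr μ|` and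
`‖c n‖^2 ≤ 25 + ∑_μ N^2 / |n - ctr μ|^2`. If `n` and `n + 1` are both far,
`‖w (n+1) - w n‖ ≤ ‖c (n+1)‖ / l + |θ n - θ (n+1)| (‖c n‖^2 + ‖c (n+1)‖^2) / 2` with
`|θ n - θ (n+1)| ≤ 2 th / N`. If exactly one is far then `n` or `n + 1` is `ctr μ ± rho` for some
`μ` (at most `2 th` values of `n`) and the term is at most `5 + N / rho`. Use
`∑_{n ∈ [N,2N], n ≠ c} 1 / |n - c| ≤ 2 (2 + log N)` and `∑_{|j| > rho} 1 / j^2 ≤ 2 / rho`. -/
theorem kernel_far {th N rho : ℕ} {u l : ℝ} {g : ℝ → ℝ} (hth : 1000 ≤ th) (hN : 10 * th ≤ N)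
    (hrho : th + 4 ≤ rho) (hu1 : (N : ℝ) ≤ u) (hu2 : u ≤ th * N) (hl : 0 < l) (hg : Cut N l g) :
    ‖∑ n ∈ (Icc N (2 * N)).filter (Far th rho u), (g n : ℂ) * ei (u * Real.log n)‖
      ≤ 200 * th + 10 * th ^ 2 * N / rho + (10 * N + 2 * th * N * (2 + Real.log N)) / l := by
  have hM : (0 : ℝ) < N := by exact_mod_cast (by omega : 0 < N)
  have hr : (0 : ℝ) < rho := by exact_mod_cast (by omega : 0 < rho)
  have ht : (1 : ℝ) ≤ th := by exact_mod_cast (by omega : 1 ≤ th)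
  have h := abel_log u (a := N) (b := 2 * N) (by omega) (by omega)
    (fun n => if Far th rho u n then (g n : ℂ) * kernfarC u n else 0)
  have e : ∑ n ∈ (Icc N (2 * N)).filter (Far th rho u), (g n : ℂ) * ei (u * Real.log n) =
      ∑ n ∈ Icc N (2 * N), (if Far th rho u n then (g n : ℂ) * kernfarC u n else 0) *
        (ei (u * Real.log (1 + 1 / (n : ℝ))) - 1) * ei (u * Real.log n) := by
    rw [sum_filter]
    refine sum_congr rfl fun n hn => ?_
    split_ifs with hf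
    · rw [mul_assoc (g n : ℂ), kernfarC,
        inv_mul_cancel₀ (kernfar_point hth hN hrho hu1 hu2 hn hf).1, mul_one]
    · simp
  rw [e]
  refine h.trans ?_
  have g0 : g (N : ℝ) = 0 := hg.left _ le_rfl
  have g1 : g ((2 * N : ℕ) : ℝ) = 0 := hg.right _ (by push_cast; exact le_rfl)
  simp only [g0, g1, Complex.ofReal_zero, zero_mul, ite_self, norm_zero, zero_add]
  refine (sum_le_sum fun n hn => kernfar_step hth hN hrho hu1 hu2 hl hg hn).trans ?_
  have s1 := kernfar_sumA hth hN hrho hu1 hu2 0 (B := 2 * (2 + Real.log N)) fun c => by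
    simpa using kernfar_sum1 (rho := rho) (by omega : 1 ≤ N) c
  have s2 := kernfar_sumA hth hN hrho hu1 hu2 1 (B := 2 / rho) fun c =>
    kernfar_sum2 (by omega) c
  have sh : ∀ p : ℕ, ∑ n ∈ Ico N (2 * N), kernfarA th rho u (n + 1) ^ p ≤
      ∑ n ∈ Icc N (2 * N), kernfarA th rho u n ^ p := by
    intro p
    rw [sum_Ico_add' (fun n => kernfarA th rho u n ^ p) N (2 * N) 1]
    refine sum_le_sum_of_subset_of_nonneg (fun n hn => ?_) fun n _ _ =>
      pow_nonneg (kernfarA_nonneg _ _ _ _) _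
    rw [mem_Ico] at hn
    rw [mem_Icc]
    omega
  have s3 : ∑ n ∈ Ico N (2 * N), kernfarA th rho u n ^ 2 ≤
      ∑ n ∈ Icc N (2 * N), kernfarA th rho u n ^ 2 :=
    sum_le_sum_of_subset_of_nonneg Ico_subset_Icc_self fun n _ _ => sq_nonneg _
  have s4 := sh 1
  have s5 := sh 2
  simp only [zero_add, pow_one, one_add_one_eq_two] at s1 s2 s4
  rw [sum_add_distrib, sum_add_distrib, ← sum_div, ← mul_sum, sum_add_distrib, ← sum_filter,
    sum_const, nsmul_eq_mul]
  have c1 : (((Ico N (2 * N)).filter (fun n : ℕ => (n : ℤ) ∈ kernfarB th rho u)).card : ℝ) ≤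
      2 * th := by exact_mod_cast kernfar_count th rho N u
  have b1 : (∑ n ∈ Ico N (2 * N), kernfarA th rho u (n + 1)) / l ≤
      (10 * N + 2 * th * N * (2 + Real.log N)) / l :=
    div_le_div_of_nonneg_right (by linarith) hl.le
  have b2 := mul_le_mul_of_nonneg_left (show ∑ n ∈ Ico N (2 * N), kernfarA th rho u n ^ 2 +
    ∑ n ∈ Ico N (2 * N), kernfarA th rho u (n + 1) ^ 2 ≤
      2 * (5 ^ 2 * (2 * N) + th * (N ^ 2 * (2 / rho))) by linarith)
    (by positivity : (0 : ℝ) ≤ th / N)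
  have b3 := mul_le_mul_of_nonneg_right c1 (by positivity : (0 : ℝ) ≤ 5 + (N : ℝ) / rho)
  have b4 := kernfar_final ht hM hr
  linarith

end Pool.Agent.Lib.MP_ecd12e_nt.Bar
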