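import Pool.Agent.Lib.MP_ecd12e_nt.Bar.KernFar

set_option autoImplicit false

namespace Pool.Agent.Lib.MP_ecd12e_nt.Bar

open Finset Real
open scoped Pointwise

theorem kernel_log {v : ℝ} (hv : |v| ≤ 1 / 2) :
    |Real.log (1 + v) - v + v ^ 2 / 2| ≤ 2 * |v| ^ 3 := by
  have h := Real.abs_log_sub_add_sum_range_le (x := -v) (by rw [abs_neg]; linarith) 2
  simp only [sum_range_succ, range_zero, sum_empty, abs_neg, sub_neg_eq_add] at h
  have e : Real.log (1 + v) - v + v ^ 2 / 2 =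
      0 + (-v) ^ (0 + 1) / ((0 : ℕ) + 1) + (-v) ^ (1 + 1) / ((1 : ℕ) + 1) + Real.log (1 + v) := by
    push_cast
    ring
  rw [e]
  refine h.trans ?_
  rw [div_le_iff₀ (by linarith)]
  have : 0 ≤ |v| ^ 3 := by positivity
  have h2 := mul_nonneg this (show 0 ≤ 1 / 2 - |v| by linarith)
  change |v| ^ 3 ≤ _
  nlinarith

theorem kernel_phase {T N R m u x z j : ℝ} (hN : 4 * R ≤ N) (hR : 1 ≤ R) (hu2 : u ≤ T * N)
    (hm0 : 0 < m) (hm : m ≤ T) (hu : u = 2 * π * m * x) (hx : N < x) (hj : |j| ≤ R)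
    (hz : |z - j| ≤ 1) :
    |u * Real.log (x + z) - 2 * π * m * (x + z) -
      (u * Real.log x - u + -(2 * π ^ 2 * m ^ 2 * j ^ 2 / u))| ≤
      16 * T * R ^ 3 / N ^ 2 + 10 * T * R / N := by
  have hN0 : 0 < N := by linarith
  have hx0 : 0 < x := by linarith
  have hu0 : 0 < u := by rw [hu]; positivity
  have hT : 0 < T := by linarith
  have hz' : |z| ≤ 2 * R := by
    have := abs_add_le (z - j) j
    rw [sub_add_cancel] at this
    linarith
  have hv : |z / x| ≤ 2 * R / N := by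
    rw [abs_div, abs_of_pos hx0]
    gcongr
  have hv' : |z / x| ≤ 1 / 2 := hv.trans (by rw [div_le_iff₀ hN0]; linarith)
  have h1 : 0 < 1 + z / x := by linarith [(abs_le.1 hv').1]
  have e1 : Real.log (x + z) = Real.log x + Real.log (1 + z / x) := by
    rw [← Real.log_mul hx0.ne' h1.ne']
    congr 1
    field_simp
  have e2 : u * Real.log (x + z) - 2 * π * m * (x + z) -
      (u * Real.log x - u + -(2 * π ^ 2 * m ^ 2 * j ^ 2 / u)) =
      u * (Real.log (1 + z / x) - z / x + (z / x) ^ 2 / 2) + π * m / x * ((j - z) * (j + z)) := by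
    rw [e1, hu]
    field_simp
    ring
  have h2 : |u * (Real.log (1 + z / x) - z / x + (z / x) ^ 2 / 2)| ≤ 16 * T * R ^ 3 / N ^ 2 := by
    rw [abs_mul, abs_of_pos hu0]
    calc _ ≤ T * N * (2 * (2 * R / N) ^ 3) :=
          mul_le_mul hu2 ((kernel_log hv').trans (by gcongr)) (abs_nonneg _) (by positivity)
      _ = _ := by field_simp; ring
  have h3 : |π * m / x * ((j - z) * (j + z))| ≤ 10 * T * R / N := by
    rw [abs_mul, abs_mul, abs_of_pos (by positivity : 0 < π * m / x), abs_sub_comm]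
    have a1 : |j + z| ≤ 3 * R := (abs_add_le _ _).trans (by linarith)
    have a2 : π ≤ 10 / 3 := by linarith [Real.pi_lt_d2]
    calc _ ≤ 10 / 3 * T / N * (1 * (3 * R)) := by gcongr
      _ = _ := by ring
  rw [e2]
  exact (abs_add_le _ _).trans (add_le_add h2 h3)

theorem kernel_unique {th N rho mu mu' : ℕ} {u : ℝ} {n : ℤ} (hN : 8 * th * rho ≤ N)
    (hrho : 1 ≤ rho) (hn : (N : ℤ) ≤ n) (hmu : mu ∈ Icc 1 th) (hmu' : mu' ∈ Icc 1 th)
    (hlt : mu < mu') (h1 : |n - ctr u mu| ≤ rho) (h2 : |n - ctr u mu'| ≤ rho) : False := by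
  rw [mem_Icc] at hmu hmu'
  have m1 : (1 : ℝ) ≤ mu := by exact_mod_cast hmu.1
  have m2 : (mu : ℝ) + 1 ≤ mu' := by exact_mod_cast hlt
  have m3 : (mu' : ℝ) ≤ th := by exact_mod_cast hmu'.2
  have r1 : (1 : ℝ) ≤ rho := by exact_mod_cast hrho
  have n1 : 8 * (th : ℝ) * rho ≤ N := by exact_mod_cast hN
  have n2 : (N : ℝ) ≤ n := by exact_mod_cast hn
  have a1 : u / (2 * π * mu) < ctr u mu + 1 := Int.lt_floor_add_one _
  have a2 : (ctr u mu' : ℝ) ≤ u / (2 * π * mu') := Int.floor_le _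
  have b1 : (ctr u mu : ℝ) ≤ n + rho := by
    have : ctr u mu ≤ n + rho := by have := (abs_le.1 h1).1; omega
    exact_mod_cast this
  have b2 : (n : ℝ) - rho ≤ ctr u mu' := by
    have : n - rho ≤ ctr u mu' := by have := (abs_le.1 h2).2; omega
    exact_mod_cast this
  have e : u / (2 * π * mu) * mu = u / (2 * π * mu') * mu' := by
    have : (mu : ℝ) ≠ 0 := by linarith
    have : (mu' : ℝ) ≠ 0 := by linarith
    field_simp
  generalize u / (2 * π * mu) = a at *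
  generalize u / (2 * π * mu') = b at *
  have t1 : (rho : ℝ) ≤ th * rho := by nlinarith
  have c1 : 7 * (th * rho : ℝ) ≤ b := by linarith
  have c2 : a - b ≤ 3 * rho := by linarith
  have c3 : (a - b) * mu ≤ 3 * rho * th := mul_le_mul c2 (by linarith) (by linarith) (by linarith)
  have c4 : b * (mu + 1) ≤ b * mu' := mul_le_mul_of_nonneg_left m2 (by linarith)
  nlinarith

theorem kernel_num {T P N l L : ℝ} (hT : 1000 ≤ T) (hP : 1 ≤ P) (hN1 : P ^ 2 * T ^ 60 ≤ N)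
    (hN2 : N ≤ 2 * (P ^ 2 * T ^ 60)) (hl : P * T ^ 41 ≤ l) (hL : L ≤ T) :
    200 * T + 10 * T ^ 2 * N / (P * T ^ 34) + (10 * N + 2 * T * N * L) / l +
      T * ((2 * (P * T ^ 34) + 1) * (2 * (P * T ^ 34) / l + 16 * T * (P * T ^ 34) ^ 3 / N ^ 2 +
        10 * T * (P * T ^ 34) / N)) ≤ P * T ^ 29 := by
  have hT0 : 0 < T := by linarith
  have hT1 : 1 ≤ T := by linarith
  have hP0 : 0 < P := by linarith
  have hN0 : 0 < N := lt_of_lt_of_le (by positivity) hN1
  have pw : ∀ a b : ℕ, a ≤ b → T ^ a ≤ T ^ b := fun a b h => pow_le_pow_right₀ hT1 h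
  have up : ∀ a : ℕ, a ≤ 28 → T ^ a ≤ P * T ^ 28 := fun a h =>
    (pw a 28 h).trans (le_mul_of_one_le_left (by positivity) hP)
  have h1 : 200 * T ≤ P * T ^ 28 := le_trans (by nlinarith) (up 2 (by norm_num))
  have h2 : 10 * T ^ 2 * N / (P * T ^ 34) ≤ 20 * (P * T ^ 28) := by
    calc _ ≤ 10 * T ^ 2 * (2 * (P ^ 2 * T ^ 60)) / (P * T ^ 34) := by gcongr
      _ = _ := by field_simp; ring
  have h3 : (10 * N + 2 * T * N * L) / l ≤ 6 * (P * T ^ 28) := by
    have a1 : 10 * N + 2 * T * N * L ≤ 3 * T ^ 2 * N := by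
      have : 10 * N ≤ T ^ 2 * N := by gcongr; nlinarith
      have : 2 * T * N * L ≤ 2 * T * N * T := by gcongr
      nlinarith
    calc _ ≤ 3 * T ^ 2 * (2 * (P ^ 2 * T ^ 60)) / (P * T ^ 41) := by
          gcongr
          exact a1.trans (by gcongr)
      _ = 6 * (P * T ^ 21) := by field_simp; ring
      _ ≤ _ := by gcongr; norm_num
  have h4 : 2 * (P * T ^ 34) + 1 ≤ 3 * (P * T ^ 34) := by
    have : 1 ≤ P * T ^ 34 := one_le_mul_of_one_le_of_one_le hP (one_le_pow₀ hT1)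
    linarith
  have h5 : 2 * (P * T ^ 34) / l ≤ 2 / T ^ 7 := by
    calc _ ≤ 2 * (P * T ^ 34) / (P * T ^ 41) := by gcongr
      _ = _ := by field_simp
  have h6 : 16 * T * (P * T ^ 34) ^ 3 / N ^ 2 ≤ 16 / T ^ 7 := by
    calc _ ≤ 16 * T * (P * T ^ 34) ^ 3 / (P ^ 2 * T ^ 60) ^ 2 := by gcongr
      _ = 16 / (P * T ^ 17) := by field_simp
      _ ≤ 16 / (1 * T ^ 7) := by gcongr; norm_num
      _ = _ := by rw [one_mul]
  have h7 : 10 * T * (P * T ^ 34) / N ≤ 10 / T ^ 7 := by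
    calc _ ≤ 10 * T * (P * T ^ 34) / (P ^ 2 * T ^ 60) := by gcongr
      _ = 10 / (P * T ^ 25) := by field_simp
      _ ≤ 10 / (1 * T ^ 7) := by gcongr; norm_num
      _ = _ := by rw [one_mul]
  have hl0 : 0 < l := lt_of_lt_of_le (by positivity) hl
  have h8 : T * ((2 * (P * T ^ 34) + 1) * (2 * (P * T ^ 34) / l + 16 * T * (P * T ^ 34) ^ 3 / N ^ 2 +
      10 * T * (P * T ^ 34) / N)) ≤ 84 * (P * T ^ 28) := by
    calc _ ≤ T * (3 * (P * T ^ 34) * (2 / T ^ 7 + 16 / T ^ 7 + 10 / T ^ 7)) := by gcongr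
      _ = _ := by field_simp; ring
  have h9 : 111 * (P * T ^ 28) ≤ P * T ^ 29 := by
    calc _ ≤ T * (P * T ^ 28) := by gcongr; linarith
      _ = _ := by ring
  linarith

theorem kernel_left {N : ℕ} {l : ℝ} {g : ℝ → ℝ} (hg : Cut N l g) {c : ℤ} (h0 : 0 ≤ c)
    (h1 : c ≤ N) : g c = 0 := by
  obtain ⟨n, rfl⟩ := Int.eq_ofNat_of_zero_le h0
  rw [Int.cast_natCast]
  exact hg.left n (by exact_mod_cast h1)

/-- One term near a stationary point. Let `x = u / (2π μ)`, `n = ctr + j`, `z = n - x`, so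
`|z - j| < 1`. The difference is at most `|g n - g x| + g x * |phase difference|`; if `g x ≠ 0`
then `N < x < 2N`. With `v = z / x`, `|v| ≤ 1/2`:
`u log n - 2πμ n = (u log x - u) + u (log (1 + v) - v)`, `ei (2πμ n) = 1` (`ei_two_pi_int`),
`|log (1 + v) - v + v^2 / 2| ≤ 2 |v|^3` (`Real.abs_log_sub_add_sum_range_le`),
`u v^2 / 2 = π μ z^2 / x`, `π μ j^2 / x = 2 π^2 μ^2 j^2 / u`, `|z^2 - j^2| ≤ 2 rho + 1`. -/
theorem core_term {th N rho mu : ℕ} {u l : ℝ} {g : ℝ → ℝ} (hN : 4 * rho ≤ N) (hrho : 1 ≤ rho)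
    (hu1 : (N : ℝ) ≤ u) (hu2 : u ≤ th * N) (hl : 0 < l) (hg : Cut N l g) (hmu : mu ∈ Icc 1 th)
    {j : ℤ} (hj : |j| ≤ rho) :
    ‖(g ((ctr u mu + j : ℤ) : ℝ) : ℂ) * ei (u * Real.log ((ctr u mu + j : ℤ) : ℝ)) -
      (g (u / (2 * π * mu)) : ℂ) * ei (u * Real.log (u / (2 * π * mu)) - u) *
        ei (-(2 * π ^ 2 * (mu : ℝ) ^ 2 * (j : ℝ) ^ 2 / u))‖
      ≤ 2 * rho / l + 16 * th * rho ^ 3 / N ^ 2 + 10 * th * rho / N := by
  rw [mem_Icc] at hmu
  have m1 : (1 : ℝ) ≤ mu := by exact_mod_cast hmu.1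
  have m2 : (mu : ℝ) ≤ th := by exact_mod_cast hmu.2
  have r1 : (1 : ℝ) ≤ rho := by exact_mod_cast hrho
  have n1 : 4 * (rho : ℝ) ≤ N := by exact_mod_cast hN
  have j1 : |(j : ℝ)| ≤ rho := by exact_mod_cast hj
  set x := u / (2 * π * mu) with hx
  obtain ⟨z, hz⟩ : ∃ z, ((ctr u mu + j : ℤ) : ℝ) = x + z := ⟨_, (add_sub_cancel _ _).symm⟩
  have hzj : |z - j| ≤ 1 := by
    have a1 : x < ctr u mu + 1 := Int.lt_floor_add_one _
    have a2 : (ctr u mu : ℝ) ≤ x := Int.floor_le _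
    push_cast at hz
    rw [abs_le]
    constructor <;> linarith
  rcases le_or_gt x N with hxN | hxN
  · have hx0 : 0 ≤ x := by
      have : (0 : ℝ) ≤ u := by linarith
      positivity
    have a1 : x < ctr u mu + 1 := Int.lt_floor_add_one _
    have a2 : (ctr u mu : ℝ) ≤ x := Int.floor_le _
    have hc : g (ctr u mu) = 0 :=
      kernel_left hg (Int.floor_nonneg.2 hx0) (by exact_mod_cast a2.trans hxN)
    have b1 := hg.lip ((ctr u mu + j : ℤ) : ℝ) (ctr u mu)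
    have b2 := hg.lip x (ctr u mu)
    rw [hc, sub_zero] at b1 b2
    rw [Int.cast_add (ctr u mu) j, add_sub_cancel_left, ← Int.cast_add] at b1
    rw [abs_of_nonneg (sub_nonneg.2 a2)] at b2
    refine (norm_sub_le _ _).trans ?_
    simp only [norm_mul, norm_ei, mul_one, Complex.norm_real, Real.norm_eq_abs]
    have b3 : |g ((ctr u mu + j : ℤ) : ℝ)| + |g x| ≤ 2 * rho / l := by
      rw [le_div_iff₀ hl]
      linarith
    have b4 : (0 : ℝ) ≤ 16 * th * rho ^ 3 / N ^ 2 + 10 * th * rho / N := by positivity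
    linarith
  have h1 : |g (x + z) - g x| ≤ 2 * rho / l := by
    rw [le_div_iff₀ hl]
    refine (hg.lip _ _).trans ?_
    have := abs_add_le (z - j) j
    rw [sub_add_cancel] at this
    rw [add_sub_cancel_left]
    linarith
  have e0 : ei (u * Real.log (x + z)) = ei (u * Real.log (x + z) - 2 * π * mu * (x + z)) := by
    have := ei_two_pi_int (mu * (ctr u mu + j))
    rw [Int.cast_mul, hz, Int.cast_natCast, ← mul_assoc] at this
    rw [← mul_one (ei (_ - _)), ← this, ← ei_add, sub_add_cancel]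
  rw [hz, e0, mul_assoc ((g x : ℝ) : ℂ), ← ei_add]
  set A := ei (u * Real.log (x + z) - 2 * π * mu * (x + z)) with hA
  set B := ei (u * Real.log x - u + -(2 * π ^ 2 * (mu : ℝ) ^ 2 * (j : ℝ) ^ 2 / u)) with hB
  have e1 : (g (x + z) : ℂ) * A - g x * B = ((g (x + z) - g x : ℝ) : ℂ) * A + g x * (A - B) := by
    push_cast
    ring
  have h2 : ‖(g x : ℂ) * (A - B)‖ ≤ 16 * th * rho ^ 3 / N ^ 2 + 10 * th * rho / N := by
    rw [norm_mul, Complex.norm_real, Real.norm_eq_abs, abs_of_nonneg (hg.nonneg x)]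
    refine (mul_le_of_le_one_left (norm_nonneg _) (hg.le_one x)).trans ?_
    refine (norm_ei_sub_ei_le _ _).trans
      (kernel_phase n1 r1 hu2 (by linarith) m2 ?_ hxN j1 hzj)
    have : (mu : ℝ) ≠ 0 := by linarith
    rw [hx]
    field_simp
  rw [e1, add_assoc]
  refine (norm_add_le _ _).trans (add_le_add ?_ h2)
  rw [norm_mul, hA, norm_ei, mul_one, Complex.norm_real, Real.norm_eq_abs]
  exact h1

/-- The cores are disjoint where `g` does not vanish: for `N < n < 2N` within `rho` of `ctr μ` and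
`ctr μ'`, `μ < μ'`, one has `x μ - x μ' ≥ x μ / μ' ≥ (N - rho) / th > 2 rho + 1`. So the sum
over the `n` that are not far is the sum over `μ` of the sums over the cores; the terms of a core
outside `[N, 2N]` vanish (reindex `n = ctr μ + j`). -/
theorem sum_not_far {th N rho : ℕ} {u l : ℝ} {g : ℝ → ℝ} (hN : 8 * th * rho ≤ N) (hrho : 1 ≤ rho)
    (hu1 : (N : ℝ) ≤ u) (hg : Cut N l g) :
    ∑ n ∈ (Icc N (2 * N)).filter (fun n => ¬ Far th rho u n), (g n : ℂ) * ei (u * Real.log n) =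
      ∑ mu ∈ Icc 1 th, ∑ j ∈ Icc (-(rho : ℤ)) rho,
        (g ((ctr u mu + j : ℤ) : ℝ) : ℂ) * ei (u * Real.log ((ctr u mu + j : ℤ) : ℝ)) := by
  have hctr : ∀ mu ∈ Icc 1 th, (rho : ℤ) ≤ ctr u mu := by
    intro mu hmu
    rw [mem_Icc] at hmu
    have m1 : (1 : ℝ) ≤ mu := by exact_mod_cast hmu.1
    have m2 : (mu : ℝ) ≤ th := by exact_mod_cast hmu.2
    have n1 : 8 * (th : ℝ) * rho ≤ N := by exact_mod_cast hN
    refine Int.le_floor.2 ?_
    rw [le_div_iff₀ (by positivity), Int.cast_natCast]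
    have a2 : π ≤ 4 := Real.pi_le_four
    calc (rho : ℝ) * (2 * π * mu) ≤ rho * (2 * 4 * th) := by gcongr
      _ ≤ u := by linarith
  have hcore : ∀ c : ℤ, (rho : ℤ) ≤ c → ∑ j ∈ Icc (-(rho : ℤ)) rho,
      (g ((c + j : ℤ) : ℝ) : ℂ) * ei (u * Real.log ((c + j : ℤ) : ℝ)) =
      ∑ n ∈ Icc N (2 * N), if |(n : ℤ) - c| ≤ rho then (g n : ℂ) * ei (u * Real.log n) else 0 := by
    intro c hc
    rw [← sum_filter]
    symm
    refine sum_bij_ne_zero (fun n _ _ => (n : ℤ) - c) ?_ ?_ ?_ ?_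
    · intro n hn _
      exact mem_Icc.2 (abs_le.1 (mem_filter.1 hn).2)
    · intro n _ _ n' _ _ h
      omega
    · intro j hj h
      have h0 : g ((c + j : ℤ) : ℝ) ≠ 0 := fun h0 => h (by rw [h0]; simp)
      have h2 : ((c + j : ℤ) : ℝ) < 2 * N := not_le.1 fun h => h0 (hg.right ((c + j : ℤ) : ℝ) h)
      rw [mem_Icc] at hj
      have h3 : (N : ℤ) < c + j := not_le.1 fun h => h0 (kernel_left hg (by omega) h)
      have h4 : c + j < 2 * N := by exact_mod_cast h2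
      obtain ⟨n, hn⟩ : ∃ n : ℕ, c + j = n := ⟨(c + j).toNat, by omega⟩
      refine ⟨n, mem_filter.2 ⟨mem_Icc.2 (by omega), abs_le.2 (by omega)⟩, ?_, by omega⟩
      rwa [hn, Int.cast_natCast] at h
    · intro n _ _
      rw [add_sub_cancel, Int.cast_natCast]
  rw [sum_congr rfl fun mu hmu => hcore _ (hctr mu hmu), sum_comm, sum_filter]
  refine sum_congr rfl fun n hn => ?_
  by_cases hf : Far th rho u n
  · rw [if_neg (not_not.2 hf)]
    exact (sum_eq_zero fun mu hmu => if_neg (not_le.2 (hf mu hmu))).symm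
  · rw [if_pos hf]
    unfold Far at hf
    push Not at hf
    obtain ⟨mu, hmu, h⟩ := hf
    have hn' : (N : ℤ) ≤ n := by exact_mod_cast (mem_Icc.1 hn).1
    rw [sum_eq_single_of_mem mu hmu, if_pos h]
    intro mu' hmu' hne
    refine if_neg fun h' => ?_
    rcases lt_or_gt_of_ne hne with hlt | hlt
    · exact kernel_unique hN hrho hn' hmu' hmu hlt h' h
    · exact kernel_unique hN hrho hn' hmu hmu' hlt h h'

/-- The kernel is a sum over the stationary points. Split into far and not far, use `kernel_far`,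
`sum_not_far`, `core_term` with `rho = th ^ (k + 4)`, and `2 + log N ≤ th` (from `Big`); the errors
are at most `30 th ^ (k - 2)` and `9 th ^ (k - 2)`. -/
theorem kernel {th k N : ℕ} {u l : ℝ} {g : ℝ → ℝ} (hb : Big th (2 * k)) (hk : 30 ≤ k)
    (hN1 : th ^ (2 * k) ≤ N) (hN2 : N ≤ 2 * th ^ (2 * k)) (hu1 : (N : ℝ) ≤ u) (hu2 : u ≤ th * N)
    (hl : (th : ℝ) ^ (k + 11) ≤ l) (hg : Cut N l g) :
    ‖∑ n ∈ Icc N (2 * N), (g n : ℂ) * ei (u * Real.log n) -
      ∑ mu ∈ Icc 1 th, (g (u / (2 * π * mu)) : ℂ) * ei (u * Real.log (u / (2 * π * mu)) - u) *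
        gauss (th ^ (k + 4)) mu u‖ ≤ (th : ℝ) ^ (k - 1) := by
  obtain ⟨k', rfl⟩ := Nat.exists_eq_add_of_le' hk
  have hth := hb.h1000
  have hT : (1000 : ℝ) ≤ th := by exact_mod_cast hth
  have pw : ∀ a b : ℕ, a ≤ b → th ^ a ≤ th ^ b := fun a b h => Nat.pow_le_pow_right (by omega) h
  set rho := th ^ (k' + 30 + 4) with hrho
  have hr1 : 1 ≤ rho := Nat.one_le_pow _ _ (by omega)
  have hr2 : th + 4 ≤ rho := le_trans (by nlinarith) (pw 2 _ (by omega))
  have hr3 : 8 * th * rho ≤ N := by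
    refine le_trans ?_ hN1
    calc 8 * th * rho ≤ th * th * rho := by gcongr; omega
      _ = th ^ (k' + 30 + 4 + 2) := by rw [hrho]; ring
      _ ≤ _ := pw _ _ (by omega)
  have hr4 : 10 * th ≤ N := le_trans (by nlinarith) hr3
  have hr5 : 4 * rho ≤ N := le_trans (by nlinarith) hr3
  have hN0 : (0 : ℝ) < N := by exact_mod_cast (by omega : 0 < N)
  have hl0 : 0 < l := lt_of_lt_of_le (by positivity) hl
  have hN1' : ((th : ℝ) ^ k') ^ 2 * th ^ 60 ≤ N := by
    have : ((th ^ (2 * (k' + 30)) : ℕ) : ℝ) ≤ N := by exact_mod_cast hN1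
    refine le_of_eq_of_le ?_ this
    push_cast
    ring
  have hN2' : (N : ℝ) ≤ 2 * (((th : ℝ) ^ k') ^ 2 * th ^ 60) := by
    have : (N : ℝ) ≤ ((2 * th ^ (2 * (k' + 30)) : ℕ) : ℝ) := by exact_mod_cast hN2
    refine this.trans_eq ?_
    push_cast
    ring
  have hL : 2 + Real.log N ≤ th := by
    have a1 : Real.log N ≤ Real.log (2 * (th : ℝ) ^ (2 * (k' + 30))) :=
      Real.log_le_log hN0 (by exact_mod_cast hN2)
    rw [Real.log_mul (by norm_num) (by positivity), Real.log_pow] at a1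
    have a2 := hb.hlog
    have a3 := Real.log_two_lt_d9
    linarith
  have hR : (rho : ℝ) = (th : ℝ) ^ k' * th ^ 34 := by
    rw [hrho]
    push_cast
    ring
  have num := kernel_num hT (one_le_pow₀ (by linarith) : (1 : ℝ) ≤ th ^ k') hN1' hN2'
    (l := l) (le_of_eq_of_le (by ring) hl) hL
  rw [← hR] at num
  have far := kernel_far hth hr4 hr2 hu1 hu2 hl0 hg
  have near : ‖∑ mu ∈ Icc 1 th, ∑ j ∈ Icc (-(rho : ℤ)) rho,
      ((g ((ctr u mu + j : ℤ) : ℝ) : ℂ) * ei (u * Real.log ((ctr u mu + j : ℤ) : ℝ)) -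
      (g (u / (2 * π * mu)) : ℂ) * ei (u * Real.log (u / (2 * π * mu)) - u) *
        ei (-(2 * π ^ 2 * (mu : ℝ) ^ 2 * (j : ℝ) ^ 2 / u)))‖ ≤
      th * ((2 * rho + 1) * (2 * rho / l + 16 * th * rho ^ 3 / N ^ 2 + 10 * th * rho / N)) := by
    refine (norm_sum_le_of_le _ fun mu hmu => norm_sum_le_of_le _ fun j hj =>
      core_term hr5 hr1 hu1 hu2 hl0 hg hmu (abs_le.2 (mem_Icc.1 hj))).trans_eq ?_
    have : (Icc (-(rho : ℤ)) rho).card = 2 * rho + 1 := by
      rw [Int.card_Icc]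
      omega
    simp only [sum_const, this, Nat.card_Icc, nsmul_eq_mul]
    push_cast
    ring
  rw [← sum_filter_add_sum_filter_not _ (Far th rho u), sum_not_far hr3 hr1 hu1 hg,
    add_sub_assoc]
  simp only [gauss, mul_sum, ← sum_sub_distrib]
  refine (norm_add_le _ _).trans ((add_le_add far near).trans (num.trans_eq ?_))
  rw [show k' + 30 - 1 = k' + 29 by omega]
  ring

end Pool.Agent.Lib.MP_ecd12e_nt.Bar
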