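import Pool.Agent.Lib.MP_ecd12e_nt.Bar.FarBlocks
import Pool.Agent.Lib.MP_ecd12e_nt.Bar.Bilinear

set_option autoImplicit false

namespace Pool.Agent.Lib.MP_ecd12e_nt.Bar

open Finset Real
open scoped Pointwise

theorem l1_near (th : ℕ) {E : ℕ → ℝ} (hE : ∀ j, 0 ≤ E j) :
    ∑ j ∈ range th, ∑ j' ∈ range th,
      (if j ≤ j' + 2 ∧ j' ≤ j + 2 then (E j + E j') / 2 else 0) ≤ 5 * ∑ j ∈ range th, E j := by
  have key : ∀ j, ∑ j' ∈ range th, (if j ≤ j' + 2 ∧ j' ≤ j + 2 then E j / 2 else 0) ≤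
      5 / 2 * E j := fun j => by
    rw [← Finset.sum_filter, Finset.sum_const, nsmul_eq_mul]
    have h1 : ((range th).filter fun j' => j ≤ j' + 2 ∧ j' ≤ j + 2).card ≤ 5 := by
      refine (Finset.card_le_card (t := Icc (j - 2) (j + 2)) fun x hx => ?_).trans ?_
      · have := (Finset.mem_filter.1 hx).2
        exact Finset.mem_Icc.2 (by omega)
      · rw [Nat.card_Icc]
        omega
    have h2 : (((range th).filter fun j' => j ≤ j' + 2 ∧ j' ≤ j + 2).card : ℝ) ≤ 5 := by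
      exact_mod_cast h1
    nlinarith [hE j]
  have e : ∀ j j', (if j ≤ j' + 2 ∧ j' ≤ j + 2 then (E j + E j') / 2 else 0) =
      (if j ≤ j' + 2 ∧ j' ≤ j + 2 then E j / 2 else 0) +
        (if j' ≤ j + 2 ∧ j ≤ j' + 2 then E j' / 2 else 0) := fun j j' => by
    by_cases h : j ≤ j' + 2 ∧ j' ≤ j + 2
    · rw [if_pos h, if_pos h, if_pos h.symm]
      ring
    · rw [if_neg h, if_neg h, if_neg fun h' => h h'.symm, add_zero]
  simp only [e, Finset.sum_add_distrib]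
  rw [Finset.sum_comm (f := fun j j' => if j' ≤ j + 2 ∧ j ≤ j' + 2 then E j' / 2 else 0)]
  have := Finset.sum_le_sum fun j (_ : j ∈ range th) => key j
  rw [← Finset.mul_sum] at this
  linarith

theorem l1_quad (I J : Finset ℕ) (g : ℕ → ℝ) (F : ℕ → ℕ → ℂ) :
    ∑ n ∈ I, g n * ‖∑ j ∈ J, F j n‖ ^ 2 ≤
      ∑ j ∈ J, ∑ j' ∈ J, ‖∑ n ∈ I, (g n : ℂ) * (F j n * (starRingEnd ℂ) (F j' n))‖ := by
  have e : ((∑ n ∈ I, g n * ‖∑ j ∈ J, F j n‖ ^ 2 : ℝ) : ℂ) =
      ∑ j ∈ J, ∑ j' ∈ J, ∑ n ∈ I, (g n : ℂ) * (F j n * (starRingEnd ℂ) (F j' n)) := by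
    push_cast
    simp only [← Complex.mul_conj', map_sum, Finset.sum_mul_sum]
    simp only [Finset.mul_sum]
    rw [Finset.sum_comm]
    exact Finset.sum_congr rfl fun j _ => Finset.sum_comm
  refine (le_abs_self _).trans ?_
  rw [← Real.norm_eq_abs, ← Complex.norm_real, e]
  exact (_root_.norm_sum_le _ _).trans (Finset.sum_le_sum fun j _ => _root_.norm_sum_le _ _)

theorem l1_pair (I : Finset ℕ) {g : ℕ → ℝ} (h0 : ∀ n, 0 ≤ g n) (h1 : ∀ n, g n ≤ 1)
    (a b : ℕ → ℂ) : ‖∑ n ∈ I, (g n : ℂ) * (a n * (starRingEnd ℂ) (b n))‖ ≤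
      (∑ n ∈ I, ‖a n‖ ^ 2 + ∑ n ∈ I, ‖b n‖ ^ 2) / 2 := by
  rw [← Finset.sum_add_distrib, Finset.sum_div]
  refine (_root_.norm_sum_le _ _).trans (Finset.sum_le_sum fun n _ => ?_)
  rw [norm_mul, norm_mul, Complex.norm_conj, Complex.norm_real, Real.norm_of_nonneg (h0 n)]
  have := mul_le_mul_of_nonneg_right (h1 n) (mul_nonneg (norm_nonneg (a n)) (norm_nonneg (b n)))
  nlinarith [sq_nonneg (‖a n‖ - ‖b n‖)]

theorem l1_swap (I : Finset ℕ) (g : ℕ → ℝ) (a b : ℕ → ℂ) :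
    ‖∑ n ∈ I, (g n : ℂ) * (a n * (starRingEnd ℂ) (b n))‖ =
      ‖∑ n ∈ I, (g n : ℂ) * (b n * (starRingEnd ℂ) (a n))‖ := by
  rw [← Complex.norm_conj, map_sum]
  refine congrArg _ (Finset.sum_congr rfl fun n _ => ?_)
  rw [map_mul, map_mul, Complex.conj_conj, Complex.conj_ofReal, mul_comm ((starRingEnd ℂ) (a n))]

theorem l1_split (I : Finset ℕ) {g f : ℕ → ℝ} (h0 : ∀ n, 0 ≤ g n) :
    (∑ n ∈ I, f n) ^ 2 ≤ 2 * ((I.filter fun n => g n < 1).card * ∑ n ∈ I, f n ^ 2 +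
      I.card * ∑ n ∈ I, g n * f n ^ 2) := by
  rw [← Finset.sum_filter_add_sum_filter_not I fun n => g n < 1]
  have a1 := (sq_sum_le_card_mul_sum_sq (s := I.filter fun n => g n < 1) (f := f)).trans
    (mul_le_mul_of_nonneg_left (Finset.sum_le_sum_of_subset_of_nonneg (Finset.filter_subset _ I)
      fun n _ _ => sq_nonneg (f n)) (Nat.cast_nonneg _))
  have a2 : ∑ n ∈ I.filter fun n => ¬ g n < 1, f n ^ 2 ≤ ∑ n ∈ I, g n * f n ^ 2 :=
    (Finset.sum_le_sum fun n hn => le_mul_of_one_le_left (sq_nonneg _)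
      (not_lt.1 (Finset.mem_filter.1 hn).2)).trans (Finset.sum_le_sum_of_subset_of_nonneg
        (Finset.filter_subset _ I) fun n _ _ => mul_nonneg (h0 n) (sq_nonneg _))
  have a3 := (sq_sum_le_card_mul_sum_sq (s := I.filter fun n => ¬ g n < 1) (f := f)).trans
    (mul_le_mul (Nat.cast_le.2 (Finset.card_filter_le _ _)) a2
      (Finset.sum_nonneg fun n _ => sq_nonneg _) (Nat.cast_nonneg _))
  nlinarith [sq_nonneg (∑ n ∈ I.filter fun n => g n < 1, f n -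
    ∑ n ∈ I.filter fun n => ¬ g n < 1, f n)]

theorem l1_cell {q t s : ℕ} (hq : 0 < q) (h : t / q = s / q) : |(t : ℝ) - s| ≤ q := by
  have h1 := Nat.div_add_mod t q
  have h2 := Nat.div_add_mod s q
  have h3 := Nat.mod_lt t hq
  have h4 := Nat.mod_lt s hq
  rw [h] at h1
  have h5 : t ≤ s + q := by omega
  have h6 : s ≤ t + q := by omega
  have h7 : (t : ℝ) ≤ s + q := by exact_mod_cast h5
  have h8 : (s : ℝ) ≤ t + q := by exact_mod_cast h6
  exact abs_le.2 ⟨by linarith, by linarith⟩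

/-- The `l^1` bound. Take `k, X` from `bilinear` and `g` from `exists_cut` with
`l = th ^ (X + 21)`. Let `F j` be the sum over the block `j < th`, `F = ∑ F j`,
`M = 200 |W| N (1 + log N) ≥ ∑_j ∑_n ‖F j n‖^2` (`mean_value`). The set `g < 1` has at most
`7 N / th` points and `∑_n ‖F n‖^2 ≤ th M`, so it contributes at most `√(7 N M)`. On `g = 1`:
`(∑ ‖F n‖)^2 ≤ 2N ∑ g ‖F‖^2`, `∑ g ‖F‖^2 = ∑_{j,j'} ∑ g F j conj (F j')`; the pairs with
`|j - j'| ≤ 2` give at most `5 M` (`2 |a||b| ≤ |a|^2 + |b|^2`), the others at most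
`|W|^2 th^(k-1) + 3 |W| th^(2k-1) ≤ 2 |W| N` by `far_blocks` (and conjugation). -/
theorem l1_bound : ∃ k : ℕ, 1 ≤ k ∧ ∀ (th N : ℕ) (al : ℕ → ℕ) (W : Finset ℕ) (η : ℕ → ℂ),
    Big th (2 * k) → th ^ (2 * k) ≤ N → N ≤ 2 * th ^ (2 * k) → Unif th (2 * k) al W →
    (∀ t ∈ W, t < th ^ (2 * k + 1)) → W.card ≤ th ^ (k + 1) → (∀ t, ‖η t‖ ≤ 1) →
    (∑ n ∈ Icc N (2 * N), ‖∑ t ∈ W, η t * ei (t * Real.log n)‖) ^ 2
      ≤ 10000 * W.card * (N : ℝ) ^ 2 * (1 + Real.log N) := by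
  obtain ⟨k, X, hk, hkX, hX, hB⟩ := bilinear
  refine ⟨k, by omega, fun th N al W η hb hN1 hN2 hU hW hc hη => ?_⟩
  have hth := hb.h1000
  have hq : 0 < th ^ (2 * k) := pow_pos (by omega) _
  have hN : 1 ≤ N := hq.trans_le hN1
  obtain ⟨g, hg, hS, hflat⟩ := exists_cut N th (th ^ (X + 21)) (by omega)
    (Nat.one_le_pow _ _ (by omega)) W
  rw [Nat.cast_pow] at hg hS
  have hflat' : ∀ mu ∈ Icc 1 th, ∀ u0 : ℝ, g (u0 / (2 * π * mu)) ≠ 0 →
      ((W ×ˢ W).filter (fun p : ℕ × ℕ =>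
        |((p.1 : ℝ) - p.2) - u0| ≤ (th : ℝ) ^ (X + 21))).card ≤ th ^ (X + 25) := by
    intro mu hmu u0 h
    have := hflat mu hmu u0 h
    rwa [Nat.cast_pow, ← pow_add, show 4 + (X + 21) = X + 25 by ring] at this
  have hfar := fun jA jB => far_blocks (jA := jA) (jB := jB) (hB th al) hb hk hkX hX hN1 hN2 hU
    hc hη hg hflat'
  have hmaps : ∀ t ∈ W, t / th ^ (2 * k) ∈ range th := fun t ht =>
    Finset.mem_range.2 ((Nat.div_lt_iff_lt_mul hq).2 (by rw [← pow_succ']; exact hW t ht))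
  have hmean := fun j => mean_value hN (cell W (th ^ (2 * k)) j) (fun t ht s hs =>
    (l1_cell hq ((Finset.mem_filter.1 ht).2.trans (Finset.mem_filter.1 hs).2.symm)).trans
      (Nat.cast_le.2 hN1)) η hη
  have hcard : ∑ j ∈ range th, ((cell W (th ^ (2 * k)) j).card : ℝ) = W.card := by
    exact_mod_cast (Finset.card_eq_sum_card_fiberwise hmaps).symm
  have hsum : ∀ n : ℕ, ∑ t ∈ W, η t * ei (t * Real.log n) =
      ∑ j ∈ range th, ∑ t ∈ cell W (th ^ (2 * k)) j, η t * ei (t * Real.log n) := fun n =>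
    (Finset.sum_fiberwise_of_maps_to hmaps _).symm
  simp only [hsum]
  obtain ⟨F, hF⟩ : ∃ F : ℕ → ℕ → ℂ, ∀ j n : ℕ,
    ∑ t ∈ cell W (th ^ (2 * k)) j, η t * ei (t * Real.log n) = F j n := ⟨_, fun _ _ => rfl⟩
  simp only [hF] at hfar hmean ⊢
  obtain ⟨w, hw⟩ : ∃ w : ℕ → ℝ, ∀ j, ((cell W (th ^ (2 * k)) j).card : ℝ) = w j :=
    ⟨_, fun _ => rfl⟩
  have hw0 : ∀ j, 0 ≤ w j := fun j => hw j ▸ Nat.cast_nonneg _
  simp only [hw] at hfar hmean hcard
  have hT : (1000 : ℝ) ≤ th := by exact_mod_cast hth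
  have hT0 : (0 : ℝ) < th := by linarith
  have hNr : (th : ℝ) ^ (2 * k) ≤ N := by exact_mod_cast hN1
  have hN0 : (1 : ℝ) ≤ N := by exact_mod_cast hN
  have hWr : (W.card : ℝ) ≤ (th : ℝ) ^ (k + 1) := by exact_mod_cast hc
  have hW0 : (0 : ℝ) ≤ W.card := Nat.cast_nonneg _
  have hL : 1 ≤ 1 + Real.log N := le_add_of_nonneg_right (Real.log_nonneg hN0)
  have hE : ∑ j ∈ range th, ∑ n ∈ Icc N (2 * N), ‖F j n‖ ^ 2 ≤
      200 * W.card * N * (1 + Real.log N) := by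
    refine (Finset.sum_le_sum fun j _ => hmean j).trans_eq ?_
    rw [← Finset.sum_mul, ← Finset.sum_mul, ← Finset.mul_sum, hcard]
  have h1 : ∑ n ∈ Icc N (2 * N), ‖∑ j ∈ range th, F j n‖ ^ 2 ≤
      th * (200 * W.card * N * (1 + Real.log N)) := by
    refine le_trans (Finset.sum_le_sum fun n _ => (pow_le_pow_left₀ (norm_nonneg _)
      (_root_.norm_sum_le _ _) 2).trans sq_sum_le_card_mul_sum_sq) ?_
    rw [← Finset.mul_sum, Finset.sum_comm, Finset.card_range]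
    exact mul_le_mul_of_nonneg_left hE hT0.le
  have h2 : (((Icc N (2 * N)).filter (fun n : ℕ => g n < 1)).card : ℝ) * th ≤ 7 * N := by
    have a1 : (th : ℝ) ^ (X + 21) * th ≤ N := by
      rw [← pow_succ]
      exact (pow_le_pow_right₀ (by linarith) (by omega)).trans hNr
    have a2 : (W.card : ℝ) ^ 2 / th ^ 3 * th ≤ N := by
      rw [div_mul_eq_mul_div, div_le_iff₀ (by positivity)]
      calc (W.card : ℝ) ^ 2 * th ≤ ((th : ℝ) ^ (k + 1)) ^ 2 * th := by gcongr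
        _ = (th : ℝ) ^ (2 * k) * th ^ 3 := by ring
        _ ≤ _ := by gcongr
    have a3 := mul_le_mul_of_nonneg_right hS hT0.le
    rw [mul_div_assoc] at a3
    linarith
  have h3 : ∑ n ∈ Icc N (2 * N), g n * ‖∑ j ∈ range th, F j n‖ ^ 2 ≤
      6 * (200 * W.card * N * (1 + Real.log N)) := by
    have hp : (0 : ℝ) ≤ (th : ℝ) ^ (k - 1) := by positivity
    have hp' : (0 : ℝ) ≤ 3 * W.card * (th : ℝ) ^ (2 * k - 3) := by positivity
    refine (l1_quad _ _ (fun n => g n) F).trans (le_trans (Finset.sum_le_sum fun j hj =>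
      Finset.sum_le_sum (g := fun j' => (if j ≤ j' + 2 ∧ j' ≤ j + 2 then
        (∑ n ∈ Icc N (2 * N), ‖F j n‖ ^ 2 + ∑ n ∈ Icc N (2 * N), ‖F j' n‖ ^ 2) / 2 else 0) +
          (w j * w j' * (th : ℝ) ^ (k - 1) + 3 * W.card * (th : ℝ) ^ (2 * k - 3)))
        fun j' hj' => ?_) ?_)
    · split_ifs with h
      · exact le_add_of_le_of_nonneg (l1_pair _ (fun n => hg.nonneg n) (fun n => hg.le_one n) _ _)
          (add_nonneg (mul_nonneg (mul_nonneg (hw0 j) (hw0 j')) hp) hp')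
      · rw [zero_add]
        rcases (by omega : j' + 3 ≤ j ∨ j + 3 ≤ j') with h' | h'
        · exact hfar j j' h' (Finset.mem_range.1 hj)
        · rw [l1_swap _ (fun n => g n), mul_comm (w j)]
          exact hfar j' j h' (Finset.mem_range.1 hj')
    simp only [Finset.sum_add_distrib]
    have a1 := l1_near th (E := fun j => ∑ n ∈ Icc N (2 * N), ‖F j n‖ ^ 2) fun j =>
      Finset.sum_nonneg fun n _ => sq_nonneg _
    have a2 : ∑ j ∈ range th, ∑ j' ∈ range th, w j * w j' * (th : ℝ) ^ (k - 1) ≤ W.card * N := by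
      simp only [← Finset.sum_mul, ← Finset.mul_sum, hcard]
      calc (W.card : ℝ) * W.card * th ^ (k - 1) ≤ W.card * (th : ℝ) ^ (k + 1) * th ^ (k - 1) := by
            gcongr
        _ = W.card * (th : ℝ) ^ (2 * k) := by
            rw [mul_assoc, ← pow_add, show k + 1 + (k - 1) = 2 * k by omega]
        _ ≤ _ := by gcongr
    have a3 : ∑ _j ∈ range th, ∑ _j' ∈ range th, 3 * W.card * (th : ℝ) ^ (2 * k - 3) ≤
        W.card * N := by
      simp only [Finset.sum_const, Finset.card_range, nsmul_eq_mul]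
      calc (th : ℝ) * (th * (3 * W.card * (th : ℝ) ^ (2 * k - 3))) ≤
            th * (th * (th * W.card * (th : ℝ) ^ (2 * k - 3))) := by
            gcongr
            linarith
        _ = W.card * (th : ℝ) ^ (2 * k - 3 + 3) := by ring
        _ = W.card * (th : ℝ) ^ (2 * k) := by rw [show 2 * k - 3 + 3 = 2 * k by omega]
        _ ≤ _ := by gcongr
    have a4 : (W.card : ℝ) * N ≤ W.card * N * (1 + Real.log N) :=
      le_mul_of_one_le_right (by positivity) hL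
    have a5 : (0 : ℝ) ≤ W.card * N := by positivity
    linarith
  have h4 : ((Icc N (2 * N)).card : ℝ) ≤ 2 * N := by
    rw [Nat.card_Icc]
    exact_mod_cast (by omega : 2 * N + 1 - N ≤ 2 * N)
  refine (l1_split _ (g := fun n => g n) fun n => hg.nonneg n).trans ?_
  have hM : (0 : ℝ) ≤ 200 * W.card * N * (1 + Real.log N) := by positivity
  have b1 := (mul_le_mul_of_nonneg_left h1 (Nat.cast_nonneg
    ((Icc N (2 * N)).filter (fun n : ℕ => g n < 1)).card)).trans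
      ((mul_assoc _ _ _).symm.le.trans (mul_le_mul_of_nonneg_right h2 hM))
  have b2 := mul_le_mul h4 h3 (Finset.sum_nonneg fun n _ => mul_nonneg (hg.nonneg n) (sq_nonneg _))
    (by positivity)
  have b3 : (0 : ℝ) ≤ W.card * (N : ℝ) ^ 2 * (1 + Real.log N) := by positivity
  linarith

end Pool.Agent.Lib.MP_ecd12e_nt.Bar
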