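import Pool.Agent.Lib.MP_ecd12e_nt.Bar.Unif

set_option autoImplicit false

namespace Pool.Agent.Lib.MP_ecd12e_nt.Bar

open Finset Real
open scoped Pointwise

/-- The left end of a cell lies in the same block as its points. -/
lemma local_block {th m x j : ℕ} {W : Finset ℕ} (hth : 0 < th) (hW : ∀ a ∈ W, a / th ^ m = j)
    (hx : x ≤ m) {P : ℕ} (hP : P ∈ cells W (th ^ x)) :
    (j : ℝ) * (th : ℝ) ^ m ≤ (P : ℝ) * (th : ℝ) ^ x ∧
      (P : ℝ) * (th : ℝ) ^ x < ((j : ℝ) + 1) * (th : ℝ) ^ m := by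
  obtain ⟨a, ha, rfl⟩ := Finset.mem_image.1 hP
  have h1 : (a / th ^ x * th ^ x) / th ^ m = j := by
    obtain ⟨d, rfl⟩ := Nat.exists_eq_add_of_le hx
    rw [← hW a ha, pow_add, ← Nat.div_div_eq_div_mul, ← Nat.div_div_eq_div_mul,
      Nat.mul_div_cancel _ (pow_pos hth x)]
  have hm : 0 < th ^ m := pow_pos hth m
  have h2 : j * th ^ m ≤ a / th ^ x * th ^ x := by
    rw [← h1]; exact Nat.div_mul_le_self _ _
  have h3 : a / th ^ x * th ^ x < (j + 1) * th ^ m := by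
    rw [← h1]
    have := Nat.lt_div_mul_add (a := a / th ^ x * th ^ x) hm
    rw [add_mul, one_mul]; exact this
  constructor
  · exact_mod_cast h2
  · exact_mod_cast h3

lemma local_pos {th k X : ℕ} {al : ℕ → ℕ} {A B : Finset ℕ} {jA jB : ℕ} {ca cb : ℕ → ℂ}
    {om : ℝ → ℂ} (h : Setup th k X al A B jA jB ca cb om) : 0 < th := by
  have := h.big.h1000
  omega

/-- Both sets are nonempty, since the bilinear form is not zero. -/
theorem Setup.nonempty {th k X : ℕ} {al : ℕ → ℕ} {A B : Finset ℕ} {jA jB : ℕ} {ca cb : ℕ → ℂ}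
    {om : ℝ → ℂ} (h : Setup th k X al A B jA jB ca cb om) : A.Nonempty ∧ B.Nonempty := by
  have h0 : 0 < ‖bil A B ca cb om‖ := by
    have h1 := h.nogain
    have h2 : (0 : ℝ) < (th : ℝ) ^ (2 * k) := pow_pos (by exact_mod_cast local_pos h) _
    by_contra hc
    have h3 : ‖bil A B ca cb om‖ = 0 := le_antisymm (not_lt.1 hc) (norm_nonneg _)
    rw [h3, mul_zero] at h1
    linarith
  constructor
  · rcases A.eq_empty_or_nonempty with rfl | hA
    · simp [bil] at h0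
    · exact hA
  · rcases B.eq_empty_or_nonempty with rfl | hB
    · simp [bil] at h0
    · exact hB

/-- Geometry of the blocks: the left end of a cell of `A` (any level `x ≤ 2k`; level `0` gives the
points themselves) minus the left end of a cell of `B` (any level `y ≤ 2k`) lies in
`(2 th ^ (2k), th ^ (2k+1))`. Both left ends lie in the same block as the points. -/
theorem Setup.gap {th k X : ℕ} {al : ℕ → ℕ} {A B : Finset ℕ} {jA jB : ℕ} {ca cb : ℕ → ℂ}
    {om : ℝ → ℂ} (h : Setup th k X al A B jA jB ca cb om) {x y : ℕ} (hx : x ≤ 2 * k)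
    (hy : y ≤ 2 * k) {P Q : ℕ} (hP : P ∈ cells A (th ^ x)) (hQ : Q ∈ cells B (th ^ y)) :
    2 * (th : ℝ) ^ (2 * k) < (P : ℝ) * (th : ℝ) ^ x - (Q : ℝ) * (th : ℝ) ^ y ∧
      (P : ℝ) * (th : ℝ) ^ x - (Q : ℝ) * (th : ℝ) ^ y < (th : ℝ) ^ (2 * k + 1) := by
  obtain ⟨a1, a2⟩ := local_block (local_pos h) h.blkA hx hP
  obtain ⟨b1, b2⟩ := local_block (local_pos h) h.blkB hy hQ
  have hN : (0 : ℝ) < (th : ℝ) ^ (2 * k) := pow_pos (by exact_mod_cast local_pos h) _
  have hj : (jB : ℝ) + 3 ≤ jA := by exact_mod_cast h.hj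
  have hjA : (jA : ℝ) + 1 ≤ th := by exact_mod_cast h.hjA
  have hjB : (0 : ℝ) ≤ jB := Nat.cast_nonneg _
  have e1 := mul_le_mul_of_nonneg_right hj hN.le
  have e2 := mul_le_mul_of_nonneg_right hjA hN.le
  have e3 := mul_nonneg hjB hN.le
  rw [pow_succ]
  constructor
  · linarith
  · linarith

/-- Left ends of two cells of `A` (levels `≤ 2k`) differ by less than `th ^ (2k)`. -/
theorem Setup.diamA {th k X : ℕ} {al : ℕ → ℕ} {A B : Finset ℕ} {jA jB : ℕ} {ca cb : ℕ → ℂ}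
    {om : ℝ → ℂ} (h : Setup th k X al A B jA jB ca cb om) {x y : ℕ} (hx : x ≤ 2 * k)
    (hy : y ≤ 2 * k) {P Q : ℕ} (hP : P ∈ cells A (th ^ x)) (hQ : Q ∈ cells A (th ^ y)) :
    |(P : ℝ) * (th : ℝ) ^ x - (Q : ℝ) * (th : ℝ) ^ y| < (th : ℝ) ^ (2 * k) := by
  obtain ⟨a1, a2⟩ := local_block (local_pos h) h.blkA hx hP
  obtain ⟨b1, b2⟩ := local_block (local_pos h) h.blkA hy hQ
  rw [abs_lt]
  constructor <;> linarith

/-- Left ends of two cells of `B` (levels `≤ 2k`) differ by less than `th ^ (2k)`. -/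
theorem Setup.diamB {th k X : ℕ} {al : ℕ → ℕ} {A B : Finset ℕ} {jA jB : ℕ} {ca cb : ℕ → ℂ}
    {om : ℝ → ℂ} (h : Setup th k X al A B jA jB ca cb om) {x y : ℕ} (hx : x ≤ 2 * k)
    (hy : y ≤ 2 * k) {P Q : ℕ} (hP : P ∈ cells B (th ^ x)) (hQ : Q ∈ cells B (th ^ y)) :
    |(P : ℝ) * (th : ℝ) ^ x - (Q : ℝ) * (th : ℝ) ^ y| < (th : ℝ) ^ (2 * k) := by
  obtain ⟨a1, a2⟩ := local_block (local_pos h) h.blkB hx hP
  obtain ⟨b1, b2⟩ := local_block (local_pos h) h.blkB hy hQ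
  rw [abs_lt]
  constructor <;> linarith

lemma local_log {t : ℝ} (ht : 0 ≤ t) : |Real.log (1 + t) - t| ≤ t ^ 2 := by
  have h1 : Real.log (1 + t) ≤ t := by
    have := Real.log_le_sub_one_of_pos (show 0 < 1 + t by linarith)
    linarith
  have h2 : 1 - (1 + t)⁻¹ ≤ Real.log (1 + t) := Real.one_sub_inv_le_log_of_pos (by linarith)
  have h3 : t - t ^ 2 ≤ 1 - (1 + t)⁻¹ := by
    have h4 : (1 + t)⁻¹ ≤ 1 - t + t ^ 2 := by
      rw [inv_le_iff_one_le_mul₀ (by linarith)]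
      have : 0 ≤ t ^ 3 := by positivity
      nlinarith
    linarith
  rw [abs_le]
  constructor
  · linarith
  · have : 0 ≤ t ^ 2 := by positivity
    linarith

/-- The remainder of the phase. -/
noncomputable def localR (h u : ℝ) : ℝ := (u + h) * (Real.log (u + h) - Real.log u)

lemma local_R_lip {h m u v : ℝ} (hh : 0 ≤ h) (hm : 0 < m) (hu : m ≤ u) (hv : m ≤ v) :
    |localR h u - localR h v| ≤ (h / m) ^ 2 * |u - v| := by
  have key : ∀ z ∈ Set.Ici m, HasDerivWithinAt (localR h) (Real.log (1 + h / z) - h / z)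
      (Set.Ici m) z := by
    intro z hz
    have hz0 : 0 < z := lt_of_lt_of_le hm hz
    have hzh : 0 < z + h := by linarith
    have d1 : HasDerivAt (fun z : ℝ => z + h) 1 z := (hasDerivAt_id z).add_const h
    have d2 : HasDerivAt (fun z : ℝ => Real.log (z + h)) (1 / (z + h)) z := d1.log hzh.ne'
    have d3 : HasDerivAt Real.log z⁻¹ z := Real.hasDerivAt_log hz0.ne'
    have d4 := d1.mul (d2.sub d3)
    have e : Real.log (1 + h / z) - h / z =
        1 * (Real.log (z + h) - Real.log z) + (z + h) * (1 / (z + h) - z⁻¹) := by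
      have : 1 + h / z = (z + h) / z := by field_simp
      rw [this, Real.log_div hzh.ne' hz0.ne']
      field_simp
      ring
    rw [e]
    exact d4.hasDerivWithinAt
  have bd : ∀ z ∈ Set.Ici m, ‖Real.log (1 + h / z) - h / z‖ ≤ (h / m) ^ 2 := by
    intro z hz
    have hz0 : 0 < z := lt_of_lt_of_le hm hz
    have h1 : 0 ≤ h / z := div_nonneg hh hz0.le
    refine (local_log h1).trans ?_
    exact pow_le_pow_left₀ h1 (div_le_div_of_nonneg_left hh hm hz) 2
  exact (convex_Ici m).norm_image_sub_le_of_norm_hasDerivWithin_le key bd hv hu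

lemma local_floor {T h L : ℝ} (hT : 0 < T) (hh : 0 ≤ h) :
    |h * L - 2 * π * h * (⌊T * L / (2 * π)⌋ : ℤ) / T| ≤ 2 * π * h / T := by
  have hp : 0 < 2 * π := by positivity
  have h1 := Int.floor_le (T * L / (2 * π))
  have h2 := Int.lt_floor_add_one (T * L / (2 * π))
  have e : h * L - 2 * π * h * (⌊T * L / (2 * π)⌋ : ℤ) / T =
      2 * π * h / T * (T * L / (2 * π) - (⌊T * L / (2 * π)⌋ : ℤ)) := by
    field_simp
  have h0 : 0 ≤ 2 * π * h / T := by positivity
  rw [e, abs_of_nonneg (mul_nonneg h0 (by linarith))]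
  exact mul_le_of_le_one_right h0 (by linarith)

/-- One term of the local model. -/
lemma local_term {c o o' : ℂ} {e1 e2 : ℝ} {p p' : ℝ} (hc : ‖c‖ ≤ 1) (ho : ‖o'‖ ≤ 1)
    (h1 : ‖o - o'‖ ≤ e1) (h2 : |p - p'| ≤ e2) :
    ‖c * o * ei p - c * o' * ei p'‖ ≤ e1 + e2 := by
  have e : c * o * ei p - c * o' * ei p' = c * ((o - o') * ei p + o' * (ei p - ei p')) := by ring
  rw [e, norm_mul]
  have h3 : ‖(o - o') * ei p + o' * (ei p - ei p')‖ ≤ e1 + e2 := by
    refine (norm_add_le _ _).trans (add_le_add ?_ ?_)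
    · rw [norm_mul, norm_ei, mul_one]; exact h1
    · rw [norm_mul]
      calc ‖o'‖ * ‖ei p - ei p'‖ ≤ 1 * e2 :=
            mul_le_mul ho ((norm_ei_sub_ei_le _ _).trans h2) (norm_nonneg _) zero_le_one
        _ = e2 := one_mul _
  calc ‖c‖ * _ ≤ 1 * (e1 + e2) := mul_le_mul hc h3 (norm_nonneg _) zero_le_one
    _ = _ := one_mul _

lemma local_num {t : ℝ} (ht : 1000 ≤ t) {x y k : ℕ} (hxy : 2 * x + y + 21 ≤ 4 * k) {h d : ℝ}
    (hh0 : 0 ≤ h) (hh : h ≤ t ^ x) (hd0 : 0 ≤ d) (hd : d ≤ t ^ y) :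
    (h / t ^ (2 * k)) ^ 2 * d + 2 * π * h / t ^ (x + 21) ≤ 1 / t ^ 20 := by
  have t0 : 0 < t := by linarith
  have t1 : 1 ≤ t := by linarith
  have h1 : (h / t ^ (2 * k)) ^ 2 * d ≤ 1 / t ^ 21 := by
    calc (h / t ^ (2 * k)) ^ 2 * d ≤ (t ^ x / t ^ (2 * k)) ^ 2 * t ^ y := by gcongr
      _ = t ^ (2 * x + y + 21) / t ^ (4 * k) * (1 / t ^ 21) := by
        have : t ^ (4 * k) = (t ^ (2 * k)) ^ 2 := by ring
        rw [this]
        field_simp
        ring
      _ ≤ 1 * (1 / t ^ 21) := by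
        gcongr
        rw [div_le_one (by positivity)]
        exact pow_le_pow_right₀ t1 hxy
      _ = _ := one_mul _
  have h2 : 2 * π * h / t ^ (x + 21) ≤ 8 * (1 / t ^ 21) := by
    calc 2 * π * h / t ^ (x + 21) ≤ 2 * 4 * t ^ x / t ^ (x + 21) := by
          gcongr
          exact Real.pi_le_four
      _ = 8 * (1 / t ^ 21) := by
        rw [pow_add]
        field_simp
        norm_num
  have h3 : 9 * (1 / t ^ 21) ≤ 1 / t ^ 20 := by
    have : 1 / t ^ 20 = t * (1 / t ^ 21) := by field_simp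
    rw [this]
    gcongr
    linarith
  linarith

lemma local_cell_dist {q a b : ℕ} (hq : 0 < q) (h : a / q = b / q) : |(a : ℝ) - b| ≤ q := by
  have a1 : a / q * q ≤ a := Nat.div_mul_le_self _ _
  have a2 : a < a / q * q + q := Nat.lt_div_mul_add hq
  have b1 : b / q * q ≤ b := Nat.div_mul_le_self _ _
  have b2 : b < b / q * q + q := Nat.lt_div_mul_add hq
  rw [h] at a1 a2
  have c1 : a ≤ b + q := by omega
  have c2 : b ≤ a + q := by omega
  have d1 : (a : ℝ) ≤ b + q := by exact_mod_cast c1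
  have d2 : (b : ℝ) ≤ a + q := by exact_mod_cast c2
  rw [abs_le]
  constructor <;> linarith

/-- The coefficients of the local model. -/
noncomputable def localTh (th x : ℕ) (cb : ℕ → ℂ) (om : ℝ → ℂ) (P s : ℕ) : ℂ :=
  cb s * om ((P : ℝ) * (th : ℝ) ^ x - s) *
    ei (((P : ℝ) * (th : ℝ) ^ x - s) * Real.log ((P : ℝ) * (th : ℝ) ^ x - s))

lemma local_cell {th k X : ℕ} {al : ℕ → ℕ} {A B : Finset ℕ} {jA jB : ℕ}
    {ca cb : ℕ → ℂ} {om : ℝ → ℂ} (h : Setup th k X al A B jA jB ca cb om) {x y : ℕ} (hx : x ≤ X)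
    (hxy : 2 * x + y + 21 ≤ 4 * k) (hx2 : x ≤ 2 * k) {a : ℕ} (ha : a ∈ A) {Q : ℕ}
    (hQ : Q ∈ cells B (th ^ y)) :
    ‖∑ s ∈ cell B (th ^ y) Q,
        cb s * om ((a : ℝ) - s) * ei (((a : ℝ) - s) * Real.log ((a : ℝ) - s))‖ ≤
      ‖loc th x y B (localTh th x cb om) (a / th ^ x) Q a‖ +
        (cell B (th ^ y) Q).card * (2 / (th : ℝ) ^ 20) := by
  obtain ⟨s0, hs0, rfl⟩ := Finset.mem_image.1 hQ
  have th0 : 0 < th := local_pos h
  have t1000 : (1000 : ℝ) ≤ th := by exact_mod_cast h.big.h1000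
  have t0 : (0 : ℝ) < th := by linarith
  have t1 : (1 : ℝ) ≤ th := by linarith
  have hN : (0 : ℝ) < (th : ℝ) ^ (2 * k) := pow_pos t0 _
  set P := a / th ^ x with hPdef
  set a0 : ℝ := (P : ℝ) * (th : ℝ) ^ x with ha0
  have hP : P ∈ cells A (th ^ x) := Finset.mem_image_of_mem _ ha
  have hh0 : 0 ≤ (a : ℝ) - a0 := by
    have : P * th ^ x ≤ a := Nat.div_mul_le_self _ _
    have h2 : a0 ≤ a := by rw [ha0]; exact_mod_cast this
    linarith
  have hh1 : (a : ℝ) - a0 ≤ (th : ℝ) ^ x := by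
    have : a < P * th ^ x + th ^ x := Nat.lt_div_mul_add (pow_pos th0 x)
    have h2 : (a : ℝ) < a0 + (th : ℝ) ^ x := by rw [ha0]; exact_mod_cast this
    linarith
  have hu : ∀ s ∈ B, (th : ℝ) ^ (2 * k) ≤ a0 - s := by
    intro s hs
    have h1 : s ∈ cells B (th ^ 0) := Finset.mem_image.2 ⟨s, hs, by simp⟩
    have h2 := (h.gap hx2 (Nat.zero_le _) hP h1).1
    rw [pow_zero, mul_one] at h2
    linarith
  have main : ∀ s ∈ cell B (th ^ y) (s0 / th ^ y),
      ‖cb s * om ((a : ℝ) - s) * ei (((a : ℝ) - s) * Real.log ((a : ℝ) - s)) -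
        ei (localR (a - a0) (a0 - s0)) * (localTh th x cb om P s *
          ei (2 * π * ((a : ℝ) - a0) * (kk th x P s) / (th : ℝ) ^ (x + 21)))‖ ≤
        2 / (th : ℝ) ^ 20 := by
    intro s hs
    obtain ⟨hsB, hsQ⟩ := Finset.mem_filter.1 hs
    have e1 : ei (localR (a - a0) (a0 - s0)) * (localTh th x cb om P s *
          ei (2 * π * ((a : ℝ) - a0) * (kk th x P s) / (th : ℝ) ^ (x + 21))) =
        cb s * om (a0 - s) * ei (localR (a - a0) (a0 - s0) + ((a0 - s) * Real.log (a0 - s) +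
          2 * π * ((a : ℝ) - a0) * (kk th x P s) / (th : ℝ) ^ (x + 21))) := by
      rw [ei_add, ei_add]
      unfold localTh
      ring
    rw [e1]
    have o1 : ‖om ((a : ℝ) - s) - om (a0 - s)‖ ≤ 1 / (th : ℝ) ^ 20 := by
      rw [le_div_iff₀ (by positivity)]
      have hs' := hu s hsB
      refine h.slow _ _ (by linarith) hs' ?_
      have : (a : ℝ) - s - (a0 - s) = a - a0 := by ring
      rw [this, abs_of_nonneg hh0]
      exact hh1.trans (pow_le_pow_right₀ t1 hx)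
    have o2 : |((a : ℝ) - s) * Real.log ((a : ℝ) - s) -
        (localR (a - a0) (a0 - s0) + ((a0 - s) * Real.log (a0 - s) +
          2 * π * ((a : ℝ) - a0) * (kk th x P s) / (th : ℝ) ^ (x + 21)))| ≤
        1 / (th : ℝ) ^ 20 := by
      have e2 : ((a : ℝ) - s) * Real.log ((a : ℝ) - s) -
          (localR (a - a0) (a0 - s0) + ((a0 - s) * Real.log (a0 - s) +
            2 * π * ((a : ℝ) - a0) * (kk th x P s) / (th : ℝ) ^ (x + 21))) =
          (localR (a - a0) (a0 - s) - localR (a - a0) (a0 - s0)) +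
            ((a - a0) * Real.log (a0 - s) -
              2 * π * ((a : ℝ) - a0) * (kk th x P s) / (th : ℝ) ^ (x + 21)) := by
        have e3 : localR (a - a0) (a0 - s) =
            ((a : ℝ) - s) * (Real.log ((a : ℝ) - s) - Real.log (a0 - s)) := by
          unfold localR
          have : a0 - (s : ℝ) + (a - a0) = a - s := by ring
          rw [this]
        rw [e3]
        ring
      rw [e2]
      refine (abs_add_le _ _).trans (le_trans (add_le_add
        (local_R_lip hh0 hN (hu s hsB) (hu s0 hs0))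
        (local_floor (L := Real.log (a0 - s)) (pow_pos t0 (x + 21)) hh0)) ?_)
      refine local_num t1000 hxy hh0 hh1 (abs_nonneg _) ?_
      have e4 : a0 - (s : ℝ) - (a0 - s0) = s0 - s := by ring
      rw [e4]
      have := local_cell_dist (pow_pos th0 y) hsQ.symm
      exact_mod_cast this
    have := local_term (h.hcb s) (h.hom (a0 - s)) o1 o2
    calc _ ≤ 1 / (th : ℝ) ^ 20 + 1 / (th : ℝ) ^ 20 := this
      _ = _ := by ring
  have e5 : ‖loc th x y B (localTh th x cb om) P (s0 / th ^ y) a‖ =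
      ‖∑ s ∈ cell B (th ^ y) (s0 / th ^ y), ei (localR (a - a0) (a0 - s0)) *
        (localTh th x cb om P s *
          ei (2 * π * ((a : ℝ) - a0) * (kk th x P s) / (th : ℝ) ^ (x + 21)))‖ := by
    rw [← Finset.mul_sum, norm_mul, norm_ei, one_mul]
    rfl
  rw [e5]
  refine (norm_le_norm_add_norm_sub' _ _).trans (add_le_add le_rfl ?_)
  rw [← Finset.sum_sub_distrib]
  refine (norm_sum_le _ _).trans ((Finset.sum_le_card_nsmul _ _ _ main).trans ?_)
  rw [nsmul_eq_mul]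

lemma local_final {t M S b : ℝ} {k : ℕ} (ht : 1000 ≤ t) (hM0 : 0 ≤ M) (hS : 0 ≤ S)
    (hM : M ≤ t ^ (k + 1) * t ^ (k + 1)) (hn : t ^ (2 * k) < t ^ 16 * b)
    (hb : b ≤ S + M * (2 / t ^ 20)) : M ≤ t ^ 19 * S := by
  have t0 : 0 < t := by linarith
  have h1 : M ≤ t ^ 18 * b := by
    calc M ≤ t ^ (k + 1) * t ^ (k + 1) := hM
      _ = t ^ 2 * t ^ (2 * k) := by ring
      _ ≤ t ^ 2 * (t ^ 16 * b) := by gcongr
      _ = t ^ 18 * b := by ring
  have h2 : t ^ 18 * b ≤ t ^ 18 * S + M * (2 / t ^ 2) := by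
    calc t ^ 18 * b ≤ t ^ 18 * (S + M * (2 / t ^ 20)) := by gcongr
      _ = t ^ 18 * S + M * (2 / t ^ 2) := by field_simp
  have h3 : 2 / t ^ 2 ≤ 1 / 2 := by
    rw [div_le_div_iff₀ (by positivity) (by norm_num)]
    nlinarith
  have h4 : M * (2 / t ^ 2) ≤ M * (1 / 2) := by gcongr
  have h5 : 2 * (t ^ 18 * S) ≤ t ^ 19 * S := by
    have : t ^ 19 * S = t * (t ^ 18 * S) := by ring
    rw [this]
    gcongr
    linarith
  linarith

/-- Local model. Let `a0 = (a / th ^ x) * th ^ x`, `h = a - a0 ∈ [0, th ^ x)`, `u = a0 - s`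
(`u > 2 th ^ (2k)` by `Setup.gap` with `y = 0`). Then
`(u + h) log (u + h) = u log u + h log u + R(u, h)` with `R(u, h) = (u + h) log (1 + h / u)`, and
`|R(u,h) - R(u',h)| ≤ |u - u'| h ^ 2 / (min u u') ^ 2` (the `u`-derivative is
`log (1 + h/u) - h/u ∈ [-(h/u)^2, 0]`). Put `θ P s = cb s * om (P th^x - s) * ei (u log u)`.
For `a ∈ A` and an occupied level `y` cell `Q` of `B` fix one `s0` in it; the sum over `s` in the
cell of `cb s * om (a - s) * ei ((a-s) log (a-s))` differs from `ei (R(a0 - s0, h)) * loc ..` by at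
most `2 th ^ (-20)` per term (`slow` for `om`, `th ^ (-21)` for `R`, `2π h / th ^ (x+21)` for the
floor in `kk`). Finally `th ^ (2k) ≥ th ^ (-2) |A| |B|`, so `nogain` gives
`|A| |B| ≤ th ^ 18 ‖bil‖ ≤ th ^ 18 (∑ ‖loc‖ + 2 th ^ (-20) |A| |B|)`. -/
theorem Setup.local_model {th k X : ℕ} {al : ℕ → ℕ} {A B : Finset ℕ} {jA jB : ℕ}
    {ca cb : ℕ → ℂ} {om : ℝ → ℂ} (h : Setup th k X al A B jA jB ca cb om) {x y : ℕ} (hx : x ≤ X)
    (hy : y ≤ 2 * k) (hxy : 2 * x + y + 21 ≤ 4 * k) (hx2 : x ≤ 2 * k) :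
    ∃ θ : ℕ → ℕ → ℂ, (∀ P s, ‖θ P s‖ ≤ 1) ∧
      (A.card : ℝ) * B.card ≤ (th : ℝ) ^ 19 *
        ∑ a ∈ A, ∑ Q ∈ cells B (th ^ y), ‖loc th x y B θ (a / th ^ x) Q a‖ := by
  have _ := hy
  refine ⟨localTh th x cb om, fun P s => ?_, ?_⟩
  · unfold localTh
    rw [norm_mul, norm_ei, mul_one, norm_mul]
    exact mul_le_one₀ (h.hcb s) (norm_nonneg _) (h.hom _)
  have t1000 : (1000 : ℝ) ≤ th := by exact_mod_cast h.big.h1000
  refine local_final t1000 (by positivity)
    (Finset.sum_nonneg fun a _ => Finset.sum_nonneg fun Q _ => norm_nonneg _) ?_ h.nogain ?_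
  · have h1 : (A.card : ℝ) ≤ (th : ℝ) ^ (k + 1) := by exact_mod_cast h.cardA
    have h2 : (B.card : ℝ) ≤ (th : ℝ) ^ (k + 1) := by exact_mod_cast h.cardB
    gcongr
  have hcard : ∑ Q ∈ cells B (th ^ y), ((cell B (th ^ y) Q).card : ℝ) = B.card := by
    have := Finset.card_eq_sum_card_image (fun a => a / th ^ y) B
    rw [this]
    push_cast
    rfl
  have step : ∀ a ∈ A, ‖∑ s ∈ B, ca a * cb s * om ((a : ℝ) - s) *
      ei (((a : ℝ) - s) * Real.log ((a : ℝ) - s))‖ ≤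
      ∑ Q ∈ cells B (th ^ y), ‖loc th x y B (localTh th x cb om) (a / th ^ x) Q a‖ +
        B.card * (2 / (th : ℝ) ^ 20) := by
    intro a ha
    have e1 : ∑ s ∈ B, ca a * cb s * om ((a : ℝ) - s) *
        ei (((a : ℝ) - s) * Real.log ((a : ℝ) - s)) =
        ca a * ∑ Q ∈ cells B (th ^ y), ∑ s ∈ cell B (th ^ y) Q,
          cb s * om ((a : ℝ) - s) * ei (((a : ℝ) - s) * Real.log ((a : ℝ) - s)) := by
      unfold cells cell
      rw [Finset.sum_fiberwise_of_maps_to (fun s hs => Finset.mem_image_of_mem _ hs),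
        Finset.mul_sum]
      exact Finset.sum_congr rfl fun s _ => by ring
    rw [e1, norm_mul, ← hcard, Finset.sum_mul, ← Finset.sum_add_distrib]
    refine (mul_le_of_le_one_left (norm_nonneg _) (h.hca a)).trans ?_
    exact (norm_sum_le _ _).trans
      (Finset.sum_le_sum fun Q hQ => local_cell h hx hxy hx2 ha hQ)
  unfold bil
  refine (norm_sum_le _ _).trans ((Finset.sum_le_sum step).trans ?_)
  rw [Finset.sum_add_distrib, Finset.sum_const, nsmul_eq_mul, mul_assoc]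

end Pool.Agent.Lib.MP_ecd12e_nt.Bar
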