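import Pool.Agent.Lib.MP_ecd12e_nt.Bar.Defs

set_option autoImplicit false

namespace Pool.Agent.Lib.MP_ecd12e_nt.Bar

open Finset Real
open scoped Pointwise

lemma meanv_abel {a b : ℕ} (hab : a ≤ b) (w z : ℕ → ℂ) :
    ∑ n ∈ Icc a b, w n * (z (n + 1) - z n)
      = w b * z (b + 1) - w a * z a - ∑ n ∈ Ico a b, (w (n + 1) - w n) * z (n + 1) := by
  induction b, hab using Nat.le_induction with
  | base => simp; ring
  | succ b hab ih =>
    rw [Finset.sum_Icc_succ_top (by omega), Finset.sum_Ico_succ_top hab, ih]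
    ring

lemma meanv_log_succ {n : ℕ} (hn : 1 ≤ n) :
    Real.log ((n + 1 : ℕ) : ℝ) = Real.log (1 + 1 / (n : ℝ)) + Real.log n := by
  have h : (0 : ℝ) < n := by exact_mod_cast hn
  rw [← Real.log_mul (by positivity) h.ne']
  congr 1
  push_cast
  field_simp

lemma meanv_L_le {n : ℕ} (hn : 1 ≤ n) : Real.log (1 + 1 / (n : ℝ)) ≤ 1 / n := by
  have h : (0 : ℝ) < n := by exact_mod_cast hn
  have := Real.log_le_sub_one_of_pos (x := 1 + 1 / (n : ℝ)) (by positivity)
  linarith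

lemma meanv_le_L {n : ℕ} (hn : 1 ≤ n) : 1 / ((n : ℝ) + 1) ≤ Real.log (1 + 1 / (n : ℝ)) := by
  have h : (0 : ℝ) < n := by exact_mod_cast hn
  have := Real.one_sub_inv_le_log_of_pos (x := 1 + 1 / (n : ℝ)) (by positivity)
  refine le_trans (le_of_eq ?_) this
  field_simp
  ring

lemma meanv_L_anti {n : ℕ} (hn : 1 ≤ n) :
    Real.log (1 + 1 / ((n + 1 : ℕ) : ℝ)) ≤ Real.log (1 + 1 / (n : ℝ)) := by
  have h : (0 : ℝ) < n := by exact_mod_cast hn
  refine Real.log_le_log (by positivity) ?_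
  push_cast
  gcongr
  linarith

lemma meanv_low {N n : ℕ} (hN : 1 ≤ N) {u : ℝ} (hu : |u| ≤ N) (h1 : N ≤ n) (h2 : n ≤ 2 * N) :
    |u| / (6 * N) ≤ ‖ei (u * Real.log (1 + 1 / (n : ℝ))) - 1‖ := by
  have hN' : (1 : ℝ) ≤ N := by exact_mod_cast hN
  have h1' : (N : ℝ) ≤ n := by exact_mod_cast h1
  have h2' : (n : ℝ) ≤ 2 * N := by exact_mod_cast h2
  have a1 := meanv_L_le (n := n) (by omega)
  have a2 := meanv_le_L (n := n) (by omega)
  have a3 : 1 / (3 * (N : ℝ)) ≤ Real.log (1 + 1 / (n : ℝ)) :=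
    le_trans (one_div_le_one_div_of_le (by positivity) (by linarith)) a2
  have a4 : Real.log (1 + 1 / (n : ℝ)) ≤ 1 / N :=
    a1.trans (one_div_le_one_div_of_le (by positivity) h1')
  have a0 : 0 ≤ Real.log (1 + 1 / (n : ℝ)) := le_trans (by positivity) a3
  have e : |u * Real.log (1 + 1 / (n : ℝ))| = |u| * Real.log (1 + 1 / (n : ℝ)) := by
    rw [abs_mul, abs_of_nonneg a0]
  have b1 : |u * Real.log (1 + 1 / (n : ℝ))| ≤ π := by
    rw [e]
    calc |u| * Real.log (1 + 1 / (n : ℝ)) ≤ N * (1 / N) := by gcongr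
      _ = 1 := by field_simp
      _ ≤ π := by linarith [Real.pi_gt_three]
  refine le_trans ?_ (le_norm_ei_sub_one b1)
  rw [e]
  have b2 : (1 : ℝ) / 2 ≤ 2 / π := by
    rw [div_le_div_iff₀ (by norm_num) Real.pi_pos]
    linarith [Real.pi_le_four]
  calc |u| / (6 * N) = 1 / 2 * (|u| * (1 / (3 * N))) := by field_simp; ring
    _ ≤ 2 / π * (|u| * Real.log (1 + 1 / (n : ℝ))) := by gcongr

lemma meanv_tele {a b : ℕ} (hab : a ≤ b) (f : ℕ → ℝ) :
    ∑ n ∈ Ico a b, (f n - f (n + 1)) = f a - f b := by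
  induction b, hab using Nat.le_induction with
  | base => simp
  | succ b hab ih => rw [Finset.sum_Ico_succ_top hab, ih]; ring

lemma meanv_harm (N : ℕ) (V : Finset ℕ) (d : ℕ → ℕ) (hd : Set.InjOn d V)
    (h : ∀ s ∈ V, 1 ≤ d s ∧ d s ≤ N) : ∑ s ∈ V, ((d s : ℝ))⁻¹ ≤ 1 + Real.log N := by
  have h1 := harmonic_le_one_add_log N
  rw [harmonic_eq_sum_Icc] at h1
  push_cast at h1
  refine le_trans ?_ h1
  rw [← Finset.sum_image (f := fun x : ℕ => ((x : ℝ))⁻¹) hd]
  refine Finset.sum_le_sum_of_subset_of_nonneg (fun x hx => ?_) (fun _ _ _ => by positivity)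
  obtain ⟨s, hs, rfl⟩ := Finset.mem_image.1 hx
  exact Finset.mem_Icc.2 (h s hs)

lemma meanv_off {N : ℕ} (W : Finset ℕ) (t : ℕ) (hW : ∀ s ∈ W, |(t : ℝ) - s| ≤ N) :
    ∑ s ∈ W.erase t, |(t : ℝ) - s|⁻¹ ≤ 2 * (1 + Real.log N) := by
  rw [← Finset.sum_filter_add_sum_filter_not (W.erase t) (fun s => s < t), two_mul]
  refine add_le_add ?_ ?_
  · refine le_trans (le_of_eq (Finset.sum_congr rfl fun s hs => ?_))
      (meanv_harm N _ (fun s => t - s) (fun x hx y hy e => ?_) fun s hs => ?_)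
    · have hs' := (Finset.mem_filter.1 hs).2
      have : (s : ℝ) < t := by exact_mod_cast hs'
      rw [abs_of_pos (by linarith), Nat.cast_sub hs'.le]
    · have hx' := (Finset.mem_filter.1 (Finset.mem_coe.1 hx)).2
      have hy' := (Finset.mem_filter.1 (Finset.mem_coe.1 hy)).2
      simp only at e
      omega
    · obtain ⟨h1, h2⟩ := Finset.mem_filter.1 hs
      have h3 := (abs_le.1 (hW s (Finset.mem_of_mem_erase h1))).2
      have h4 : (t : ℝ) ≤ ((N + s : ℕ) : ℝ) := by push_cast; linarith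
      have h5 : t ≤ N + s := by exact_mod_cast h4
      omega
  · refine le_trans (le_of_eq (Finset.sum_congr rfl fun s hs => ?_))
      (meanv_harm N _ (fun s => s - t) (fun x hx y hy e => ?_) fun s hs => ?_)
    · have hs' : t ≤ s := not_lt.1 (Finset.mem_filter.1 hs).2
      have : (t : ℝ) ≤ s := by exact_mod_cast hs'
      rw [abs_of_nonpos (by linarith), Nat.cast_sub hs', neg_sub]
    · have hx' := (Finset.mem_filter.1 (Finset.mem_coe.1 hx)).2
      have hy' := (Finset.mem_filter.1 (Finset.mem_coe.1 hy)).2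
      simp only at e
      omega
    · obtain ⟨h1, h2⟩ := Finset.mem_filter.1 hs
      have h0 := Finset.ne_of_mem_erase h1
      have h3 := (abs_le.1 (hW s (Finset.mem_of_mem_erase h1))).1
      have h4 : (s : ℝ) ≤ ((N + t : ℕ) : ℝ) := by push_cast; linarith
      have h5 : s ≤ N + t := by exact_mod_cast h4
      omega

/-- Summation by parts. With `z n = ei (u log n)` one has
`z (n+1) - z n = z n * (ei (u log (1 + 1/n)) - 1)`, so the sum on the left is
`∑ w n (z (n+1) - z n)`. -/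
theorem abel_log (u : ℝ) {a b : ℕ} (ha : 1 ≤ a) (hab : a ≤ b) (w : ℕ → ℂ) :
    ‖∑ n ∈ Icc a b, w n * (ei (u * Real.log (1 + 1 / (n : ℝ))) - 1) * ei (u * Real.log n)‖
      ≤ ‖w a‖ + ‖w b‖ + ∑ n ∈ Ico a b, ‖w (n + 1) - w n‖ := by
  have e : ∑ n ∈ Icc a b, w n * (ei (u * Real.log (1 + 1 / (n : ℝ))) - 1) * ei (u * Real.log n)
      = ∑ n ∈ Icc a b, w n * (ei (u * Real.log ((n + 1 : ℕ) : ℝ)) - ei (u * Real.log n)) := by
    refine Finset.sum_congr rfl fun n hn => ?_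
    rw [meanv_log_succ (ha.trans (Finset.mem_Icc.1 hn).1), mul_add, ei_add]
    ring
  rw [e, meanv_abel hab w (fun n => ei (u * Real.log n))]
  refine (norm_sub_le _ _).trans (add_le_add ((norm_sub_le _ _).trans ?_)
    ((norm_sum_le _ _).trans (le_of_eq (Finset.sum_congr rfl fun n _ => ?_))))
  · rw [norm_mul, norm_mul, norm_ei, norm_ei]
    linarith
  · rw [norm_mul, norm_ei, mul_one]

/-- First derivative test. Apply `abel_log` with `w n = (ei (θ n) - 1)⁻¹`,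
`θ n = u log (1 + 1/n)`; for `N ≤ n ≤ 2N`, `|u| / (4N) ≤ |θ n| ≤ 1`, so `‖w n‖ ≤ 8 N / |u|`
(`le_norm_ei_sub_one`), `‖w (n+1) - w n‖ ≤ |θ n - θ (n+1)| 64 N^2 / u^2`, and the differences
`|θ n| - |θ (n+1)| ≥ 0` telescope to at most `|u| / N`. -/
theorem norm_sum_le {N : ℕ} (hN : 1 ≤ N) {u : ℝ} (hu0 : u ≠ 0) (hu : |u| ≤ N) :
    ‖∑ n ∈ Icc N (2 * N), ei (u * Real.log n)‖ ≤ 80 * N / |u| := by
  have hN' : (1 : ℝ) ≤ N := by exact_mod_cast hN
  have hu1 : 0 < |u| := abs_pos.2 hu0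
  set L : ℕ → ℝ := fun n => Real.log (1 + 1 / (n : ℝ)) with hL
  set w : ℕ → ℂ := fun n => (ei (u * L n) - 1)⁻¹ with hw
  have hq : 0 < |u| / (6 * N) := by positivity
  have hne : ∀ n, N ≤ n → n ≤ 2 * N → ei (u * L n) - 1 ≠ 0 := fun n h1 h2 =>
    norm_pos_iff.1 (hq.trans_le (meanv_low hN hu h1 h2))
  have hwn : ∀ n, N ≤ n → n ≤ 2 * N → ‖w n‖ ≤ 6 * N / |u| := fun n h1 h2 => by
    simp only [hw, norm_inv]
    rw [← inv_div]
    exact inv_anti₀ hq (meanv_low hN hu h1 h2)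
  have e : ∑ n ∈ Icc N (2 * N), ei (u * Real.log n)
      = ∑ n ∈ Icc N (2 * N), w n * (ei (u * Real.log (1 + 1 / (n : ℝ))) - 1) *
        ei (u * Real.log n) := by
    refine Finset.sum_congr rfl fun n hn => ?_
    obtain ⟨h1, h2⟩ := Finset.mem_Icc.1 hn
    rw [show w n * (ei (u * Real.log (1 + 1 / (n : ℝ))) - 1) = 1 from
      inv_mul_cancel₀ (hne n h1 h2), one_mul]
  rw [e]
  refine (abel_log u hN (by omega) w).trans ?_
  have hd : ∀ n ∈ Ico N (2 * N),
      ‖w (n + 1) - w n‖ ≤ 36 * N ^ 2 / |u| * (L n - L (n + 1)) := by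
    intro n hn
    obtain ⟨h1, h2⟩ := Finset.mem_Ico.1 hn
    have n1 := hne n h1 h2.le
    have n2 := hne (n + 1) (by omega) (by omega)
    have e1 : w (n + 1) - w n = (ei (u * L n) - ei (u * L (n + 1))) * w n * w (n + 1) := by
      simp only [hw]
      field_simp
      ring
    have hL0 : 0 ≤ L n - L (n + 1) := sub_nonneg.2 (meanv_L_anti (by omega))
    have e2 : ‖ei (u * L n) - ei (u * L (n + 1))‖ ≤ |u| * (L n - L (n + 1)) := by
      refine (norm_ei_sub_ei_le _ _).trans (le_of_eq ?_)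
      rw [← mul_sub, abs_mul, abs_of_nonneg hL0]
    rw [e1, norm_mul, norm_mul]
    calc _ ≤ |u| * (L n - L (n + 1)) * (6 * N / |u|) * (6 * N / |u|) := by
          gcongr
          · exact hwn n h1 h2.le
          · exact hwn (n + 1) (by omega) (by omega)
      _ = _ := by field_simp; ring
  have hs : ∑ n ∈ Ico N (2 * N), ‖w (n + 1) - w n‖ ≤ 36 * N / |u| := by
    refine (Finset.sum_le_sum hd).trans ?_
    rw [← Finset.mul_sum, meanv_tele (by omega) L]
    have a1 : L N ≤ 1 / N := meanv_L_le hN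
    have a2 : 0 ≤ L (2 * N) := le_trans (by positivity) (meanv_le_L (n := 2 * N) (by omega))
    calc 36 * N ^ 2 / |u| * (L N - L (2 * N)) ≤ 36 * N ^ 2 / |u| * (1 / N) := by
          gcongr
          linarith
      _ = _ := by field_simp
  have w1 := hwn N le_rfl (by omega)
  have w2 := hwn (2 * N) (by omega) le_rfl
  have hp : 0 ≤ (N : ℝ) / |u| := by positivity
  rw [mul_div_assoc] at w1 w2 hs ⊢
  linarith

/-- Mean value on one block: expand the square, use `norm_sum_le` off the diagonal and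
`∑_{s ≠ t, |s - t| ≤ N} 1 / |t - s| ≤ 2 (1 + log N)` (`harmonic_le_one_add_log`). -/
theorem mean_value {N : ℕ} (hN : 1 ≤ N) (W : Finset ℕ)
    (hW : ∀ t ∈ W, ∀ s ∈ W, |(t : ℝ) - s| ≤ N) (η : ℕ → ℂ) (hη : ∀ t, ‖η t‖ ≤ 1) :
    ∑ n ∈ Icc N (2 * N), ‖∑ t ∈ W, η t * ei (t * Real.log n)‖ ^ 2
      ≤ 200 * W.card * N * (1 + Real.log N) := by
  have hN' : (1 : ℝ) ≤ N := by exact_mod_cast hN
  have hlog : 0 ≤ Real.log N := Real.log_nonneg hN'
  have e : ((∑ n ∈ Icc N (2 * N), ‖∑ t ∈ W, η t * ei (t * Real.log n)‖ ^ 2 : ℝ) : ℂ)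
      = ∑ t ∈ W, ∑ s ∈ W, η t * (starRingEnd ℂ) (η s) *
          ∑ n ∈ Icc N (2 * N), ei (((t : ℝ) - s) * Real.log n) := by
    push_cast
    simp only [Finset.mul_sum]
    rw [Finset.sum_congr rfl fun t _ => Finset.sum_comm, Finset.sum_comm]
    refine Finset.sum_congr rfl fun n _ => ?_
    rw [← Complex.mul_conj', map_sum, Finset.sum_mul_sum]
    refine Finset.sum_congr rfl fun t _ => Finset.sum_congr rfl fun s _ => ?_
    rw [map_mul, conj_ei, sub_mul, sub_eq_add_neg, ei_add]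
    ring
  have hrow : ∀ t ∈ W, ∑ s ∈ W, ‖η t * (starRingEnd ℂ) (η s) *
      ∑ n ∈ Icc N (2 * N), ei (((t : ℝ) - s) * Real.log n)‖ ≤ 200 * N * (1 + Real.log N) := by
    intro t ht
    have b : ∀ s, ‖η t * (starRingEnd ℂ) (η s) *
        ∑ n ∈ Icc N (2 * N), ei (((t : ℝ) - s) * Real.log n)‖
        ≤ ‖∑ n ∈ Icc N (2 * N), ei (((t : ℝ) - s) * Real.log n)‖ := by
      intro s
      rw [norm_mul, norm_mul, Complex.norm_conj]
      exact mul_le_of_le_one_left (norm_nonneg _)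
        (mul_le_one₀ (hη t) (norm_nonneg _) (hη s))
    refine (Finset.sum_le_sum fun s _ => b s).trans ?_
    rw [← Finset.add_sum_erase W _ ht]
    have d1 : ‖∑ n ∈ Icc N (2 * N), ei (((t : ℝ) - t) * Real.log n)‖ ≤ 2 * N := by
      refine (_root_.norm_sum_le _ _).trans ?_
      simp only [norm_ei, Finset.sum_const, Nat.card_Icc, nsmul_eq_mul, mul_one]
      have : 2 * N + 1 - N ≤ 2 * N := by omega
      exact_mod_cast this
    have d2 : ∑ s ∈ W.erase t, ‖∑ n ∈ Icc N (2 * N), ei (((t : ℝ) - s) * Real.log n)‖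
        ≤ 80 * N * (2 * (1 + Real.log N)) := by
      refine le_trans ?_ (mul_le_mul_of_nonneg_left (meanv_off W t (hW t ht)) (by positivity))
      rw [Finset.mul_sum]
      refine Finset.sum_le_sum fun s hs => ?_
      refine norm_sum_le hN (sub_ne_zero.2 ?_) (hW t ht s (Finset.mem_of_mem_erase hs))
      exact_mod_cast (Finset.ne_of_mem_erase hs).symm
    have : 0 ≤ (N : ℝ) * Real.log N := by positivity
    linarith
  calc _ ≤ ‖((∑ n ∈ Icc N (2 * N), ‖∑ t ∈ W, η t * ei (t * Real.log n)‖ ^ 2 : ℝ) : ℂ)‖ := by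
        rw [Complex.norm_real]
        exact le_abs_self _
    _ ≤ ∑ t ∈ W, 200 * N * (1 + Real.log N) := by
        rw [e]
        exact (_root_.norm_sum_le _ _).trans (Finset.sum_le_sum fun t ht =>
          (_root_.norm_sum_le _ _).trans (hrow t ht))
    _ = _ := by
        rw [Finset.sum_const, nsmul_eq_mul]
        ring

end Pool.Agent.Lib.MP_ecd12e_nt.Bar
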