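import Pool.Agent.Lib.MP_ecd12e_nt.Bar.BSG

set_option autoImplicit false

namespace Pool.Agent.Lib.MP_ecd12e_nt.Bar

open Finset Real
open scoped Pointwise

/-- Shifted coincidences are at most the unshifted ones. -/
lemma piece_shift {β : Type*} (P : Finset β) (g : β → ℤ) (e : ℤ) :
    ((P ×ˢ P).filter (fun x : β × β => g x.1 - g x.2 = e)).card ≤
      ((P ×ˢ P).filter (fun x : β × β => g x.1 = g x.2)).card := by
  classical
  set r : ℤ → ℕ := fun t => (P.filter (fun p => g p = t)).card with hr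
  set S := P.image g with hS
  have key : ∀ e : ℤ, ((P ×ˢ P).filter (fun x : β × β => g x.1 - g x.2 = e)).card =
      ∑ t ∈ S, r (t + e) * r t := by
    intro e
    rw [Finset.card_eq_sum_card_fiberwise (f := fun x : β × β => g x.2) (t := S)]
    · refine Finset.sum_congr rfl fun t _ => ?_
      simp only [hr]
      rw [← Finset.card_product]
      congr 1
      ext x
      simp only [Finset.mem_filter, Finset.mem_product]
      constructor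
      · rintro ⟨⟨⟨h1, h2⟩, h3⟩, h4⟩
        exact ⟨⟨h1, by omega⟩, h2, h4⟩
      · rintro ⟨⟨h1, h3⟩, h2, h4⟩
        exact ⟨⟨⟨h1, h2⟩, by omega⟩, h4⟩
    · intro x hx
      have := (Finset.mem_product.1 (Finset.mem_filter.1 (Finset.mem_coe.1 hx)).1).2
      exact Finset.mem_coe.2 (Finset.mem_image_of_mem g this)
  have h0 : ((P ×ˢ P).filter (fun x : β × β => g x.1 = g x.2)).card = ∑ t ∈ S, r t * r t := by
    have := key 0
    simp only [add_zero, sub_eq_zero] at this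
    exact this
  have h1 : ∑ t ∈ S, r (t + e) * r (t + e) ≤ ∑ t ∈ S, r t * r t := by
    have : ∑ t ∈ S, r (t + e) * r (t + e) = ∑ u ∈ S.image (fun t => t + e), r u * r u := by
      symm
      refine Finset.sum_image (g := fun t => t + e) (f := fun u => r u * r u) ?_
      intro a _ b _ hab
      simpa using hab
    rw [this]
    refine Finset.sum_le_sum_of_ne_zero fun u _ hu => ?_
    have hu' : r u ≠ 0 := fun h => hu (by rw [h, mul_zero])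
    obtain ⟨p, hp⟩ := Finset.card_ne_zero.1 hu'
    obtain ⟨hp1, hp2⟩ := Finset.mem_filter.1 hp
    exact hp2 ▸ Finset.mem_image_of_mem g hp1
  have h2 : 2 * ∑ t ∈ S, r (t + e) * r t ≤
      ∑ t ∈ S, r (t + e) * r (t + e) + ∑ t ∈ S, r t * r t := by
    rw [Finset.mul_sum, ← Finset.sum_add_distrib]
    refine Finset.sum_le_sum fun t _ => ?_
    nlinarith [sq_nonneg ((r (t + e) : ℤ) - r t)]
  rw [key, h0]
  omega

lemma piece_fib {y : ℝ} (hy : 3 / 4 ≤ y) {w u : ℤ} (h : ⌊y * (w : ℝ)⌋ = u) :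
    w ∈ Finset.Icc ⌈(u : ℝ) / y⌉ (⌈(u : ℝ) / y⌉ + 1) := by
  have hy0 : 0 < y := by linarith
  have h1 : (u : ℝ) ≤ y * w := h ▸ Int.floor_le _
  have h2 : y * w < u + 1 := h ▸ Int.lt_floor_add_one _
  rw [Finset.mem_Icc]
  refine ⟨Int.ceil_le.2 (by rw [div_le_iff₀ hy0]; linarith), ?_⟩
  have h3 : (u : ℝ) / y ≤ ⌈(u : ℝ) / y⌉ := Int.le_ceil _
  rw [div_le_iff₀ hy0] at h3
  have h4 : (w : ℝ) < (⌈(u : ℝ) / y⌉ : ℝ) + 2 := by
    by_contra hc
    push Not at hc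
    nlinarith [mul_le_mul_of_nonneg_left hc hy0.le]
  have h5 : w < ⌈(u : ℝ) / y⌉ + 2 := by exact_mod_cast h4
  omega

lemma piece_fib3 {y : ℝ} (hy : 3 / 4 ≤ y) {w1 w2 d : ℤ}
    (h : ⌊y * (w1 : ℝ)⌋ - ⌊y * (w2 : ℝ)⌋ = d) :
    w1 - w2 ∈ Finset.Icc ⌈((d : ℝ) - 1) / y⌉ (⌈((d : ℝ) - 1) / y⌉ + 2) := by
  have hy0 : 0 < y := by linarith
  have a1 := Int.floor_le (y * (w1 : ℝ))
  have a2 := Int.lt_floor_add_one (y * (w1 : ℝ))
  have b1 := Int.floor_le (y * (w2 : ℝ))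
  have b2 := Int.lt_floor_add_one (y * (w2 : ℝ))
  have hd : ((⌊y * (w1 : ℝ)⌋ : ℤ) : ℝ) - ((⌊y * (w2 : ℝ)⌋ : ℤ) : ℝ) = d := by exact_mod_cast h
  rw [Finset.mem_Icc]
  refine ⟨Int.ceil_le.2 (by rw [div_le_iff₀ hy0]; push_cast; linarith), ?_⟩
  have h3 : ((d : ℝ) - 1) / y ≤ ⌈((d : ℝ) - 1) / y⌉ := Int.le_ceil _
  rw [div_le_iff₀ hy0] at h3
  have h4 : (w1 : ℝ) - w2 < (⌈((d : ℝ) - 1) / y⌉ : ℝ) + 3 := by
    by_contra hc
    push Not at hc
    nlinarith [mul_le_mul_of_nonneg_left hc hy0.le]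
  have h5 : w1 - w2 < ⌈((d : ℝ) - 1) / y⌉ + 3 := by exact_mod_cast h4
  omega

lemma piece_energy (H0 : Finset ℤ) {y : ℝ} (hy : 3 / 4 ≤ y) :
    enr H0 H0 y 16 ≤ 132 * ((((H0 ×ˢ H0.image (fun w : ℤ => ⌊y * (w : ℝ)⌋)) ×ˢ
      (H0 ×ˢ H0.image (fun w : ℤ => ⌊y * (w : ℝ)⌋))).filter
        (fun q : (ℤ × ℤ) × (ℤ × ℤ) => q.1.1 - q.1.2 = q.2.1 - q.2.2)).card) := by
  set f : ℤ → ℤ := fun w => ⌊y * (w : ℝ)⌋ with hf
  set Q := H0 ×ˢ H0.image f with hQ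
  set T := (Q ×ˢ Q).filter (fun q : (ℤ × ℤ) × (ℤ × ℤ) =>
    (q.1.1 - q.1.2) - (q.2.1 - q.2.2) ∈ Finset.Icc (-16 : ℤ) 16) with hT
  have h1 : enr H0 H0 y 16 ≤ 4 * T.card := by
    unfold enr
    refine Finset.card_le_mul_card_image_of_maps_to
      (f := fun q : (ℤ × ℤ) × (ℤ × ℤ) => ((q.1.1, f q.2.1), (q.1.2, f q.2.2))) ?_ 4 ?_
    · rintro ⟨⟨z1, z2⟩, w1, w2⟩ hq
      simp only [Finset.mem_filter, Finset.mem_product] at hq
      obtain ⟨⟨⟨a1, a2⟩, a3, a4⟩, hb⟩ := hq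
      simp only [hT, hQ, Finset.mem_filter, Finset.mem_product, Finset.mem_Icc]
      refine ⟨⟨⟨a1, Finset.mem_image_of_mem f a3⟩, a2, Finset.mem_image_of_mem f a4⟩, ?_⟩
      have c1 := Int.floor_le (y * (w1 : ℝ))
      have c2 := Int.lt_floor_add_one (y * (w1 : ℝ))
      have d1 := Int.floor_le (y * (w2 : ℝ))
      have d2 := Int.lt_floor_add_one (y * (w2 : ℝ))
      rw [abs_le, mul_sub] at hb
      have e1 : (-17 : ℝ) < ((z1 - f w1 - (z2 - f w2) : ℤ) : ℝ) := by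
        simp only [hf]; push_cast; linarith [hb.1]
      have e2 : ((z1 - f w1 - (z2 - f w2) : ℤ) : ℝ) < 17 := by
        simp only [hf]; push_cast; linarith [hb.2]
      have e3 : (-17 : ℤ) < z1 - f w1 - (z2 - f w2) := by exact_mod_cast e1
      have e4 : z1 - f w1 - (z2 - f w2) < 17 := by exact_mod_cast e2
      omega
    · rintro ⟨⟨z1, u1⟩, z2, u2⟩ _
      refine le_trans (Finset.card_le_card (t := ({(z1, z2)} : Finset (ℤ × ℤ)) ×ˢ
        (Finset.Icc ⌈(u1 : ℝ) / y⌉ (⌈(u1 : ℝ) / y⌉ + 1) ×ˢ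
          Finset.Icc ⌈(u2 : ℝ) / y⌉ (⌈(u2 : ℝ) / y⌉ + 1))) ?_) ?_
      · rintro ⟨⟨x1, x2⟩, w1, w2⟩ hq
        have h := (Finset.mem_filter.1 hq).2
        simp only [Prod.mk.injEq] at h
        obtain ⟨⟨rfl, k1⟩, rfl, k2⟩ := h
        exact Finset.mem_product.2 ⟨Finset.mem_singleton_self _,
          Finset.mem_product.2 ⟨piece_fib hy k1, piece_fib hy k2⟩⟩
      · have k : ∀ c : ℤ, (Finset.Icc c (c + 1)).card = 2 := fun c => by
          rw [Int.card_Icc]; omega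
        rw [Finset.card_product, Finset.card_product, k, k, Finset.card_singleton]
  have h2 : T.card ≤ 33 * ((Q ×ˢ Q).filter
      (fun q : (ℤ × ℤ) × (ℤ × ℤ) => q.1.1 - q.1.2 = q.2.1 - q.2.2)).card := by
    have : T ⊆ (Finset.Icc (-16 : ℤ) 16).biUnion (fun e => (Q ×ˢ Q).filter
        (fun q : (ℤ × ℤ) × (ℤ × ℤ) => (q.1.1 - q.1.2) - (q.2.1 - q.2.2) = e)) := by
      intro q hq
      obtain ⟨q1, q2⟩ := Finset.mem_filter.1 hq
      exact Finset.mem_biUnion.2 ⟨_, q2, Finset.mem_filter.2 ⟨q1, rfl⟩⟩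
    refine le_trans (Finset.card_le_card this) (le_trans (Finset.card_biUnion_le_card_mul _ _ _
      (fun e _ => piece_shift Q (fun p : ℤ × ℤ => p.1 - p.2) e)) ?_)
    simp
  omega

/-- Structure for one multiplier. Let `D = |H0|`, `Y` the image of `H0` under `h ↦ ⌊y h⌋`,
`r' t` the number of `(h, h') ∈ H0 × H0` with `h - ⌊y h'⌋ = t` and `r t` the number of
`(h, w) ∈ H0 × Y` with `h - w = t`; `r' t ≤ 2 r t` as `y ≥ 3/4`. A quadruple counted in `enr` has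
`|(z1 - ⌊y w1⌋) - (z2 - ⌊y w2⌋)| ≤ 16`, and `∑_t r' t * r' (t - e) ≤ ∑_t (r' t)^2` for each of the
`33` shifts `e`; so `D^3 ≤ 132 K ∑_t (r t)^2`. Apply `bsg` with `132 K`; choose `φ u ∈ H0` with
`⌊y φ u⌋ = u - t`. For the last bound send `d' = φ u1 - φ u2` to `u1 - u2`; since
`|y d' - (u1 - u2)| < 1` the fibres have at most `3` points. -/
theorem exists_piece (H0 : Finset ℤ) (hH : H0.Nonempty) {K y : ℝ} (hK : 1000 ≤ K)
    (hy : 3 / 4 ≤ y) (hE : (H0.card : ℝ) ^ 3 ≤ K * (enr H0 H0 y 16 : ℝ)) :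
    ∃ U ⊆ H0, ∃ t : ℤ, ∃ φ : ℤ → ℤ, (∀ u ∈ U, φ u ∈ H0 ∧ ⌊y * (φ u : ℝ)⌋ = u - t) ∧
      (H0.card : ℝ) ≤ K ^ 8 * U.card ∧ ((U - U).card : ℝ) ≤ K ^ 8 * H0.card ∧
      ((U.image φ - U.image φ).card : ℝ) ≤ 3 * K ^ 8 * H0.card := by
  set f : ℤ → ℤ := fun w => ⌊y * (w : ℝ)⌋ with hf
  have hD : (0 : ℝ) < H0.card := by exact_mod_cast hH.card_pos
  have hK0 : 0 < K := by linarith
  have hE' := piece_energy H0 hy
  obtain ⟨t, Z, hZ, h1, h2, h3⟩ := bsg H0 (H0.image f) (D := H0.card) (K := 132 * K) hD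
    (by positivity) le_rfl (by exact_mod_cast Finset.card_image_le) (by
      refine le_trans hE ?_
      rw [mul_comm (132 : ℝ) K, mul_assoc]
      exact mul_le_mul_of_nonneg_left (by exact_mod_cast hE') hK0.le)
  have hch : ∀ u : ℤ, ∃ w : ℤ, u ∈ Z → w ∈ H0 ∧ ⌊y * (w : ℝ)⌋ = u - t := by
    intro u
    by_cases hu : u ∈ Z
    · obtain ⟨w, hw1, hw2⟩ := Finset.mem_image.1 (h1 u hu)
      exact ⟨w, fun _ => ⟨hw1, hw2⟩⟩
    · exact ⟨0, fun h => absurd h hu⟩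
  choose φ hφ using hch
  have k5 : (1000 : ℝ) ^ 5 ≤ K ^ 5 := by gcongr
  have k7 : (1000 : ℝ) ^ 7 ≤ K ^ 7 := by gcongr
  have k1 : 4 * (132 * K) ≤ K ^ 8 := by
    calc 4 * (132 * K) = 528 * K := by ring
      _ ≤ K ^ 7 * K := by gcongr; exact le_trans (by norm_num) k7
      _ = K ^ 8 := by ring
  have k3 : 4096 * (132 * K) ^ 3 ≤ K ^ 8 := by
    calc 4096 * (132 * K) ^ 3 = 4096 * 132 ^ 3 * K ^ 3 := by ring
      _ ≤ K ^ 5 * K ^ 3 := by gcongr; exact le_trans (by norm_num) k5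
      _ = K ^ 8 := by ring
  have h4 : ((Z - Z).card : ℝ) ≤ K ^ 8 * H0.card := le_trans h3 (by gcongr)
  refine ⟨Z, hZ, t, φ, hφ, le_trans h2 (by gcongr), h4, ?_⟩
  have h5 : (Z.image φ - Z.image φ).card ≤ (Z - Z).card * 3 := by
    refine le_trans (Finset.card_le_card (t := (Z - Z).biUnion (fun d : ℤ =>
      Finset.Icc ⌈((d : ℝ) - 1) / y⌉ (⌈((d : ℝ) - 1) / y⌉ + 2))) ?_)
      (Finset.card_biUnion_le_card_mul _ _ _ (fun d _ => ?_))
    · intro x hx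
      obtain ⟨a, ha, b, hb, rfl⟩ := Finset.mem_sub.1 hx
      obtain ⟨u1, hu1, rfl⟩ := Finset.mem_image.1 ha
      obtain ⟨u2, hu2, rfl⟩ := Finset.mem_image.1 hb
      refine Finset.mem_biUnion.2 ⟨u1 - u2, Finset.sub_mem_sub hu1 hu2, piece_fib3 hy ?_⟩
      rw [(hφ u1 hu1).2, (hφ u2 hu2).2]
      ring
    · rw [Int.card_Icc]
      omega
  have h6 : ((Z.image φ - Z.image φ).card : ℝ) ≤ (Z - Z).card * 3 := by exact_mod_cast h5
  linarith

/-- Popular pairs: `∑_{i,i'} |V i ∩ V i'| = ∑_ω deg(ω)^2 ≥ (∑_i |V i|)^2 / |Ω|`. -/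
theorem popular_pair {α ι : Type*} [DecidableEq α] (Ω : Finset α) (hΩ : Ω.Nonempty)
    (I : Finset ι) (hI : I.Nonempty) (V : ι → Finset α) (hV : ∀ i ∈ I, V i ⊆ Ω) {β : ℝ}
    (hβ : 0 < β) (hc : ∀ i ∈ I, β * Ω.card ≤ (V i).card) :
    ∃ i0 ∈ I, ∃ I' ⊆ I, β ^ 2 * I.card ≤ 2 * I'.card ∧
      ∀ i ∈ I', β ^ 2 * Ω.card ≤ 2 * (V i ∩ V i0).card := by
  classical
  have hO : (0 : ℝ) < Ω.card := by exact_mod_cast hΩ.card_pos
  have hIc : (0 : ℝ) < I.card := by exact_mod_cast hI.card_pos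
  set e : ι → α → ℝ := fun i w => if w ∈ V i then 1 else 0 with he
  have c1 : ∀ i ∈ I, ((V i).card : ℝ) = ∑ w ∈ Ω, e i w := by
    intro i hi
    simp only [he]
    rw [Finset.sum_ite_mem, Finset.inter_eq_right.2 (hV i hi)]
    simp
  have c2 : ∀ i ∈ I, ∀ j, ((V i ∩ V j).card : ℝ) = ∑ w ∈ Ω, e i w * e j w := by
    intro i hi j
    have : ∀ w, e i w * e j w = if w ∈ V i ∩ V j then 1 else 0 := by
      intro w
      simp only [he, Finset.mem_inter]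
      by_cases a : w ∈ V i <;> by_cases b : w ∈ V j <;> simp [a, b]
    simp only [this]
    rw [Finset.sum_ite_mem,
      Finset.inter_eq_right.2 (Finset.inter_subset_left.trans (hV i hi))]
    simp
  have s1 : ∑ j ∈ I, ∑ i ∈ I, ((V i ∩ V j).card : ℝ) = ∑ w ∈ Ω, (∑ i ∈ I, e i w) ^ 2 := by
    calc ∑ j ∈ I, ∑ i ∈ I, ((V i ∩ V j).card : ℝ)
        = ∑ j ∈ I, ∑ w ∈ Ω, ∑ i ∈ I, e i w * e j w := by
          refine Finset.sum_congr rfl fun j _ => ?_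
          rw [Finset.sum_comm]
          exact Finset.sum_congr rfl fun i hi => c2 i hi j
      _ = ∑ w ∈ Ω, (∑ i ∈ I, e i w) ^ 2 := by
          rw [Finset.sum_comm]
          refine Finset.sum_congr rfl fun w _ => ?_
          rw [sq, Finset.sum_mul_sum, Finset.sum_comm]
  have s2 : I.card * (β * Ω.card) ≤ ∑ w ∈ Ω, ∑ i ∈ I, e i w := by
    rw [Finset.sum_comm]
    calc (I.card : ℝ) * (β * Ω.card) = ∑ _i ∈ I, β * Ω.card := by simp
      _ ≤ _ := Finset.sum_le_sum fun i hi => by rw [← c1 i hi]; exact hc i hi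
  have s3 : (∑ w ∈ Ω, ∑ i ∈ I, e i w) ^ 2 ≤ Ω.card * ∑ w ∈ Ω, (∑ i ∈ I, e i w) ^ 2 :=
    sq_sum_le_card_mul_sum_sq
  have s4 : ∑ _j ∈ I, β ^ 2 * I.card * Ω.card ≤ ∑ j ∈ I, ∑ i ∈ I, ((V i ∩ V j).card : ℝ) := by
    rw [s1, Finset.sum_const, nsmul_eq_mul]
    have : (I.card * (β * Ω.card)) ^ 2 ≤ (∑ w ∈ Ω, ∑ i ∈ I, e i w) ^ 2 := by gcongr
    refine le_of_mul_le_mul_left ?_ hO
    calc (Ω.card : ℝ) * (I.card * (β ^ 2 * I.card * Ω.card)) = (I.card * (β * Ω.card)) ^ 2 := by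
          ring
      _ ≤ _ := this.trans s3
  obtain ⟨j, hj, hs⟩ := Finset.exists_le_of_sum_le hI s4
  set I' := I.filter (fun i => β ^ 2 * Ω.card ≤ 2 * ((V i ∩ V j).card : ℝ)) with hI'
  refine ⟨j, hj, I', Finset.filter_subset _ _, ?_, fun i hi => (Finset.mem_filter.1 hi).2⟩
  have s5 : ∑ i ∈ I, ((V i ∩ V j).card : ℝ) ≤
      ∑ i ∈ I, ((if i ∈ I' then (Ω.card : ℝ) else 0) + β ^ 2 * Ω.card / 2) := by
    refine Finset.sum_le_sum fun i hi => ?_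
    split_ifs with h
    · have : ((V i ∩ V j).card : ℝ) ≤ Ω.card := by
        exact_mod_cast Finset.card_le_card (Finset.inter_subset_left.trans (hV i hi))
      have : 0 ≤ β ^ 2 * Ω.card / 2 := by positivity
      linarith
    · have : ¬ β ^ 2 * Ω.card ≤ 2 * ((V i ∩ V j).card : ℝ) :=
        fun h' => h (Finset.mem_filter.2 ⟨hi, h'⟩)
      linarith
  rw [Finset.sum_add_distrib, Finset.sum_ite_mem,
    Finset.inter_eq_right.2 (Finset.filter_subset _ _), Finset.sum_const, Finset.sum_const,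
    nsmul_eq_mul, nsmul_eq_mul] at s5
  refine le_of_mul_le_mul_right ?_ hO
  linarith

end Pool.Agent.Lib.MP_ecd12e_nt.Bar
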