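import Pool.Agent.Lib.MP_ecd12e_nt.Bar.Dual

set_option autoImplicit false

namespace Pool.Agent.Lib.MP_ecd12e_nt.Bar

open Finset Real
open scoped Pointwise

theorem xenergy_log {U σ : ℝ} (hU : 0 < U) (h0 : 0 ≤ σ) (h1 : 2 * σ ≤ U) :
    |Real.log (U - σ) - Real.log U + σ / U| ≤ 2 * (σ / U) ^ 2 := by
  have hw0 : 0 ≤ σ / U := div_nonneg h0 hU.le
  have hw1 : σ / U ≤ 1 / 2 := by
    rw [div_le_iff₀ hU]; linarith
  have hlt : |σ / U| < 1 := by rw [abs_of_nonneg hw0]; linarith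
  have h := Real.abs_log_sub_add_sum_range_le hlt 1
  simp only [Finset.sum_range_one, zero_add, pow_one, Nat.cast_zero, div_one] at h
  have e : Real.log (U - σ) - Real.log U = Real.log (1 - σ / U) := by
    rw [← Real.log_div (by linarith) hU.ne']
    congr 1
    field_simp
  rw [e, add_comm]
  refine h.trans ?_
  rw [abs_of_nonneg hw0, div_le_iff₀ (by linarith)]
  have h2 : 0 ≤ (σ / U) ^ 2 := sq_nonneg _
  have e2 : (σ / U) ^ (1 + 1) = (σ / U) ^ 2 := rfl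
  rw [e2]
  nlinarith

theorem xenergy_floor {c y1 y2 y3 y4 : ℝ} (hc : 0 < c)
    (h : ⌊c * y1 / (2 * π)⌋ + ⌊c * y2 / (2 * π)⌋ = ⌊c * y3 / (2 * π)⌋ + ⌊c * y4 / (2 * π)⌋) :
    |y1 + y2 - y3 - y4| ≤ 16 / c := by
  have hpi := Real.pi_pos
  have hpi4 := Real.pi_le_four
  have h' : ((⌊c * y1 / (2 * π)⌋ : ℤ) : ℝ) + ((⌊c * y2 / (2 * π)⌋ : ℤ) : ℝ)
      = ((⌊c * y3 / (2 * π)⌋ : ℤ) : ℝ) + ((⌊c * y4 / (2 * π)⌋ : ℤ) : ℝ) := by exact_mod_cast h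
  have a1 := Int.floor_le (c * y1 / (2 * π))
  have a2 := Int.floor_le (c * y2 / (2 * π))
  have a3 := Int.floor_le (c * y3 / (2 * π))
  have a4 := Int.floor_le (c * y4 / (2 * π))
  have b1 := Int.lt_floor_add_one (c * y1 / (2 * π))
  have b2 := Int.lt_floor_add_one (c * y2 / (2 * π))
  have b3 := Int.lt_floor_add_one (c * y3 / (2 * π))
  have b4 := Int.lt_floor_add_one (c * y4 / (2 * π))
  have key : |c * (y1 + y2 - y3 - y4) / (2 * π)| ≤ 2 := by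
    have e : c * (y1 + y2 - y3 - y4) / (2 * π)
        = c * y1 / (2 * π) + c * y2 / (2 * π) - c * y3 / (2 * π) - c * y4 / (2 * π) := by ring
    rw [e, abs_le]
    constructor <;> linarith
  rw [abs_div, abs_mul, abs_of_pos hc, abs_of_pos (by positivity : (0 : ℝ) < 2 * π),
    div_le_iff₀ (by positivity)] at key
  rw [le_div_iff₀ hc]
  linarith

theorem xenergy_cell {B : Finset ℕ} {q Q s : ℕ} (hq : 0 < q) (hs : s ∈ cell B q Q) :
    Q ∈ cells B q ∧ 0 ≤ (s : ℝ) - (Q : ℝ) * q ∧ (s : ℝ) - (Q : ℝ) * q ≤ q := by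
  obtain ⟨hsB, hsQ⟩ := Finset.mem_filter.1 hs
  refine ⟨Finset.mem_image.2 ⟨s, hsB, hsQ⟩, ?_, ?_⟩
  · have : Q * q ≤ s := hsQ ▸ Nat.div_mul_le_self s q
    have h2 : ((Q * q : ℕ) : ℝ) ≤ s := by exact_mod_cast this
    push_cast at h2
    linarith
  · have : s < Q * q + q := by
      have := Nat.lt_div_mul_add (a := s) hq
      rwa [hsQ] at this
    have h2 : (s : ℝ) < ((Q * q + q : ℕ) : ℝ) := by exact_mod_cast this
    push_cast at h2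
    linarith

theorem xenergy_quot (s : ℕ) {q : ℕ} (hq : 0 < q) :
    0 ≤ (s : ℝ) - ((s / q : ℕ) : ℝ) * q ∧ (s : ℝ) - ((s / q : ℕ) : ℝ) * q ≤ q := by
  have hs : s ∈ cell {s} q (s / q) := by simp [cell]
  exact (xenergy_cell hq hs).2

theorem xenergy_pass {R l s1 s2 t1 t2 z1 z2 u1 u2 : ℝ} (hR : 0 < R) (hl0 : 0 ≤ l)
    (hl : l ≤ 3 / 2) (h : |(s1 - s2) - l * (t1 - t2)| ≤ R)
    (a1 : 0 ≤ s1 - z1 * R ∧ s1 - z1 * R ≤ R) (a2 : 0 ≤ s2 - z2 * R ∧ s2 - z2 * R ≤ R)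
    (b1 : 0 ≤ t1 - u1 * R ∧ t1 - u1 * R ≤ R) (b2 : 0 ≤ t2 - u2 * R ∧ t2 - u2 * R ≤ R) :
    |(z1 - z2) - l * (u1 - u2)| ≤ 4 := by
  have c1 : l * ((t1 - u1 * R) - (t2 - u2 * R)) ≤ 3 / 2 * R := by
    calc l * ((t1 - u1 * R) - (t2 - u2 * R)) ≤ l * R :=
          mul_le_mul_of_nonneg_left (by linarith [b1.2, b2.1]) hl0
      _ ≤ 3 / 2 * R := mul_le_mul_of_nonneg_right hl hR.le
  have c2 : l * ((t2 - u2 * R) - (t1 - u1 * R)) ≤ 3 / 2 * R := by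
    calc l * ((t2 - u2 * R) - (t1 - u1 * R)) ≤ l * R :=
          mul_le_mul_of_nonneg_left (by linarith [b1.1, b2.2]) hl0
      _ ≤ 3 / 2 * R := mul_le_mul_of_nonneg_right hl hR.le
  have e : ((z1 - z2) - l * (u1 - u2)) * R = ((s1 - s2) - l * (t1 - t2))
      - ((s1 - z1 * R) - (s2 - z2 * R)) + l * ((t1 - u1 * R) - (t2 - u2 * R)) := by ring
  rw [abs_le] at h
  have k1 : ((z1 - z2) - l * (u1 - u2)) * R ≤ 4 * R := by
    rw [e]; linarith [a1.1, a1.2, a2.1, a2.2, h.2]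
  have k2 : -4 * R ≤ ((z1 - z2) - l * (u1 - u2)) * R := by
    rw [e]; linarith [a1.1, a1.2, a2.1, a2.2, h.1]
  rw [abs_le]
  exact ⟨le_of_mul_le_mul_right k2 hR, le_of_mul_le_mul_right k1 hR⟩

theorem xenergy_err {U M q σ : ℝ} (hM : 0 < M) (hU : 2 * M < U) (hq : q ≤ M) (h0 : 0 ≤ σ)
    (h1 : σ ≤ q) : |Real.log (U - σ) - Real.log U + σ / U| ≤ q ^ 2 / (2 * M ^ 2) := by
  have hU0 : 0 < U := by linarith
  refine (xenergy_log hU0 h0 (by linarith)).trans ?_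
  have hw : σ / U ≤ q / (2 * M) := by
    apply div_le_div₀ (by linarith) h1 (by linarith) hU.le
  have hw0 : 0 ≤ σ / U := div_nonneg h0 hU0.le
  calc 2 * (σ / U) ^ 2 ≤ 2 * (q / (2 * M)) ^ 2 := by gcongr
    _ = q ^ 2 / (2 * M ^ 2) := by field_simp

theorem xenergy_combine {U U' a1 a2 b1 b2 L1 L2 K1 K2 LU LU' ε δ : ℝ} (hU : 0 < U)
    (e1 : |L1 - LU + a1 / U| ≤ ε) (e2 : |L2 - LU + a2 / U| ≤ ε)
    (f1 : |K1 - LU' + b1 / U'| ≤ ε) (f2 : |K2 - LU' + b2 / U'| ≤ ε)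
    (h : |L1 + K2 - L2 - K1| ≤ δ) :
    |(a1 - a2) - U / U' * (b1 - b2)| ≤ U * (4 * ε + δ) := by
  have e : (a1 - a2) - U / U' * (b1 - b2) = U * ((L1 - LU + a1 / U) - (L2 - LU + a2 / U)
      - (K1 - LU' + b1 / U') + (K2 - LU' + b2 / U') - (L1 + K2 - L2 - K1)) := by
    field_simp
    ring
  rw [e, abs_mul, abs_of_pos hU]
  apply mul_le_mul_of_nonneg_left _ hU.le
  rw [abs_le] at *
  constructor <;> linarith [e1.1, e1.2, e2.1, e2.2, f1.1, f1.2, f2.1, f2.2, h.1, h.2]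

theorem xenergy_num {T : ℝ} (hT : 1000 ≤ T) {k x p r : ℕ} (hxr : x + r = 2 * k)
    (hlin : 2 * p + 2 ≤ 2 * k + r) :
    T ^ (2 * k + 1) * (4 * ((T ^ p) ^ 2 / (2 * (T ^ (2 * k)) ^ 2)) + 16 / T ^ (x + 21))
      ≤ T ^ r := by
  have hT0 : 0 < T := by linarith
  have hT1 : 1 ≤ T := by linarith
  have h1 : T ^ (2 * k + 1) * (4 * ((T ^ p) ^ 2 / (2 * (T ^ (2 * k)) ^ 2))) ≤ T ^ r / 2 := by
    have e : T ^ (2 * k + 1) * (4 * ((T ^ p) ^ 2 / (2 * (T ^ (2 * k)) ^ 2)))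
        = 2 * T ^ (2 * p + 1) / T ^ (2 * k) := by
      field_simp
      ring
    rw [e, div_le_iff₀ (by positivity)]
    have h2 : T ^ (2 * p + 2) ≤ T ^ (2 * k + r) := pow_le_pow_right₀ hT1 hlin
    have h3 : 0 < T ^ (2 * p + 1) := by positivity
    have e2 : T ^ (2 * p + 2) = T ^ (2 * p + 1) * T := by ring
    have e3 : T ^ r / 2 * T ^ (2 * k) = T ^ (2 * k + r) / 2 := by ring
    rw [e3]
    nlinarith
  have h2 : T ^ (2 * k + 1) * (16 / T ^ (x + 21)) ≤ T ^ r / 2 := by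
    have e : T ^ (2 * k + 1) * (16 / T ^ (x + 21)) = 16 * T ^ r / T ^ 20 := by
      rw [← hxr]
      field_simp
      ring
    rw [e, div_le_iff₀ (by positivity)]
    have h3 : T ≤ T ^ 20 := le_self_pow₀ hT1 (by norm_num)
    have h4 : 0 < T ^ r := by positivity
    nlinarith
  rw [mul_add]
  linarith

theorem xenergy_lam {th k X : ℕ} {al : ℕ → ℕ} {A B : Finset ℕ} {jA jB : ℕ}
    {ca cb : ℕ → ℂ} {om : ℝ → ℂ} (h : Setup th k X al A B jA jB ca cb om) {x p : ℕ}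
    (hx : x ≤ 2 * k) (hp : p ≤ 2 * k) {P Q Q' : ℕ} (hP : P ∈ cells A (th ^ x))
    (hQ : Q ∈ cells B (th ^ p)) (hQ' : Q' ∈ cells B (th ^ p)) :
    1 / 2 ≤ lam th x p P Q Q' ∧ lam th x p P Q Q' ≤ 3 / 2 := by
  have g' := (h.gap hx hp hP hQ').1
  have d := h.diamB hp hp hQ hQ'
  have hM : (0 : ℝ) ≤ (th : ℝ) ^ (2 * k) := by positivity
  rw [abs_lt] at d
  unfold lam
  constructor
  · rw [le_div_iff₀ (by linarith)]
    linarith [d.1, d.2]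
  · rw [div_le_iff₀ (by linarith)]
    linarith [d.1, d.2]

/-- Linearisation. Let `a = P th ^ x`, `U = a - Q th ^ p`, `U' = a - Q' th ^ p` (both in
`(2 th^(2k), th^(2k+1))` by `Setup.gap`, and `|U - U'| < th ^ (2k)` by `Setup.diamB`, so
`lam = U / U' ∈ [1/2, 3/2]`). For `s` in the cell `Q`, `log (a - s) = log U + log (1 - w)` with
`w = (s - Q th^p) / U ∈ [0, 1/2]` and `|log (1 - w) + w| ≤ w ^ 2 ≤ th ^ (2p - 4k) / 4`. The
hypothesis on the floors gives `|L s1 + L t2 - L s2 - L t1| < 4π / th ^ (x + 21)` for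
`L s = log (a - s)`. Multiply by `U`: `|(s1 - s2) - lam (t1 - t2)| ≤ th ^ r`; then pass to the
quotients by `th ^ r`, each difference moving by less than one. -/
theorem Setup.linearise {th k X : ℕ} {al : ℕ → ℕ} {A B : Finset ℕ} {jA jB : ℕ}
    {ca cb : ℕ → ℂ} {om : ℝ → ℂ} (h : Setup th k X al A B jA jB ca cb om) {x p r : ℕ}
    (hxr : x + r = 2 * k) (hp : p ≤ 2 * k) (hlin : 2 * p + 2 ≤ 2 * k + r) {P Q Q' : ℕ}
    (hP : P ∈ cells A (th ^ x)) {s1 s2 t1 t2 : ℕ} (hs1 : s1 ∈ cell B (th ^ p) Q)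
    (hs2 : s2 ∈ cell B (th ^ p) Q) (ht1 : t1 ∈ cell B (th ^ p) Q') (ht2 : t2 ∈ cell B (th ^ p) Q')
    (he : kk th x P s1 + kk th x P t2 = kk th x P s2 + kk th x P t1) :
    |(((s1 / th ^ r : ℕ) : ℝ) - ((s2 / th ^ r : ℕ) : ℝ)) -
      lam th x p P Q Q' * (((t1 / th ^ r : ℕ) : ℝ) - ((t2 / th ^ r : ℕ) : ℝ))| ≤ 4 := by
  have hth : (1000 : ℝ) ≤ th := by exact_mod_cast h.big.h1000
  have hth0 : 0 < th := by have := h.big.h1000; omega
  have hx : x ≤ 2 * k := by omega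
  have hq : 0 < th ^ p := by positivity
  obtain ⟨hQ, a1, a1'⟩ := xenergy_cell hq hs1
  obtain ⟨-, a2, a2'⟩ := xenergy_cell hq hs2
  obtain ⟨hQ', b1, b1'⟩ := xenergy_cell hq ht1
  obtain ⟨-, b2, b2'⟩ := xenergy_cell hq ht2
  push_cast at a1 a1' a2 a2' b1 b1' b2 b2'
  obtain ⟨g1, g2⟩ := h.gap hx hp hP hQ
  have g3 := (h.gap hx hp hP hQ').1
  have hl := xenergy_lam h hx hp hP hQ hQ'
  have hM : (0 : ℝ) < (th : ℝ) ^ (2 * k) := by positivity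
  have hpM : (th : ℝ) ^ p ≤ (th : ℝ) ^ (2 * k) := pow_le_pow_right₀ (by linarith) hp
  have e1 := xenergy_err hM g1 hpM a1 a1'
  have e2 := xenergy_err hM g1 hpM a2 a2'
  have f1 := xenergy_err hM g3 hpM b1 b1'
  have f2 := xenergy_err hM g3 hpM b2 b2'
  have hf := xenergy_floor (c := (th : ℝ) ^ (x + 21)) (by positivity) he
  rw [sub_sub_sub_cancel_right] at e1 e2 f1 f2
  have hc := xenergy_combine (by linarith) e1 e2 f1 f2 hf
  rw [sub_sub_sub_cancel_right, sub_sub_sub_cancel_right] at hc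
  have hn := xenergy_num hth hxr hlin
  have hc2 : |((s1 : ℝ) - s2) - lam th x p P Q Q' * ((t1 : ℝ) - t2)| ≤ (th : ℝ) ^ r := by
    refine hc.trans (le_trans ?_ hn)
    apply mul_le_mul_of_nonneg_right g2.le
    positivity
  have hr : 0 < th ^ r := by positivity
  have q1 := xenergy_quot s1 hr
  have q2 := xenergy_quot s2 hr
  have q3 := xenergy_quot t1 hr
  have q4 := xenergy_quot t2 hr
  rw [Nat.cast_pow] at q1 q2 q3 q4
  exact xenergy_pass (by positivity) (by linarith [hl.1]) hl.2 hc2 q1 q2 q3 q4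

theorem Setup.lam_bounds {th k X : ℕ} {al : ℕ → ℕ} {A B : Finset ℕ} {jA jB : ℕ}
    {ca cb : ℕ → ℂ} {om : ℝ → ℂ} (h : Setup th k X al A B jA jB ca cb om) {x p : ℕ}
    (hx : x ≤ 2 * k) (hp : p ≤ 2 * k) {P Q Q' : ℕ} (hP : P ∈ cells A (th ^ x))
    (hQ : Q ∈ cells B (th ^ p)) (hQ' : Q' ∈ cells B (th ^ p)) :
    1 / 2 ≤ lam th x p P Q Q' ∧ lam th x p P Q Q' ≤ 3 / 2 :=
  xenergy_lam h hx hp hP hQ hQ'

/-- Sizes of the sets of level `r` cells (apply `Unif.restrict`, then `cells_mul_le`,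
`le_cells_mul`; the cast to the integers is injective). -/
theorem zc_card {th m : ℕ} {al : ℕ → ℕ} {B : Finset ℕ} (hB : Unif th m al B) {r p : ℕ}
    (hrp : r ≤ p) (hp : p ≤ m) {Q : ℕ} (hQ : Q ∈ cells B (th ^ p)) :
    (zc th r p B Q).card * al r ≤ 2 * al p ∧ al p ≤ (zc th r p B Q).card * (2 * al r) := by
  have e : (zc th r p B Q).card = (cells (cell B (th ^ p) Q) (th ^ r)).card :=
    Finset.card_image_of_injective _ Nat.cast_injective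
  have hu := hB.restrict hp Q
  obtain ⟨h1, h2⟩ := hB p hp Q hQ
  rw [e]
  exact ⟨(hu.cells_mul_le hrp).trans h2, h1.trans (hu.le_cells_mul hrp)⟩

theorem xenergy_power {α β : Type*} (A : Finset α) (C : Finset β) (f : α → β → ℝ) :
    (∑ a ∈ A, ∑ Q ∈ C, f a Q) ^ 4 ≤ (A.card : ℝ) ^ 3 * (C.card : ℝ) ^ 2 *
      ∑ a ∈ A, ∑ Q ∈ C, ∑ Q' ∈ C, (f a Q * f a Q') ^ 2 := by
  have h1 : (∑ a ∈ A, ∑ Q ∈ C, f a Q) ^ 2 ≤ A.card * ∑ a ∈ A, (∑ Q ∈ C, f a Q) ^ 2 :=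
    sq_sum_le_card_mul_sum_sq
  have h2 : (∑ a ∈ A, (∑ Q ∈ C, f a Q) ^ 2) ^ 2
      ≤ A.card * ∑ a ∈ A, ((∑ Q ∈ C, f a Q) ^ 2) ^ 2 := sq_sum_le_card_mul_sum_sq
  have h3 : ∀ a ∈ A, ((∑ Q ∈ C, f a Q) ^ 2) ^ 2
      ≤ (C.card : ℝ) ^ 2 * ∑ Q ∈ C, ∑ Q' ∈ C, (f a Q * f a Q') ^ 2 := by
    intro a _
    have h4 : (∑ Q ∈ C, f a Q) ^ 2 ≤ C.card * ∑ Q ∈ C, f a Q ^ 2 := sq_sum_le_card_mul_sum_sq
    have h5 : ∑ Q ∈ C, ∑ Q' ∈ C, (f a Q * f a Q') ^ 2 = (∑ Q ∈ C, f a Q ^ 2) ^ 2 := by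
      rw [sq (∑ Q ∈ C, f a Q ^ 2), Finset.sum_mul_sum]
      simp only [mul_pow]
    rw [h5, ← mul_pow]
    exact pow_le_pow_left₀ (sq_nonneg _) h4 2
  have h6 := Finset.sum_le_sum h3
  rw [← Finset.mul_sum] at h6
  have hA : (0 : ℝ) ≤ A.card := Nat.cast_nonneg _
  calc (∑ a ∈ A, ∑ Q ∈ C, f a Q) ^ 4 = ((∑ a ∈ A, ∑ Q ∈ C, f a Q) ^ 2) ^ 2 := by ring
    _ ≤ (A.card * ∑ a ∈ A, (∑ Q ∈ C, f a Q) ^ 2) ^ 2 := pow_le_pow_left₀ (sq_nonneg _) h1 2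
    _ = (A.card : ℝ) ^ 2 * (∑ a ∈ A, (∑ Q ∈ C, f a Q) ^ 2) ^ 2 := by ring
    _ ≤ (A.card : ℝ) ^ 2 * (A.card * ((C.card : ℝ) ^ 2 *
          ∑ a ∈ A, ∑ Q ∈ C, ∑ Q' ∈ C, (f a Q * f a Q') ^ 2)) :=
        mul_le_mul_of_nonneg_left (h2.trans (mul_le_mul_of_nonneg_left h6 hA)) (sq_nonneg _)
    _ = _ := by ring

theorem xenergy_prod (th x y : ℕ) (B : Finset ℕ) (θ : ℕ → ℕ → ℂ) (P Q Q' a : ℕ) :
    loc th x y B θ P Q a * loc th x y B θ P Q' a =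
      ∑ i ∈ cell B (th ^ y) Q ×ˢ cell B (th ^ y) Q', (θ P i.1 * θ P i.2) *
        ei (2 * π * ((a : ℝ) - (P : ℝ) * (th : ℝ) ^ x) *
          ((kk th x P i.1 + kk th x P i.2 : ℤ) : ℝ) / (th : ℝ) ^ (x + 21)) := by
  unfold loc
  rw [Finset.sum_mul_sum, Finset.sum_product]
  refine Finset.sum_congr rfl fun s _ => Finset.sum_congr rfl fun t _ => ?_
  have e : 2 * π * ((a : ℝ) - (P : ℝ) * (th : ℝ) ^ x) *
      ((kk th x P s + kk th x P t : ℤ) : ℝ) / (th : ℝ) ^ (x + 21)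
      = 2 * π * ((a : ℝ) - (P : ℝ) * (th : ℝ) ^ x) * (kk th x P s) / (th : ℝ) ^ (x + 21)
        + 2 * π * ((a : ℝ) - (P : ℝ) * (th : ℝ) ^ x) * (kk th x P t) / (th : ℝ) ^ (x + 21) := by
    push_cast
    ring
  rw [e, ei_add]
  ring

theorem xenergy_mem_zc {th r p : ℕ} {B : Finset ℕ} {Q s : ℕ} (hs : s ∈ cell B (th ^ p) Q) :
    ((s / th ^ r : ℕ) : ℤ) ∈ zc th r p B Q :=
  Finset.mem_image.2 ⟨s / th ^ r, Finset.mem_image.2 ⟨s, hs, rfl⟩, rfl⟩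

theorem xenergy_fib {th r p : ℕ} {B : Finset ℕ} {Q s : ℕ} {z : ℤ} (hs : s ∈ cell B (th ^ p) Q)
    (hz : ((s / th ^ r : ℕ) : ℤ) = z) : s ∈ cell B (th ^ r) z.toNat := by
  refine Finset.mem_filter.2 ⟨(Finset.mem_filter.1 hs).1, ?_⟩
  rw [← hz, Int.toNat_natCast]

theorem xenergy_coll {th k X : ℕ} {al : ℕ → ℕ} {A B : Finset ℕ} {jA jB : ℕ}
    {ca cb : ℕ → ℂ} {om : ℝ → ℂ} (h : Setup th k X al A B jA jB ca cb om) {x p r : ℕ}
    (hxr : x + r = 2 * k) (hp : p ≤ 2 * k) (hlin : 2 * p + 2 ≤ 2 * k + r) {P : ℕ}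
    (hP : P ∈ cells A (th ^ x)) (Q Q' : ℕ) :
    (((cell B (th ^ p) Q ×ˢ cell B (th ^ p) Q') ×ˢ (cell B (th ^ p) Q ×ˢ cell B (th ^ p) Q')).filter
      (fun i : (ℕ × ℕ) × (ℕ × ℕ) =>
        kk th x P i.1.1 + kk th x P i.1.2 = kk th x P i.2.1 + kk th x P i.2.2)).card
      ≤ (2 * al r) ^ 4 * enr (zc th r p B Q) (zc th r p B Q') (lam th x p P Q Q') 4 := by
  have hr : r ≤ 2 * k := by omega
  unfold enr
  refine Finset.card_le_mul_card_image_of_maps_to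
    (f := fun i : (ℕ × ℕ) × (ℕ × ℕ) =>
      ((((i.1.1 / th ^ r : ℕ) : ℤ), ((i.2.1 / th ^ r : ℕ) : ℤ)),
        (((i.2.2 / th ^ r : ℕ) : ℤ), ((i.1.2 / th ^ r : ℕ) : ℤ)))) ?_ _ ?_
  · intro i hi
    simp only [Finset.mem_filter, Finset.mem_product] at hi ⊢
    obtain ⟨⟨⟨h1, h2⟩, h3, h4⟩, he⟩ := hi
    refine ⟨⟨⟨xenergy_mem_zc h1, xenergy_mem_zc h3⟩, xenergy_mem_zc h4, xenergy_mem_zc h2⟩, ?_⟩
    simp only [Int.cast_natCast]
    exact h.linearise hxr hp hlin hP h1 h3 h4 h2 he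
  · intro b _
    refine le_trans (Finset.card_le_card (t :=
      (cell B (th ^ r) b.1.1.toNat ×ˢ cell B (th ^ r) b.2.2.toNat) ×ˢ
        (cell B (th ^ r) b.1.2.toNat ×ˢ cell B (th ^ r) b.2.1.toNat)) ?_) ?_
    · intro i hi
      simp only [Finset.mem_filter, Finset.mem_product] at hi
      obtain ⟨⟨⟨⟨h1, h2⟩, h3, h4⟩, -⟩, hb⟩ := hi
      have e1 := congrArg (fun b : (ℤ × ℤ) × (ℤ × ℤ) => b.1.1) hb
      have e2 := congrArg (fun b : (ℤ × ℤ) × (ℤ × ℤ) => b.1.2) hb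
      have e3 := congrArg (fun b : (ℤ × ℤ) × (ℤ × ℤ) => b.2.1) hb
      have e4 := congrArg (fun b : (ℤ × ℤ) × (ℤ × ℤ) => b.2.2) hb
      exact Finset.mem_product.2 ⟨Finset.mem_product.2 ⟨xenergy_fib h1 e1, xenergy_fib h2 e4⟩,
        Finset.mem_product.2 ⟨xenergy_fib h3 e2, xenergy_fib h4 e3⟩⟩
    · rw [Finset.card_product, Finset.card_product, Finset.card_product]
      have c := fun z => h.uB.cell_le hr z
      calc _ ≤ ((2 * al r) * (2 * al r)) * ((2 * al r) * (2 * al r)) :=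
            Nat.mul_le_mul (Nat.mul_le_mul (c _) (c _)) (Nat.mul_le_mul (c _) (c _))
        _ = (2 * al r) ^ 4 := by ring

theorem xenergy_block {th k X : ℕ} {al : ℕ → ℕ} {A B : Finset ℕ} {jA jB : ℕ}
    {ca cb : ℕ → ℂ} {om : ℝ → ℂ} (h : Setup th k X al A B jA jB ca cb om) {x p r : ℕ}
    (hxr : x + r = 2 * k) (hrp : r ≤ p) (hp : p ≤ 2 * k) (hlin : 2 * p + 2 ≤ 2 * k + r)
    {θ : ℕ → ℕ → ℂ} (hθ : ∀ P s, ‖θ P s‖ ≤ 1) {P : ℕ} (hP : P ∈ cells A (th ^ x)) (Q Q' : ℕ) :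
    ∑ a ∈ cell A (th ^ x) P, (‖loc th x p B θ P Q a‖ * ‖loc th x p B θ P Q' a‖) ^ 2 ≤
      ((2 * al (2 * k - p) * th ^ (p - r + 22) * (2 * al r) ^ 4 : ℕ) : ℝ) *
        enr (zc th r p B Q) (zc th r p B Q') (lam th x p P Q Q') 4 := by
  have hx : x ≤ 2 * k := by omega
  have hls := ls_unif (ι := ℕ × ℕ) (x' := 2 * k - p) (P := P) (β := 2 * al (2 * k - p)) h.big
    (by omega) hx (cell A (th ^ x) P) (fun a ha => (Finset.mem_filter.1 ha).2)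
    (fun c => le_trans (Finset.card_le_card
      (Finset.filter_subset_filter _ (Finset.filter_subset _ _))) (h.uA.cell_le (by omega) c))
    (cell B (th ^ p) Q ×ˢ cell B (th ^ p) Q') (fun i => kk th x P i.1 + kk th x P i.2)
    (fun i => θ P i.1 * θ P i.2)
    (fun i _ => by
      rw [norm_mul]
      exact mul_le_one₀ (hθ _ _) (norm_nonneg _) (hθ _ _))
    (fun i hi i' hi' => by
      obtain ⟨h1, h2⟩ := Finset.mem_product.1 hi
      obtain ⟨h3, h4⟩ := Finset.mem_product.1 hi'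
      have d1 := h.kk_diam hx hp (by omega) hP h1 h3
      have d2 := h.kk_diam hx hp (by omega) hP h2 h4
      have e : kk th x P i.1 + kk th x P i.2 - (kk th x P i'.1 + kk th x P i'.2)
          = (kk th x P i.1 - kk th x P i'.1) + (kk th x P i.2 - kk th x P i'.2) := by ring
      have d3 := abs_add_le (kk th x P i.1 - kk th x P i'.1) (kk th x P i.2 - kk th x P i'.2)
      rw [e]
      linarith)
  have hc := xenergy_coll h hxr hp hlin hP Q Q'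
  have e : x + 22 - (2 * k - p) = p - r + 22 := by omega
  rw [e] at hls
  simp only [← norm_mul, xenergy_prod]
  refine hls.trans ?_
  have hc' := (Nat.cast_le (α := ℝ)).2 hc
  refine (mul_le_mul_of_nonneg_left hc' (by positivity)).trans (le_of_eq ?_)
  push_cast
  ring

theorem xenergy_final {t a b nx np ax ap ar aq u E : ℕ} (ht : 1000 ≤ t) (ha : 0 < a)
    (hax : 0 < ax) (hap : 0 < ap) (hnp : 0 < np) (h1 : nx * ax ≤ a) (h2 : np * ap ≤ b)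
    (hrev : u * (ar * aq) ≤ t ^ 140 * (ax * ap))
    (h : (a * b) ^ 4 ≤ (t ^ 19) ^ 4 * (a ^ 3 * np ^ 2 * (2 * aq * (u * t ^ 22) * (2 * ar) ^ 4 * E))) :
    ap ^ 3 * (nx * np ^ 2) ≤ t ^ 240 * ar ^ 3 * E := by
  have h32 : 32 ≤ t ^ 2 := by nlinarith
  have hpos : 0 < a ^ 3 * np ^ 2 * (ax * ap) := by positivity
  refine Nat.le_of_mul_le_mul_left ?_ hpos
  calc a ^ 3 * np ^ 2 * (ax * ap) * (ap ^ 3 * (nx * np ^ 2))
      = a ^ 3 * (nx * ax) * (np * ap) ^ 4 := by ring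
    _ ≤ a ^ 3 * a * b ^ 4 :=
        Nat.mul_le_mul (Nat.mul_le_mul_left _ h1) (Nat.pow_le_pow_left h2 4)
    _ = (a * b) ^ 4 := by ring
    _ ≤ _ := h
    _ = 32 * (u * (ar * aq)) * (t ^ 98 * a ^ 3 * np ^ 2 * ar ^ 3 * E) := by ring
    _ ≤ t ^ 2 * (t ^ 140 * (ax * ap)) * (t ^ 98 * a ^ 3 * np ^ 2 * ar ^ 3 * E) :=
        Nat.mul_le_mul_right _ (Nat.mul_le_mul h32 hrev)
    _ = _ := by ring

/-- Cross energy. Take `θ` from `local_model` with `y = p`, `n_p` the number of level `p` cells of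
`B`. Power means: `(∑_a ∑_Q ‖loc‖)^4 ≤ |A|^3 n_p^2 ∑_a (∑_Q ‖loc‖^2)^2` and
`(∑_Q ‖loc Q‖^2)^2 = ∑_{Q,Q'} ‖loc Q * loc Q'‖^2`. The product is a sum over the pairs
`(s, t) ∈ cell Q ×ˢ cell Q'` with frequency `kk s + kk t` (diameter bound from `kk_diam`); apply
`ls_unif` with `x' = 2k - p`, `β = 2 al (2k - p)`. A collision `((s1,t2),(s2,t1))` maps by
`linearise` to a quadruple counted in `enr`, with fibres of size at most `(2 al r)^4`. Finish with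
`n_x al x ≤ |A|`, `n_p al p ≤ |B|`, `hrev` and `32 ≤ th`. -/
theorem Setup.cross_energy {th k X : ℕ} {al : ℕ → ℕ} {A B : Finset ℕ} {jA jB : ℕ}
    {ca cb : ℕ → ℂ} {om : ℝ → ℂ} (h : Setup th k X al A B jA jB ca cb om) {x p r : ℕ}
    (hxr : x + r = 2 * k) (hrp : r ≤ p) (hx : x ≤ X) (hp : p ≤ 2 * k)
    (htay : 2 * x + p + 21 ≤ 4 * k) (hlin : 2 * p + 2 ≤ 2 * k + r)
    (hrev : th ^ (p - r) * (al r * al (2 * k - p)) ≤ th ^ 140 * (al x * al p)) :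
    al p ^ 3 * ((cells A (th ^ x)).card * (cells B (th ^ p)).card ^ 2) ≤
      th ^ 240 * al r ^ 3 * ∑ P ∈ cells A (th ^ x), ∑ Q ∈ cells B (th ^ p),
        ∑ Q' ∈ cells B (th ^ p), enr (zc th r p B Q) (zc th r p B Q') (lam th x p P Q Q') 4 := by
  have hx2 : x ≤ 2 * k := by omega
  obtain ⟨hA, hB⟩ := h.nonempty
  obtain ⟨θ, hθ, hloc⟩ := h.local_model hx hp htay hx2
  have hpow := xenergy_power A (cells B (th ^ p))
    (fun a Q => ‖loc th x p B θ (a / th ^ x) Q a‖)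
  have hsum : ∑ a ∈ A, ∑ Q ∈ cells B (th ^ p), ∑ Q' ∈ cells B (th ^ p),
      (‖loc th x p B θ (a / th ^ x) Q a‖ * ‖loc th x p B θ (a / th ^ x) Q' a‖) ^ 2 ≤
      ((2 * al (2 * k - p) * th ^ (p - r + 22) * (2 * al r) ^ 4 *
        ∑ P ∈ cells A (th ^ x), ∑ Q ∈ cells B (th ^ p), ∑ Q' ∈ cells B (th ^ p),
          enr (zc th r p B Q) (zc th r p B Q') (lam th x p P Q Q') 4 : ℕ) : ℝ) := by
    rw [sum_cells A (th ^ x), Nat.cast_mul, Nat.cast_sum, Finset.mul_sum]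
    refine Finset.sum_le_sum fun P hP => ?_
    rw [Finset.sum_comm, Nat.cast_sum, Finset.mul_sum]
    refine Finset.sum_le_sum fun Q _ => ?_
    rw [Finset.sum_comm, Nat.cast_sum, Finset.mul_sum]
    refine Finset.sum_le_sum fun Q' _ => ?_
    refine le_trans (le_of_eq (Finset.sum_congr rfl fun a ha => ?_))
      (xenergy_block h hxr hrp hp hlin hθ hP Q Q')
    rw [(Finset.mem_filter.1 ha).2]
  have h4 := pow_le_pow_left₀ (by positivity) hloc 4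
  rw [mul_pow ((th : ℝ) ^ 19)] at h4
  have h5 := h4.trans (mul_le_mul_of_nonneg_left
    (hpow.trans (mul_le_mul_of_nonneg_left hsum (by positivity))) (by positivity))
  have hnp : 0 < (cells B (th ^ p)).card := Finset.card_pos.2 (hB.image _)
  refine xenergy_final h.big.h1000 (Finset.card_pos.2 hA) (h.uA.pos hA hx2) (h.uB.pos hB hp) hnp
    (h.uA.cells_mul_le hx2) (h.uB.cells_mul_le hp) hrev ?_
  rw [← pow_add th (p - r) 22]
  exact_mod_cast h5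

end Pool.Agent.Lib.MP_ecd12e_nt.Bar
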